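import Mathlib

/-!
Counting tools: restriction of functions, designated colourings, shifts, greedy matchings.
-/

namespace Pool.Agent.Lib.MP_9dddc4_co

open Finset

section TR

/-- Restricting uniformly distributed functions to an injected coordinate set. -/
lemma card_restrict {K α ζ : Type*} [Fintype K] [Fintype α] [Fintype ζ] [DecidableEq K]
    [DecidableEq α] [DecidableEq ζ] (ι : K → α) (hι : Function.Injective ι)
    (Q : (K → ζ) → Prop) [DecidablePred Q] :
    (univ.filter (fun π : α → ζ => Q (π ∘ ι))).card * (Fintype.card ζ) ^ (Fintype.card K)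
      = (univ.filter (fun f : K → ζ => Q f)).card * (Fintype.card ζ) ^ (Fintype.card α) := by
  classical
  let e1 : K ≃ Set.range ι := Equiv.ofInjective ι hι
  let e2 : Set.range ι ⊕ ((Set.range ι)ᶜ : Set α) ≃ α := Equiv.Set.sumCompl (Set.range ι)
  let e3 : K ⊕ ((Set.range ι)ᶜ : Set α) ≃ α := (Equiv.sumCongr e1 (Equiv.refl _)).trans e2
  have he3 : ∀ k, e3 (Sum.inl k) = ι k := by
    intro k
    simp [e3, e2, e1]
  let E : (α → ζ) ≃ (K → ζ) × (((Set.range ι)ᶜ : Set α) → ζ) :=
    (Equiv.arrowCongr e3.symm (Equiv.refl ζ)).trans (Equiv.sumArrowEquivProdArrow _ _ _)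
  have hE : ∀ π : α → ζ, (E π).1 = π ∘ ι := by
    intro π
    funext k
    simp [E, Equiv.sumArrowEquivProdArrow, Equiv.arrowCongr, he3]
  have hcard : (univ.filter (fun π : α → ζ => Q (π ∘ ι))).card
      = ((univ.filter (fun f : K → ζ => Q f)) ×ˢ
          (univ : Finset (((Set.range ι)ᶜ : Set α) → ζ))).card := by
    apply Finset.card_bij (fun π _ => E π)
    · intro π hπ
      rw [mem_filter] at hπ
      rw [mem_product, mem_filter, hE]
      exact ⟨⟨mem_univ _, hπ.2⟩, mem_univ _⟩
    · intro a _ b _ h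
      exact E.injective h
    · intro b hb
      rw [mem_product, mem_filter] at hb
      refine ⟨E.symm b, ?_, by simp⟩
      rw [mem_filter, ← hE]
      simpa using hb.1.2
  rw [hcard, card_product, Finset.card_univ, Fintype.card_fun, mul_assoc, ← pow_add]
  congr 2
  have h1 := Fintype.card_congr e3
  rw [Fintype.card_sum] at h1
  omega

end TR

section DC

variable {V ι : Type*} [Fintype V] [DecidableEq V]

/-- designated `3`-colouring. -/
lemma exists_coloring3 (I : Finset ι) (x y z : ι → V)
    (hxy : ∀ i ∈ I, x i ≠ y i) (hxz : ∀ i ∈ I, x i ≠ z i) (hyz : ∀ i ∈ I, y i ≠ z i) :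
    ∃ c : V → Fin 3, I.card ≤
      27 * (I.filter (fun i => c (x i) = 0 ∧ c (y i) = 1 ∧ c (z i) = 2)).card := by
  classical
  by_contra hcon
  push Not at hcon
  have hone : ∀ i ∈ I, (univ.filter (fun c : V → Fin 3 =>
      c (x i) = 0 ∧ c (y i) = 1 ∧ c (z i) = 2)).card * 27 = 3 ^ (Fintype.card V) := by
    intro i hi
    have hinj : Function.Injective ![x i, y i, z i] := by
      intro a b hab
      fin_cases a <;> fin_cases b <;>
        simp [hxy i hi, hxz i hi, hyz i hi, (hxy i hi).symm, (hxz i hi).symm,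
          (hyz i hi).symm] at hab ⊢
    have h := card_restrict (ζ := Fin 3) ![x i, y i, z i] hinj
      (fun f => f 0 = 0 ∧ f 1 = 1 ∧ f 2 = 2)
    have h2 : (univ.filter (fun f : Fin 3 → Fin 3 => f 0 = 0 ∧ f 1 = 1 ∧ f 2 = 2)).card = 1 := by
      decide
    rw [h2] at h
    have h3 : (univ.filter (fun c : V → Fin 3 => c (x i) = 0 ∧ c (y i) = 1 ∧ c (z i) = 2))
        = univ.filter (fun π : V → Fin 3 => (fun f : Fin 3 → Fin 3 => f 0 = 0 ∧ f 1 = 1 ∧ f 2 = 2)
          (π ∘ ![x i, y i, z i])) := by
      ext π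
      rw [mem_filter, mem_filter]
      exact Iff.rfl
    rw [h3]
    rw [Fintype.card_fin, one_mul] at h
    have h4 : (3 : ℕ) ^ (Nat.succ 0).succ.succ = 27 := by norm_num
    rw [h4] at h
    exact h
  have hsum : ∑ c : V → Fin 3,
      (I.filter (fun i => c (x i) = 0 ∧ c (y i) = 1 ∧ c (z i) = 2)).card
      = ∑ i ∈ I, (univ.filter (fun c : V → Fin 3 =>
          c (x i) = 0 ∧ c (y i) = 1 ∧ c (z i) = 2)).card := by
    simp_rw [card_filter]
    rw [sum_comm]
  have h1 : (∑ c : V → Fin 3,
      (I.filter (fun i => c (x i) = 0 ∧ c (y i) = 1 ∧ c (z i) = 2)).card) * 27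
      = I.card * 3 ^ (Fintype.card V) := by
    rw [hsum, sum_mul, sum_congr rfl hone, sum_const, smul_eq_mul]
  have hcardc : (univ : Finset (V → Fin 3)).card = 3 ^ (Fintype.card V) := by
    rw [Finset.card_univ, Fintype.card_fun, Fintype.card_fin]
  have hne : (univ : Finset (V → Fin 3)).Nonempty := by
    rw [← Finset.card_pos, hcardc]; positivity
  have h2 : ∑ c : V → Fin 3,
      27 * (I.filter (fun i => c (x i) = 0 ∧ c (y i) = 1 ∧ c (z i) = 2)).card
      < ∑ _c : V → Fin 3, I.card :=
    sum_lt_sum_of_nonempty hne (fun c _ => hcon c)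
  rw [← mul_sum, sum_const, smul_eq_mul, hcardc] at h2
  nlinarith

/-- designated `2`-colouring. -/
lemma exists_coloring2 (I : Finset ι) (x y : ι → V) (hxy : ∀ i ∈ I, x i ≠ y i) :
    ∃ c : V → Fin 2, I.card ≤ 4 * (I.filter (fun i => c (x i) = 0 ∧ c (y i) = 1)).card := by
  classical
  by_contra hcon
  push Not at hcon
  have hone : ∀ i ∈ I, (univ.filter (fun c : V → Fin 2 =>
      c (x i) = 0 ∧ c (y i) = 1)).card * 4 = 2 ^ (Fintype.card V) := by
    intro i hi
    have hinj : Function.Injective ![x i, y i] := by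
      intro a b hab
      fin_cases a <;> fin_cases b <;>
        simp [hxy i hi, (hxy i hi).symm] at hab ⊢
    have h := card_restrict (ζ := Fin 2) ![x i, y i] hinj
      (fun f => f 0 = 0 ∧ f 1 = 1)
    have h2 : (univ.filter (fun f : Fin 2 → Fin 2 => f 0 = 0 ∧ f 1 = 1)).card = 1 := by
      decide
    rw [h2] at h
    simpa using h
  have hsum : ∑ c : V → Fin 2,
      (I.filter (fun i => c (x i) = 0 ∧ c (y i) = 1)).card
      = ∑ i ∈ I, (univ.filter (fun c : V → Fin 2 =>
          c (x i) = 0 ∧ c (y i) = 1)).card := by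
    simp_rw [card_filter]
    rw [sum_comm]
  have h1 : (∑ c : V → Fin 2,
      (I.filter (fun i => c (x i) = 0 ∧ c (y i) = 1)).card) * 4
      = I.card * 2 ^ (Fintype.card V) := by
    rw [hsum, sum_mul, sum_congr rfl hone, sum_const, smul_eq_mul]
  have hcardc : (univ : Finset (V → Fin 2)).card = 2 ^ (Fintype.card V) := by
    rw [Finset.card_univ, Fintype.card_fun, Fintype.card_fin]
  have hne : (univ : Finset (V → Fin 2)).Nonempty := by
    rw [← Finset.card_pos, hcardc]; positivity
  have h2 : ∑ c : V → Fin 2,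
      4 * (I.filter (fun i => c (x i) = 0 ∧ c (y i) = 1)).card
      < ∑ _c : V → Fin 2, I.card :=
    sum_lt_sum_of_nonempty hne (fun c _ => hcon c)
  rw [← mul_sum, sum_const, smul_eq_mul, hcardc] at h2
  nlinarith

end DC

/-- greedy matchings: either `m` pairwise disjoint items or a small cover. -/
lemma matching_or_cover {ι V : Type*} [DecidableEq V] (O : Finset ι) (vs : ι → Finset V)
    (r : ℕ) (hr : ∀ i ∈ O, (vs i).card ≤ r) (m : ℕ) :
    (∃ t : Fin m → ι, (∀ i, t i ∈ O) ∧ ∀ i j, i ≠ j → Disjoint (vs (t i)) (vs (t j))) ∨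
    (∃ C : Finset V, C.card ≤ r * m ∧ ∀ i ∈ O, ¬ Disjoint (vs i) C) := by
  classical
  induction m with
  | zero =>
    left
    exact ⟨fun i => i.elim0, fun i => i.elim0, fun i => i.elim0⟩
  | succ m ih =>
    rcases ih with ⟨t, ht1, ht2⟩ | ⟨C, hC1, hC2⟩
    · by_cases h : ∃ i ∈ O, Disjoint (vs i) (univ.biUnion (fun j : Fin m => vs (t j)))
      · obtain ⟨i, hi, hd⟩ := h
        left
        rw [Finset.disjoint_biUnion_right] at hd
        refine ⟨Fin.snoc t i, ?_, ?_⟩
        · intro j
          refine Fin.lastCases ?_ (fun j => ?_) j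
          · simpa using hi
          · simpa using ht1 j
        · intro j j' hjj
          revert hjj
          refine Fin.lastCases ?_ (fun j => ?_) j
          · refine Fin.lastCases ?_ (fun j' => ?_) j'
            · intro h; exact absurd rfl h
            · intro _
              simpa using hd j' (mem_univ _)
          · refine Fin.lastCases ?_ (fun j' => ?_) j'
            · intro _
              simpa using (hd j (mem_univ _)).symm
            · intro h
              have : j ≠ j' := fun h2 => h (by rw [h2])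
              simpa using ht2 j j' this
      · push Not at h
        right
        refine ⟨univ.biUnion (fun j : Fin m => vs (t j)), ?_, h⟩
        refine (card_biUnion_le_card_mul _ _ r (fun j _ => hr _ (ht1 j))).trans ?_
        simp only [card_univ, Fintype.card_fin]
        rw [mul_comm]
        exact Nat.mul_le_mul_left _ (Nat.le_succ m)
    · right
      exact ⟨C, hC1.trans (Nat.mul_le_mul_left _ (Nat.le_succ m)), hC2⟩

/-- There is an injection from `A` into `W` doing at least as well as the average. -/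
lemma exists_inj_avg {α ζ ι : Type*} [DecidableEq ζ] (A : Finset α)
    (W : Finset ζ) (hAW : A.card ≤ W.card) (hW : W.Nonempty) (I : Finset ι) (a : ι → α)
    (R : ι → Finset ζ) :
    ∃ π : α → ζ, Set.InjOn π A ∧ (∀ a ∈ A, π a ∈ W) ∧
      ∑ i ∈ I, (R i ∩ W).card ≤ W.card * (I.filter (fun i => π (a i) ∈ R i)).card := by
  classical
  set m := W.card with hm
  have hmpos : 0 < m := by rw [hm]; exact card_pos.mpr hW
  have : NeZero m := ⟨by omega⟩
  let e : {w // w ∈ W} ≃ Fin m := W.equivFin
  let j : α → Fin m := fun x => if h : x ∈ A then Fin.castLE hAW (A.equivFin ⟨x, h⟩) else 0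
  have hj : ∀ x (hx : x ∈ A), j x = Fin.castLE hAW (A.equivFin ⟨x, hx⟩) := by
    intro x hx; simp only [j]; rw [dif_pos hx]
  have hjinj : ∀ x ∈ A, ∀ y ∈ A, j x = j y → x = y := by
    intro x hx y hy h
    rw [hj x hx, hj y hy] at h
    have h1 := Fin.castLE_injective hAW h
    have h2 := A.equivFin.injective h1
    exact congrArg Subtype.val h2
  let π : Fin m → α → ζ := fun s x => (e.symm (j x + s) : {w // w ∈ W})
  have hπmem : ∀ s x, π s x ∈ W := fun s x => (e.symm (j x + s)).2
  have hπinj : ∀ s, Set.InjOn (π s) A := by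
    intro s x hx y hy h
    have h1 : e.symm (j x + s) = e.symm (j y + s) := Subtype.ext h
    have h2 := e.symm.injective h1
    have h3 : j x = j y := add_right_cancel h2
    exact hjinj x hx y hy h3
  have hcount : ∀ i ∈ I, (univ.filter (fun s : Fin m => π s (a i) ∈ R i)).card
      = (R i ∩ W).card := by
    intro i _
    apply Finset.card_bij (fun s _ => π s (a i))
    · intro s hs
      rw [mem_filter] at hs
      rw [mem_inter]
      exact ⟨hs.2, hπmem _ _⟩
    · intro s _ s' _ h
      have h1 : e.symm (j (a i) + s) = e.symm (j (a i) + s') := Subtype.ext h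
      exact add_left_cancel (e.symm.injective h1)
    · intro w hw
      rw [mem_inter] at hw
      refine ⟨e ⟨w, hw.2⟩ - j (a i), ?_, ?_⟩
      · rw [mem_filter]
        refine ⟨mem_univ _, ?_⟩
        simp only [π, add_sub_cancel, Equiv.symm_apply_apply]
        exact hw.1
      · simp only [π, add_sub_cancel, Equiv.symm_apply_apply]
  have hsum : ∑ s : Fin m, (I.filter (fun i => π s (a i) ∈ R i)).card
      = ∑ i ∈ I, (R i ∩ W).card := by
    simp_rw [card_filter]
    rw [sum_comm]
    apply sum_congr rfl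
    intro i hi
    rw [← card_filter]
    exact hcount i hi
  obtain ⟨s, _, hs⟩ : ∃ s ∈ (univ : Finset (Fin m)),
      ∑ i ∈ I, (R i ∩ W).card ≤ m * (I.filter (fun i => π s (a i) ∈ R i)).card := by
    by_contra hcon
    push Not at hcon
    have h1 : ∑ s : Fin m, m * (I.filter (fun i => π s (a i) ∈ R i)).card
        < ∑ _s : Fin m, ∑ i ∈ I, (R i ∩ W).card := by
      apply sum_lt_sum_of_nonempty
      · exact ⟨0, mem_univ _⟩
      · intro s hs; exact hcon s hs
    rw [← mul_sum, hsum, sum_const, card_univ, Fintype.card_fin, smul_eq_mul] at h1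
    exact lt_irrefl _ h1
  refine ⟨π s, hπinj s, fun x _ => hπmem s x, hs⟩

end Pool.Agent.Lib.MP_9dddc4_co
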