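import Mathlib
import Pool.Agent.Lib.MP_9dddc4_co.Tools

namespace Pool.Agent.Lib.MP_9dddc4_co

open Finset

section SML

variable {Z : Type*} [Fintype Z] [DecidableEq Z]

/-- number of coordinates landing in `S`. -/
noncomputable def cnt {h : ℕ} (S : Finset Z) (g : Fin h → Z) : ℝ :=
  ((univ.filter (fun l => g l ∈ S)).card : ℝ)

omit [Fintype Z] in
lemma cnt_eq_sum {h : ℕ} (S : Finset Z) (g : Fin h → Z) :
    cnt S g = ∑ l : Fin h, (if g l ∈ S then (1 : ℝ) else 0) := by
  unfold cnt
  rw [card_filter]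
  push_cast
  rfl

lemma card_one {h : ℕ} (S : Finset Z) (l : Fin h) (hN : 0 < Fintype.card Z) :
    (∑ g : Fin h → Z, (if g l ∈ S then (1 : ℝ) else 0))
      = (Fintype.card Z : ℝ) ^ h * ((S.card : ℝ) / Fintype.card Z) := by
  have h1 := card_restrict (ζ := Z) (fun _ : Unit => l) (fun a b _ => rfl)
    (fun f => f () ∈ S)
  have h2 : (univ.filter (fun f : Unit → Z => f () ∈ S)).card = S.card := by
    apply Finset.card_bij (fun f _ => f ())
    · intro f hf; exact (mem_filter.mp hf).2
    · intro a _ b _ hab; funext x; exact hab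
    · intro b hb; exact ⟨fun _ => b, by simpa using hb, rfl⟩
  rw [h2] at h1
  simp only [Fintype.card_unit, pow_one, Fintype.card_fin, Function.comp_def] at h1
  have h3 : (∑ g : Fin h → Z, (if g l ∈ S then (1 : ℝ) else 0))
      = ((univ.filter (fun g : Fin h → Z => g l ∈ S)).card : ℝ) := by
    rw [card_filter]; push_cast; rfl
  rw [h3]
  have hNR : (Fintype.card Z : ℝ) ≠ 0 := by
    have : (0 : ℝ) < Fintype.card Z := by exact_mod_cast hN
    exact this.ne'
  field_simp
  have h4 : (((univ.filter (fun g : Fin h → Z => g l ∈ S)).card * Fintype.card Z : ℕ) : ℝ)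
      = ((S.card * Fintype.card Z ^ h : ℕ) : ℝ) := by exact_mod_cast h1
  push_cast at h4
  linarith

lemma card_two {h : ℕ} (S S' : Finset Z) (l l' : Fin h) (hll : l ≠ l')
    (hN : 0 < Fintype.card Z) :
    (∑ g : Fin h → Z, (if g l ∈ S then (1 : ℝ) else 0) * (if g l' ∈ S' then (1 : ℝ) else 0))
      = (Fintype.card Z : ℝ) ^ h * (((S.card : ℝ) / Fintype.card Z) *
          ((S'.card : ℝ) / Fintype.card Z)) := by
  have hinj : Function.Injective ![l, l'] := by
    intro a b hab
    fin_cases a <;> fin_cases b <;> simp [hll, hll.symm] at hab ⊢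
  have h1 := card_restrict (ζ := Z) ![l, l'] hinj (fun f => f 0 ∈ S ∧ f 1 ∈ S')
  have h2 : (univ.filter (fun f : Fin 2 → Z => f 0 ∈ S ∧ f 1 ∈ S')).card
      = S.card * S'.card := by
    rw [← card_product]
    apply Finset.card_bij (fun f _ => (f 0, f 1))
    · intro f hf
      rw [mem_product]
      exact (mem_filter.mp hf).2
    · intro a _ b _ hab
      rw [Prod.mk.injEq] at hab
      funext x
      fin_cases x
      · exact hab.1
      · exact hab.2
    · intro b hb
      rw [mem_product] at hb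
      exact ⟨![b.1, b.2], by simpa using hb, by simp⟩
  rw [h2] at h1
  have h3 : (∑ g : Fin h → Z, (if g l ∈ S then (1 : ℝ) else 0) * (if g l' ∈ S' then (1 : ℝ) else 0))
      = ((univ.filter (fun π : Fin h → Z =>
          (fun f : Fin 2 → Z => f 0 ∈ S ∧ f 1 ∈ S') (π ∘ ![l, l']))).card : ℝ) := by
    rw [card_filter]; push_cast
    apply sum_congr rfl
    intro g _
    simp only [Function.comp_apply, Matrix.cons_val_zero, Matrix.cons_val_one]
    by_cases ha : g l ∈ S <;> by_cases hb : g l' ∈ S' <;> simp [ha, hb]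
  rw [h3]
  rw [Fintype.card_fin, Fintype.card_fin] at h1
  have hNR : (Fintype.card Z : ℝ) ≠ 0 := by
    have : (0 : ℝ) < Fintype.card Z := by exact_mod_cast hN
    exact this.ne'
  have h4 : (((univ.filter (fun π : Fin h → Z =>
          (fun f : Fin 2 → Z => f 0 ∈ S ∧ f 1 ∈ S') (π ∘ ![l, l']))).card
          * Fintype.card Z ^ 2 : ℕ) : ℝ)
      = ((S.card * S'.card * Fintype.card Z ^ h : ℕ) : ℝ) := by exact_mod_cast h1
  push_cast at h4
  field_simp
  linarith

lemma sum_cnt {h : ℕ} (S : Finset Z) (hN : 0 < Fintype.card Z) :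
    ∑ g : Fin h → Z, cnt S g
      = (Fintype.card Z : ℝ) ^ h * ((h : ℝ) * ((S.card : ℝ) / Fintype.card Z)) := by
  simp_rw [cnt_eq_sum]
  rw [sum_comm]
  simp_rw [card_one S _ hN]
  rw [sum_const, card_univ, Fintype.card_fin, nsmul_eq_mul]
  ring

lemma sum_cnt_mul_le {h : ℕ} (S S' : Finset Z) (hS : Disjoint S S')
    (hN : 0 < Fintype.card Z) :
    ∑ g : Fin h → Z, cnt S g * cnt S' g
      ≤ (Fintype.card Z : ℝ) ^ h * (((h : ℝ) * ((S.card : ℝ) / Fintype.card Z)) *
        ((h : ℝ) * ((S'.card : ℝ) / Fintype.card Z))) := by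
  simp_rw [cnt_eq_sum, sum_mul_sum]
  rw [sum_comm]
  have h1 : ∀ l : Fin h, (∑ g : Fin h → Z, ∑ l' : Fin h,
      (if g l ∈ S then (1 : ℝ) else 0) * (if g l' ∈ S' then (1 : ℝ) else 0))
      ≤ (h : ℝ) * ((Fintype.card Z : ℝ) ^ h * (((S.card : ℝ) / Fintype.card Z) *
          ((S'.card : ℝ) / Fintype.card Z))) := by
    intro l
    rw [sum_comm]
    have h2 : ∀ l' ∈ (univ : Finset (Fin h)), (∑ g : Fin h → Z,
      (if g l ∈ S then (1 : ℝ) else 0) * (if g l' ∈ S' then (1 : ℝ) else 0))
      ≤ (Fintype.card Z : ℝ) ^ h * (((S.card : ℝ) / Fintype.card Z) *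
          ((S'.card : ℝ) / Fintype.card Z)) := by
      intro l' _
      by_cases hll : l = l'
      · subst hll
        have h3 : ∀ g : Fin h → Z, (if g l ∈ S then (1 : ℝ) else 0) *
            (if g l ∈ S' then (1 : ℝ) else 0) = 0 := by
          intro g
          by_cases ha : g l ∈ S
          · have := (Finset.disjoint_left.mp hS) ha
            simp [this]
          · simp [ha]
        simp_rw [h3]
        rw [sum_const_zero]
        positivity
      · exact (card_two S S' l l' hll hN).le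
    refine (sum_le_sum h2).trans ?_
    rw [sum_const, card_univ, Fintype.card_fin, nsmul_eq_mul]
  refine (sum_le_sum (fun l _ => h1 l)).trans ?_
  rw [sum_const, card_univ, Fintype.card_fin, nsmul_eq_mul]
  apply le_of_eq
  ring

lemma sum_cnt_sq_le {h : ℕ} (S : Finset Z) (hN : 0 < Fintype.card Z) :
    ∑ g : Fin h → Z, cnt S g * cnt S g
      ≤ (Fintype.card Z : ℝ) ^ h * (((h : ℝ) * ((S.card : ℝ) / Fintype.card Z)) ^ 2 +
        (h : ℝ) * ((S.card : ℝ) / Fintype.card Z)) := by
  simp_rw [cnt_eq_sum, sum_mul_sum]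
  rw [sum_comm]
  have h1 : ∀ l : Fin h, (∑ g : Fin h → Z, ∑ l' : Fin h,
      (if g l ∈ S then (1 : ℝ) else 0) * (if g l' ∈ S then (1 : ℝ) else 0))
      ≤ (h : ℝ) * ((Fintype.card Z : ℝ) ^ h * (((S.card : ℝ) / Fintype.card Z) *
          ((S.card : ℝ) / Fintype.card Z))) +
          (Fintype.card Z : ℝ) ^ h * ((S.card : ℝ) / Fintype.card Z) := by
    intro l
    rw [sum_comm]
    have h2 : ∀ l' ∈ (univ : Finset (Fin h)), (∑ g : Fin h → Z,
      (if g l ∈ S then (1 : ℝ) else 0) * (if g l' ∈ S then (1 : ℝ) else 0))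
      ≤ (Fintype.card Z : ℝ) ^ h * (((S.card : ℝ) / Fintype.card Z) *
          ((S.card : ℝ) / Fintype.card Z)) +
        (if l' = l then (Fintype.card Z : ℝ) ^ h * ((S.card : ℝ) / Fintype.card Z) else 0) := by
      intro l' _
      by_cases hll : l' = l
      · subst hll
        rw [if_pos rfl]
        have h3 : ∀ g : Fin h → Z, (if g l' ∈ S then (1 : ℝ) else 0) *
            (if g l' ∈ S then (1 : ℝ) else 0) = if g l' ∈ S then (1 : ℝ) else 0 := by
          intro g
          by_cases ha : g l' ∈ S <;> simp [ha]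
        simp_rw [h3]
        rw [card_one S l' hN]
        have : 0 ≤ (Fintype.card Z : ℝ) ^ h * (((S.card : ℝ) / Fintype.card Z) *
          ((S.card : ℝ) / Fintype.card Z)) := by positivity
        linarith
      · rw [if_neg hll, add_zero]
        exact (card_two S S l l' (fun h => hll h.symm) hN).le
    refine (sum_le_sum h2).trans ?_
    rw [sum_add_distrib, sum_const, card_univ, Fintype.card_fin, nsmul_eq_mul, sum_ite_eq']
    simp
  refine (sum_le_sum (fun l _ => h1 l)).trans ?_
  rw [sum_const, card_univ, Fintype.card_fin, nsmul_eq_mul]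
  apply le_of_eq
  ring

/-- Second moment lemma: with many disjoint target sets, most assignments have some target
set hit by every block. -/
lemma second_moment {j h r s : ℕ} (S : Fin r → Finset Z) (hS : ∀ i, (S i).card = s)
    (hdis : ∀ i i', i ≠ i' → Disjoint (S i) (S i')) (hN : 0 < Fintype.card Z)
    (hs : 0 < s) (hh : 0 < h) (hr : 0 < r)
    (hkey : 4 * (h * s + Fintype.card Z) ^ j ≤ r * (h * s) ^ j) :
    4 * (univ.filter (fun f : Fin j → (Fin h → Z) =>
      ∀ i, ∃ m, ∀ l, f m l ∉ S i)).card ≤ (Fintype.card Z ^ h) ^ j := by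
  classical
  set N : ℝ := (Fintype.card Z : ℝ) with hNdef
  have hNpos : 0 < N := by rw [hNdef]; exact_mod_cast hN
  set lam : ℝ := (h : ℝ) * ((s : ℝ) / N) with hlam
  have hsR : (0 : ℝ) < s := by exact_mod_cast hs
  have hhR : (0 : ℝ) < h := by exact_mod_cast hh
  have hrR : (0 : ℝ) < r := by exact_mod_cast hr
  have hlampos : 0 < lam := by positivity
  let W : (Fin j → (Fin h → Z)) → ℝ := fun f => ∑ i, ∏ m, cnt (S i) (f m)
  let Good := univ.filter (fun f : Fin j → (Fin h → Z) => ∃ i, ∀ m, ∃ l, f m l ∈ S i)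
  let Bad := univ.filter (fun f : Fin j → (Fin h → Z) => ∀ i, ∃ m, ∀ l, f m l ∉ S i)
  have hW0 : ∀ f, f ∉ Good → W f = 0 := by
    intro f hf
    simp only [Good, mem_filter, mem_univ, true_and] at hf
    push Not at hf
    apply sum_eq_zero
    intro i _
    obtain ⟨m, hm⟩ := hf i
    apply prod_eq_zero (mem_univ m)
    unfold cnt
    rw [filter_false_of_mem (fun l _ => hm l)]
    simp
  have hsumW : ∑ f, W f = r * (N ^ h * lam) ^ j := by
    simp only [W]
    rw [sum_comm]
    have : ∀ i : Fin r, ∑ f : Fin j → (Fin h → Z), ∏ m, cnt (S i) (f m) = (N ^ h * lam) ^ j := by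
      intro i
      rw [← Fintype.sum_pow, sum_cnt (S i) hN, hS i]
    simp_rw [this]
    rw [sum_const, card_univ, Fintype.card_fin, nsmul_eq_mul]
  have hsumW2 : ∑ f, (W f) ^ 2 ≤ (r : ℝ) ^ 2 * (N ^ h * lam ^ 2) ^ j +
      r * (N ^ h * (lam ^ 2 + lam)) ^ j := by
    have h1 : ∀ f, (W f) ^ 2 = ∑ i, ∑ i', ∏ m, (cnt (S i) (f m) * cnt (S i') (f m)) := by
      intro f
      simp only [W]
      rw [sq, sum_mul_sum]
      apply sum_congr rfl
      intro i _
      apply sum_congr rfl
      intro i' _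
      rw [prod_mul_distrib]
    simp_rw [h1]
    rw [sum_comm]
    have h2 : ∀ i : Fin r, (∑ f : Fin j → (Fin h → Z), ∑ i', ∏ m,
        (cnt (S i) (f m) * cnt (S i') (f m)))
        ≤ r * (N ^ h * lam ^ 2) ^ j + (N ^ h * (lam ^ 2 + lam)) ^ j := by
      intro i
      rw [sum_comm]
      have h3 : ∀ i' ∈ (univ : Finset (Fin r)), (∑ f : Fin j → (Fin h → Z), ∏ m,
          (cnt (S i) (f m) * cnt (S i') (f m)))
          ≤ (N ^ h * lam ^ 2) ^ j + (if i' = i then (N ^ h * (lam ^ 2 + lam)) ^ j else 0) := by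
        intro i' _
        rw [← Fintype.sum_pow (fun g : Fin h → Z => cnt (S i) g * cnt (S i') g)]
        by_cases hii : i' = i
        · rw [hii, if_pos rfl]
          have h4 := sum_cnt_sq_le (h := h) (S i) hN
          rw [hS i] at h4
          have h5 : (0 : ℝ) ≤ ∑ g : Fin h → Z, cnt (S i) g * cnt (S i) g :=
            sum_nonneg (fun g _ => by unfold cnt; positivity)
          have h6 := pow_le_pow_left₀ h5 h4 j
          have h7 : 0 ≤ (N ^ h * lam ^ 2) ^ j := by positivity
          linarith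
        · rw [if_neg hii, add_zero]
          have h4 := sum_cnt_mul_le (h := h) (S i) (S i') (hdis i i' (fun h => hii h.symm)) hN
          rw [hS i, hS i'] at h4
          have h5 : (0 : ℝ) ≤ ∑ g : Fin h → Z, cnt (S i) g * cnt (S i') g :=
            sum_nonneg (fun g _ => by unfold cnt; positivity)
          have h6 := pow_le_pow_left₀ h5 h4 j
          rw [sq]
          exact h6
      refine (sum_le_sum h3).trans ?_
      rw [sum_add_distrib, sum_const, card_univ, Fintype.card_fin, nsmul_eq_mul, sum_ite_eq']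
      simp
    refine (sum_le_sum (fun i _ => h2 i)).trans ?_
    rw [sum_const, card_univ, Fintype.card_fin, nsmul_eq_mul]
    apply le_of_eq
    ring
  have hCS : (∑ f, W f) ^ 2 ≤ (Good.card : ℝ) * ∑ f, (W f) ^ 2 := by
    have h1 : ∑ f, W f = ∑ f ∈ Good, W f := by
      symm
      apply sum_subset (subset_univ _)
      intro f _ hf
      exact hW0 f hf
    rw [h1]
    refine (sq_sum_le_card_mul_sum_sq).trans ?_
    apply mul_le_mul_of_nonneg_left _ (by positivity)
    apply sum_le_sum_of_subset_of_nonneg (subset_univ _)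
    intro f _ _
    positivity
  -- numerical part
  set T : ℝ := (N ^ h) ^ j with hT
  have hTpos : 0 < T := by positivity
  have hkeyR : 4 * (lam + 1) ^ j ≤ r * lam ^ j := by
    have h1 : (4 : ℝ) * ((h : ℝ) * s + N) ^ j ≤ r * ((h : ℝ) * s) ^ j := by
      rw [hNdef]
      exact_mod_cast hkey
    have h2 : lam + 1 = ((h : ℝ) * s + N) / N := by
      rw [hlam]; field_simp
    have h3 : lam = ((h : ℝ) * s) / N := by
      rw [hlam]; ring
    rw [h2, div_pow]
    conv_rhs => rw [h3, div_pow]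
    rw [← mul_div_assoc, ← mul_div_assoc]
    gcongr
  have hlamj : 0 < lam ^ j := by positivity
  have hgood : (4 : ℝ) * T ≤ 5 * Good.card := by
    have h1 : ((r : ℝ) * (N ^ h * lam) ^ j) ^ 2
        ≤ Good.card * ((r : ℝ) ^ 2 * (N ^ h * lam ^ 2) ^ j + r * (N ^ h * (lam ^ 2 + lam)) ^ j) := by
      rw [hsumW] at hCS
      refine hCS.trans ?_
      apply mul_le_mul_of_nonneg_left hsumW2 (by positivity)
    have h2 : ((r : ℝ) * (N ^ h * lam) ^ j) ^ 2 = T * (T * (r ^ 2 * (lam ^ j) ^ 2)) := by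
      rw [hT, mul_pow]; ring
    have h3 : (r : ℝ) ^ 2 * (N ^ h * lam ^ 2) ^ j + r * (N ^ h * (lam ^ 2 + lam)) ^ j
        = T * (r ^ 2 * (lam ^ j) ^ 2 + r * (lam ^ j * (lam + 1) ^ j)) := by
      have haux : ∀ x : ℝ, (r : ℝ) ^ 2 * (N ^ h * x ^ 2) ^ j + r * (N ^ h * (x ^ 2 + x)) ^ j
          = (N ^ h) ^ j * (r ^ 2 * (x ^ j) ^ 2 + r * (x ^ j * (x + 1) ^ j)) := by
        intro x
        rw [mul_pow, mul_pow (N ^ h) (x ^ 2 + x), show x ^ 2 + x = x * (x + 1) by ring,
          mul_pow x]
        ring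
      exact haux lam
    rw [h2, h3] at h1
    have h4 : T * (r ^ 2 * (lam ^ j) ^ 2)
        ≤ Good.card * (r ^ 2 * (lam ^ j) ^ 2 + r * (lam ^ j * (lam + 1) ^ j)) := by
      have h5 : T * (T * (r ^ 2 * (lam ^ j) ^ 2))
        ≤ T * (Good.card * (r ^ 2 * (lam ^ j) ^ 2 + r * (lam ^ j * (lam + 1) ^ j))) := by
        refine h1.trans (le_of_eq ?_)
        ring
      exact le_of_mul_le_mul_left h5 hTpos
    have h6 : (r : ℝ) * (lam ^ j * (lam + 1) ^ j) ≤ (r ^ 2 * (lam ^ j) ^ 2) / 4 := by
      have h7 : (r : ℝ) * lam ^ j * (4 * (lam + 1) ^ j) ≤ r * lam ^ j * (r * lam ^ j) := by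
        apply mul_le_mul_of_nonneg_left hkeyR (by positivity)
      nlinarith
    have h8 : T * (r ^ 2 * (lam ^ j) ^ 2) ≤ Good.card * ((5 / 4) * (r ^ 2 * (lam ^ j) ^ 2)) := by
      refine h4.trans ?_
      apply mul_le_mul_of_nonneg_left _ (by positivity)
      linarith
    have h9 : (4 * T) * (r ^ 2 * (lam ^ j) ^ 2) ≤ (5 * Good.card) * (r ^ 2 * (lam ^ j) ^ 2) := by
      linarith
    exact le_of_mul_le_mul_right h9 (by positivity)
  have hsplit : (Bad.card : ℝ) + Good.card = T := by
    have h1 : Bad = univ \ Good := by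
      ext f
      simp only [Bad, Good, mem_filter, mem_univ, true_and, mem_sdiff]
      push Not
      exact Iff.rfl
    have h2 : Bad.card + Good.card = (univ : Finset (Fin j → (Fin h → Z))).card := by
      rw [h1]
      exact card_sdiff_add_card_eq_card (subset_univ _)
    rw [card_univ, Fintype.card_fun, Fintype.card_fun, Fintype.card_fin, Fintype.card_fin] at h2
    have h3 : ((Bad.card + Good.card : ℕ) : ℝ) = (((Fintype.card Z ^ h) ^ j : ℕ) : ℝ) := by
      rw [h2]
    push_cast at h3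
    rw [hT, hNdef]
    exact h3
  have hfinal : (4 : ℝ) * Bad.card ≤ T := by linarith
  have : ((4 * Bad.card : ℕ) : ℝ) ≤ (((Fintype.card Z ^ h) ^ j : ℕ) : ℝ) := by
    push_cast
    rw [hT, hNdef] at hfinal
    exact hfinal
  exact_mod_cast this

end SML

end Pool.Agent.Lib.MP_9dddc4_co
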