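import Mathlib
import Pool.Agent.Lib.MP_9dddc4_co.Tools

namespace Pool.Agent.Lib.MP_9dddc4_co

open Finset

section Spread

variable {β υ ζ ξ : Type*} [DecidableEq β] [DecidableEq υ] [DecidableEq ζ] [DecidableEq ξ]

lemma bad3_count (I : Finset υ) (Y : Finset υ) (Nn : υ → Finset ζ) (X : υ → ζ → Finset ξ)
    (D w μ : ℕ) (hIY : I ⊆ Y) (hD : ∀ y ∈ Y, (Nn y).card = D)
    (hw : ∀ y ∈ Y, ∀ z ∈ Nn y, (X y z).card ≤ w)
    (hμ : ∀ z x, (Y.filter (fun y => z ∈ Nn y ∧ x ∈ X y z)).card ≤ μ) :
    (Y.filter (fun y' => D < 4 * ((Nn y').filter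
      (fun z => ∃ j ∈ I, z ∈ Nn j ∧ ¬ Disjoint (X y' z) (X j z))).card)).card
      ≤ 4 * I.card * (w * μ) := by
  classical
  set Bad : υ → Finset ζ := fun y' => (Nn y').filter
      (fun z => ∃ j ∈ I, z ∈ Nn j ∧ ¬ Disjoint (X y' z) (X j z)) with hBad
  -- sum of sizes of bad sets
  have hsum : ∑ y' ∈ Y, (Bad y').card ≤ I.card * (D * (w * μ)) := by
    have h1 : ∑ y' ∈ Y, (Bad y').card = (Y.sigma Bad).card := by rw [card_sigma]
    rw [h1]
    have h2 : (Y.sigma Bad).card ≤ (I.sigma (fun j => (Nn j).sigma (fun z => (X j z).sigma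
        (fun x => Y.filter (fun y => z ∈ Nn y ∧ x ∈ X y z))))).card := by
      have hsub : Y.sigma Bad ⊆ (I.sigma (fun j => (Nn j).sigma (fun z => (X j z).sigma
        (fun x => Y.filter (fun y => z ∈ Nn y ∧ x ∈ X y z))))).image
          (fun t => (⟨t.2.2.2, t.2.1⟩ : Σ _ : υ, ζ)) := by
        intro p hp
        rw [mem_sigma] at hp
        have h3 := (mem_filter.mp hp.2)
        obtain ⟨hz0, j, hj, hz, hnd⟩ := h3
        rw [not_disjoint_iff] at hnd
        obtain ⟨x, hx1, hx2⟩ := hnd
        rw [mem_image]
        refine ⟨⟨j, ⟨p.2, ⟨x, p.1⟩⟩⟩, ?_, rfl⟩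
        rw [mem_sigma]
        refine ⟨hj, ?_⟩
        rw [mem_sigma]
        refine ⟨hz, ?_⟩
        rw [mem_sigma]
        refine ⟨hx2, ?_⟩
        rw [mem_filter]
        exact ⟨hp.1, hz0, hx1⟩
      exact (card_le_card hsub).trans card_image_le
    refine h2.trans ?_
    rw [card_sigma]
    refine (sum_le_card_nsmul I _ (D * (w * μ)) ?_).trans (by rw [smul_eq_mul])
    intro j hj
    rw [card_sigma]
    refine (sum_le_card_nsmul (Nn j) _ (w * μ) ?_).trans (by rw [smul_eq_mul, hD j (hIY hj)])
    intro z hz
    rw [card_sigma]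
    refine (sum_le_card_nsmul (X j z) _ μ ?_).trans ?_
    · intro x _
      exact hμ z x
    · rw [smul_eq_mul]
      exact Nat.mul_le_mul_right _ (hw j (hIY hj) z hz)
  rcases Nat.eq_zero_or_pos D with hD0 | hDpos
  · -- D = 0
    have : Y.filter (fun y' => D < 4 * (Bad y').card) = ∅ := by
      apply filter_false_of_mem
      intro y' hy'
      have h1 : (Nn y').card = 0 := by rw [hD y' hy', hD0]
      have h2 : (Bad y').card ≤ (Nn y').card := card_filter_le _ _
      omega
    rw [this]
    simp
  · have h1 : (Y.filter (fun y' => D < 4 * (Bad y').card)).card * D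
        ≤ 4 * I.card * (w * μ) * D := by
      calc (Y.filter (fun y' => D < 4 * (Bad y').card)).card * D
          = ∑ _y' ∈ Y.filter (fun y' => D < 4 * (Bad y').card), D := by
            rw [sum_const, smul_eq_mul]
        _ ≤ ∑ y' ∈ Y.filter (fun y' => D < 4 * (Bad y').card), 4 * (Bad y').card := by
            apply sum_le_sum
            intro y' hy'
            exact (mem_filter.mp hy').2.le
        _ ≤ ∑ y' ∈ Y, 4 * (Bad y').card := by
            apply sum_le_sum_of_subset
            exact filter_subset _ _
        _ = 4 * ∑ y' ∈ Y, (Bad y').card := by rw [mul_sum]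
        _ ≤ 4 * (I.card * (D * (w * μ))) := Nat.mul_le_mul_left _ hsum
        _ = 4 * I.card * (w * μ) * D := by ring
    exact Nat.le_of_mul_le_mul_right h1 hDpos

lemma spread_selection [Nonempty υ] (B : Finset β) (Y : Finset υ) (Nn : υ → Finset ζ)
    (X : υ → ζ → Finset ξ) (q D w μ : ℕ)
    (hD : ∀ y ∈ Y, (Nn y).card = D)
    (hw : ∀ y ∈ Y, ∀ z ∈ Nn y, (X y z).card ≤ w)
    (hμ : ∀ z x, (Y.filter (fun y => z ∈ Nn y ∧ x ∈ X y z)).card ≤ μ)
    (hspread : ∀ W : Finset ζ, W.card ≤ q * D →
      2 * (Y.filter (fun y => D ≤ 2 * (Nn y ∩ W).card)).card < Y.card)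
    (hY : 2 * ((B.card * q) * (1 + 4 * (w * μ))) ≤ Y.card) :
    ∃ (y : β × Fin q → υ) (S : β × Fin q → Finset ζ),
      (∀ j, j.1 ∈ B → y j ∈ Y ∧ S j ⊆ Nn (y j) ∧ D ≤ 4 * (S j).card) ∧
      (∀ j j', j.1 ∈ B → j'.1 ∈ B → j ≠ j' → y j ≠ y j') ∧
      (∀ j j', j.1 ∈ B → j'.1 ∈ B → j ≠ j' → j.1 = j'.1 → Disjoint (S j) (S j')) ∧
      (∀ j j', j.1 ∈ B → j'.1 ∈ B → j ≠ j' → ∀ z ∈ S j, z ∈ S j' →
        Disjoint (X (y j) z) (X (y j') z)) := by
  classical
  have key : ∀ I : Finset (β × Fin q), I ⊆ B ×ˢ univ →
      ∃ (y : β × Fin q → υ) (S : β × Fin q → Finset ζ),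
      (∀ j ∈ I, y j ∈ Y ∧ S j ⊆ Nn (y j) ∧ D ≤ 4 * (S j).card) ∧
      (∀ j ∈ I, ∀ j' ∈ I, j ≠ j' → y j ≠ y j') ∧
      (∀ j ∈ I, ∀ j' ∈ I, j ≠ j' → j.1 = j'.1 → Disjoint (S j) (S j')) ∧
      (∀ j ∈ I, ∀ j' ∈ I, j ≠ j' → ∀ z ∈ S j, z ∈ S j' →
        Disjoint (X (y j) z) (X (y j') z)) := by
    intro I
    induction I using Finset.induction_on with
    | empty =>
      intro _
      obtain ⟨y0⟩ := ‹Nonempty υ›
      exact ⟨fun _ => y0, fun _ => ∅, by simp, by simp, by simp, by simp⟩
    | insert j0 I hj0 ih =>
      intro hsub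
      have hIsub : I ⊆ B ×ˢ univ := (subset_insert _ _).trans hsub
      obtain ⟨y, S, h1, h2, h3, h4⟩ := ih hIsub
      have hIcard : I.card < B.card * q := by
        have h5 := card_le_card hsub
        rw [card_insert_of_notMem hj0, card_product, card_univ, Fintype.card_fin] at h5
        omega
      set W : Finset ζ := (I.filter (fun j => j.1 = j0.1)).biUnion (fun j => Nn (y j)) with hW
      have hWcard : W.card ≤ q * D := by
        have h5 : (I.filter (fun j => j.1 = j0.1)).card ≤ q := by
          have h6 : (I.filter (fun j => j.1 = j0.1)).card ≤ (univ : Finset (Fin q)).card := by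
            apply Finset.card_le_card_of_injOn (fun j => j.2)
            · intro j _; exact mem_univ _
            · intro a ha b hb hab
              have ha' := (mem_filter.mp (mem_coe.mp ha)).2
              have hb' := (mem_filter.mp (mem_coe.mp hb)).2
              exact Prod.ext (ha'.trans hb'.symm) hab
          simpa using h6
        refine (card_biUnion_le_card_mul _ _ D ?_).trans (Nat.mul_le_mul_right _ h5)
        intro j hj
        exact (hD _ (h1 j (mem_filter.mp hj).1).1).le
      have hhalf := hspread W hWcard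
      have hIm : I.image y ⊆ Y := by
        intro v hv
        obtain ⟨j, hj, rfl⟩ := mem_image.mp hv
        exact (h1 j hj).1
      have hb3 := bad3_count (I.image y) Y Nn X D w μ hIm hD hw hμ
      have hImc : (I.image y).card ≤ I.card := card_image_le
      -- find a new vertex
      obtain ⟨y', hy'Y, hy'used, hy'half, hy'bad⟩ : ∃ y' ∈ Y, y' ∉ I.image y ∧
          ¬ (D ≤ 2 * (Nn y' ∩ W).card) ∧
          ¬ (D < 4 * ((Nn y').filter
            (fun z => ∃ j ∈ I.image y, z ∈ Nn j ∧ ¬ Disjoint (X y' z) (X j z))).card) := by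
        by_contra hcon
        push Not at hcon
        have hcover : Y ⊆ (I.image y) ∪ (Y.filter (fun y => D ≤ 2 * (Nn y ∩ W).card)) ∪
            (Y.filter (fun y' => D < 4 * ((Nn y').filter
            (fun z => ∃ j ∈ I.image y, z ∈ Nn j ∧ ¬ Disjoint (X y' z) (X j z))).card)) := by
          intro v hv
          by_cases ha : v ∈ I.image y
          · exact mem_union_left _ (mem_union_left _ ha)
          · by_cases hb : D ≤ 2 * (Nn v ∩ W).card
            · exact mem_union_left _ (mem_union_right _ (mem_filter.mpr ⟨hv, hb⟩))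
            · apply mem_union_right
              rw [mem_filter]
              refine ⟨hv, ?_⟩
              exact hcon v hv ha (not_le.mp hb)
        have hc1 := card_le_card hcover
        have hc2 := (card_union_le ((I.image y) ∪ (Y.filter (fun y => D ≤ 2 * (Nn y ∩ W).card)))
          (Y.filter (fun y' => D < 4 * ((Nn y').filter
            (fun z => ∃ j ∈ I.image y, z ∈ Nn j ∧ ¬ Disjoint (X y' z) (X j z))).card)))
        have hc3 := card_union_le (I.image y) (Y.filter (fun y => D ≤ 2 * (Nn y ∩ W).card))
        have hc4 : 4 * (I.image y).card * (w * μ) ≤ 4 * (B.card * q) * (w * μ) := by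
          apply Nat.mul_le_mul_right
          omega
        have hc5 : 2 * ((B.card * q) * (1 + 4 * (w * μ)))
            = 2 * (B.card * q) + 2 * (4 * (B.card * q) * (w * μ)) := by ring
        omega
      -- the new set
      set Bd : Finset ζ := (Nn y').filter
            (fun z => ∃ j ∈ I.image y, z ∈ Nn j ∧ ¬ Disjoint (X y' z) (X j z)) with hBd
      set S' : Finset ζ := (Nn y' \ W) \ Bd with hS'
      have hS'card : D ≤ 4 * S'.card := by
        have h5 : (Nn y' \ W).card + (Nn y' ∩ W).card = (Nn y').card :=
          card_sdiff_add_card_inter _ _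
        have h6 : (Nn y' \ W).card ≤ S'.card + Bd.card := by
          have := le_card_sdiff Bd (Nn y' \ W)
          rw [← hS'] at this
          omega
        have h7 := hD y' hy'Y
        omega
      refine ⟨Function.update y j0 y', Function.update S j0 S', ?_, ?_, ?_, ?_⟩
      · intro j hj
        rw [mem_insert] at hj
        by_cases hjj : j = j0
        · subst hjj
          rw [Function.update_self, Function.update_self]
          refine ⟨hy'Y, ?_, hS'card⟩
          exact sdiff_subset.trans sdiff_subset
        · rw [Function.update_of_ne hjj, Function.update_of_ne hjj]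
          exact h1 j (hj.resolve_left hjj)
      · intro j hj j' hj' hne
        rw [mem_insert] at hj hj'
        by_cases hjj : j = j0
        · subst hjj
          have hj'0 : j' ≠ j := fun h => hne h.symm
          rw [Function.update_self, Function.update_of_ne hj'0]
          intro h
          apply hy'used
          rw [h]
          exact mem_image_of_mem y (hj'.resolve_left hj'0)
        · rw [Function.update_of_ne hjj]
          by_cases hjj' : j' = j0
          · subst hjj'
            rw [Function.update_self]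
            intro h
            apply hy'used
            rw [← h]
            exact mem_image_of_mem y (hj.resolve_left hjj)
          · rw [Function.update_of_ne hjj']
            exact h2 j (hj.resolve_left hjj) j' (hj'.resolve_left hjj') hne
      · intro j hj j' hj' hne heq
        rw [mem_insert] at hj hj'
        have hnew : ∀ i ∈ I, i.1 = j0.1 → Disjoint (S i) S' := by
          intro i hi hi0
          rw [Finset.disjoint_left]
          intro z hz hz'
          have hzN : z ∈ Nn (y i) := (h1 i hi).2.1 hz
          have hzW : z ∈ W := by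
            rw [hW, mem_biUnion]
            exact ⟨i, mem_filter.mpr ⟨hi, hi0⟩, hzN⟩
          have := (mem_sdiff.mp (mem_sdiff.mp hz').1).2
          exact this hzW
        by_cases hjj : j = j0
        · subst hjj
          have hj'0 : j' ≠ j := fun h => hne h.symm
          rw [Function.update_self, Function.update_of_ne hj'0]
          exact (hnew j' (hj'.resolve_left hj'0) heq.symm).symm
        · rw [Function.update_of_ne hjj]
          by_cases hjj' : j' = j0
          · subst hjj'
            rw [Function.update_self]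
            exact hnew j (hj.resolve_left hjj) heq
          · rw [Function.update_of_ne hjj']
            exact h3 j (hj.resolve_left hjj) j' (hj'.resolve_left hjj') hne heq
      · intro j hj j' hj' hne z hz hz'
        rw [mem_insert] at hj hj'
        have hnew : ∀ i ∈ I, ∀ z ∈ S i, z ∈ S' → Disjoint (X (y i) z) (X y' z) := by
          intro i hi z hz hz'
          by_contra hnd
          have hzBd : z ∈ Bd := by
            rw [hBd, mem_filter]
            refine ⟨(mem_sdiff.mp (mem_sdiff.mp hz').1).1, y i, mem_image_of_mem y hi,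
              (h1 i hi).2.1 hz, ?_⟩
            intro hd
            exact hnd hd.symm
          exact (mem_sdiff.mp hz').2 hzBd
        by_cases hjj : j = j0
        · subst hjj
          have hj'0 : j' ≠ j := fun h => hne h.symm
          rw [Function.update_self] at hz ⊢
          rw [Function.update_of_ne hj'0] at hz' ⊢
          exact (hnew j' (hj'.resolve_left hj'0) z hz' hz).symm
        · rw [Function.update_of_ne hjj] at hz ⊢
          by_cases hjj' : j' = j0
          · subst hjj'
            rw [Function.update_self] at hz' ⊢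
            exact hnew j (hj.resolve_left hjj) z hz hz'
          · rw [Function.update_of_ne hjj'] at hz' ⊢
            exact h4 j (hj.resolve_left hjj) j' (hj'.resolve_left hjj') hne z hz hz'
  obtain ⟨y, S, h1, h2, h3, h4⟩ := key (B ×ˢ univ) (Subset.refl _)
  have hm : ∀ j : β × Fin q, j.1 ∈ B → j ∈ B ×ˢ (univ : Finset (Fin q)) :=
    fun j hj => mem_product.mpr ⟨hj, mem_univ _⟩
  exact ⟨y, S, fun j hj => h1 j (hm j hj), fun j j' hj hj' => h2 j (hm j hj) j' (hm j' hj'),
    fun j j' hj hj' => h3 j (hm j hj) j' (hm j' hj'),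
    fun j j' hj hj' => h4 j (hm j hj) j' (hm j' hj')⟩

end Spread

end Pool.Agent.Lib.MP_9dddc4_co
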