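import Mathlib
import Pool.Agent.Lib.MP_9dddc4_co.Tools
import Pool.Agent.Lib.MP_9dddc4_co.SecondMoment
import Pool.Agent.Lib.MP_9dddc4_co.Spread

namespace Pool.Agent.Lib.MP_9dddc4_co

open Finset

section Main

variable {α ζ : Type*} [Fintype α] [Fintype ζ] [DecidableEq α] [DecidableEq ζ]

/-- for a fixed vertex, at most a quarter of all maps are bad. -/
lemma fail_count (nbS : Finset α) {q j h s : ℕ} (S : Fin q → Finset ζ)
    (hS : ∀ i, (S i).card = s) (hdis : ∀ i i', i ≠ i' → Disjoint (S i) (S i'))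
    (hN : 0 < Fintype.card ζ) (hs : 0 < s) (hh : 0 < h) (hq : 0 < q)
    (hjh : j * h ≤ nbS.card)
    (hkey : 4 * (h * s + Fintype.card ζ) ^ j ≤ q * (h * s) ^ j) :
    4 * (univ.filter (fun π : α → ζ =>
      ∀ i, (nbS.filter (fun a => π a ∈ S i)).card < j)).card
      ≤ Fintype.card ζ ^ Fintype.card α := by
  classical
  let e : {a // a ∈ nbS} ≃ Fin nbS.card := nbS.equivFin
  let ι : Fin j × Fin h → α := fun p => (e.symm (Fin.castLE hjh (finProdFinEquiv p))).1
  have hι : Function.Injective ι := by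
    intro p p' hpp
    have h1 := Subtype.ext hpp
    have h2 := e.symm.injective h1
    have h3 := Fin.castLE_injective hjh h2
    exact finProdFinEquiv.injective h3
  have hιmem : ∀ p, ι p ∈ nbS := fun p => (e.symm (Fin.castLE hjh (finProdFinEquiv p))).2
  have hsub : (univ.filter (fun π : α → ζ =>
      ∀ i, (nbS.filter (fun a => π a ∈ S i)).card < j)) ⊆
      univ.filter (fun π : α → ζ =>
        (fun f : Fin j × Fin h → ζ => ∀ i, ∃ m, ∀ l, f (m, l) ∉ S i) (π ∘ ι)) := by
    intro π hπ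
    rw [mem_filter] at hπ ⊢
    refine ⟨mem_univ _, ?_⟩
    intro i
    by_contra hcon
    push Not at hcon
    choose l hl using hcon
    have h1 : (univ : Finset (Fin j)).card ≤ (nbS.filter (fun a => π a ∈ S i)).card := by
      apply Finset.card_le_card_of_injOn (fun m => ι (m, l m))
      · intro m _
        rw [mem_coe, mem_filter]
        exact ⟨hιmem _, hl m⟩
      · intro m _ m' _ hmm
        have := hι hmm
        rw [Prod.mk.injEq] at this
        exact this.1
    rw [card_univ, Fintype.card_fin] at h1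
    exact absurd (hπ.2 i) (not_lt.mpr h1)
  have hres := card_restrict (ζ := ζ) ι hι
    (fun f : Fin j × Fin h → ζ => ∀ i, ∃ m, ∀ l, f (m, l) ∉ S i)
  have hcurry : (univ.filter (fun f : Fin j × Fin h → ζ => ∀ i, ∃ m, ∀ l, f (m, l) ∉ S i)).card
      = (univ.filter (fun f : Fin j → (Fin h → ζ) => ∀ i, ∃ m, ∀ l, f m l ∉ S i)).card := by
    apply Finset.card_bij (fun f _ => Function.curry f)
    · intro f hf
      rw [mem_filter] at hf ⊢
      exact ⟨mem_univ _, hf.2⟩
    · intro a _ b _ hab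
      exact Function.curry_injective hab
    · intro g hg
      rw [mem_filter] at hg
      refine ⟨Function.uncurry g, ?_, rfl⟩
      rw [mem_filter]
      exact ⟨mem_univ _, hg.2⟩
  have hsm := second_moment S hS hdis hN hs hh hq hkey
  rw [hcurry] at hres
  rw [Fintype.card_prod, Fintype.card_fin, Fintype.card_fin] at hres
  set P := (univ.filter (fun f : Fin j → (Fin h → ζ) => ∀ i, ∃ m, ∀ l, f m l ∉ S i)).card
  have h1 := card_le_card hsub
  have hpos : 0 < Fintype.card ζ ^ (j * h) := Nat.pow_pos hN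
  apply Nat.le_of_mul_le_mul_right _ hpos
  calc 4 * (univ.filter (fun π : α → ζ =>
      ∀ i, (nbS.filter (fun a => π a ∈ S i)).card < j)).card * Fintype.card ζ ^ (j * h)
      ≤ 4 * (univ.filter (fun π : α → ζ =>
        (fun f : Fin j × Fin h → ζ => ∀ i, ∃ m, ∀ l, f (m, l) ∉ S i) (π ∘ ι))).card
        * Fintype.card ζ ^ (j * h) := by
        apply Nat.mul_le_mul_right
        exact Nat.mul_le_mul_left _ h1
    _ = 4 * (P * Fintype.card ζ ^ Fintype.card α) := by rw [mul_assoc, hres]
    _ = (4 * P) * Fintype.card ζ ^ Fintype.card α := by ring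
    _ ≤ (Fintype.card ζ ^ h) ^ j * Fintype.card ζ ^ Fintype.card α :=
        Nat.mul_le_mul_right _ hsm
    _ = Fintype.card ζ ^ Fintype.card α * Fintype.card ζ ^ (j * h) := by
        rw [← pow_mul, mul_comm h j, mul_comm]

/-- number of maps with two prescribed coordinates in a relation. -/
lemma pair_count (a a' : α) (haa : a ≠ a') (R : Finset (ζ × ζ)) :
    (univ.filter (fun π : α → ζ => (π a, π a') ∈ R)).card * Fintype.card ζ ^ 2
      = R.card * Fintype.card ζ ^ Fintype.card α := by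
  classical
  have hinj : Function.Injective ![a, a'] := by
    intro x y hxy
    fin_cases x <;> fin_cases y <;> simp [haa, haa.symm] at hxy ⊢
  have h1 := card_restrict (ζ := ζ) ![a, a'] hinj (fun f => (f 0, f 1) ∈ R)
  have h2 : (univ.filter (fun f : Fin 2 → ζ => (f 0, f 1) ∈ R)).card = R.card := by
    apply Finset.card_bij (fun f _ => (f 0, f 1))
    · intro f hf
      exact (mem_filter.mp hf).2
    · intro x _ y _ hxy
      rw [Prod.mk.injEq] at hxy
      funext t
      fin_cases t
      · exact hxy.1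
      · exact hxy.2
    · intro b hb
      exact ⟨![b.1, b.2], by simpa using hb, by simp⟩
  rw [h2, Fintype.card_fin] at h1
  have h3 : (univ.filter (fun π : α → ζ => (π a, π a') ∈ R))
      = univ.filter (fun π : α → ζ =>
        (fun f : Fin 2 → ζ => (f 0, f 1) ∈ R) (π ∘ ![a, a'])) := by
    ext π
    rw [mem_filter, mem_filter]
    exact Iff.rfl
  rw [h3]
  exact h1

lemma noninj_count (A : Finset α) (hN : 0 < Fintype.card ζ)
    (hA : 8 * A.card ^ 2 ≤ Fintype.card ζ) :
    8 * (univ.filter (fun π : α → ζ => ∃ a ∈ A, ∃ a' ∈ A, a ≠ a' ∧ π a = π a')).card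
      ≤ Fintype.card ζ ^ Fintype.card α := by
  classical
  set N := Fintype.card ζ with hNdef
  set diag : Finset (ζ × ζ) := (univ : Finset ζ).image (fun z => (z, z)) with hdiag
  have hdiagc : diag.card = N := by
    rw [hdiag, card_image_of_injective _ (fun a b h => (Prod.mk.inj h).1), card_univ]
  have hsub : (univ.filter (fun π : α → ζ => ∃ a ∈ A, ∃ a' ∈ A, a ≠ a' ∧ π a = π a')) ⊆
      ((A ×ˢ A).filter (fun p => p.1 ≠ p.2)).biUnion
        (fun p => univ.filter (fun π : α → ζ => (π p.1, π p.2) ∈ diag)) := by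
    intro π hπ
    obtain ⟨_, a, ha, a', ha', hne, heq⟩ := mem_filter.mp hπ
    rw [mem_biUnion]
    refine ⟨(a, a'), mem_filter.mpr ⟨mem_product.mpr ⟨ha, ha'⟩, hne⟩, ?_⟩
    rw [mem_filter]
    refine ⟨mem_univ _, ?_⟩
    rw [hdiag, mem_image]
    refine ⟨π a, mem_univ _, ?_⟩
    simp only [Prod.mk.injEq, true_and]
    exact heq
  have hpos : 0 < N ^ 2 := Nat.pow_pos hN
  apply Nat.le_of_mul_le_mul_right _ hpos
  have h1 : (univ.filter (fun π : α → ζ => ∃ a ∈ A, ∃ a' ∈ A, a ≠ a' ∧ π a = π a')).card * N ^ 2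
      ≤ A.card ^ 2 * (N * N ^ Fintype.card α) := by
    calc (univ.filter (fun π : α → ζ => ∃ a ∈ A, ∃ a' ∈ A, a ≠ a' ∧ π a = π a')).card * N ^ 2
        ≤ (((A ×ˢ A).filter (fun p => p.1 ≠ p.2)).biUnion
          (fun p => univ.filter (fun π : α → ζ => (π p.1, π p.2) ∈ diag))).card * N ^ 2 :=
          Nat.mul_le_mul_right _ (card_le_card hsub)
      _ ≤ (∑ p ∈ (A ×ˢ A).filter (fun p => p.1 ≠ p.2),
            (univ.filter (fun π : α → ζ => (π p.1, π p.2) ∈ diag)).card) * N ^ 2 :=
          Nat.mul_le_mul_right _ card_biUnion_le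
      _ = ∑ p ∈ (A ×ˢ A).filter (fun p => p.1 ≠ p.2), N * N ^ Fintype.card α := by
          rw [sum_mul]
          apply sum_congr rfl
          intro p hp
          rw [hNdef, pair_count p.1 p.2 (mem_filter.mp hp).2 diag, ← hNdef, hdiagc]
      _ = ((A ×ˢ A).filter (fun p => p.1 ≠ p.2)).card * (N * N ^ Fintype.card α) := by
          rw [sum_const, smul_eq_mul]
      _ ≤ A.card ^ 2 * (N * N ^ Fintype.card α) := by
          apply Nat.mul_le_mul_right
          refine (card_filter_le _ _).trans ?_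
          rw [card_product, sq]
  calc 8 * (univ.filter (fun π : α → ζ => ∃ a ∈ A, ∃ a' ∈ A, a ≠ a' ∧ π a = π a')).card * N ^ 2
      = 8 * ((univ.filter (fun π : α → ζ => ∃ a ∈ A, ∃ a' ∈ A, a ≠ a' ∧ π a = π a')).card * N ^ 2) := by
        ring
    _ ≤ 8 * (A.card ^ 2 * (N * N ^ Fintype.card α)) := Nat.mul_le_mul_left _ h1
    _ = (8 * A.card ^ 2) * (N * N ^ Fintype.card α) := by ring
    _ ≤ N * (N * N ^ Fintype.card α) := Nat.mul_le_mul_right _ hA
    _ = N ^ Fintype.card α * N ^ 2 := by ring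

end Main

end Pool.Agent.Lib.MP_9dddc4_co
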