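import Mathlib
import Pool.Agent.Lib.MP_9dddc4_co.Tools
import Pool.Agent.Lib.MP_9dddc4_co.SecondMoment
import Pool.Agent.Lib.MP_9dddc4_co.Spread
import Pool.Agent.Lib.MP_9dddc4_co.Counts

namespace Pool.Agent.Lib.MP_9dddc4_co

open Finset

lemma key_transfer {k D n J j q x : ℕ} (hkD : 0 < k * D) (hx : 0 < x)
    (hkey : 4 * (k * D + 8 * n * J) ^ J ≤ q * (k * D) ^ J) (hj : j ≤ J)
    (hxk : k * D ≤ 8 * J * x) :
    4 * (x + n) ^ j ≤ q * x ^ j := by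
  have hkDR : (0 : ℝ) < (k * D : ℕ) := by exact_mod_cast hkD
  have hxR : (0 : ℝ) < x := by exact_mod_cast hx
  set K : ℝ := ((k * D : ℕ) : ℝ) with hK
  set ρ : ℝ := (K + 8 * n * J) / K with hρ
  have hρ1 : 1 ≤ ρ := by
    rw [hρ, le_div_iff₀ hkDR]
    have : (0 : ℝ) ≤ 8 * n * J := by positivity
    linarith
  have h1 : ((x : ℝ) + n) / x ≤ ρ := by
    rw [hρ, div_le_div_iff₀ hxR hkDR]
    have h2 : K ≤ 8 * J * x := by rw [hK]; exact_mod_cast hxk
    have h3 : (0 : ℝ) ≤ n := by positivity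
    nlinarith
  have h2 : (((x : ℝ) + n) / x) ^ j ≤ ρ ^ J := by
    calc (((x : ℝ) + n) / x) ^ j ≤ ρ ^ j := pow_le_pow_left₀ (by positivity) h1 j
      _ ≤ ρ ^ J := pow_le_pow_right₀ hρ1 hj
  have h3 : 4 * ρ ^ J ≤ q := by
    rw [hρ, div_pow, ← mul_div_assoc, div_le_iff₀ (by positivity)]
    have h4 : ((4 * (k * D + 8 * n * J) ^ J : ℕ) : ℝ) ≤ ((q * (k * D) ^ J : ℕ) : ℝ) := by
      exact_mod_cast hkey
    push_cast at h4
    rw [hK]
    push_cast
    exact h4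
  have h4 : 4 * (((x : ℝ) + n) / x) ^ j ≤ q := by linarith
  have h5 : 4 * ((x : ℝ) + n) ^ j ≤ q * (x : ℝ) ^ j := by
    rw [div_pow, ← mul_div_assoc, div_le_iff₀ (by positivity)] at h4
    exact h4
  exact_mod_cast h5

section Conf

variable {α β υ ζ ξ : Type*} [Fintype α] [Fintype ζ] [DecidableEq α] [DecidableEq β]
  [DecidableEq υ] [DecidableEq ζ] [DecidableEq ξ]

omit [Fintype ζ] in
/-- the relation set of conflicting pairs -/
lemma conf_rel_card (S S' : Finset ζ) (Ny Ny' : Finset ζ) (Xy Xy' : ζ → Finset ξ) {D w μ : ℕ}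
    (hS : S ⊆ Ny) (hS' : S' ⊆ Ny') (hD : Ny.card = D) (hw : ∀ z ∈ Ny, (Xy z).card ≤ w)
    (hμ : ∀ x, (Ny'.filter (fun z => x ∈ Xy' z)).card ≤ μ) :
    ((S ×ˢ S').filter (fun p => ¬ Disjoint (Xy p.1) (Xy' p.2))).card ≤ D * w * μ := by
  classical
  have hsub : (S ×ˢ S').filter (fun p => ¬ Disjoint (Xy p.1) (Xy' p.2)) ⊆
      (Ny.sigma (fun z => (Xy z).sigma (fun x => Ny'.filter (fun z' => x ∈ Xy' z')))).image
        (fun t => (t.1, t.2.2)) := by
    intro p hp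
    rw [mem_filter, mem_product] at hp
    obtain ⟨⟨h1, h2⟩, h3⟩ := hp
    rw [not_disjoint_iff] at h3
    obtain ⟨x, hx1, hx2⟩ := h3
    rw [mem_image]
    refine ⟨⟨p.1, ⟨x, p.2⟩⟩, ?_, rfl⟩
    rw [mem_sigma]
    refine ⟨hS h1, ?_⟩
    rw [mem_sigma]
    refine ⟨hx1, ?_⟩
    rw [mem_filter]
    exact ⟨hS' h2, hx2⟩
  refine (card_le_card hsub).trans (card_image_le.trans ?_)
  rw [card_sigma]
  refine (sum_le_card_nsmul Ny _ (w * μ) ?_).trans (le_of_eq ?_)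
  · intro z hz
    rw [card_sigma]
    refine (sum_le_card_nsmul (Xy z) _ μ (fun x _ => hμ x)).trans ?_
    rw [smul_eq_mul]
    exact Nat.mul_le_mul_right _ (hw z hz)
  · rw [hD, smul_eq_mul]; ring

/-- the set of potential conflicts of a map -/
noncomputable def confSet (B : Finset β) (nb : β → Finset α) {q : ℕ} (y : β × Fin q → υ)
    (S : β × Fin q → Finset ζ) (X : υ → ζ → Finset ξ) (π : α → ζ) :
    Finset (((β × Fin q) × (β × Fin q)) × (α × α)) :=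
  (((B ×ˢ (univ : Finset (Fin q))) ×ˢ (B ×ˢ (univ : Finset (Fin q)))) ×ˢ
    ((univ : Finset α) ×ˢ (univ : Finset α))).filter
    (fun t => t.2.1 ∈ nb t.1.1.1 ∧ t.2.2 ∈ nb t.1.2.1 ∧ t.2.1 ≠ t.2.2 ∧
      π t.2.1 ∈ S t.1.1 ∧ π t.2.2 ∈ S t.1.2 ∧
      ¬ Disjoint (X (y t.1.1) (π t.2.1)) (X (y t.1.2) (π t.2.2)))

lemma conf_sum (B : Finset β) (nb : β → Finset α) {q : ℕ} (y : β × Fin q → υ)
    (S : β × Fin q → Finset ζ) (Nn : υ → Finset ζ) (X : υ → ζ → Finset ξ) (k D w μ : ℕ)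
    (hdk : ∀ b ∈ B, (nb b).card ≤ k)
    (hS : ∀ j, j.1 ∈ B → S j ⊆ Nn (y j)) (hD : ∀ j, j.1 ∈ B → (Nn (y j)).card = D)
    (hw : ∀ j, j.1 ∈ B → ∀ z ∈ Nn (y j), (X (y j) z).card ≤ w)
    (hμ : ∀ j, j.1 ∈ B → ∀ x, ((Nn (y j)).filter (fun z => x ∈ X (y j) z)).card ≤ μ) :
    (∑ π : α → ζ, (confSet B nb y S X π).card) * Fintype.card ζ ^ 2
      ≤ ((B.card * q) ^ 2 * k ^ 2 * (D * w * μ)) * Fintype.card ζ ^ Fintype.card α := by
  classical
  set N := Fintype.card ζ with hN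
  -- index set
  set I := ((B ×ˢ (univ : Finset (Fin q))) ×ˢ (B ×ˢ (univ : Finset (Fin q)))) with hI
  have hrew : ∀ π : α → ζ, (confSet B nb y S X π).card
      = ∑ j ∈ I, ∑ p ∈ ((nb j.1.1) ×ˢ (nb j.2.1)).filter (fun p => p.1 ≠ p.2),
        (if (π p.1, π p.2) ∈ ((S j.1) ×ˢ (S j.2)).filter
          (fun r => ¬ Disjoint (X (y j.1) r.1) (X (y j.2) r.2)) then 1 else 0) := by
    intro π
    have h1 : (confSet B nb y S X π).card
        = (I.sigma (fun j => (((nb j.1.1) ×ˢ (nb j.2.1)).filter (fun p => p.1 ≠ p.2)).filter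
            (fun p => (π p.1, π p.2) ∈ ((S j.1) ×ˢ (S j.2)).filter
          (fun r => ¬ Disjoint (X (y j.1) r.1) (X (y j.2) r.2))))).card := by
      apply Finset.card_bij (fun t _ => (⟨t.1, t.2⟩ : Σ _ : (β × Fin q) × (β × Fin q), α × α))
      · intro t ht
        unfold confSet at ht
        rw [mem_filter, mem_product] at ht
        obtain ⟨⟨h2, _⟩, h3, h4, h5, h6, h7, h8⟩ := ht
        rw [mem_sigma]
        refine ⟨h2, ?_⟩
        rw [mem_filter, mem_filter, mem_product, mem_filter, mem_product]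
        exact ⟨⟨⟨h3, h4⟩, h5⟩, ⟨h6, h7⟩, h8⟩
      · intro a _ b _ hab
        rw [Sigma.mk.injEq] at hab
        exact Prod.ext hab.1 (eq_of_heq hab.2)
      · intro b hb
        obtain ⟨h2, hb2⟩ := mem_sigma.mp hb
        obtain ⟨hb3, hb4⟩ := mem_filter.mp hb2
        rw [mem_filter, mem_product] at hb3 hb4
        obtain ⟨⟨h3, h4⟩, h5⟩ := hb3
        obtain ⟨⟨h6, h7⟩, h8⟩ := hb4
        refine ⟨(b.1, b.2), ?_, rfl⟩
        unfold confSet
        rw [mem_filter, mem_product]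
        exact ⟨⟨h2, by rw [mem_product]; exact ⟨mem_univ _, mem_univ _⟩⟩, h3, h4, h5, h6, h7, h8⟩
    rw [h1, card_sigma]
    apply sum_congr rfl
    intro j _
    rw [card_filter]
  simp_rw [hrew]
  rw [sum_comm]
  have hinner : ∀ j ∈ I, (∑ π : α → ζ,
      ∑ p ∈ ((nb j.1.1) ×ˢ (nb j.2.1)).filter (fun p => p.1 ≠ p.2),
        (if (π p.1, π p.2) ∈ ((S j.1) ×ˢ (S j.2)).filter
          (fun r => ¬ Disjoint (X (y j.1) r.1) (X (y j.2) r.2)) then 1 else 0)) * N ^ 2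
      ≤ k ^ 2 * (D * w * μ) * N ^ Fintype.card α := by
    intro j hj
    rw [hI, mem_product, mem_product, mem_product] at hj
    obtain ⟨⟨hj1, _⟩, hj2, _⟩ := hj
    rw [sum_comm, sum_mul]
    have h2 : ∀ p ∈ ((nb j.1.1) ×ˢ (nb j.2.1)).filter (fun p => p.1 ≠ p.2),
        (∑ π : α → ζ, (if (π p.1, π p.2) ∈ ((S j.1) ×ˢ (S j.2)).filter
          (fun r => ¬ Disjoint (X (y j.1) r.1) (X (y j.2) r.2)) then 1 else 0)) * N ^ 2
        ≤ (D * w * μ) * N ^ Fintype.card α := by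
      intro p hp
      rw [← card_filter, hN, pair_count p.1 p.2 (mem_filter.mp hp).2]
      apply Nat.mul_le_mul_right
      exact conf_rel_card (S j.1) (S j.2) (Nn (y j.1)) (Nn (y j.2)) (X (y j.1)) (X (y j.2))
        (hS _ hj1) (hS _ hj2) (hD _ hj1) (hw _ hj1) (hμ _ hj2)
    refine (sum_le_card_nsmul _ _ _ h2).trans ?_
    rw [smul_eq_mul]
    have h3 : (((nb j.1.1) ×ˢ (nb j.2.1)).filter (fun p => p.1 ≠ p.2)).card ≤ k ^ 2 := by
      refine (card_filter_le _ _).trans ?_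
      rw [card_product, sq]
      exact Nat.mul_le_mul (hdk _ hj1) (hdk _ hj2)
    calc (((nb j.1.1) ×ˢ (nb j.2.1)).filter (fun p => p.1 ≠ p.2)).card
          * ((D * w * μ) * N ^ Fintype.card α)
        ≤ k ^ 2 * ((D * w * μ) * N ^ Fintype.card α) := Nat.mul_le_mul_right _ h3
      _ = k ^ 2 * (D * w * μ) * N ^ Fintype.card α := by ring
  rw [sum_mul]
  refine (sum_le_card_nsmul _ _ _ hinner).trans ?_
  rw [smul_eq_mul]
  have hIc : I.card = (B.card * q) ^ 2 := by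
    rw [hI, card_product, card_product, card_univ, Fintype.card_fin, sq]
  rw [hIc]
  apply le_of_eq
  ring

end Conf

end Pool.Agent.Lib.MP_9dddc4_co
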