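import Mathlib
import Pool.Agent.Lib.MP_9dddc4_co.Conf

namespace Pool.Agent.Lib.MP_9dddc4_co

open Finset

section ALMain

variable {α β υ ζ ξ : Type*} [Fintype α] [Fintype ζ] [DecidableEq α] [DecidableEq β]
  [DecidableEq υ] [DecidableEq ζ] [DecidableEq ξ]

lemma exists_good_map (A : Finset α) (B : Finset β) (nb : β → Finset α)
    (Nn : υ → Finset ζ) (X : υ → ζ → Finset ξ) (k q J w μ D κ s : ℕ)
    (y : β × Fin q → υ) (S : β × Fin q → Finset ζ)
    (hN : 0 < Fintype.card ζ)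
    (hdk : ∀ b ∈ B, (nb b).card ≤ k)
    (hSs : ∀ j, j.1 ∈ B → (S j).card = s)
    (hSN : ∀ j, j.1 ∈ B → S j ⊆ Nn (y j))
    (hSdis : ∀ j j', j.1 ∈ B → j'.1 ∈ B → j ≠ j' → j.1 = j'.1 → Disjoint (S j) (S j'))
    (hD : ∀ j, j.1 ∈ B → (Nn (y j)).card = D)
    (hw : ∀ j, j.1 ∈ B → ∀ z ∈ Nn (y j), (X (y j) z).card ≤ w)
    (hμ : ∀ j, j.1 ∈ B → ∀ x, ((Nn (y j)).filter (fun z => x ∈ X (y j) z)).card ≤ μ)
    (hA : 8 * A.card ^ 2 ≤ Fintype.card ζ)
    (hκ : 8 * ((B.card * q) ^ 2 * k ^ 2 * (D * w * μ)) ≤ κ * (Fintype.card ζ) ^ 2)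
    (hkey : 4 * (k * D + 8 * Fintype.card ζ * J) ^ J ≤ q * (k * D) ^ J)
    (hJk : J ≤ k) (hDpos : 0 < D) (hk : 0 < k) (hq : 0 < q) (hs : D ≤ 4 * s) :
    ∃ π : α → ζ, Set.InjOn π A ∧ (confSet B nb y S X π).card ≤ κ ∧
      ∑ b ∈ B, (J * (nb b).card / k) ≤
        2 * ∑ b ∈ B, (if ∃ i : Fin q, J * (nb b).card / k ≤
          ((nb b).filter (fun a => π a ∈ S (b, i))).card then J * (nb b).card / k else 0) := by
  classical
  set N := Fintype.card ζ with hNdef
  set jj : β → ℕ := fun b => J * (nb b).card / k with hjj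
  set OK : β → (α → ζ) → Prop := fun b π => ∃ i : Fin q, jj b ≤
          ((nb b).filter (fun a => π a ∈ S (b, i))).card with hOK
  set Ω : Finset (α → ζ) := univ with hΩ
  have hΩc : Ω.card = N ^ Fintype.card α := by rw [hΩ, card_univ, Fintype.card_fun]
  have hΩpos : 0 < N ^ Fintype.card α := Nat.pow_pos hN
  have hspos : 0 < s := by omega
  -- each b fails rarely
  have hfail : ∀ b ∈ B, 4 * (Ω.filter (fun π => ¬ OK b π)).card ≤ N ^ Fintype.card α := by
    intro b hb
    rcases Nat.eq_zero_or_pos (jj b) with h0 | hpos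
    · have : Ω.filter (fun π => ¬ OK b π) = ∅ := by
        apply filter_false_of_mem
        intro π _
        rw [not_not]
        exact ⟨⟨0, hq⟩, by rw [h0]; exact Nat.zero_le _⟩
      rw [this]; simp
    · have hjle : jj b ≤ J := by
        have h1 : J * (nb b).card ≤ J * k := Nat.mul_le_mul_left _ (hdk b hb)
        exact Nat.div_le_of_le_mul (by rw [mul_comm k J]; exact h1)
      have hjd : jj b ≤ (nb b).card := by
        apply Nat.div_le_of_le_mul
        exact Nat.mul_le_mul_right _ hJk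
      set h := (nb b).card / jj b with hh
      have hhpos : 0 < h := Nat.div_pos hjd hpos
      have hjh : jj b * h ≤ (nb b).card := Nat.mul_div_le _ _
      have h2 : (nb b).card ≤ 2 * (jj b * h) := by
        have h3 := Nat.lt_mul_div_succ (nb b).card hpos
        have h4 : jj b * (h + 1) ≤ 2 * (jj b * h) := by nlinarith
        have h5 : (nb b).card < jj b * (h + 1) := h3
        omega
      have h3 : jj b * k ≤ J * (nb b).card := Nat.div_mul_le_self _ _
      have h4 : k ≤ 2 * J * h := by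
        have h5 : jj b * k ≤ jj b * (2 * J * h) := by
          calc jj b * k ≤ J * (nb b).card := h3
            _ ≤ J * (2 * (jj b * h)) := Nat.mul_le_mul_left _ h2
            _ = jj b * (2 * J * h) := by ring
        exact Nat.le_of_mul_le_mul_left h5 hpos
      have hx : k * D ≤ 8 * J * (h * s) := by
        calc k * D ≤ (2 * J * h) * (4 * s) := Nat.mul_le_mul h4 hs
          _ = 8 * J * (h * s) := by ring
      have hkey2 := key_transfer (n := N) (j := jj b) (x := h * s)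
        (Nat.mul_pos hk hDpos) (Nat.mul_pos hhpos hspos) hkey hjle hx
      have hfc := fail_count (nb b) (fun i : Fin q => S (b, i)) (j := jj b) (h := h) (s := s)
        (fun i => hSs (b, i) hb)
        (fun i i' hii => hSdis (b, i) (b, i') hb hb
          (fun h => hii (Prod.mk.inj h).2) rfl) hN hspos hhpos hq hjh hkey2
      refine le_trans (Nat.mul_le_mul_left _ (card_le_card ?_)) hfc
      intro π hπ
      rw [mem_filter] at hπ ⊢
      refine ⟨mem_univ _, ?_⟩
      have h6 := hπ.2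
      simp only [OK] at h6
      push Not at h6
      exact h6
  -- non injective maps
  have hni := noninj_count (α := α) A hN hA
  rw [← hNdef] at hni
  -- conflicts
  have hcs := conf_sum B nb y S Nn X k D w μ hdk hSN hD hw hμ
  have hconf : 8 * (Ω.filter (fun π => κ < (confSet B nb y S X π).card)).card
      ≤ N ^ Fintype.card α := by
    set Cf := (Ω.filter (fun π => κ < (confSet B nb y S X π).card)).card with hCf
    have h1 : Cf * (κ + 1) ≤ ∑ π : α → ζ, (confSet B nb y S X π).card := by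
      calc Cf * (κ + 1) = ∑ _π ∈ Ω.filter (fun π => κ < (confSet B nb y S X π).card), (κ + 1) := by
            rw [sum_const, smul_eq_mul]
        _ ≤ ∑ π ∈ Ω.filter (fun π => κ < (confSet B nb y S X π).card),
              (confSet B nb y S X π).card := by
            apply sum_le_sum
            intro π hπ
            exact (mem_filter.mp hπ).2
        _ ≤ _ := sum_le_sum_of_subset (filter_subset _ _)
    have hN2 : 0 < N ^ 2 := Nat.pow_pos hN
    have h2 : (8 * Cf * (κ + 1)) * N ^ 2 ≤ (κ * N ^ Fintype.card α) * N ^ 2 := by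
      calc (8 * Cf * (κ + 1)) * N ^ 2 = 8 * ((Cf * (κ + 1)) * N ^ 2) := by ring
        _ ≤ 8 * ((∑ π : α → ζ, (confSet B nb y S X π).card) * N ^ 2) :=
            Nat.mul_le_mul_left _ (Nat.mul_le_mul_right _ h1)
        _ ≤ 8 * (((B.card * q) ^ 2 * k ^ 2 * (D * w * μ)) * N ^ Fintype.card α) :=
            Nat.mul_le_mul_left _ hcs
        _ = (8 * ((B.card * q) ^ 2 * k ^ 2 * (D * w * μ))) * N ^ Fintype.card α := by ring
        _ ≤ (κ * N ^ 2) * N ^ Fintype.card α := Nat.mul_le_mul_right _ hκ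
        _ = (κ * N ^ Fintype.card α) * N ^ 2 := by ring
    have h3 := Nat.le_of_mul_le_mul_right h2 hN2
    have h4 : (8 * Cf) * (κ + 1) ≤ N ^ Fintype.card α * (κ + 1) := by
      calc (8 * Cf) * (κ + 1) ≤ κ * N ^ Fintype.card α := h3
        _ ≤ (κ + 1) * N ^ Fintype.card α := Nat.mul_le_mul_right _ (Nat.le_succ _)
        _ = N ^ Fintype.card α * (κ + 1) := by ring
    exact Nat.le_of_mul_le_mul_right h4 (Nat.succ_pos _)
  -- weights
  set Jt := ∑ b ∈ B, jj b with hJt
  set good : (α → ζ) → ℕ := fun π => ∑ b ∈ B, (if OK b π then jj b else 0) with hgood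
  set bad : (α → ζ) → ℕ := fun π => ∑ b ∈ B, (if ¬ OK b π then jj b else 0) with hbad
  have hgb : ∀ π, good π + bad π = Jt := by
    intro π
    simp only [good, bad, Jt]
    rw [← sum_add_distrib]
    apply sum_congr rfl
    intro b _
    by_cases h : OK b π
    · simp [h]
    · simp [h]
  have hbadsum : 4 * ∑ π ∈ Ω, bad π ≤ Jt * N ^ Fintype.card α := by
    simp only [bad]
    rw [sum_comm, mul_sum, hJt, sum_mul]
    apply sum_le_sum
    intro b hb
    rw [← sum_filter, sum_const, smul_eq_mul]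
    calc 4 * ((Ω.filter (fun π => ¬ OK b π)).card * jj b)
        = (4 * (Ω.filter (fun π => ¬ OK b π)).card) * jj b := by ring
      _ ≤ N ^ Fintype.card α * jj b := Nat.mul_le_mul_right _ (hfail b hb)
      _ = jj b * N ^ Fintype.card α := by ring
  have hweight : 2 * (Ω.filter (fun π => 2 * good π < Jt)).card ≤ N ^ Fintype.card α := by
    set Wf := (Ω.filter (fun π => 2 * good π < Jt)).card with hWf
    rcases Nat.eq_zero_or_pos Jt with h0 | hpos
    · have : Ω.filter (fun π => 2 * good π < Jt) = ∅ := by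
        apply filter_false_of_mem
        intro π _
        omega
      rw [hWf, this]; simp
    · have h1 : Wf * Jt ≤ 2 * ∑ π ∈ Ω, bad π := by
        calc Wf * Jt = ∑ _π ∈ Ω.filter (fun π => 2 * good π < Jt), Jt := by
              rw [sum_const, smul_eq_mul]
          _ ≤ ∑ π ∈ Ω.filter (fun π => 2 * good π < Jt), 2 * bad π := by
              apply sum_le_sum
              intro π hπ
              have h2 := (mem_filter.mp hπ).2
              have h3 := hgb π
              omega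
          _ ≤ ∑ π ∈ Ω, 2 * bad π := sum_le_sum_of_subset (filter_subset _ _)
          _ = 2 * ∑ π ∈ Ω, bad π := by rw [mul_sum]
      have h2 : (2 * Wf) * Jt ≤ N ^ Fintype.card α * Jt := by
        calc (2 * Wf) * Jt = 2 * (Wf * Jt) := by ring
          _ ≤ 2 * (2 * ∑ π ∈ Ω, bad π) := Nat.mul_le_mul_left _ h1
          _ = 4 * ∑ π ∈ Ω, bad π := by ring
          _ ≤ Jt * N ^ Fintype.card α := hbadsum
          _ = N ^ Fintype.card α * Jt := by ring
      exact Nat.le_of_mul_le_mul_right h2 hpos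
  -- combine
  obtain ⟨π, hπ1, hπ2, hπ3⟩ : ∃ π : α → ζ, ¬ (∃ a ∈ A, ∃ a' ∈ A, a ≠ a' ∧ π a = π a') ∧
      ¬ (κ < (confSet B nb y S X π).card) ∧ ¬ (2 * good π < Jt) := by
    by_contra hcon
    push Not at hcon
    have hcover : Ω ⊆ (univ.filter (fun π : α → ζ => ∃ a ∈ A, ∃ a' ∈ A, a ≠ a' ∧ π a = π a')) ∪
        (Ω.filter (fun π => κ < (confSet B nb y S X π).card)) ∪
        (Ω.filter (fun π => 2 * good π < Jt)) := by
      intro π _
      by_cases h1 : ∃ a ∈ A, ∃ a' ∈ A, a ≠ a' ∧ π a = π a'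
      · exact mem_union_left _ (mem_union_left _ (mem_filter.mpr ⟨mem_univ _, h1⟩))
      · by_cases h2 : κ < (confSet B nb y S X π).card
        · exact mem_union_left _ (mem_union_right _ (mem_filter.mpr ⟨mem_univ _, h2⟩))
        · apply mem_union_right
          rw [mem_filter]
          refine ⟨mem_univ _, ?_⟩
          push Not at h1
          exact hcon π h1 (not_lt.mp h2)
    have h1 := card_le_card hcover
    have h2 := card_union_le ((univ.filter (fun π : α → ζ =>
        ∃ a ∈ A, ∃ a' ∈ A, a ≠ a' ∧ π a = π a')) ∪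
        (Ω.filter (fun π => κ < (confSet B nb y S X π).card)))
        (Ω.filter (fun π => 2 * good π < Jt))
    have h3 := card_union_le (univ.filter (fun π : α → ζ =>
        ∃ a ∈ A, ∃ a' ∈ A, a ≠ a' ∧ π a = π a'))
        (Ω.filter (fun π => κ < (confSet B nb y S X π).card))
    omega
  refine ⟨π, ?_, not_lt.mp hπ2, not_lt.mp hπ3⟩
  intro a ha a' ha' heq
  by_contra hne
  exact hπ1 ⟨a, ha, a', ha', hne, heq⟩

theorem al_main [Nonempty υ] (A : Finset α) (B : Finset β) (nb : β → Finset α)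
    (Y : Finset υ) (Nn : υ → Finset ζ) (X : υ → ζ → Finset ξ) (k q J w μ D κ : ℕ)
    (hN : 0 < Fintype.card ζ)
    (hdk : ∀ b ∈ B, (nb b).card ≤ k)
    (hD : ∀ y ∈ Y, (Nn y).card = D)
    (hw : ∀ y ∈ Y, ∀ z ∈ Nn y, (X y z).card ≤ w)
    (hμ1 : ∀ z x, (Y.filter (fun y => z ∈ Nn y ∧ x ∈ X y z)).card ≤ μ)
    (hμ2 : ∀ y ∈ Y, ∀ x, ((Nn y).filter (fun z => x ∈ X y z)).card ≤ μ)
    (hspread : ∀ W : Finset ζ, W.card ≤ q * D →
      2 * (Y.filter (fun y => D ≤ 2 * (Nn y ∩ W).card)).card < Y.card)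
    (hY : 2 * ((B.card * q) * (1 + 4 * (w * μ))) ≤ Y.card)
    (hA : 8 * A.card ^ 2 ≤ Fintype.card ζ)
    (hκ : 8 * ((B.card * q) ^ 2 * k ^ 2 * (D * w * μ)) ≤ κ * (Fintype.card ζ) ^ 2)
    (hkey : 4 * (k * D + 8 * Fintype.card ζ * J) ^ J ≤ q * (k * D) ^ J)
    (hJk : J ≤ k) (hDpos : 0 < D) (hk : 0 < k) (hq : 0 < q) :
    ∃ (π : α → ζ) (ψ : β → υ) (H : Finset (β × α)),
      (∀ h ∈ H, h.1 ∈ B ∧ h.2 ∈ nb h.1 ∧ ψ h.1 ∈ Y ∧ π h.2 ∈ Nn (ψ h.1)) ∧
      Set.InjOn π A ∧ Set.InjOn ψ B ∧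
      (∀ h ∈ H, ∀ h' ∈ H, h ≠ h' → Disjoint (X (ψ h.1) (π h.2)) (X (ψ h'.1) (π h'.2))) ∧
      ∑ b ∈ B, (J * (nb b).card / k) ≤ 2 * (H.card + κ) := by
  classical
  obtain ⟨y, S0, h1, h2, h3, h4⟩ := spread_selection B Y Nn X q D w μ hD hw hμ1 hspread hY
  set s := (D + 3) / 4 with hs
  have hcut : ∀ j : β × Fin q, ∃ T : Finset ζ, j.1 ∈ B → T ⊆ S0 j ∧ T.card = s := by
    intro j
    by_cases hj : j.1 ∈ B
    · have h5 := (h1 j hj).2.2
      have h6 : s ≤ (S0 j).card := by omega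
      obtain ⟨T, hT1, hT2⟩ := exists_subset_card_eq h6
      exact ⟨T, fun _ => ⟨hT1, hT2⟩⟩
    · exact ⟨∅, fun h => absurd h hj⟩
  choose S hS using hcut
  have hSN : ∀ j, j.1 ∈ B → S j ⊆ Nn (y j) := fun j hj => ((hS j hj).1).trans (h1 j hj).2.1
  obtain ⟨π, hπ1, hπ2, hπ3⟩ := exists_good_map A B nb Nn X k q J w μ D κ s y S hN hdk
    (fun j hj => (hS j hj).2) hSN
    (fun j j' hj hj' hne heq => (h3 j j' hj hj' hne heq).mono (hS j hj).1 (hS j' hj').1)
    (fun j hj => hD _ (h1 j hj).1)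
    (fun j hj => hw _ (h1 j hj).1)
    (fun j hj => hμ2 _ (h1 j hj).1)
    hA hκ hkey hJk hDpos hk hq (by omega)
  set jj : β → ℕ := fun b => J * (nb b).card / k with hjj
  -- choose indices
  have hidx : ∀ b : β, ∃ i : Fin q, (∃ i : Fin q, jj b ≤
      ((nb b).filter (fun a => π a ∈ S (b, i))).card) → jj b ≤
      ((nb b).filter (fun a => π a ∈ S (b, i))).card := by
    intro b
    by_cases h : ∃ i : Fin q, jj b ≤ ((nb b).filter (fun a => π a ∈ S (b, i))).card
    · obtain ⟨i, hi⟩ := h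
      exact ⟨i, fun _ => hi⟩
    · exact ⟨⟨0, hq⟩, fun h' => absurd h' h⟩
  choose idx hidx' using hidx
  set ψ : β → υ := fun b => y (b, idx b) with hψ
  -- hits
  set H0 : Finset (β × α) := (B.sigma (fun b => (nb b).filter (fun a => π a ∈ S (b, idx b)))).image
    (fun t => (t.1, t.2)) with hH0
  have hH0mem : ∀ h, h ∈ H0 ↔ h.1 ∈ B ∧ h.2 ∈ nb h.1 ∧ π h.2 ∈ S (h.1, idx h.1) := by
    intro h
    rw [hH0, mem_image]
    constructor
    · rintro ⟨t, ht, rfl⟩
      rw [mem_sigma, mem_filter] at ht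
      exact ⟨ht.1, ht.2.1, ht.2.2⟩
    · rintro ⟨ha, hb, hc⟩
      refine ⟨⟨h.1, h.2⟩, ?_, rfl⟩
      rw [mem_sigma, mem_filter]
      exact ⟨ha, hb, hc⟩
  have hH0card : ∑ b ∈ B, (if ∃ i : Fin q, jj b ≤
          ((nb b).filter (fun a => π a ∈ S (b, i))).card then jj b else 0) ≤ H0.card := by
    have h5 : H0.card = ∑ b ∈ B, ((nb b).filter (fun a => π a ∈ S (b, idx b))).card := by
      rw [hH0, card_image_of_injective, card_sigma]
      intro a b hab
      rw [Prod.mk.injEq] at hab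
      exact Sigma.ext hab.1 (heq_of_eq hab.2)
    rw [h5]
    apply sum_le_sum
    intro b _
    split_ifs with h
    · exact hidx' b h
    · exact Nat.zero_le _
  -- remove conflicts
  set badH : Finset (β × α) := H0.filter (fun h => ∃ h' ∈ H0, h ≠ h' ∧
    ¬ Disjoint (X (ψ h.1) (π h.2)) (X (ψ h'.1) (π h'.2))) with hbadH
  have hbadcard : badH.card ≤ κ := by
    refine le_trans ?_ hπ2
    have hpartner : ∀ h ∈ badH, ∃ h' ∈ H0, h ≠ h' ∧
        ¬ Disjoint (X (ψ h.1) (π h.2)) (X (ψ h'.1) (π h'.2)) :=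
      fun h hh => (mem_filter.mp hh).2
    have hsub : badH ⊆ (confSet B nb y S X π).image (fun t => (t.1.1.1, t.2.1)) := by
      intro h hh
      obtain ⟨h', hh', hne, hnd⟩ := hpartner h hh
      have hm := (hH0mem h).mp (mem_filter.mp hh).1
      have hm' := (hH0mem h').mp hh'
      rw [mem_image]
      refine ⟨(((h.1, idx h.1), (h'.1, idx h'.1)), (h.2, h'.2)), ?_, rfl⟩
      unfold confSet
      rw [mem_filter]
      refine ⟨?_, hm.2.1, hm'.2.1, ?_, hm.2.2, hm'.2.2, hnd⟩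
      · simp only [mem_product, mem_univ, and_true]
        exact ⟨hm.1, hm'.1⟩
      · intro haa
        simp only at haa
        have hbb : h.1 ≠ h'.1 := fun hbb => hne (Prod.ext hbb haa)
        apply hnd
        rw [← haa]
        apply h4 (h.1, idx h.1) (h'.1, idx h'.1) hm.1 hm'.1
          (fun h5 => hbb (Prod.mk.inj h5).1)
        · exact (hS (h.1, idx h.1) hm.1).1 hm.2.2
        · have h6 := hm'.2.2
          rw [← haa] at h6
          exact (hS (h'.1, idx h'.1) hm'.1).1 h6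
    exact (card_le_card hsub).trans card_image_le
  refine ⟨π, ψ, H0 \ badH, ?_, hπ1, ?_, ?_, ?_⟩
  · intro h hh
    have hm := (hH0mem h).mp (mem_sdiff.mp hh).1
    exact ⟨hm.1, hm.2.1, (h1 (h.1, idx h.1) hm.1).1, hSN (h.1, idx h.1) hm.1 hm.2.2⟩
  · intro b hb b' hb' heq
    by_contra hne
    exact h2 (b, idx b) (b', idx b') hb hb' (fun h5 => hne (Prod.mk.inj h5).1) heq
  · intro h hh h' hh' hne
    by_contra hnd
    exact (mem_sdiff.mp hh).2 (mem_filter.mpr ⟨(mem_sdiff.mp hh).1, h', (mem_sdiff.mp hh').1,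
      hne, hnd⟩)
  · have h5 : H0.card ≤ (H0 \ badH).card + κ := by
      have := le_card_sdiff badH H0
      omega
    have h6 := hπ3.trans (Nat.mul_le_mul_left 2 hH0card)
    omega

end ALMain

end Pool.Agent.Lib.MP_9dddc4_co
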