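import Mathlib
import Pool.Agent.Lib.MP_9dddc4_co.ALMain

namespace Pool.Agent.Lib.MP_9dddc4_co

open Finset

section ALFull

variable {V ξ : Type*} [Fintype V] [DecidableEq V] [DecidableEq ξ]

/-- hits of the pattern `(B, nb)` inside the labelled bipartite graph `(E, X)`, with pairwise
disjoint labels. -/
def Hit (B : Finset V) (nb : V → Finset V) (E : Finset (V × V)) (X : V × V → Finset ξ)
    (m : ℕ) : Prop :=
  ∃ (π ψ : V → V) (H : Finset (V × V)),
    (∀ h ∈ H, h.1 ∈ B ∧ h.2 ∈ nb h.1 ∧ (ψ h.1, π h.2) ∈ E) ∧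
    (∀ h ∈ H, ∀ h' ∈ H, π h.2 = π h'.2 → h.2 = h'.2) ∧
    (∀ h ∈ H, ∀ h' ∈ H, ψ h.1 = ψ h'.1 → h.1 = h'.1) ∧
    (∀ h ∈ H, ∀ h' ∈ H, h ≠ h' → Disjoint (X (ψ h.1, π h.2)) (X (ψ h'.1, π h'.2))) ∧
    m ≤ H.card

/-- hits without control of the labels. -/
def HitN (B : Finset V) (nb : V → Finset V) (E : Finset (V × V)) (m : ℕ) : Prop :=
  ∃ (π ψ : V → V) (H : Finset (V × V)),
    (∀ h ∈ H, h.1 ∈ B ∧ h.2 ∈ nb h.1 ∧ (ψ h.1, π h.2) ∈ E) ∧
    (∀ h ∈ H, ∀ h' ∈ H, π h.2 = π h'.2 → h.2 = h'.2) ∧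
    (∀ h ∈ H, ∀ h' ∈ H, ψ h.1 = ψ h'.1 → h.1 = h'.1) ∧
    m ≤ H.card

lemma many_high_degree (E : Finset (V × V)) (d : ℕ)
    (hd : 2 * Fintype.card V * d ≤ E.card) (hV : 0 < Fintype.card V) :
    d ≤ (univ.filter (fun z : V => d ≤ (univ.filter (fun y : V => (y, z) ∈ E)).card)).card := by
  classical
  set n := Fintype.card V with hn
  set deg : V → ℕ := fun z => (univ.filter (fun y : V => (y, z) ∈ E)).card with hdeg
  set Zh := univ.filter (fun z : V => d ≤ deg z) with hZh
  have hsum : E.card = ∑ z : V, deg z := by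
    have h1 : E.card = ∑ z : V, (E.filter (fun e => e.2 = z)).card :=
      card_eq_sum_card_fiberwise (fun e _ => mem_univ _)
    rw [h1]
    apply sum_congr rfl
    intro z _
    apply Finset.card_bij (fun e _ => e.1)
    · intro e he
      rw [mem_filter] at he
      rw [mem_filter]
      refine ⟨mem_univ _, ?_⟩
      rw [← he.2]
      exact he.1
    · intro a ha b hb hab
      rw [mem_filter] at ha hb
      exact Prod.ext hab (ha.2.trans hb.2.symm)
    · intro y hy
      rw [mem_filter] at hy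
      exact ⟨(y, z), mem_filter.mpr ⟨hy.2, rfl⟩, rfl⟩
  have h2 : ∑ z : V, deg z ≤ Zh.card * n + n * d := by
    rw [← sum_filter_add_sum_filter_not univ (fun z : V => d ≤ deg z)]
    apply Nat.add_le_add
    · refine (sum_le_card_nsmul _ _ n ?_).trans (by rw [smul_eq_mul])
      intro z _
      exact card_le_univ _
    · refine (sum_le_card_nsmul _ _ d ?_).trans ?_
      · intro z hz
        exact (not_le.mp (mem_filter.mp hz).2).le
      · rw [smul_eq_mul]
        exact Nat.mul_le_mul_right _ (card_le_univ _)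
  have h3 : n * d ≤ Zh.card * n := by
    have h4 : 2 * n * d ≤ Zh.card * n + n * d := by
      calc 2 * n * d ≤ E.card := hd
        _ = ∑ z : V, deg z := hsum
        _ ≤ _ := h2
    nlinarith
  have h5 : d * n ≤ Zh.card * n := by rw [mul_comm d n]; exact h3
  exact Nat.le_of_mul_le_mul_right h5 hV

/-- star forest embedding: leaves `L`, centre map `c`. -/
lemma star_forest (L : Finset V) (c : V → V) (E : Finset (V × V)) (X : V × V → Finset ξ)
    (w μ : ℕ) (hV : 0 < Fintype.card V)
    (hw : ∀ e ∈ E, (X e).card ≤ w)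
    (hμ : ∀ z x, (univ.filter (fun y : V => (y, z) ∈ E ∧ x ∈ X (y, z))).card ≤ μ)
    (hg : 2 * Fintype.card V * (L.card + L.card * w * μ) ≤ E.card) :
    ∃ (π ψ : V → V), (∀ l ∈ L, (ψ l, π (c l)) ∈ E) ∧
      (∀ l ∈ L, ∀ l' ∈ L, π (c l) = π (c l') → c l = c l') ∧
      (∀ l ∈ L, ∀ l' ∈ L, ψ l = ψ l' → l = l') ∧
      (∀ l ∈ L, ∀ l' ∈ L, l ≠ l' → Disjoint (X (ψ l, π (c l))) (X (ψ l', π (c l')))) := by
  classical
  set n := Fintype.card V with hn
  set h := L.card with hh
  set d := h + h * w * μ with hdd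
  have hmany := many_high_degree E d hg hV
  set Zh := univ.filter (fun z : V => d ≤ (univ.filter (fun y : V => (y, z) ∈ E)).card) with hZh
  rcases L.eq_empty_or_nonempty with hL | hL
  · refine ⟨id, id, ?_, ?_, ?_, ?_⟩ <;> simp [hL]
  have hpos : 0 < h := card_pos.mpr hL
  have hZne : Zh.Nonempty := by
    rw [← card_pos]
    omega
  have hcard : (L.image c).card ≤ Zh.card := by
    have : (L.image c).card ≤ h := card_image_le
    omega
  obtain ⟨π, hπ1, hπ2, _⟩ := exists_inj_avg (ι := V) (L.image c) Zh hcard hZne ∅ id (fun _ => ∅)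
  have key : ∀ I : Finset V, I ⊆ L → ∃ ψ : V → V, (∀ l ∈ I, (ψ l, π (c l)) ∈ E) ∧
      (∀ l ∈ I, ∀ l' ∈ I, ψ l = ψ l' → l = l') ∧
      (∀ l ∈ I, ∀ l' ∈ I, l ≠ l' → Disjoint (X (ψ l, π (c l))) (X (ψ l', π (c l')))) := by
    intro I
    induction I using Finset.induction_on with
    | empty => intro _; exact ⟨id, by simp, by simp, by simp⟩
    | insert l0 I hl0 ih =>
      intro hsub
      obtain ⟨ψ, h1, h2, h3⟩ := ih ((subset_insert _ _).trans hsub)
      have hIcard : I.card < h := by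
        have := card_le_card hsub
        rw [card_insert_of_notMem hl0] at this
        omega
      set z := π (c l0) with hz
      have hzZ : z ∈ Zh := hπ2 _ (mem_image_of_mem c (hsub (mem_insert_self _ _)))
      have hzdeg : d ≤ (univ.filter (fun y : V => (y, z) ∈ E)).card := (mem_filter.mp hzZ).2
      set Used : Finset ξ := I.biUnion (fun l => X (ψ l, π (c l))) with hUsed
      have hUsedc : Used.card ≤ I.card * w :=
        card_biUnion_le_card_mul _ _ _ (fun l hl => hw _ (h1 l hl))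
      obtain ⟨y', hy'E, hy'used, hy'X⟩ : ∃ y' : V, (y', z) ∈ E ∧ y' ∉ I.image ψ ∧
          Disjoint (X (y', z)) Used := by
        by_contra hcon
        push Not at hcon
        have hcover : univ.filter (fun y : V => (y, z) ∈ E) ⊆ I.image ψ ∪
            Used.biUnion (fun x => univ.filter (fun y : V => (y, z) ∈ E ∧ x ∈ X (y, z))) := by
          intro y hy
          have hyE := (mem_filter.mp hy).2
          by_cases ha : y ∈ I.image ψ
          · exact mem_union_left _ ha
          · apply mem_union_right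
            have hnd := hcon y hyE ha
            rw [not_disjoint_iff] at hnd
            obtain ⟨x, hx1, hx2⟩ := hnd
            rw [mem_biUnion]
            exact ⟨x, hx2, mem_filter.mpr ⟨mem_univ _, hyE, hx1⟩⟩
        have hc1 := card_le_card hcover
        have hc2 := card_union_le (I.image ψ)
          (Used.biUnion (fun x => univ.filter (fun y : V => (y, z) ∈ E ∧ x ∈ X (y, z))))
        have hc3 : (I.image ψ).card ≤ I.card := card_image_le
        have hc4 : (Used.biUnion (fun x =>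
            univ.filter (fun y : V => (y, z) ∈ E ∧ x ∈ X (y, z)))).card ≤ Used.card * μ :=
          card_biUnion_le_card_mul _ _ _ (fun x _ => hμ z x)
        have hc5 : Used.card * μ ≤ h * w * μ := by
          apply Nat.mul_le_mul_right
          exact hUsedc.trans (Nat.mul_le_mul_right _ hIcard.le)
        omega
      refine ⟨Function.update ψ l0 y', ?_, ?_, ?_⟩
      · intro l hl
        rw [mem_insert] at hl
        by_cases hll : l = l0
        · subst hll
          rw [Function.update_self]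
          exact hy'E
        · rw [Function.update_of_ne hll]
          exact h1 l (hl.resolve_left hll)
      · intro l hl l' hl' heq
        rw [mem_insert] at hl hl'
        by_cases hll : l = l0
        · subst hll
          by_cases hll' : l' = l
          · exact hll'.symm
          · exfalso
            rw [Function.update_self, Function.update_of_ne hll'] at heq
            apply hy'used
            rw [heq]
            exact mem_image_of_mem ψ (hl'.resolve_left hll')
        · by_cases hll' : l' = l0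
          · subst hll'
            exfalso
            rw [Function.update_self, Function.update_of_ne hll] at heq
            apply hy'used
            rw [← heq]
            exact mem_image_of_mem ψ (hl.resolve_left hll)
          · rw [Function.update_of_ne hll, Function.update_of_ne hll'] at heq
            exact h2 l (hl.resolve_left hll) l' (hl'.resolve_left hll') heq
      · intro l hl l' hl' hne
        rw [mem_insert] at hl hl'
        have hnew : ∀ i ∈ I, Disjoint (X (y', z)) (X (ψ i, π (c i))) := by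
          intro i hi
          exact disjoint_of_subset_right (subset_biUnion_of_mem
            (fun l => X (ψ l, π (c l))) hi) hy'X
        by_cases hll : l = l0
        · subst hll
          have hll' : l' ≠ l := fun h => hne h.symm
          rw [Function.update_self, Function.update_of_ne hll']
          exact hnew l' (hl'.resolve_left hll')
        · by_cases hll' : l' = l0
          · subst hll'
            rw [Function.update_self, Function.update_of_ne hll]
            exact (hnew l (hl.resolve_left hll)).symm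
          · rw [Function.update_of_ne hll, Function.update_of_ne hll']
            exact h3 l (hl.resolve_left hll) l' (hl'.resolve_left hll') hne
  obtain ⟨ψ, h1, h2, h3⟩ := key L (Subset.refl _)
  refine ⟨π, ψ, h1, ?_, h2, h3⟩
  intro l hl l' hl' heq
  exact hπ1 (mem_coe.mpr (mem_image_of_mem c hl)) (mem_coe.mpr (mem_image_of_mem c hl')) heq

lemma hit_of_B (B : Finset V) (nb : V → Finset V) (E : Finset (V × V)) (X : V × V → Finset ξ)
    (w μ h : ℕ) (hV : 0 < Fintype.card V)
    (hne : ∀ b ∈ B, (nb b).Nonempty)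
    (hw : ∀ e ∈ E, (X e).card ≤ w)
    (hμ : ∀ z x, (univ.filter (fun y : V => (y, z) ∈ E ∧ x ∈ X (y, z))).card ≤ μ)
    (hg : 2 * Fintype.card V * (h + h * w * μ) ≤ E.card) (hB : h ≤ B.card) :
    Hit B nb E X h := by
  classical
  obtain ⟨L, hLB, hLc⟩ := exists_subset_card_eq hB
  have hch : ∀ b : V, ∃ a : V, b ∈ B → a ∈ nb b := by
    intro b
    by_cases hb : b ∈ B
    · obtain ⟨a, ha⟩ := hne b hb
      exact ⟨a, fun _ => ha⟩
    · exact ⟨b, fun h => absurd h hb⟩
  choose c hc using hch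
  obtain ⟨π, ψ, h1, h2, h3, h4⟩ := star_forest L c E X w μ hV hw hμ (by rw [hLc]; exact hg)
  refine ⟨π, ψ, L.image (fun l => (l, c l)), ?_, ?_, ?_, ?_, ?_⟩
  · intro p hp
    obtain ⟨l, hl, rfl⟩ := mem_image.mp hp
    exact ⟨hLB hl, hc l (hLB hl), h1 l hl⟩
  · intro p hp p' hp' heq
    obtain ⟨l, hl, rfl⟩ := mem_image.mp hp
    obtain ⟨l', hl', rfl⟩ := mem_image.mp hp'
    exact h2 l hl l' hl' heq
  · intro p hp p' hp' heq
    obtain ⟨l, hl, rfl⟩ := mem_image.mp hp
    obtain ⟨l', hl', rfl⟩ := mem_image.mp hp'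
    exact h3 l hl l' hl' heq
  · intro p hp p' hp' hne'
    obtain ⟨l, hl, rfl⟩ := mem_image.mp hp
    obtain ⟨l', hl', rfl⟩ := mem_image.mp hp'
    apply h4 l hl l' hl'
    intro h; exact hne' (by rw [h])
  · rw [card_image_of_injective _ (fun a b h => (Prod.mk.inj h).1), hLc]

lemma hit_of_A (A B : Finset V) (nb : V → Finset V) (E : Finset (V × V)) (X : V × V → Finset ξ)
    (w μ h : ℕ) (hV : 0 < Fintype.card V)
    (hA : ∀ a ∈ A, ∃ b ∈ B, a ∈ nb b)
    (hw : ∀ e ∈ E, (X e).card ≤ w)
    (hμ : ∀ y x, (univ.filter (fun z : V => (y, z) ∈ E ∧ x ∈ X (y, z))).card ≤ μ)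
    (hg : 2 * Fintype.card V * (h + h * w * μ) ≤ E.card) (hAc : h ≤ A.card) :
    Hit B nb E X h := by
  classical
  obtain ⟨L, hLA, hLc⟩ := exists_subset_card_eq hAc
  have hch : ∀ a : V, ∃ b : V, a ∈ A → b ∈ B ∧ a ∈ nb b := by
    intro a
    by_cases ha : a ∈ A
    · obtain ⟨b, hb, hab⟩ := hA a ha
      exact ⟨b, fun _ => ⟨hb, hab⟩⟩
    · exact ⟨a, fun h => absurd h ha⟩
  choose c hc using hch
  set E' : Finset (V × V) := E.image Prod.swap with hE'
  have hmem : ∀ y z, (z, y) ∈ E' ↔ (y, z) ∈ E := by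
    intro y z
    rw [hE', mem_image]
    constructor
    · rintro ⟨p, hp, hpe⟩
      have : p = (y, z) := by
        have := congrArg Prod.swap hpe
        simpa using this
      rw [← this]; exact hp
    · intro h; exact ⟨(y, z), h, rfl⟩
  have hE'c : E'.card = E.card := card_image_of_injective _ Prod.swap_injective
  obtain ⟨π, ψ, h1, h2, h3, h4⟩ := star_forest L c E' (fun e => X e.swap) w μ hV
    (by
      intro e he
      apply hw
      have : (e.2, e.1) ∈ E := (hmem e.2 e.1).mp he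
      exact this)
    (by
      intro z x
      refine le_trans (card_le_card ?_) (hμ z x)
      intro y hy
      rw [mem_filter] at hy ⊢
      refine ⟨mem_univ _, (hmem z y).mp hy.2.1, ?_⟩
      exact hy.2.2)
    (by rw [hLc, hE'c]; exact hg)
  refine ⟨ψ, π, L.image (fun l => (c l, l)), ?_, ?_, ?_, ?_, ?_⟩
  · intro p hp
    obtain ⟨l, hl, rfl⟩ := mem_image.mp hp
    exact ⟨(hc l (hLA hl)).1, (hc l (hLA hl)).2, (hmem _ _).mp (h1 l hl)⟩
  · intro p hp p' hp' heq
    obtain ⟨l, hl, rfl⟩ := mem_image.mp hp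
    obtain ⟨l', hl', rfl⟩ := mem_image.mp hp'
    exact h3 l hl l' hl' heq
  · intro p hp p' hp' heq
    obtain ⟨l, hl, rfl⟩ := mem_image.mp hp
    obtain ⟨l', hl', rfl⟩ := mem_image.mp hp'
    exact h2 l hl l' hl' heq
  · intro p hp p' hp' hne'
    obtain ⟨l, hl, rfl⟩ := mem_image.mp hp
    obtain ⟨l', hl', rfl⟩ := mem_image.mp hp'
    have := h4 l hl l' hl' (fun h => hne' (by rw [h]))
    exact this
  · rw [card_image_of_injective _ (fun a b h => (Prod.mk.inj h).2), hLc]

/-- dense case -/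
lemma hit_dense (A B : Finset V) (nb : V → Finset V) (E : Finset (V × V))
    (Y : Finset V) (Nn : V → Finset V) (q D : ℕ) (W : Finset V)
    (hnbA : ∀ b ∈ B, nb b ⊆ A)
    (hNE : ∀ y ∈ Y, ∀ z ∈ Nn y, (y, z) ∈ E)
    (hW : W.card ≤ q * D)
    (hhalf : Y.card ≤ 2 * (Y.filter (fun y => D ≤ 2 * (Nn y ∩ W).card)).card)
    (hBY : 2 * B.card ≤ Y.card) (hAD : 2 * A.card ≤ D) (hDpos : 0 < D) (hYne : Y.Nonempty) :
    ∃ m, HitN B nb E m ∧ ∑ b ∈ B, (nb b).card ≤ 2 * q * m := by
  classical
  set Y' := Y.filter (fun y => D ≤ 2 * (Nn y ∩ W).card) with hY'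
  have hYpos : 0 < Y.card := card_pos.mpr hYne
  have hY'ne : Y'.Nonempty := by rw [← card_pos]; omega
  have hBY' : B.card ≤ Y'.card := by omega
  obtain ⟨ψ, hψ1, hψ2, _⟩ := exists_inj_avg (ι := V) B Y' hBY' hY'ne ∅ id (fun _ => ∅)
  obtain ⟨y0, hy0⟩ := hY'ne
  have hy0' := (mem_filter.mp hy0).2
  have hWge : (Nn y0 ∩ W).card ≤ W.card := card_le_card inter_subset_right
  have hAW : A.card ≤ W.card := by omega
  have hWne : W.Nonempty := by rw [← card_pos]; omega
  set I : Finset (V × V) := (B ×ˢ A).filter (fun p => p.2 ∈ nb p.1) with hI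
  obtain ⟨π, hπ1, hπ2, hπ3⟩ := exists_inj_avg A W hAW hWne I (fun p => p.2)
    (fun p => Nn (ψ p.1))
  set H := I.filter (fun p => π p.2 ∈ Nn (ψ p.1)) with hH
  have hIcard : I.card = ∑ b ∈ B, (nb b).card := by
    have h1 : I.card = (B.sigma nb).card := by
      apply Finset.card_bij (fun p _ => (⟨p.1, p.2⟩ : Σ _ : V, V))
      · intro p hp
        rw [hI, mem_filter, mem_product] at hp
        rw [mem_sigma]
        exact ⟨hp.1.1, hp.2⟩
      · intro a _ b _ hab
        rw [Sigma.mk.injEq] at hab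
        exact Prod.ext hab.1 (eq_of_heq hab.2)
      · intro b hb
        rw [mem_sigma] at hb
        refine ⟨(b.1, b.2), ?_, rfl⟩
        rw [hI, mem_filter, mem_product]
        exact ⟨⟨hb.1, hnbA _ hb.1 hb.2⟩, hb.2⟩
    rw [h1, card_sigma]
  refine ⟨H.card, ⟨π, ψ, H, ?_, ?_, ?_, le_refl _⟩, ?_⟩
  · intro h hh
    rw [hH, mem_filter, hI, mem_filter, mem_product] at hh
    refine ⟨hh.1.1.1, hh.1.2, ?_⟩
    exact hNE _ (mem_filter.mp (hψ2 _ hh.1.1.1)).1 _ hh.2
  · intro h hh h' hh' heq
    rw [hH, mem_filter, hI, mem_filter, mem_product] at hh hh'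
    exact hπ1 (mem_coe.mpr hh.1.1.2) (mem_coe.mpr hh'.1.1.2) heq
  · intro h hh h' hh' heq
    rw [hH, mem_filter, hI, mem_filter, mem_product] at hh hh'
    exact hψ1 (mem_coe.mpr hh.1.1.1) (mem_coe.mpr hh'.1.1.1) heq
  · rw [← hIcard]
    have h1 : I.card * D ≤ (2 * q * H.card) * D := by
      calc I.card * D = ∑ _p ∈ I, D := by rw [sum_const, smul_eq_mul]
        _ ≤ ∑ p ∈ I, 2 * (Nn (ψ p.1) ∩ W).card := by
            apply sum_le_sum
            intro p hp
            rw [hI, mem_filter, mem_product] at hp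
            exact (mem_filter.mp (hψ2 _ hp.1.1)).2
        _ = 2 * ∑ p ∈ I, (Nn (ψ p.1) ∩ W).card := by rw [mul_sum]
        _ ≤ 2 * (W.card * H.card) := Nat.mul_le_mul_left _ hπ3
        _ ≤ 2 * ((q * D) * H.card) :=
            Nat.mul_le_mul_left _ (Nat.mul_le_mul_right _ hW)
        _ = (2 * q * H.card) * D := by ring
    exact Nat.le_of_mul_le_mul_right h1 hDpos

/-- The combined embedding lemma. -/
theorem al_full (B : Finset V) (nb : V → Finset V) (E : Finset (V × V)) (X : V × V → Finset ξ)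
    (k q J w μ κ h D n : ℕ) (hn : Fintype.card V = n) (hnpos : 0 < n)
    (hne : ∀ b ∈ B, (nb b).Nonempty) (hdk : ∀ b ∈ B, (nb b).card ≤ k)
    (hw : ∀ e ∈ E, (X e).card ≤ w)
    (hμ1 : ∀ z x, (univ.filter (fun y : V => (y, z) ∈ E ∧ x ∈ X (y, z))).card ≤ μ)
    (hμ2 : ∀ y x, (univ.filter (fun z : V => (y, z) ∈ E ∧ x ∈ X (y, z))).card ≤ μ)
    (hg1 : 2 * n * (h + h * w * μ) ≤ E.card)
    (hg2 : 2 * n * D ≤ E.card)
    (hc2 : 2 * ((h * q) * (1 + 4 * (w * μ))) ≤ D)
    (hc3 : 8 * h ^ 2 ≤ n)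
    (hc4 : 8 * ((h * q) ^ 2 * k ^ 2 * (D * w * μ)) ≤ κ * n ^ 2)
    (hkey : 4 * (k * D + 8 * n * J) ^ J ≤ q * (k * D) ^ J)
    (hJk : J ≤ k) (hDpos : 0 < D) (hk : 0 < k) (hq : 0 < q) :
    Hit B nb E X h ∨ (∃ m, HitN B nb E m ∧ ∑ b ∈ B, (nb b).card ≤ 2 * q * m) ∨
      (∃ m, Hit B nb E X m ∧ ∑ b ∈ B, (J * (nb b).card / k) ≤ 2 * (m + κ)) := by
  classical
  subst hn
  set n := Fintype.card V with hn
  set A : Finset V := B.biUnion nb with hA
  by_cases hBh : h ≤ B.card
  · left
    exact hit_of_B B nb E X w μ h hnpos hne hw hμ1 hg1 hBh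
  by_cases hAh : h ≤ A.card
  · left
    apply hit_of_A A B nb E X w μ h hnpos ?_ hw hμ2 hg1 hAh
    intro a ha
    rw [hA, mem_biUnion] at ha
    exact ha
  push Not at hBh hAh
  right
  -- high degree vertices and cut neighbourhoods
  set E' : Finset (V × V) := E.image Prod.swap with hE'
  have hmem : ∀ y z, (z, y) ∈ E' ↔ (y, z) ∈ E := by
    intro y z
    rw [hE', mem_image]
    constructor
    · rintro ⟨p, hp, hpe⟩
      have : p = (y, z) := by
        have := congrArg Prod.swap hpe
        simpa using this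
      rw [← this]; exact hp
    · intro h; exact ⟨(y, z), h, rfl⟩
  have hE'c : E'.card = E.card := card_image_of_injective _ Prod.swap_injective
  have hmany := many_high_degree E' D (by rw [hE'c]; exact hg2) hnpos
  set Y := univ.filter (fun y : V => D ≤ (univ.filter (fun z : V => (z, y) ∈ E')).card) with hY
  have hcut : ∀ y : V, ∃ T : Finset V, y ∈ Y →
      T ⊆ univ.filter (fun z : V => (y, z) ∈ E) ∧ T.card = D := by
    intro y
    by_cases hy : y ∈ Y
    · have h1 := (mem_filter.mp hy).2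
      have h2 : univ.filter (fun z : V => (z, y) ∈ E') = univ.filter (fun z : V => (y, z) ∈ E) := by
        ext z
        rw [mem_filter, mem_filter, hmem]
      rw [h2] at h1
      obtain ⟨T, hT1, hT2⟩ := exists_subset_card_eq h1
      exact ⟨T, fun _ => ⟨hT1, hT2⟩⟩
    · exact ⟨∅, fun h => absurd h hy⟩
  choose Nn hNn using hcut
  have hNE : ∀ y ∈ Y, ∀ z ∈ Nn y, (y, z) ∈ E :=
    fun y hy z hz => (mem_filter.mp ((hNn y hy).1 hz)).2
  have hhq : h ≤ h * q := Nat.le_mul_of_pos_right _ hq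
  have hhq2 : h * q ≤ (h * q) * (1 + 4 * (w * μ)) :=
    Nat.le_mul_of_pos_right _ (by omega)
  have h2D : 2 * h ≤ D := by omega
  have hYD : D ≤ Y.card := hmany
  by_cases hsp : ∀ W : Finset V, W.card ≤ q * D →
      2 * (Y.filter (fun y => D ≤ 2 * (Nn y ∩ W).card)).card < Y.card
  · right
    obtain ⟨v0⟩ : Nonempty V := Fintype.card_pos_iff.mp hnpos
    have : Nonempty V := ⟨v0⟩
    have hBq : B.card * q ≤ h * q := Nat.mul_le_mul_right _ hBh.le
    obtain ⟨π, ψ, H, h1, h2, h3, h4, h5⟩ := al_main A B nb Y Nn (fun y z => X (y, z))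
      k q J w μ D κ hnpos hdk (fun y hy => (hNn y hy).2)
      (fun y hy z hz => hw _ (hNE y hy z hz))
      (by
        intro z x
        refine le_trans (card_le_card ?_) (hμ1 z x)
        intro y hy
        rw [mem_filter] at hy ⊢
        exact ⟨mem_univ _, hNE y hy.1 z hy.2.1, hy.2.2⟩)
      (by
        intro y hy x
        refine le_trans (card_le_card ?_) (hμ2 y x)
        intro z hz
        rw [mem_filter] at hz ⊢
        exact ⟨mem_univ _, hNE y hy z hz.1, hz.2⟩)
      hsp
      (by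
        calc 2 * ((B.card * q) * (1 + 4 * (w * μ))) ≤ 2 * ((h * q) * (1 + 4 * (w * μ))) :=
              Nat.mul_le_mul_left _ (Nat.mul_le_mul_right _ hBq)
          _ ≤ D := hc2
          _ ≤ Y.card := hYD)
      (by
        calc 8 * A.card ^ 2 ≤ 8 * h ^ 2 :=
              Nat.mul_le_mul_left _ (Nat.pow_le_pow_left hAh.le 2)
          _ ≤ n := hc3)
      (by
        calc 8 * ((B.card * q) ^ 2 * k ^ 2 * (D * w * μ))
            ≤ 8 * ((h * q) ^ 2 * k ^ 2 * (D * w * μ)) := by
              apply Nat.mul_le_mul_left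
              apply Nat.mul_le_mul_right
              apply Nat.mul_le_mul_right
              exact Nat.pow_le_pow_left hBq 2
          _ ≤ κ * n ^ 2 := hc4)
      hkey hJk hDpos hk hq
    refine ⟨H.card, ⟨π, ψ, H, ?_, ?_, ?_, h4, le_refl _⟩, h5⟩
    · intro p hp
      obtain ⟨ha, hb, hc, hd⟩ := h1 p hp
      exact ⟨ha, hb, hNE _ hc _ hd⟩
    · intro p hp p' hp' heq
      obtain ⟨ha, hb, hc, hd⟩ := h1 p hp
      obtain ⟨ha', hb', hc', hd'⟩ := h1 p' hp'
      exact h2 (mem_coe.mpr (mem_biUnion.mpr ⟨_, ha, hb⟩))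
        (mem_coe.mpr (mem_biUnion.mpr ⟨_, ha', hb'⟩)) heq
    · intro p hp p' hp' heq
      obtain ⟨ha, hb, hc, hd⟩ := h1 p hp
      obtain ⟨ha', hb', hc', hd'⟩ := h1 p' hp'
      exact h3 (mem_coe.mpr ha) (mem_coe.mpr ha') heq
  · left
    push Not at hsp
    obtain ⟨W, hW1, hW2⟩ := hsp
    have hYne : Y.Nonempty := by rw [← card_pos]; omega
    exact hit_dense A B nb E Y Nn q D W (fun b hb => subset_biUnion_of_mem nb hb) hNE hW1 hW2
      (by omega) (by omega) hDpos hYne

end ALFull

end Pool.Agent.Lib.MP_9dddc4_co
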