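import Mathlib
import Pool.Agent.Lib.MP_9dddc4_co.Tools

namespace Pool.Agent.Lib.MP_9dddc4_co

open Finset

section OL

variable {V : Type*} [Fintype V] [DecidableEq V]

lemma orient_low (O : Finset (V × V)) (k : ℕ) (hne : ∀ p ∈ O, p.1 ≠ p.2)
    (hdeg : ∀ b, (univ.filter (fun a : V => (a, b) ∈ O)).card ≤ k) :
    ∃ (B : Finset V) (nb : V → Finset V),
      (∀ b ∈ B, (nb b).Nonempty ∧ (nb b).card ≤ k) ∧
      (∀ b ∈ B, ∀ a ∈ nb b, (a, b) ∈ O) ∧
      (∀ b ∈ B, ∀ b' ∈ B, ∀ a ∈ nb b, a ≠ b') ∧
      O.card ≤ 4 * ∑ b ∈ B, (nb b).card := by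
  classical
  obtain ⟨c, hc⟩ := exists_coloring2 O (fun p => p.1) (fun p => p.2) hne
  set O' := O.filter (fun p => c p.1 = 0 ∧ c p.2 = 1) with hO'
  refine ⟨O'.image Prod.snd, fun b => univ.filter (fun a => (a, b) ∈ O'), ?_, ?_, ?_, ?_⟩
  · intro b hb
    obtain ⟨p, hp, rfl⟩ := mem_image.mp hb
    constructor
    · exact ⟨p.1, mem_filter.mpr ⟨mem_univ _, hp⟩⟩
    · refine le_trans (card_le_card ?_) (hdeg p.2)
      intro a ha
      rw [mem_filter] at ha ⊢
      exact ⟨mem_univ _, (mem_filter.mp ha.2).1⟩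
  · intro b _ a ha
    exact (mem_filter.mp (mem_filter.mp ha).2).1
  · intro b _ b' hb' a ha heq
    obtain ⟨p, hp, rfl⟩ := mem_image.mp hb'
    have h1 := (mem_filter.mp (mem_filter.mp ha).2).2.1
    have h2 := (mem_filter.mp hp).2.2
    simp only at h1
    rw [heq, h2] at h1
    exact absurd h1 (by decide)
  · have h1 : O'.card = ∑ b ∈ O'.image Prod.snd, (univ.filter (fun a => (a, b) ∈ O')).card := by
      rw [card_eq_sum_card_fiberwise (f := Prod.snd) (t := O'.image Prod.snd)
        (fun p hp => mem_image_of_mem _ hp)]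
      apply sum_congr rfl
      intro b _
      apply Finset.card_bij (fun p _ => p.1)
      · intro p hp
        rw [mem_filter] at hp ⊢
        refine ⟨mem_univ _, ?_⟩
        rw [← hp.2]
        exact hp.1
      · intro p hp p' hp' heq
        rw [mem_filter] at hp hp'
        exact Prod.ext heq (hp.2.trans hp'.2.symm)
      · intro a ha
        rw [mem_filter] at ha
        exact ⟨(a, b), mem_filter.mpr ⟨ha.2, rfl⟩, rfl⟩
    rw [← h1]
    exact hc

lemma high_count (O : Finset (V × V)) (k : ℕ) :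
    (univ.filter (fun b : V => k < (univ.filter (fun a : V => (a, b) ∈ O)).card)).card * k
      ≤ O.card := by
  classical
  have hsum : O.card = ∑ b : V, (univ.filter (fun a : V => (a, b) ∈ O)).card := by
    rw [card_eq_sum_card_fiberwise (f := Prod.snd) (t := univ) (fun p _ => mem_univ _)]
    apply sum_congr rfl
    intro b _
    apply Finset.card_bij (fun p _ => p.1)
    · intro p hp
      rw [mem_filter] at hp ⊢
      refine ⟨mem_univ _, ?_⟩
      rw [← hp.2]
      exact hp.1
    · intro p hp p' hp' heq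
      rw [mem_filter] at hp hp'
      exact Prod.ext heq (hp.2.trans hp'.2.symm)
    · intro a ha
      rw [mem_filter] at ha
      exact ⟨(a, b), mem_filter.mpr ⟨ha.2, rfl⟩, rfl⟩
  rw [hsum]
  calc (univ.filter (fun b : V => k < (univ.filter (fun a : V => (a, b) ∈ O)).card)).card * k
      = ∑ _b ∈ univ.filter (fun b : V => k < (univ.filter (fun a : V => (a, b) ∈ O)).card), k := by
        rw [sum_const, smul_eq_mul]
    _ ≤ ∑ b ∈ univ.filter (fun b : V => k < (univ.filter (fun a : V => (a, b) ∈ O)).card),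
          (univ.filter (fun a : V => (a, b) ∈ O)).card := by
        apply sum_le_sum
        intro b hb
        exact (mem_filter.mp hb).2.le
    _ ≤ _ := sum_le_sum_of_subset (filter_subset _ _)

/-- orientation lemma -/
lemma orientation (O : Finset (V × V)) (k : ℕ) (hk : 100 ≤ k) (hne : ∀ p ∈ O, p.1 ≠ p.2)
    (hO : k ^ 2 ≤ 100 * O.card) :
    ∃ (B : Finset V) (nb : V → Finset V),
      (∀ b ∈ B, (nb b).Nonempty ∧ (nb b).card ≤ k) ∧
      (∀ b ∈ B, ∀ a ∈ nb b, (a, b) ∈ O ∨ (b, a) ∈ O) ∧
      (∀ b ∈ B, ∀ b' ∈ B, ∀ a ∈ nb b, a ≠ b') ∧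
      k ^ 2 ≤ 1600 * ∑ b ∈ B, (nb b).card := by
  classical
  have hm : (k ^ 2 + 99) / 100 ≤ O.card := by omega
  obtain ⟨O1, hO1, hO1c⟩ := exists_subset_card_eq hm
  have hO1lo : k ^ 2 ≤ 100 * O1.card := by omega
  have hO1hi : 100 * O1.card ≤ k ^ 2 + 99 := by omega
  set O1s := O1.image Prod.swap with hO1s
  have hmem : ∀ a b, (b, a) ∈ O1s ↔ (a, b) ∈ O1 := by
    intro a b
    rw [hO1s, mem_image]
    constructor
    · rintro ⟨p, hp, hpe⟩
      have : p = (a, b) := by
        have := congrArg Prod.swap hpe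
        simpa using this
      rw [← this]; exact hp
    · intro h; exact ⟨(a, b), h, rfl⟩
  have hO1sc : O1s.card = O1.card := card_image_of_injective _ Prod.swap_injective
  set H2 := univ.filter (fun b : V => k < (univ.filter (fun a : V => (a, b) ∈ O1)).card) with hH2
  set H1 := univ.filter (fun a : V => k < (univ.filter (fun b : V => (b, a) ∈ O1s)).card) with hH1
  have h2c := high_count O1 k
  have h1c := high_count O1s k
  rw [hO1sc] at h1c
  rw [← hH2] at h2c
  rw [← hH1] at h1c
  have h2c' : 50 * H2.card ≤ k := by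
    by_contra hcon
    push Not at hcon
    nlinarith
  have h1c' : 50 * H1.card ≤ k := by
    by_contra hcon
    push Not at hcon
    nlinarith
  have hbad : (O1.filter (fun p => p.1 ∈ H1 ∧ p.2 ∈ H2)).card ≤ H1.card * H2.card := by
    rw [← card_product]
    apply card_le_card
    intro p hp
    rw [mem_filter] at hp
    exact mem_product.mpr hp.2
  have hbad' : 2500 * (O1.filter (fun p => p.1 ∈ H1 ∧ p.2 ∈ H2)).card ≤ k ^ 2 := by
    have : (50 * H1.card) * (50 * H2.card) ≤ k * k := Nat.mul_le_mul h1c' h2c'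
    nlinarith
  have hcov : O1.card ≤ (O1.filter (fun p => p.1 ∈ H1 ∧ p.2 ∈ H2)).card +
      (O1.filter (fun p => p.2 ∉ H2)).card + (O1.filter (fun p => p.1 ∉ H1)).card := by
    have hsub : O1 ⊆ (O1.filter (fun p => p.1 ∈ H1 ∧ p.2 ∈ H2)) ∪
      (O1.filter (fun p => p.2 ∉ H2)) ∪ (O1.filter (fun p => p.1 ∉ H1)) := by
      intro p hp
      by_cases ha : p.1 ∈ H1
      · by_cases hb : p.2 ∈ H2
        · exact mem_union_left _ (mem_union_left _ (mem_filter.mpr ⟨hp, ha, hb⟩))
        · exact mem_union_left _ (mem_union_right _ (mem_filter.mpr ⟨hp, hb⟩))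
      · exact mem_union_right _ (mem_filter.mpr ⟨hp, ha⟩)
    have c1 := card_le_card hsub
    have c2 := card_union_le ((O1.filter (fun p => p.1 ∈ H1 ∧ p.2 ∈ H2)) ∪
      (O1.filter (fun p => p.2 ∉ H2))) (O1.filter (fun p => p.1 ∉ H1))
    have c3 := card_union_le (O1.filter (fun p => p.1 ∈ H1 ∧ p.2 ∈ H2))
      (O1.filter (fun p => p.2 ∉ H2))
    omega
  have hdich : k ^ 2 ≤ 400 * (O1.filter (fun p => p.2 ∉ H2)).card ∨
      k ^ 2 ≤ 400 * (O1.filter (fun p => p.1 ∉ H1)).card := by
    omega
  rcases hdich with h | h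
  · obtain ⟨B, nb, b1, b2, b3, b4⟩ := orient_low (O1.filter (fun p => p.2 ∉ H2)) k
      (fun p hp => hne p (hO1 (mem_filter.mp hp).1))
      (by
        intro b
        by_cases hb : b ∈ H2
        · have : univ.filter (fun a : V => (a, b) ∈ O1.filter (fun p => p.2 ∉ H2)) = ∅ := by
            apply filter_false_of_mem
            intro a _ ha
            exact (mem_filter.mp ha).2 hb
          rw [this]; simp
        · have hb2 : (univ.filter (fun a : V => (a, b) ∈ O1)).card ≤ k := by
            by_contra hcon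
            exact hb (mem_filter.mpr ⟨mem_univ _, not_le.mp hcon⟩)
          refine le_trans (card_le_card ?_) hb2
          intro a ha
          rw [mem_filter] at ha ⊢
          exact ⟨mem_univ _, (mem_filter.mp ha.2).1⟩)
    refine ⟨B, nb, b1, ?_, b3, by omega⟩
    intro b hb a ha
    left
    exact hO1 (mem_filter.mp (b2 b hb a ha)).1
  · obtain ⟨B, nb, b1, b2, b3, b4⟩ := orient_low (O1s.filter (fun p => p.2 ∉ H1)) k
      (by
        intro p hp
        have hp1 := (mem_filter.mp hp).1
        have hp2 : (p.2, p.1) ∈ O1 := (hmem p.2 p.1).mp hp1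
        exact (hne _ (hO1 hp2)).symm)
      (by
        intro b
        by_cases hb : b ∈ H1
        · have : univ.filter (fun a : V => (a, b) ∈ O1s.filter (fun p => p.2 ∉ H1)) = ∅ := by
            apply filter_false_of_mem
            intro a _ ha
            exact (mem_filter.mp ha).2 hb
          rw [this]; simp
        · have hb2 : (univ.filter (fun a : V => (a, b) ∈ O1s)).card ≤ k := by
            by_contra hcon
            exact hb (mem_filter.mpr ⟨mem_univ _, not_le.mp hcon⟩)
          refine le_trans (card_le_card ?_) hb2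
          intro a ha
          rw [mem_filter] at ha ⊢
          exact ⟨mem_univ _, (mem_filter.mp ha.2).1⟩)
    have hcc : (O1s.filter (fun p => p.2 ∉ H1)).card = (O1.filter (fun p => p.1 ∉ H1)).card := by
      apply Finset.card_bij (fun p _ => p.swap)
      · intro p hp
        rw [mem_filter] at hp ⊢
        exact ⟨(hmem p.2 p.1).mp hp.1, hp.2⟩
      · intro a _ b _ hab
        exact Prod.swap_injective hab
      · intro p hp
        rw [mem_filter] at hp
        refine ⟨p.swap, ?_, by simp⟩
        rw [mem_filter]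
        exact ⟨(hmem p.1 p.2).mpr hp.1, hp.2⟩
    refine ⟨B, nb, b1, ?_, b3, by omega⟩
    intro b hb a ha
    right
    have := (mem_filter.mp (b2 b hb a ha)).1
    exact hO1 ((hmem b a).mp this)

end OL

end Pool.Agent.Lib.MP_9dddc4_co
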