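import Mathlib
import Pool.Agent.Lib.MP_9dddc4_co.ALFull
import Pool.Agent.Lib.MP_9dddc4_co.Orient

namespace Pool.Agent.Lib.MP_9dddc4_co

open Finset

/-- numerical parameters -/
structure Par (n k q J : ℕ) : Prop where
  q1 : 10 ^ 5 ≤ q
  kq : q ^ 200 ≤ k
  kn : k ^ 3 ≤ n * q
  J1 : 1 ≤ J
  Jq : J ≤ q
  star : ∀ j ≤ J, 4 * (k ^ 3 + 6912 * n * J) ^ j ≤ q * (k ^ 3) ^ j

namespace Par

variable {n k q J : ℕ}

lemma qpos (h : Par n k q J) : 0 < q := lt_of_lt_of_le (by norm_num) h.q1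

lemma kpos (h : Par n k q J) : 0 < k := lt_of_lt_of_le (pow_pos h.qpos _) h.kq

lemma kpow (h : Par n k q J) {a : ℕ} (ha : a ≤ 200) : q ^ a ≤ k :=
  (Nat.pow_le_pow_right h.qpos ha).trans h.kq

lemma ckpow (h : Par n k q J) {a c : ℕ} (hc : c ≤ 10 ^ 5) (ha : a ≤ 199) : c * q ^ a ≤ k := by
  calc c * q ^ a ≤ q * q ^ a := Nat.mul_le_mul_right _ (hc.trans h.q1)
    _ = q ^ (a + 1) := by ring
    _ ≤ k := h.kpow (by omega)

lemma kn2 (h : Par n k q J) : k ^ 2 * q ^ 199 ≤ n := by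
  have h1 : q * (k ^ 2 * q ^ 199) ≤ q * n := by
    calc q * (k ^ 2 * q ^ 199) = k ^ 2 * q ^ 200 := by ring
      _ ≤ k ^ 2 * k := Nat.mul_le_mul_left _ h.kq
      _ = k ^ 3 := by ring
      _ ≤ n * q := h.kn
      _ = q * n := by ring
  exact Nat.le_of_mul_le_mul_left h1 h.qpos

lemma knpow (h : Par n k q J) {a : ℕ} (ha : a ≤ 199) : k ^ 2 * q ^ a ≤ n :=
  (Nat.mul_le_mul_left _ (Nat.pow_le_pow_right h.qpos ha)).trans h.kn2

lemma cknpow (h : Par n k q J) {a c : ℕ} (hc : c ≤ 10 ^ 5) (ha : a ≤ 198) :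
    c * (k ^ 2 * q ^ a) ≤ n := by
  calc c * (k ^ 2 * q ^ a) ≤ q * (k ^ 2 * q ^ a) := Nat.mul_le_mul_right _ (hc.trans h.q1)
    _ = k ^ 2 * q ^ (a + 1) := by ring
    _ ≤ n := h.knpow (by omega)

lemma npos (h : Par n k q J) : 0 < n :=
  lt_of_lt_of_le (by have := h.kpos; have := h.qpos; positivity) h.kn2

lemma k6 (h : Par n k q J) : k ^ 6 ≤ n ^ 2 * q ^ 2 := by
  calc k ^ 6 = (k ^ 3) ^ 2 := by ring
    _ ≤ (n * q) ^ 2 := Nat.pow_le_pow_left h.kn 2
    _ = n ^ 2 * q ^ 2 := by ring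

/-- the key numerical condition, with label size `ω` -/
lemma key (h : Par n k q J) {J' D ω : ℕ} (hJω : J' * ω ≤ J)
    (hratio : J' * k ^ 2 ≤ 864 * ω * J * D) :
    4 * (k * D + 8 * n * J') ^ J' ≤ q * (k * D) ^ J' := by
  have hk := h.kpos
  set K := k ^ 3 with hK
  set c := 6912 * n * J with hc
  have hKpos : 0 < K := by positivity
  -- (kD + 8nJ') K ≤ kD (K + ω c)
  have h1 : (k * D + 8 * n * J') * K ≤ (k * D) * (K + ω * c) := by
    have h2 : 8 * n * J' * K ≤ (k * D) * (ω * c) := by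
      calc 8 * n * J' * K = (8 * n * k) * (J' * k ^ 2) := by rw [hK]; ring
        _ ≤ (8 * n * k) * (864 * ω * J * D) := Nat.mul_le_mul_left _ hratio
        _ = (k * D) * (ω * c) := by rw [hc]; ring
    calc (k * D + 8 * n * J') * K = k * D * K + 8 * n * J' * K := by ring
      _ ≤ k * D * K + (k * D) * (ω * c) := Nat.add_le_add_left h2 _
      _ = _ := by ring
  rcases Nat.eq_zero_or_pos ω with hω | hω
  · subst hω
    have h2 : (k * D + 8 * n * J') ≤ k * D := by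
      have : (k * D + 8 * n * J') * K ≤ (k * D) * K := by simpa using h1
      exact Nat.le_of_mul_le_mul_right this hKpos
    have h3 := h.star 0 (Nat.zero_le _)
    simp at h3
    calc 4 * (k * D + 8 * n * J') ^ J' ≤ 4 * (k * D) ^ J' :=
          Nat.mul_le_mul_left _ (Nat.pow_le_pow_left h2 _)
      _ ≤ q * (k * D) ^ J' := Nat.mul_le_mul_right _ h3
  -- Bernoulli
  have hB : (K + ω * c) * K ^ (ω - 1) ≤ (K + c) ^ ω := by
    obtain ⟨m, rfl⟩ : ∃ m, ω = m + 1 := ⟨ω - 1, by omega⟩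
    rw [Nat.add_sub_cancel]
    clear hJω hratio h1 hω
    induction m with
    | zero => simp
    | succ m ih =>
      calc (K + (m + 1 + 1) * c) * K ^ (m + 1)
          ≤ ((K + (m + 1) * c) * K ^ m) * (K + c) := by
            rw [pow_succ]
            have : (K + (m + 1 + 1) * c) * (K ^ m * K) =
              K ^ m * (K * K + (m + 2) * c * K) := by ring
            rw [this]
            have : ((K + (m + 1) * c) * K ^ m) * (K + c) =
              K ^ m * (K * K + (m + 2) * c * K + (m + 1) * c * c) := by ring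
            rw [this]
            exact Nat.mul_le_mul_left _ (Nat.le_add_right _ _)
        _ ≤ (K + c) ^ (m + 1) * (K + c) := Nat.mul_le_mul_right _ ih
        _ = (K + c) ^ (m + 1 + 1) := by ring
  have hst := h.star (J' * ω) hJω
  rw [← hK, ← hc] at hst
  have h4 : (4 * (k * D + 8 * n * J') ^ J') * (K ^ ω) ^ J'
      ≤ (q * (k * D) ^ J') * (K ^ ω) ^ J' := by
    have hKω : K ^ ω = K * K ^ (ω - 1) := by
      rw [← pow_succ']
      congr 1
      omega
    calc (4 * (k * D + 8 * n * J') ^ J') * (K ^ ω) ^ J'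
        = 4 * (((k * D + 8 * n * J') * K) * K ^ (ω - 1)) ^ J' := by
          rw [hKω]
          simp only [mul_pow]
          ring
      _ ≤ 4 * (((k * D) * (K + ω * c)) * K ^ (ω - 1)) ^ J' := by
          apply Nat.mul_le_mul_left
          apply Nat.pow_le_pow_left
          exact Nat.mul_le_mul_right _ h1
      _ = 4 * ((k * D) * ((K + ω * c) * K ^ (ω - 1))) ^ J' := by rw [mul_assoc (k * D)]
      _ ≤ 4 * ((k * D) * (K + c) ^ ω) ^ J' := by
          apply Nat.mul_le_mul_left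
          apply Nat.pow_le_pow_left
          exact Nat.mul_le_mul_left _ hB
      _ = (k * D) ^ J' * (4 * (K + c) ^ (J' * ω)) := by
          rw [mul_pow, ← pow_mul, mul_comm ω J']; ring
      _ ≤ (k * D) ^ J' * (q * K ^ (J' * ω)) := Nat.mul_le_mul_left _ hst
      _ = (q * (k * D) ^ J') * (K ^ ω) ^ J' := by
          rw [← pow_mul, mul_comm J' ω]; ring
  exact Nat.le_of_mul_le_mul_right h4 (by positivity)

end Par

section Embed

variable {V ξ : Type*} [Fintype V] [DecidableEq V] [DecidableEq ξ]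

/-- the unified embedding lemma -/
theorem embed {n k q J : ℕ} (P : Par n k q J) (hn : Fintype.card V = n)
    (B : Finset V) (nb : V → Finset V)
    (hB : ∀ b ∈ B, (nb b).Nonempty ∧ (nb b).card ≤ k)
    (hBs : k ^ 2 ≤ 1600 * ∑ b ∈ B, (nb b).card)
    (E : Finset (V × V)) (X : V × V → Finset ξ) (ω μ J' D : ℕ)
    (hw : ∀ e ∈ E, (X e).card ≤ ω)
    (hμ1 : ∀ z x, (univ.filter (fun y : V => (y, z) ∈ E ∧ x ∈ X (y, z))).card ≤ μ)
    (hμ2 : ∀ y x, (univ.filter (fun z : V => (y, z) ∈ E ∧ x ∈ X (y, z))).card ≤ μ)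
    (hJ' : 1 ≤ J') (hω : 1 ≤ ω) (hJω : J' * ω ≤ J) (hωμ : ω * μ ≤ q ^ 48)
    (hD1 : 2 * n * D ≤ E.card) (hD2 : D ≤ k ^ 2) (hD3 : k ^ 2 ≤ D * q ^ 60)
    (hratio : J' * k ^ 2 ≤ 864 * ω * J * D) :
    (∃ m, Hit B nb E X m ∧ J' * k ≤ 12800 * m) ∨ (∃ m, HitN B nb E m ∧ k ^ 2 ≤ 3200 * q * m) := by
  classical
  have hqpos := P.qpos
  have hkpos := P.kpos
  have hnpos := P.npos
  have hJ'J : J' ≤ J := (Nat.le_mul_of_pos_right _ hω).trans hJω
  have hJ'q : J' ≤ q := hJ'J.trans P.Jq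
  set h := J' * k / 3200 with hh
  have hk3200 : 3200 ≤ k := by
    have := P.ckpow (a := 0) (c := 3200) (by norm_num) (by norm_num)
    simpa using this
  have hJ'k : 3200 ≤ J' * k := hk3200.trans (Nat.le_mul_of_pos_left _ hJ')
  have hh1 : J' * k ≤ 6400 * h := by omega
  have hh2 : 3200 * h ≤ J' * k := by omega
  have hhkq : h ≤ k * q := by
    calc h ≤ 3200 * h := by omega
      _ ≤ J' * k := hh2
      _ ≤ q * k := Nat.mul_le_mul_right _ hJ'q
      _ = k * q := by ring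
  have hDk : ∀ a c, c ≤ 10 ^ 5 → a ≤ 138 → c * (k * q ^ a) ≤ D := by
    intro a c hc ha
    have h1 : (c * (k * q ^ a)) * q ^ 60 ≤ D * q ^ 60 := by
      calc (c * (k * q ^ a)) * q ^ 60 = k * (c * q ^ (a + 60)) := by ring
        _ ≤ k * k := Nat.mul_le_mul_left _ (P.ckpow hc (by omega))
        _ = k ^ 2 := by ring
        _ ≤ D * q ^ 60 := hD3
    exact Nat.le_of_mul_le_mul_right h1 (by positivity)
  have hDpos : 0 < D := by
    have := hDk 0 1 (by norm_num) (by norm_num)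
    simp at this
    omega
  have h1ωμ : 1 + ω * μ ≤ 2 * q ^ 48 := by
    have : 1 ≤ q ^ 48 := Nat.one_le_pow _ _ hqpos
    omega
  have h14ωμ : 1 + 4 * (ω * μ) ≤ 5 * q ^ 48 := by
    have : 1 ≤ q ^ 48 := Nat.one_le_pow _ _ hqpos
    omega
  have hg1 : 2 * n * (h + h * ω * μ) ≤ E.card := by
    calc 2 * n * (h + h * ω * μ) = 2 * n * (h * (1 + ω * μ)) := by ring
      _ ≤ 2 * n * ((k * q) * (2 * q ^ 48)) :=
          Nat.mul_le_mul_left _ (Nat.mul_le_mul hhkq h1ωμ)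
      _ = 2 * n * (2 * (k * q ^ 49)) := by ring
      _ ≤ 2 * n * D := Nat.mul_le_mul_left _ (hDk 49 2 (by norm_num) (by norm_num))
      _ ≤ E.card := hD1
  by_cases hBh : h ≤ B.card
  · left
    refine ⟨h, hit_of_B B nb E X ω μ h (by rw [hn]; exact hnpos) (fun b hb => (hB b hb).1)
      hw hμ1 (by rw [hn]; exact hg1) hBh, ?_⟩
    omega
  push Not at hBh
  have hc2 : 2 * ((h * q) * (1 + 4 * (ω * μ))) ≤ D := by
    calc 2 * ((h * q) * (1 + 4 * (ω * μ))) ≤ 2 * (((k * q) * q) * (5 * q ^ 48)) :=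
          Nat.mul_le_mul_left _ (Nat.mul_le_mul (Nat.mul_le_mul_right _ hhkq) h14ωμ)
      _ = 10 * (k * q ^ 50) := by ring
      _ ≤ D := hDk 50 10 (by norm_num) (by norm_num)
  have hc3 : 8 * h ^ 2 ≤ n := by
    calc 8 * h ^ 2 ≤ 8 * (k * q) ^ 2 := Nat.mul_le_mul_left _ (Nat.pow_le_pow_left hhkq 2)
      _ = 8 * (k ^ 2 * q ^ 2) := by ring
      _ ≤ n := P.cknpow (by norm_num) (by norm_num)
  have hc4 : 8 * ((h * q) ^ 2 * k ^ 2 * (D * ω * μ)) ≤ q ^ 55 * n ^ 2 := by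
    calc 8 * ((h * q) ^ 2 * k ^ 2 * (D * ω * μ))
        = 8 * ((h * q) ^ 2 * k ^ 2 * (D * (ω * μ))) := by ring
      _ ≤ 8 * ((k * q * q) ^ 2 * k ^ 2 * (k ^ 2 * q ^ 48)) := by
          apply Nat.mul_le_mul_left
          apply Nat.mul_le_mul
          · apply Nat.mul_le_mul_right
            exact Nat.pow_le_pow_left (Nat.mul_le_mul_right _ hhkq) 2
          · exact Nat.mul_le_mul hD2 hωμ
      _ = k ^ 6 * (8 * q ^ 52) := by ring
      _ ≤ (n ^ 2 * q ^ 2) * (8 * q ^ 52) := Nat.mul_le_mul_right _ P.k6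
      _ = (8 * q ^ 54) * n ^ 2 := by ring
      _ ≤ (q * q ^ 54) * n ^ 2 := by
          apply Nat.mul_le_mul_right
          apply Nat.mul_le_mul_right
          exact le_trans (by norm_num) P.q1
      _ = q ^ 55 * n ^ 2 := by ring
  have hkey := P.key hJω hratio
  have hJ'k2 : J' ≤ k := hJ'q.trans (by simpa using P.kpow (a := 1) (by norm_num))
  rcases al_full B nb E X k q J' ω μ (q ^ 55) h D n hn hnpos (fun b hb => (hB b hb).1)
    (fun b hb => (hB b hb).2) hw hμ1 hμ2 hg1 hD1 hc2 hc3 hc4 hkey hJ'k2 hDpos hkpos hqpos with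
    h1 | ⟨m, h1, h2⟩ | ⟨m, h1, h2⟩
  · left
    exact ⟨h, h1, by omega⟩
  · right
    refine ⟨m, h1, ?_⟩
    calc k ^ 2 ≤ 1600 * ∑ b ∈ B, (nb b).card := hBs
      _ ≤ 1600 * (2 * q * m) := Nat.mul_le_mul_left _ h2
      _ = 3200 * q * m := by ring
  · left
    refine ⟨m, h1, ?_⟩
    set sf := ∑ b ∈ B, (J' * (nb b).card / k) with hsf
    have h3 : J' * ∑ b ∈ B, (nb b).card ≤ k * (sf + B.card) := by
      calc J' * ∑ b ∈ B, (nb b).card = ∑ b ∈ B, J' * (nb b).card := by rw [mul_sum]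
        _ ≤ ∑ b ∈ B, (k * (J' * (nb b).card / k) + k) := by
            apply sum_le_sum
            intro b _
            have h4 := Nat.div_add_mod (J' * (nb b).card) k
            have h5 := Nat.mod_lt (J' * (nb b).card) hkpos
            omega
        _ = k * (sf + B.card) := by
            rw [sum_add_distrib, ← mul_sum, sum_const, smul_eq_mul, hsf]; ring
    have h4 : k * (J' * k) ≤ k * (1600 * (sf + B.card)) := by
      calc k * (J' * k) = J' * k ^ 2 := by ring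
        _ ≤ J' * (1600 * ∑ b ∈ B, (nb b).card) := Nat.mul_le_mul_left _ hBs
        _ = 1600 * (J' * ∑ b ∈ B, (nb b).card) := by ring
        _ ≤ 1600 * (k * (sf + B.card)) := Nat.mul_le_mul_left _ h3
        _ = k * (1600 * (sf + B.card)) := by ring
    have h5 := Nat.le_of_mul_le_mul_left h4 hkpos
    have h6 : 12800 * q ^ 55 ≤ J' * k := by
      calc 12800 * q ^ 55 ≤ k := P.ckpow (by norm_num) (by norm_num)
        _ ≤ J' * k := Nat.le_mul_of_pos_left _ hJ'
    omega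

end Embed

end Pool.Agent.Lib.MP_9dddc4_co
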