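import Mathlib

namespace Pool.Agent.Lib.MP_9dddc4_co

open Finset

section Common

variable {V : Type*} [DecidableEq V]

/-- `F` is a set of edges of `H`, living on `S`, and `f` embeds it into `H'`. -/
def Piece (H H' : Finset (Finset V)) (S : Finset V) (F : Finset (Finset V)) (f : V → V) : Prop :=
  Set.InjOn f S ∧ ∀ e ∈ F, e ⊆ S ∧ e ∈ H ∧ e.image f ∈ H'

/-- `H` and `H'` have a common subgraph with at least `m` edges. -/
def Common (H H' : Finset (Finset V)) (m : ℕ) : Prop :=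
  ∃ (S : Finset V) (F : Finset (Finset V)) (f : V → V), Piece H H' S F f ∧ m ≤ F.card

lemma Common.mono {H H' : Finset (Finset V)} {m m' : ℕ} (h : Common H H' m) (hm : m' ≤ m) :
    Common H H' m' := by
  obtain ⟨S, F, f, h1, h2⟩ := h
  exact ⟨S, F, f, h1, hm.trans h2⟩

lemma Common.symm {H H' : Finset (Finset V)} {m : ℕ} (h : Common H H' m) :
    Common H' H m := by
  classical
  obtain ⟨S, F, f, ⟨hf, hF⟩, hm⟩ := h
  -- inverse
  let g : V → V := fun w => if h : ∃ v ∈ S, f v = w then h.choose else w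
  have hg : ∀ v ∈ S, g (f v) = v := by
    intro v hv
    have h : ∃ u ∈ S, f u = f v := ⟨v, hv, rfl⟩
    have h2 := h.choose_spec
    simp only [g]
    rw [dif_pos h]
    exact hf h2.1 hv h2.2
  have hge : ∀ e : Finset V, e ⊆ S → (e.image f).image g = e := by
    intro e he
    rw [image_image]
    ext v
    rw [mem_image]
    constructor
    · rintro ⟨u, hu, rfl⟩
      rw [Function.comp_apply, hg u (he hu)]
      exact hu
    · intro hv
      exact ⟨v, hv, by rw [Function.comp_apply, hg v (he hv)]⟩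
  refine ⟨S.image f, F.image (fun e => e.image f), g, ⟨?_, ?_⟩, ?_⟩
  · intro a ha b hb hab
    have ha' : a ∈ S.image f := ha
    have hb' : b ∈ S.image f := hb
    obtain ⟨u, hu, rfl⟩ := mem_image.mp ha'
    obtain ⟨v, hv, rfl⟩ := mem_image.mp hb'
    rw [hg u hu, hg v hv] at hab
    rw [hab]
  · intro e he
    obtain ⟨e0, he0, rfl⟩ := mem_image.mp he
    obtain ⟨h1, h2, h3⟩ := hF e0 he0
    refine ⟨image_subset_image h1, h3, ?_⟩
    rw [hge e0 h1]
    exact h2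
  · rw [card_image_of_injOn]
    · exact hm
    · intro e he e' he' heq
      have h1 := hge e (hF e he).1
      have h2 := hge e' (hF e' he').1
      simp only at heq
      rw [heq] at h1
      rw [← h1, h2]

lemma Piece.union {H H' : Finset (Finset V)} {S S' : Finset V} {F F' : Finset (Finset V)}
    {f f' : V → V} (hP : Piece H H' S F f) (hP' : Piece H H' S' F' f')
    (hS : Disjoint S S') (hS' : Disjoint (S.image f) (S'.image f'))
    (hcard : ∀ e ∈ H, e.Nonempty) :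
    ∃ f'' : V → V, Piece H H' (S ∪ S') (F ∪ F') f'' ∧ (F ∪ F').card = F.card + F'.card ∧
      (S ∪ S').image f'' = S.image f ∪ S'.image f' := by
  classical
  have e1 : ∀ v ∈ S, (if v ∈ S then f v else f' v) = f v := fun v hv => if_pos hv
  have e2 : ∀ v ∈ S', (if v ∈ S then f v else f' v) = f' v := fun v hv =>
    if_neg (fun h => (Finset.disjoint_left.mp hS) h hv)
  have im1 : ∀ e : Finset V, e ⊆ S → e.image (fun v => if v ∈ S then f v else f' v) = e.image f := by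
    intro e he
    apply image_congr
    intro v hv
    exact e1 v (he hv)
  have im2 : ∀ e : Finset V, e ⊆ S' →
      e.image (fun v => if v ∈ S then f v else f' v) = e.image f' := by
    intro e he
    apply image_congr
    intro v hv
    exact e2 v (he hv)
  refine ⟨fun v => if v ∈ S then f v else f' v, ⟨?_, ?_⟩, ?_, ?_⟩
  · intro a ha b hb hab
    have ha' : a ∈ S ∪ S' := ha
    have hb' : b ∈ S ∪ S' := hb
    rw [mem_union] at ha' hb'
    simp only at hab
    rcases ha' with ha' | ha' <;> rcases hb' with hb' | hb'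
    · rw [e1 a ha', e1 b hb'] at hab
      exact hP.1 ha' hb' hab
    · rw [e1 a ha', e2 b hb'] at hab
      exfalso
      apply (Finset.disjoint_left.mp hS') (mem_image_of_mem f ha')
      rw [hab]
      exact mem_image_of_mem f' hb'
    · rw [e2 a ha', e1 b hb'] at hab
      exfalso
      apply (Finset.disjoint_left.mp hS') (mem_image_of_mem f hb')
      rw [← hab]
      exact mem_image_of_mem f' ha'
    · rw [e2 a ha', e2 b hb'] at hab
      exact hP'.1 ha' hb' hab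
  · intro e he
    rw [mem_union] at he
    rcases he with he | he
    · obtain ⟨h1, h2, h3⟩ := hP.2 e he
      refine ⟨h1.trans subset_union_left, h2, ?_⟩
      rw [im1 e h1]; exact h3
    · obtain ⟨h1, h2, h3⟩ := hP'.2 e he
      refine ⟨h1.trans subset_union_right, h2, ?_⟩
      rw [im2 e h1]; exact h3
  · apply card_union_of_disjoint
    rw [Finset.disjoint_left]
    intro e he he'
    obtain ⟨h1, h2, _⟩ := hP.2 e he
    obtain ⟨h1', _, _⟩ := hP'.2 e he'
    obtain ⟨v, hv⟩ := hcard e h2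
    exact (Finset.disjoint_left.mp hS) (h1 hv) (h1' hv)
  · rw [image_union, im1 S (Subset.refl _), im2 S' (Subset.refl _)]

/-- Common subgraphs from triple patterns. -/
theorem piece_of_triples {α β γ : Type*} (H H' : Finset (Finset V)) (Ts : Finset (α × β × γ))
    (pa pa' : α → V) (pb pb' : β → V) (pc pc' : γ → V)
    (ia : ∀ t ∈ Ts, ∀ t' ∈ Ts, pa t.1 = pa t'.1 → t.1 = t'.1)
    (ia' : ∀ t ∈ Ts, ∀ t' ∈ Ts, pa' t.1 = pa' t'.1 → t.1 = t'.1)
    (ib : ∀ t ∈ Ts, ∀ t' ∈ Ts, pb t.2.1 = pb t'.2.1 → t.2.1 = t'.2.1)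
    (ib' : ∀ t ∈ Ts, ∀ t' ∈ Ts, pb' t.2.1 = pb' t'.2.1 → t.2.1 = t'.2.1)
    (ic : ∀ t ∈ Ts, ∀ t' ∈ Ts, pc t.2.2 = pc t'.2.2 → t.2.2 = t'.2.2)
    (ic' : ∀ t ∈ Ts, ∀ t' ∈ Ts, pc' t.2.2 = pc' t'.2.2 → t.2.2 = t'.2.2)
    (hab : ∀ t ∈ Ts, ∀ t' ∈ Ts, pa t.1 ≠ pb t'.2.1)
    (hab' : ∀ t ∈ Ts, ∀ t' ∈ Ts, pa' t.1 ≠ pb' t'.2.1)
    (hac : ∀ t ∈ Ts, ∀ t' ∈ Ts, pa t.1 ≠ pc t'.2.2)
    (hac' : ∀ t ∈ Ts, ∀ t' ∈ Ts, pa' t.1 ≠ pc' t'.2.2)
    (hbc : ∀ t ∈ Ts, ∀ t' ∈ Ts, pb t.2.1 ≠ pc t'.2.2)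
    (hbc' : ∀ t ∈ Ts, ∀ t' ∈ Ts, pb' t.2.1 ≠ pc' t'.2.2)
    (hH : ∀ t ∈ Ts, ({pa t.1, pb t.2.1, pc t.2.2} : Finset V) ∈ H)
    (hH' : ∀ t ∈ Ts, ({pa' t.1, pb' t.2.1, pc' t.2.2} : Finset V) ∈ H')
    (Q Q' : Finset V)
    (hQ : ∀ t ∈ Ts, pa t.1 ∉ Q ∧ pb t.2.1 ∉ Q ∧ pc t.2.2 ∉ Q)
    (hQ' : ∀ t ∈ Ts, pa' t.1 ∉ Q' ∧ pb' t.2.1 ∉ Q' ∧ pc' t.2.2 ∉ Q') :
    ∃ (S : Finset V) (F : Finset (Finset V)) (f : V → V), Piece H H' S F f ∧
      F.card = Ts.card ∧ S.card ≤ 3 * Ts.card ∧ Disjoint S Q ∧ Disjoint (S.image f) Q' := by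
  classical
  let f : V → V := fun v =>
    if h : ∃ t ∈ Ts, pa t.1 = v then pa' h.choose.1
    else if h : ∃ t ∈ Ts, pb t.2.1 = v then pb' h.choose.2.1
    else if h : ∃ t ∈ Ts, pc t.2.2 = v then pc' h.choose.2.2 else v
  have fa : ∀ t ∈ Ts, f (pa t.1) = pa' t.1 := by
    intro t ht
    have h : ∃ u ∈ Ts, pa u.1 = pa t.1 := ⟨t, ht, rfl⟩
    simp only [f]
    rw [dif_pos h]
    rw [ia _ h.choose_spec.1 t ht h.choose_spec.2]
  have fb : ∀ t ∈ Ts, f (pb t.2.1) = pb' t.2.1 := by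
    intro t ht
    have h0 : ¬ ∃ u ∈ Ts, pa u.1 = pb t.2.1 := by
      rintro ⟨u, hu, h⟩
      exact hab u hu t ht h
    have h : ∃ u ∈ Ts, pb u.2.1 = pb t.2.1 := ⟨t, ht, rfl⟩
    simp only [f]
    rw [dif_neg h0, dif_pos h]
    rw [ib _ h.choose_spec.1 t ht h.choose_spec.2]
  have fc : ∀ t ∈ Ts, f (pc t.2.2) = pc' t.2.2 := by
    intro t ht
    have h0 : ¬ ∃ u ∈ Ts, pa u.1 = pc t.2.2 := by
      rintro ⟨u, hu, h⟩
      exact hac u hu t ht h
    have h1 : ¬ ∃ u ∈ Ts, pb u.2.1 = pc t.2.2 := by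
      rintro ⟨u, hu, h⟩
      exact hbc u hu t ht h
    have h : ∃ u ∈ Ts, pc u.2.2 = pc t.2.2 := ⟨t, ht, rfl⟩
    simp only [f]
    rw [dif_neg h0, dif_neg h1, dif_pos h]
    rw [ic _ h.choose_spec.1 t ht h.choose_spec.2]
  set S : Finset V := Ts.image (fun t => pa t.1) ∪ Ts.image (fun t => pb t.2.1) ∪
    Ts.image (fun t => pc t.2.2) with hS
  have hSmem : ∀ v, v ∈ S ↔ (∃ t ∈ Ts, pa t.1 = v) ∨ (∃ t ∈ Ts, pb t.2.1 = v) ∨
      (∃ t ∈ Ts, pc t.2.2 = v) := by
    intro v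
    rw [hS, mem_union, mem_union, mem_image, mem_image, mem_image, or_assoc]
  refine ⟨S, Ts.image (fun t => {pa t.1, pb t.2.1, pc t.2.2}), f, ⟨?_, ?_⟩, ?_, ?_, ?_, ?_⟩
  · intro v hv v' hv' heq
    have hv := (hSmem v).mp hv
    have hv' := (hSmem v').mp hv'
    rcases hv with ⟨t, ht, rfl⟩ | ⟨t, ht, rfl⟩ | ⟨t, ht, rfl⟩ <;>
      rcases hv' with ⟨t', ht', rfl⟩ | ⟨t', ht', rfl⟩ | ⟨t', ht', rfl⟩
    · rw [fa t ht, fa t' ht'] at heq; rw [ia' t ht t' ht' heq]
    · rw [fa t ht, fb t' ht'] at heq; exact absurd heq (hab' t ht t' ht')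
    · rw [fa t ht, fc t' ht'] at heq; exact absurd heq (hac' t ht t' ht')
    · rw [fb t ht, fa t' ht'] at heq; exact absurd heq.symm (hab' t' ht' t ht)
    · rw [fb t ht, fb t' ht'] at heq; rw [ib' t ht t' ht' heq]
    · rw [fb t ht, fc t' ht'] at heq; exact absurd heq (hbc' t ht t' ht')
    · rw [fc t ht, fa t' ht'] at heq; exact absurd heq.symm (hac' t' ht' t ht)
    · rw [fc t ht, fb t' ht'] at heq; exact absurd heq.symm (hbc' t' ht' t ht)
    · rw [fc t ht, fc t' ht'] at heq; rw [ic' t ht t' ht' heq]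
  · intro e he
    obtain ⟨t, ht, rfl⟩ := mem_image.mp he
    refine ⟨?_, hH t ht, ?_⟩
    · intro v hv
      rw [hSmem]
      simp only [mem_insert, mem_singleton] at hv
      rcases hv with rfl | rfl | rfl
      · exact Or.inl ⟨t, ht, rfl⟩
      · exact Or.inr (Or.inl ⟨t, ht, rfl⟩)
      · exact Or.inr (Or.inr ⟨t, ht, rfl⟩)
    · rw [image_insert, image_insert, image_singleton, fa t ht, fb t ht, fc t ht]
      exact hH' t ht
  · rw [card_image_of_injOn]
    intro t ht t' ht' heq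
    simp only at heq
    have ha : pa t.1 ∈ ({pa t'.1, pb t'.2.1, pc t'.2.2} : Finset V) := by
      rw [← heq]; exact mem_insert_self _ _
    have hb : pb t.2.1 ∈ ({pa t'.1, pb t'.2.1, pc t'.2.2} : Finset V) := by
      rw [← heq]; exact mem_insert_of_mem (mem_insert_self _ _)
    have hc : pc t.2.2 ∈ ({pa t'.1, pb t'.2.1, pc t'.2.2} : Finset V) := by
      rw [← heq]; exact mem_insert_of_mem (mem_insert_of_mem (mem_singleton_self _))
    simp only [mem_insert, mem_singleton] at ha hb hc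
    have h1 : t.1 = t'.1 := by
      rcases ha with h | h | h
      · exact ia t ht t' ht' h
      · exact absurd h (hab t ht t' ht')
      · exact absurd h (hac t ht t' ht')
    have h2 : t.2.1 = t'.2.1 := by
      rcases hb with h | h | h
      · exact absurd h.symm (hab t' ht' t ht)
      · exact ib t ht t' ht' h
      · exact absurd h (hbc t ht t' ht')
    have h3 : t.2.2 = t'.2.2 := by
      rcases hc with h | h | h
      · exact absurd h.symm (hac t' ht' t ht)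
      · exact absurd h.symm (hbc t' ht' t ht)
      · exact ic t ht t' ht' h
    exact Prod.ext h1 (Prod.ext h2 h3)
  · rw [hS]
    have c1 : (Ts.image (fun t => pa t.1)).card ≤ Ts.card := card_image_le
    have c2 : (Ts.image (fun t => pb t.2.1)).card ≤ Ts.card := card_image_le
    have c3 : (Ts.image (fun t => pc t.2.2)).card ≤ Ts.card := card_image_le
    have c4 := card_union_le (Ts.image (fun t => pa t.1) ∪ Ts.image (fun t => pb t.2.1))
      (Ts.image (fun t => pc t.2.2))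
    have c5 := card_union_le (Ts.image (fun t => pa t.1)) (Ts.image (fun t => pb t.2.1))
    omega
  · rw [Finset.disjoint_left]
    intro v hv
    rw [hSmem] at hv
    rcases hv with ⟨t, ht, rfl⟩ | ⟨t, ht, rfl⟩ | ⟨t, ht, rfl⟩
    · exact (hQ t ht).1
    · exact (hQ t ht).2.1
    · exact (hQ t ht).2.2
  · rw [Finset.disjoint_left]
    intro w hw
    obtain ⟨v, hv, rfl⟩ := mem_image.mp hw
    rw [hSmem] at hv
    rcases hv with ⟨t, ht, rfl⟩ | ⟨t, ht, rfl⟩ | ⟨t, ht, rfl⟩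
    · rw [fa t ht]; exact (hQ' t ht).1
    · rw [fb t ht]; exact (hQ' t ht).2.1
    · rw [fc t ht]; exact (hQ' t ht).2.2

end Common

end Pool.Agent.Lib.MP_9dddc4_co
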