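import Mathlib
import Pool.Agent.Lib.MP_9dddc4_co.Tools
import Pool.Agent.Lib.MP_9dddc4_co.Piece

namespace Pool.Agent.Lib.MP_9dddc4_co

open Finset

section Tri

variable {V : Type*} [Fintype V] [DecidableEq V]

/-- ordered triples spanning edges of `H`. -/
def Tri (H : Finset (Finset V)) : Finset (V × V × V) :=
  univ.filter (fun t => ({t.1, t.2.1, t.2.2} : Finset V) ∈ H)

lemma mem_Tri {H : Finset (Finset V)} {t : V × V × V} :
    t ∈ Tri H ↔ ({t.1, t.2.1, t.2.2} : Finset V) ∈ H := by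
  simp [Tri]

lemma mem_Tri' {H : Finset (Finset V)} {a b c : V} :
    (a, b, c) ∈ Tri H ↔ ({a, b, c} : Finset V) ∈ H := by
  simp [Tri]

lemma Tri_swap12 {H : Finset (Finset V)} {a b c : V} :
    (a, b, c) ∈ Tri H ↔ (b, a, c) ∈ Tri H := by
  rw [mem_Tri', mem_Tri', Finset.insert_comm]

lemma Tri_swap23 {H : Finset (Finset V)} {a b c : V} :
    (a, b, c) ∈ Tri H ↔ (a, c, b) ∈ Tri H := by
  rw [mem_Tri', mem_Tri', Finset.pair_comm]

lemma Tri_ne {H : Finset (Finset V)} (h3 : ∀ e ∈ H, e.card = 3) {a b c : V}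
    (h : (a, b, c) ∈ Tri H) : a ≠ b ∧ a ≠ c ∧ b ≠ c := by
  rw [mem_Tri'] at h
  have := h3 _ h
  rwa [Finset.card_triple_eq_three_iff] at this

lemma card_le_Tri {H : Finset (Finset V)} (h3 : ∀ e ∈ H, e.card = 3) :
    H.card ≤ (Tri H).card := by
  classical
  have hsub : H ⊆ (Tri H).image (fun t => ({t.1, t.2.1, t.2.2} : Finset V)) := by
    intro e he
    obtain ⟨x, y, z, _, _, _, rfl⟩ := card_eq_three.mp (h3 e he)
    rw [mem_image]
    exact ⟨(x, y, z), mem_Tri'.mpr he, rfl⟩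
  exact (card_le_card hsub).trans card_image_le

lemma Tri_card_le {H : Finset (Finset V)} (h3 : ∀ e ∈ H, e.card = 3) :
    (Tri H).card ≤ 27 * H.card := by
  classical
  have h := card_le_mul_card_image_of_maps_to
    (s := Tri H) (t := H) (f := fun t => ({t.1, t.2.1, t.2.2} : Finset V))
    (fun t ht => mem_Tri.mp ht) 27
    (by
      intro e he
      have hsub : (Tri H).filter (fun t => ({t.1, t.2.1, t.2.2} : Finset V) = e) ⊆
          e ×ˢ (e ×ˢ e) := by
        intro t ht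
        have h1 := (mem_filter.mp ht).2
        rw [mem_product, mem_product, ← h1]
        simp
      refine (card_le_card hsub).trans ?_
      rw [card_product, card_product, h3 e he])
  exact h

/-- count symmetry -/
lemma Tri_count_swap12 (H : Finset (Finset V)) (P : V → V → V → Prop)
    [∀ a b c, Decidable (P a b c)] :
    ((Tri H).filter (fun t => P t.1 t.2.1 t.2.2)).card
      = ((Tri H).filter (fun t => P t.2.1 t.1 t.2.2)).card := by
  apply Finset.card_bij (fun t _ => (t.2.1, t.1, t.2.2))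
  · rintro ⟨a, b, c⟩ ht
    rw [mem_filter] at ht ⊢
    exact ⟨Tri_swap12.mp ht.1, ht.2⟩
  · rintro ⟨a, b, c⟩ _ ⟨a', b', c'⟩ _ h
    simp only [Prod.mk.injEq] at h ⊢
    exact ⟨h.2.1, h.1, h.2.2⟩
  · rintro ⟨a, b, c⟩ ht
    rw [mem_filter] at ht
    exact ⟨(b, a, c), mem_filter.mpr ⟨Tri_swap12.mp ht.1, ht.2⟩, rfl⟩

lemma Tri_count_swap23 (H : Finset (Finset V)) (P : V → V → V → Prop)
    [∀ a b c, Decidable (P a b c)] :
    ((Tri H).filter (fun t => P t.1 t.2.1 t.2.2)).card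
      = ((Tri H).filter (fun t => P t.1 t.2.2 t.2.1)).card := by
  apply Finset.card_bij (fun t _ => (t.1, t.2.2, t.2.1))
  · rintro ⟨a, b, c⟩ ht
    rw [mem_filter] at ht ⊢
    exact ⟨Tri_swap23.mp ht.1, ht.2⟩
  · rintro ⟨a, b, c⟩ _ ⟨a', b', c'⟩ _ h
    simp only [Prod.mk.injEq] at h ⊢
    exact ⟨h.1, h.2.2, h.2.1⟩
  · rintro ⟨a, b, c⟩ ht
    rw [mem_filter] at ht
    exact ⟨(a, c, b), mem_filter.mpr ⟨Tri_swap23.mp ht.1, ht.2⟩, rfl⟩

omit [DecidableEq V] in
/-- a Latin square on a nonempty finite type -/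
lemma exists_latin (hV : 0 < Fintype.card V) :
    ∃ op : V → V → V, (∀ s, Function.Injective (op s)) ∧
      (∀ x y, ∃ s, op s x = y ∧ ∀ s', op s' x = y → s' = s) := by
  classical
  have : NeZero (Fintype.card V) := ⟨by omega⟩
  let e : V ≃ Fin (Fintype.card V) := Fintype.equivFin V
  refine ⟨fun s x => e.symm (e s + e x), ?_, ?_⟩
  · intro s x y h
    have h1 := e.symm.injective h
    exact e.injective (add_left_cancel h1)
  · intro x y
    refine ⟨e.symm (e y - e x), by simp, ?_⟩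
    intro s' h
    have h1 : e s' + e x = e y := by
      rw [← h]; simp
    have h2 : e s' = e y - e x := by rw [← h1]; simp
    rw [← h2]; simp

/-- random embedding: the common subgraph has at least the average size. -/
theorem common_random (H H' : Finset (Finset V)) (h3 : ∀ e ∈ H, e.card = 3)
    (h3' : ∀ e ∈ H', e.card = 3) (hV : 0 < Fintype.card V) :
    ∃ m, Common H H' m ∧
      (Tri H).card * (Tri H').card ≤ 729 * (Fintype.card V) ^ 3 * m := by
  classical
  obtain ⟨c, hc⟩ := exists_coloring3 (Tri H) (fun t => t.1) (fun t => t.2.1) (fun t => t.2.2)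
    (fun t ht => (Tri_ne h3 ht).1) (fun t ht => (Tri_ne h3 ht).2.1)
    (fun t ht => (Tri_ne h3 ht).2.2)
  obtain ⟨c', hc'⟩ := exists_coloring3 (Tri H') (fun t => t.1) (fun t => t.2.1)
    (fun t => t.2.2)
    (fun t ht => (Tri_ne h3' ht).1) (fun t ht => (Tri_ne h3' ht).2.1)
    (fun t ht => (Tri_ne h3' ht).2.2)
  set T1 := (Tri H).filter (fun i => c i.1 = 0 ∧ c i.2.1 = 1 ∧ c i.2.2 = 2) with hT1
  set T2 := (Tri H').filter (fun i => c' i.1 = 0 ∧ c' i.2.1 = 1 ∧ c' i.2.2 = 2) with hT2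
  obtain ⟨op, hop1, hop2⟩ := exists_latin hV
  let hits : V × V × V → Finset (V × V × V) := fun s =>
    T1.filter (fun t => (op s.1 t.1, op s.2.1 t.2.1, op s.2.2 t.2.2) ∈ T2)
  have hsum : ∑ s : V × V × V, (hits s).card = T1.card * T2.card := by
    simp only [hits]
    simp_rw [card_filter]
    rw [sum_comm]
    have h1 : ∀ t ∈ T1, ∑ s : V × V × V,
        (if (op s.1 t.1, op s.2.1 t.2.1, op s.2.2 t.2.2) ∈ T2 then 1 else 0) = T2.card := by
      intro t _
      rw [← card_filter]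
      apply Finset.card_bij (fun s _ => (op s.1 t.1, op s.2.1 t.2.1, op s.2.2 t.2.2))
      · intro s hs; exact (mem_filter.mp hs).2
      · rintro ⟨s1, s2, s3⟩ _ ⟨s1', s2', s3'⟩ _ h
        simp only [Prod.mk.injEq] at h
        obtain ⟨ha, hb, hcc⟩ := h
        obtain ⟨u, _, hu⟩ := hop2 t.1 (op s1' t.1)
        obtain ⟨v, _, hv⟩ := hop2 t.2.1 (op s2' t.2.1)
        obtain ⟨w, _, hw⟩ := hop2 t.2.2 (op s3' t.2.2)
        rw [hu s1 ha, hu s1' rfl, hv s2 hb, hv s2' rfl, hw s3 hcc, hw s3' rfl]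
      · rintro ⟨x, y, z⟩ hb
        obtain ⟨u, hu, _⟩ := hop2 t.1 x
        obtain ⟨v, hv, _⟩ := hop2 t.2.1 y
        obtain ⟨w, hw, _⟩ := hop2 t.2.2 z
        refine ⟨(u, v, w), ?_, ?_⟩
        · rw [mem_filter]
          refine ⟨mem_univ _, ?_⟩
          simp only [hu, hv, hw]
          exact hb
        · simp only [hu, hv, hw]
    rw [sum_congr rfl h1, sum_const, smul_eq_mul]
  have hne : (univ : Finset (V × V × V)).Nonempty := by
    obtain ⟨v⟩ := Fintype.card_pos_iff.mp hV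
    exact ⟨(v, v, v), mem_univ _⟩
  obtain ⟨s, _, hs⟩ : ∃ s ∈ (univ : Finset (V × V × V)),
      T1.card * T2.card ≤ (Fintype.card V) ^ 3 * (hits s).card := by
    by_contra hcon
    push Not at hcon
    have h1 : ∑ s : V × V × V, (Fintype.card V) ^ 3 * (hits s).card
        < ∑ _s : V × V × V, T1.card * T2.card :=
      sum_lt_sum_of_nonempty hne (fun s hs => hcon s hs)
    rw [← mul_sum, hsum, sum_const, smul_eq_mul, card_univ, Fintype.card_prod,
      Fintype.card_prod] at h1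
    have h2 : Fintype.card V * (Fintype.card V * Fintype.card V) * (T1.card * T2.card)
      = (Fintype.card V) ^ 3 * (T1.card * T2.card) := by ring
    rw [h2] at h1
    exact lt_irrefl _ h1
  have hm : ∀ t ∈ hits s, t ∈ Tri H ∧ (c t.1 = 0 ∧ c t.2.1 = 1 ∧ c t.2.2 = 2) ∧
      (op s.1 t.1, op s.2.1 t.2.1, op s.2.2 t.2.2) ∈ Tri H' ∧
      (c' (op s.1 t.1) = 0 ∧ c' (op s.2.1 t.2.1) = 1 ∧ c' (op s.2.2 t.2.2) = 2) := by
    intro t ht
    have h1 := mem_filter.mp ht
    have h2 := mem_filter.mp h1.1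
    have h4 := mem_filter.mp h1.2
    exact ⟨h2.1, h2.2, h4.1, h4.2⟩
  have hcol : ∀ {cc : V → Fin 3} {i j : Fin 3} {x y : V}, cc x = i → cc y = j → i ≠ j → x ≠ y := by
    intro cc i j x y hx hy hij hxy
    apply hij
    rw [← hx, ← hy, hxy]
  obtain ⟨S, F, f, hP, hF, _⟩ := piece_of_triples H H' (hits s) id (op s.1) id (op s.2.1) id
    (op s.2.2) (fun _ _ _ _ h => h) (fun _ _ _ _ h => hop1 _ h) (fun _ _ _ _ h => h)
    (fun _ _ _ _ h => hop1 _ h) (fun _ _ _ _ h => h) (fun _ _ _ _ h => hop1 _ h)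
    (fun t ht t' ht' => hcol (hm t ht).2.1.1 (hm t' ht').2.1.2.1 (by decide))
    (fun t ht t' ht' => hcol (hm t ht).2.2.2.1 (hm t' ht').2.2.2.2.1 (by decide))
    (fun t ht t' ht' => hcol (hm t ht).2.1.1 (hm t' ht').2.1.2.2 (by decide))
    (fun t ht t' ht' => hcol (hm t ht).2.2.2.1 (hm t' ht').2.2.2.2.2 (by decide))
    (fun t ht t' ht' => hcol (hm t ht).2.1.2.1 (hm t' ht').2.1.2.2 (by decide))
    (fun t ht t' ht' => hcol (hm t ht).2.2.2.2.1 (hm t' ht').2.2.2.2.2 (by decide))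
    (fun t ht => mem_Tri.mp (hm t ht).1)
    (fun t ht => mem_Tri'.mp (hm t ht).2.2.1)
    ∅ ∅ (by simp) (by simp)
  refine ⟨(hits s).card, ⟨S, F, f, hP, by rw [hF]⟩, ?_⟩
  calc (Tri H).card * (Tri H').card ≤ (27 * T1.card) * (27 * T2.card) := Nat.mul_le_mul hc hc'
    _ = 729 * (T1.card * T2.card) := by ring
    _ ≤ 729 * ((Fintype.card V) ^ 3 * (hits s).card) := Nat.mul_le_mul_left _ hs
    _ = 729 * (Fintype.card V) ^ 3 * (hits s).card := by ring

end Tri

end Pool.Agent.Lib.MP_9dddc4_co
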