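import Mathlib
import Pool.Agent.Lib.MP_9dddc4_co.TriBasic

namespace Pool.Agent.Lib.MP_9dddc4_co

open Finset

section Sun

variable {V : Type*} [Fintype V] [DecidableEq V]

def vs3 (t : V × V × V) : Finset V := {t.1, t.2.1, t.2.2}

def vs2 (p : V × V) : Finset V := {p.1, p.2}

def HasM (H : Finset (Finset V)) (s : ℕ) : Prop :=
  ∃ t : Fin s → V × V × V, (∀ i, t i ∈ Tri H) ∧ ∀ i j, i ≠ j → Disjoint (vs3 (t i)) (vs3 (t j))

def HasS1 (H : Finset (Finset V)) (s : ℕ) : Prop :=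
  ∃ (v : V) (p : Fin s → V × V), (∀ i, (v, (p i).1, (p i).2) ∈ Tri H) ∧
    ∀ i j, i ≠ j → Disjoint (vs2 (p i)) (vs2 (p j))

def HasS2 (H : Finset (Finset V)) (s : ℕ) : Prop :=
  ∃ (v w : V) (x : Fin s → V), Function.Injective x ∧ ∀ i, (v, w, x i) ∈ Tri H

omit [Fintype V] in
lemma exists_fin_inj (X : Finset V) (s : ℕ) (h : s ≤ X.card) :
    ∃ x : Fin s → V, Function.Injective x ∧ ∀ i, x i ∈ X := by
  classical
  refine ⟨fun i => (X.equivFin.symm (Fin.castLE h i)).1, ?_, fun i =>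
    (X.equivFin.symm (Fin.castLE h i)).2⟩
  intro a b hab
  have h1 := Subtype.ext hab
  exact Fin.castLE_injective h (X.equivFin.symm.injective h1)

omit [Fintype V] in
lemma disj_ne {A B : Finset V} (h : Disjoint A B) {x y : V} (hx : x ∈ A) (hy : y ∈ B) :
    x ≠ y := by
  intro hxy
  exact (Finset.disjoint_left.mp h) hx (hxy ▸ hy)

omit [Fintype V] in
lemma vs3_mem (t : V × V × V) : t.1 ∈ vs3 t ∧ t.2.1 ∈ vs3 t ∧ t.2.2 ∈ vs3 t := by
  simp [vs3]

omit [Fintype V] in
lemma vs2_mem (p : V × V) : p.1 ∈ vs2 p ∧ p.2 ∈ vs2 p := by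
  simp [vs2]

lemma common_M {H H' : Finset (Finset V)} (h3 : ∀ e ∈ H, e.card = 3)
    (h3' : ∀ e ∈ H', e.card = 3) {s : ℕ} (h : HasM H s) (h' : HasM H' s) :
    Common H H' s := by
  classical
  obtain ⟨t, ht1, ht2⟩ := h
  obtain ⟨t', ht1', ht2'⟩ := h'
  set Ts : Finset (Fin s × Fin s × Fin s) := univ.image (fun i => (i, i, i)) with hTs
  have hmem : ∀ u ∈ Ts, ∃ i, u = (i, i, i) := by
    intro u hu
    obtain ⟨i, _, rfl⟩ := mem_image.mp hu
    exact ⟨i, rfl⟩
  -- generic facts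
  have inj : ∀ (t : Fin s → V × V × V),
      (∀ i j, i ≠ j → Disjoint (vs3 (t i)) (vs3 (t j))) → ∀ i j,
      ((t i).1 = (t j).1 → i = j) ∧ ((t i).2.1 = (t j).2.1 → i = j) ∧
      ((t i).2.2 = (t j).2.2 → i = j) := by
    intro t ht i j
    refine ⟨?_, ?_, ?_⟩
    · intro h
      by_contra hij
      exact disj_ne (ht i j hij) (vs3_mem (t i)).1 (vs3_mem (t j)).1 h
    · intro h
      by_contra hij
      exact disj_ne (ht i j hij) (vs3_mem (t i)).2.1 (vs3_mem (t j)).2.1 h
    · intro h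
      by_contra hij
      exact disj_ne (ht i j hij) (vs3_mem (t i)).2.2 (vs3_mem (t j)).2.2 h
  have crs : ∀ (H : Finset (Finset V)) (_ : ∀ e ∈ H, e.card = 3) (t : Fin s → V × V × V)
      (_ : ∀ i, t i ∈ Tri H)
      (_ : ∀ i j, i ≠ j → Disjoint (vs3 (t i)) (vs3 (t j))), ∀ i j,
      ((t i).1 ≠ (t j).2.1) ∧ ((t i).1 ≠ (t j).2.2) ∧ ((t i).2.1 ≠ (t j).2.2) := by
    intro H h3 t htH ht i j
    by_cases hij : i = j
    · subst hij
      exact Tri_ne h3 (htH i)
    · exact ⟨disj_ne (ht i j hij) (vs3_mem (t i)).1 (vs3_mem (t j)).2.1,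
        disj_ne (ht i j hij) (vs3_mem (t i)).1 (vs3_mem (t j)).2.2,
        disj_ne (ht i j hij) (vs3_mem (t i)).2.1 (vs3_mem (t j)).2.2⟩
  obtain ⟨S, F, f, hP, hF, _⟩ := piece_of_triples H H' Ts
    (fun i => (t i).1) (fun i => (t' i).1) (fun i => (t i).2.1) (fun i => (t' i).2.1)
    (fun i => (t i).2.2) (fun i => (t' i).2.2)
    (by
      intro u hu u' hu' h
      obtain ⟨i, rfl⟩ := hmem u hu
      obtain ⟨j, rfl⟩ := hmem u' hu'
      exact (inj t ht2 i j).1 h)
    (by
      intro u hu u' hu' h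
      obtain ⟨i, rfl⟩ := hmem u hu
      obtain ⟨j, rfl⟩ := hmem u' hu'
      exact (inj t' ht2' i j).1 h)
    (by
      intro u hu u' hu' h
      obtain ⟨i, rfl⟩ := hmem u hu
      obtain ⟨j, rfl⟩ := hmem u' hu'
      exact (inj t ht2 i j).2.1 h)
    (by
      intro u hu u' hu' h
      obtain ⟨i, rfl⟩ := hmem u hu
      obtain ⟨j, rfl⟩ := hmem u' hu'
      exact (inj t' ht2' i j).2.1 h)
    (by
      intro u hu u' hu' h
      obtain ⟨i, rfl⟩ := hmem u hu
      obtain ⟨j, rfl⟩ := hmem u' hu'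
      exact (inj t ht2 i j).2.2 h)
    (by
      intro u hu u' hu' h
      obtain ⟨i, rfl⟩ := hmem u hu
      obtain ⟨j, rfl⟩ := hmem u' hu'
      exact (inj t' ht2' i j).2.2 h)
    (fun u _ u' _ => (crs H h3 t ht1 ht2 u.1 u'.2.1).1)
    (fun u _ u' _ => (crs H' h3' t' ht1' ht2' u.1 u'.2.1).1)
    (fun u _ u' _ => (crs H h3 t ht1 ht2 u.1 u'.2.2).2.1)
    (fun u _ u' _ => (crs H' h3' t' ht1' ht2' u.1 u'.2.2).2.1)
    (fun u _ u' _ => (crs H h3 t ht1 ht2 u.2.1 u'.2.2).2.2)
    (fun u _ u' _ => (crs H' h3' t' ht1' ht2' u.2.1 u'.2.2).2.2)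
    (by
      intro u hu
      obtain ⟨i, rfl⟩ := hmem u hu
      exact mem_Tri.mp (ht1 i))
    (by
      intro u hu
      obtain ⟨i, rfl⟩ := hmem u hu
      exact mem_Tri.mp (ht1' i))
    ∅ ∅ (by simp) (by simp)
  refine ⟨S, F, f, hP, ?_⟩
  rw [hF, hTs, card_image_of_injective _ (fun a b h => (Prod.mk.inj h).1), card_univ,
    Fintype.card_fin]

lemma common_S1 {H H' : Finset (Finset V)} (h3 : ∀ e ∈ H, e.card = 3)
    (h3' : ∀ e ∈ H', e.card = 3) {s : ℕ} (h : HasS1 H s) (h' : HasS1 H' s) :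
    Common H H' s := by
  classical
  obtain ⟨v, t, ht1, ht2⟩ := h
  obtain ⟨v', t', ht1', ht2'⟩ := h'
  set Ts : Finset (Unit × Fin s × Fin s) := univ.image (fun i => ((), i, i)) with hTs
  have hmem : ∀ u ∈ Ts, ∃ i, u = ((), i, i) := by
    intro u hu
    obtain ⟨i, _, rfl⟩ := mem_image.mp hu
    exact ⟨i, rfl⟩
  have inj : ∀ (t : Fin s → V × V),
      (∀ i j, i ≠ j → Disjoint (vs2 (t i)) (vs2 (t j))) → ∀ i j,
      ((t i).1 = (t j).1 → i = j) ∧ ((t i).2 = (t j).2 → i = j) := by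
    intro t ht i j
    refine ⟨?_, ?_⟩
    · intro h
      by_contra hij
      exact disj_ne (ht i j hij) (vs2_mem (t i)).1 (vs2_mem (t j)).1 h
    · intro h
      by_contra hij
      exact disj_ne (ht i j hij) (vs2_mem (t i)).2 (vs2_mem (t j)).2 h
  have crs : ∀ (H : Finset (Finset V)) (_ : ∀ e ∈ H, e.card = 3) (v : V) (t : Fin s → V × V)
      (_ : ∀ i, (v, (t i).1, (t i).2) ∈ Tri H)
      (_ : ∀ i j, i ≠ j → Disjoint (vs2 (t i)) (vs2 (t j))), ∀ i j,
      (v ≠ (t j).1) ∧ (v ≠ (t j).2) ∧ ((t i).1 ≠ (t j).2) := by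
    intro H h3 v t htH ht i j
    refine ⟨(Tri_ne h3 (htH j)).1, (Tri_ne h3 (htH j)).2.1, ?_⟩
    by_cases hij : i = j
    · subst hij
      exact (Tri_ne h3 (htH i)).2.2
    · exact disj_ne (ht i j hij) (vs2_mem (t i)).1 (vs2_mem (t j)).2
  obtain ⟨S, F, f, hP, hF, _⟩ := piece_of_triples H H' Ts
    (fun _ => v) (fun _ => v') (fun i => (t i).1) (fun i => (t' i).1)
    (fun i => (t i).2) (fun i => (t' i).2)
    (fun _ _ _ _ _ => rfl) (fun _ _ _ _ _ => rfl)
    (by
      intro u hu u' hu' h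
      obtain ⟨i, rfl⟩ := hmem u hu
      obtain ⟨j, rfl⟩ := hmem u' hu'
      exact (inj t ht2 i j).1 h)
    (by
      intro u hu u' hu' h
      obtain ⟨i, rfl⟩ := hmem u hu
      obtain ⟨j, rfl⟩ := hmem u' hu'
      exact (inj t' ht2' i j).1 h)
    (by
      intro u hu u' hu' h
      obtain ⟨i, rfl⟩ := hmem u hu
      obtain ⟨j, rfl⟩ := hmem u' hu'
      exact (inj t ht2 i j).2 h)
    (by
      intro u hu u' hu' h
      obtain ⟨i, rfl⟩ := hmem u hu
      obtain ⟨j, rfl⟩ := hmem u' hu'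
      exact (inj t' ht2' i j).2 h)
    (fun u _ u' _ => (crs H h3 v t ht1 ht2 u'.2.1 u'.2.1).1)
    (fun u _ u' _ => (crs H' h3' v' t' ht1' ht2' u'.2.1 u'.2.1).1)
    (fun u _ u' _ => (crs H h3 v t ht1 ht2 u'.2.2 u'.2.2).2.1)
    (fun u _ u' _ => (crs H' h3' v' t' ht1' ht2' u'.2.2 u'.2.2).2.1)
    (fun u _ u' _ => (crs H h3 v t ht1 ht2 u.2.1 u'.2.2).2.2)
    (fun u _ u' _ => (crs H' h3' v' t' ht1' ht2' u.2.1 u'.2.2).2.2)
    (by
      intro u hu
      obtain ⟨i, rfl⟩ := hmem u hu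
      exact mem_Tri'.mp (ht1 i))
    (by
      intro u hu
      obtain ⟨i, rfl⟩ := hmem u hu
      exact mem_Tri'.mp (ht1' i))
    ∅ ∅ (by simp) (by simp)
  refine ⟨S, F, f, hP, ?_⟩
  rw [hF, hTs, card_image_of_injective _ (fun a b h => (Prod.mk.inj (Prod.mk.inj h).2).1),
    card_univ, Fintype.card_fin]

lemma common_S2 {H H' : Finset (Finset V)} (h3 : ∀ e ∈ H, e.card = 3)
    (h3' : ∀ e ∈ H', e.card = 3) {s : ℕ} (h : HasS2 H s) (h' : HasS2 H' s) :
    Common H H' s := by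
  classical
  obtain ⟨v, w, x, hx, hxH⟩ := h
  obtain ⟨v', w', x', hx', hxH'⟩ := h'
  set Ts : Finset (Unit × Unit × Fin s) := univ.image (fun i => ((), (), i)) with hTs
  have hmem : ∀ u ∈ Ts, ∃ i, u = ((), (), i) := by
    intro u hu
    obtain ⟨i, _, rfl⟩ := mem_image.mp hu
    exact ⟨i, rfl⟩
  obtain ⟨S, F, f, hP, hF, _⟩ := piece_of_triples H H' Ts
    (fun _ => v) (fun _ => v') (fun _ => w) (fun _ => w') x x'
    (fun _ _ _ _ _ => rfl) (fun _ _ _ _ _ => rfl)
    (fun _ _ _ _ _ => rfl) (fun _ _ _ _ _ => rfl)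
    (fun _ _ _ _ h => hx h) (fun _ _ _ _ h => hx' h)
    (fun u _ u' _ => (Tri_ne h3 (hxH u'.2.2)).1)
    (fun u _ u' _ => (Tri_ne h3' (hxH' u'.2.2)).1)
    (fun u _ u' _ => (Tri_ne h3 (hxH u'.2.2)).2.1)
    (fun u _ u' _ => (Tri_ne h3' (hxH' u'.2.2)).2.1)
    (fun u _ u' _ => (Tri_ne h3 (hxH u'.2.2)).2.2)
    (fun u _ u' _ => (Tri_ne h3' (hxH' u'.2.2)).2.2)
    (fun u _ => mem_Tri'.mp (hxH u.2.2))
    (fun u _ => mem_Tri'.mp (hxH' u.2.2))
    ∅ ∅ (by simp) (by simp)
  refine ⟨S, F, f, hP, ?_⟩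
  rw [hF, hTs, card_image_of_injective _ (fun a b h => (Prod.mk.inj (Prod.mk.inj h).2).2),
    card_univ, Fintype.card_fin]

omit [Fintype V] in
lemma pigeon {τ : Type*} (T : Finset τ) (f : τ → V) (C : Finset V) (hC : ∀ t ∈ T, f t ∈ C)
    (hne : C.Nonempty) :
    ∃ v ∈ C, T.card ≤ C.card * (T.filter (fun t => f t = v)).card := by
  classical
  by_contra hcon
  push Not at hcon
  have h1 : T.card = ∑ v ∈ C, (T.filter (fun t => f t = v)).card :=
    card_eq_sum_card_fiberwise hC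
  have h2 : ∑ v ∈ C, C.card * (T.filter (fun t => f t = v)).card < ∑ _v ∈ C, T.card :=
    sum_lt_sum_of_nonempty hne hcon
  rw [← mul_sum, ← h1, sum_const, smul_eq_mul] at h2
  exact lt_irrefl _ h2

/-- ordered link pairs of a vertex -/
def Lk (H : Finset (Finset V)) (v : V) : Finset (V × V) :=
  univ.filter (fun p : V × V => (v, p.1, p.2) ∈ Tri H)

lemma mem_Lk {H : Finset (Finset V)} {v : V} {p : V × V} :
    p ∈ Lk H v ↔ (v, p.1, p.2) ∈ Tri H := by
  simp [Lk]

lemma Lk_card (H : Finset (Finset V)) (v : V) :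
    ((Tri H).filter (fun t => t.1 = v)).card = (Lk H v).card := by
  apply Finset.card_bij (fun t _ => t.2)
  · intro t ht
    rw [mem_filter] at ht
    rw [mem_Lk, ← ht.2]
    exact ht.1
  · intro t ht t' ht' h
    rw [mem_filter] at ht ht'
    exact Prod.ext (ht.2.trans ht'.2.symm) h
  · intro p hp
    rw [mem_Lk] at hp
    exact ⟨(v, p.1, p.2), mem_filter.mpr ⟨hp, rfl⟩, rfl⟩

/-- some vertex has a large link -/
lemma exists_large_link (H : Finset (Finset V)) (hV : 0 < Fintype.card V) :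
    ∃ v, (Tri H).card ≤ Fintype.card V * (Lk H v).card := by
  have hne : (univ : Finset V).Nonempty := by
    rw [← card_pos, card_univ]; exact hV
  obtain ⟨v, _, hv⟩ := pigeon (Tri H) (fun t => t.1) univ (fun _ _ => mem_univ _) hne
  rw [Lk_card, card_univ] at hv
  exact ⟨v, hv⟩

lemma Lk_symm {H : Finset (Finset V)} {v a b : V} : (a, b) ∈ Lk H v ↔ (b, a) ∈ Lk H v := by
  rw [mem_Lk, mem_Lk]; exact Tri_swap23

/-- covered triples: a third have their first vertex in the cover -/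
lemma cover_first (H : Finset (Finset V)) (C : Finset V)
    (hC : ∀ t ∈ Tri H, ¬ Disjoint (vs3 t) C) :
    (Tri H).card ≤ 3 * ((Tri H).filter (fun t => t.1 ∈ C)).card := by
  classical
  have h1 := Tri_count_swap12 H (fun a _ _ => a ∈ C)
  have h2 := Tri_count_swap23 H (fun _ b _ => b ∈ C)
  have hsub : Tri H ⊆ (Tri H).filter (fun t => t.1 ∈ C) ∪
      (Tri H).filter (fun t => t.2.1 ∈ C) ∪ (Tri H).filter (fun t => t.2.2 ∈ C) := by
    intro t ht
    have := hC t ht
    rw [not_disjoint_iff] at this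
    obtain ⟨x, hx, hxC⟩ := this
    simp only [vs3, mem_insert, mem_singleton] at hx
    rcases hx with rfl | rfl | rfl
    · exact mem_union_left _ (mem_union_left _ (mem_filter.mpr ⟨ht, hxC⟩))
    · exact mem_union_left _ (mem_union_right _ (mem_filter.mpr ⟨ht, hxC⟩))
    · exact mem_union_right _ (mem_filter.mpr ⟨ht, hxC⟩)
  have h3 := card_le_card hsub
  have h4 := card_union_le ((Tri H).filter (fun t => t.1 ∈ C) ∪
      (Tri H).filter (fun t => t.2.1 ∈ C)) ((Tri H).filter (fun t => t.2.2 ∈ C))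
  have h5 := card_union_le ((Tri H).filter (fun t => t.1 ∈ C))
      ((Tri H).filter (fun t => t.2.1 ∈ C))
  omega

/-- covered link pairs: half have their first vertex in the cover -/
lemma cover_first_Lk (H : Finset (Finset V)) (v : V) (C : Finset V)
    (hC : ∀ p ∈ Lk H v, ¬ Disjoint (vs2 p) C) :
    (Lk H v).card ≤ 2 * ((Lk H v).filter (fun p => p.1 ∈ C)).card := by
  classical
  have h1 : ((Lk H v).filter (fun p => p.2 ∈ C)).card
      = ((Lk H v).filter (fun p => p.1 ∈ C)).card := by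
    apply Finset.card_bij (fun p _ => p.swap)
    · rintro ⟨a, b⟩ hp
      rw [mem_filter] at hp ⊢
      exact ⟨Lk_symm.mp hp.1, hp.2⟩
    · intro a _ b _ h
      exact Prod.swap_injective h
    · rintro ⟨a, b⟩ hp
      rw [mem_filter] at hp
      exact ⟨(b, a), mem_filter.mpr ⟨Lk_symm.mp hp.1, hp.2⟩, rfl⟩
  have hsub : Lk H v ⊆ (Lk H v).filter (fun p => p.1 ∈ C) ∪
      (Lk H v).filter (fun p => p.2 ∈ C) := by
    intro p hp
    have := hC p hp
    rw [not_disjoint_iff] at this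
    obtain ⟨x, hx, hxC⟩ := this
    simp only [vs2, mem_insert, mem_singleton] at hx
    rcases hx with rfl | rfl
    · exact mem_union_left _ (mem_filter.mpr ⟨hp, hxC⟩)
    · exact mem_union_right _ (mem_filter.mpr ⟨hp, hxC⟩)
  have h3 := card_le_card hsub
  have h4 := card_union_le ((Lk H v).filter (fun p => p.1 ∈ C))
    ((Lk H v).filter (fun p => p.2 ∈ C))
  omega

omit [Fintype V] in
lemma vs3_card_le (t : V × V × V) : (vs3 t).card ≤ 3 := card_le_three

omit [Fintype V] in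
lemma vs2_card_le (p : V × V) : (vs2 p).card ≤ 2 := card_le_two

/-- a vertex of the link with large degree gives a kernel-2 sunflower -/
lemma HasS2_of_Lk {H : Finset (Finset V)} {v y : V} {s : ℕ}
    (h : s ≤ ((Lk H v).filter (fun p => p.1 = y)).card) : HasS2 H s := by
  classical
  have h1 : ((Lk H v).filter (fun p => p.1 = y)).card
      ≤ (((Lk H v).filter (fun p => p.1 = y)).image Prod.snd).card := by
    rw [card_image_of_injOn]
    intro p hp p' hp' heq
    have hp := (mem_filter.mp (mem_coe.mp hp)).2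
    have hp' := (mem_filter.mp (mem_coe.mp hp')).2
    exact Prod.ext (hp.trans hp'.symm) heq
  obtain ⟨x, hx, hxm⟩ := exists_fin_inj _ s (h.trans h1)
  refine ⟨v, y, x, hx, ?_⟩
  intro i
  obtain ⟨p, hp, hpx⟩ := mem_image.mp (hxm i)
  rw [mem_filter] at hp
  have := mem_Lk.mp hp.1
  rw [hp.2, hpx] at this
  exact this

/-- if there is no large matching, there are both kinds of sunflowers -/
lemma sun_of_no_matching {H : Finset (Finset V)} {s : ℕ} (hs : 0 < s)
    (hV : 0 < Fintype.card V)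
    (hT : 37 * s ^ 2 * Fintype.card V ≤ (Tri H).card) (hM : ¬ HasM H s) :
    HasS1 H s ∧ HasS2 H s := by
  classical
  set n := Fintype.card V with hn
  rcases matching_or_cover (Tri H) vs3 3 (fun t _ => vs3_card_le t) s with h | ⟨C, hC1, hC2⟩
  · exact absurd h hM
  have hTpos : 0 < (Tri H).card := by
    have : 0 < 37 * s ^ 2 * n := by positivity
    omega
  have hcf := cover_first H C hC2
  have hCne : C.Nonempty := by
    by_contra hemp
    rw [not_nonempty_iff_eq_empty] at hemp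
    have h00 : ((Tri H).filter (fun t => t.1 ∈ C)).card = 0 := by
      rw [card_eq_zero, filter_eq_empty_iff]
      intro t _ ht
      rw [hemp] at ht
      simp at ht
    omega
  obtain ⟨v, hv, hvc⟩ := pigeon ((Tri H).filter (fun t => t.1 ∈ C)) (fun t => t.1) C
    (fun t ht => (mem_filter.mp ht).2) hCne
  have h1 : (((Tri H).filter (fun t => t.1 ∈ C)).filter (fun t => t.1 = v)).card
      ≤ (Lk H v).card := by
    rw [← Lk_card]
    apply card_le_card
    intro t ht
    rw [mem_filter, mem_filter] at ht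
    exact mem_filter.mpr ⟨ht.1.1, ht.2⟩
  have h2 : (Tri H).card ≤ 9 * s * (Lk H v).card := by
    calc (Tri H).card ≤ 3 * ((Tri H).filter (fun t => t.1 ∈ C)).card := hcf
      _ ≤ 3 * (C.card * (Lk H v).card) :=
          Nat.mul_le_mul_left _ (hvc.trans (Nat.mul_le_mul_left _ h1))
      _ ≤ 3 * ((3 * s) * (Lk H v).card) :=
          Nat.mul_le_mul_left _ (Nat.mul_le_mul_right _ hC1)
      _ = 9 * s * (Lk H v).card := by ring
  have h3 : 4 * s * n < (Lk H v).card := by
    by_contra hcon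
    push Not at hcon
    have h4 : 9 * s * (Lk H v).card ≤ 9 * s * (4 * s * n) := Nat.mul_le_mul_left _ hcon
    have h5 : 9 * s * (4 * s * n) = 36 * s ^ 2 * n := by ring
    have h6 : 36 * s ^ 2 * n < 37 * s ^ 2 * n := by
      have : 0 < s ^ 2 * n := by positivity
      nlinarith
    omega
  constructor
  · rcases matching_or_cover (Lk H v) vs2 2 (fun p _ => vs2_card_le p) s with h | ⟨C', hC1', hC2'⟩
    · obtain ⟨t, ht1, ht2⟩ := h
      exact ⟨v, t, fun i => mem_Lk.mp (ht1 i), ht2⟩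
    · exfalso
      have h7 := cover_first_Lk H v C' hC2'
      have h8 : ((Lk H v).filter (fun p => p.1 ∈ C')).card ≤ C'.card * n := by
        rw [hn, ← card_univ, ← card_product]
        apply card_le_card
        intro p hp
        exact mem_product.mpr ⟨(mem_filter.mp hp).2, mem_univ _⟩
      have h9 : C'.card * n ≤ 2 * s * n := Nat.mul_le_mul_right _ hC1'
      have h10 : 4 * s * n = 2 * (2 * s * n) := by ring
      omega
  · have hne : (univ : Finset V).Nonempty := by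
      rw [← card_pos, card_univ]; exact hV
    obtain ⟨y, _, hy⟩ := pigeon (Lk H v) (fun p => p.1) univ (fun _ _ => mem_univ _) hne
    rw [card_univ, ← hn] at hy
    apply HasS2_of_Lk (v := v) (y := y)
    by_contra hcon
    push Not at hcon
    have h7 : n * ((Lk H v).filter (fun t => t.1 = y)).card ≤ n * s :=
      Nat.mul_le_mul_left _ hcon.le
    have h8 : n * s ≤ 4 * s * n := by nlinarith
    omega

/-- always one of the two sunflowers -/
lemma sun_dichotomy {H : Finset (Finset V)} {s : ℕ} (hs : 0 < s)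
    (hV : 0 < Fintype.card V)
    (hT : 37 * s ^ 2 * Fintype.card V ≤ (Tri H).card) :
    HasS1 H s ∨ HasS2 H s := by
  classical
  set n := Fintype.card V with hn
  obtain ⟨v, hv⟩ := exists_large_link H hV
  rw [← hn] at hv
  have h1 : 37 * s ^ 2 ≤ (Lk H v).card := by
    have : n * (37 * s ^ 2) ≤ n * (Lk H v).card := by
      calc n * (37 * s ^ 2) = 37 * s ^ 2 * n := by ring
        _ ≤ _ := hT.trans hv
    exact Nat.le_of_mul_le_mul_left this hV
  rcases matching_or_cover (Lk H v) vs2 2 (fun p _ => vs2_card_le p) s with h | ⟨C', hC1', hC2'⟩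
  · obtain ⟨t, ht1, ht2⟩ := h
    exact Or.inl ⟨v, t, fun i => mem_Lk.mp (ht1 i), ht2⟩
  · right
    have h7 := cover_first_Lk H v C' hC2'
    have hCne : C'.Nonempty := by
      by_contra hemp
      rw [not_nonempty_iff_eq_empty] at hemp
      subst hemp
      simp at h7
      have : 0 < 37 * s ^ 2 := by positivity
      rw [h7] at h1
      simp at h1
      omega
    obtain ⟨y, _, hy⟩ := pigeon ((Lk H v).filter (fun p => p.1 ∈ C')) (fun p => p.1) C'
      (fun t ht => (mem_filter.mp ht).2) hCne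
    apply HasS2_of_Lk (v := v) (y := y)
    have h8 : (((Lk H v).filter (fun p => p.1 ∈ C')).filter (fun t => t.1 = y)).card
        ≤ ((Lk H v).filter (fun p => p.1 = y)).card := by
      apply card_le_card
      intro p hp
      rw [mem_filter, mem_filter] at hp
      exact mem_filter.mpr ⟨hp.1.1, hp.2⟩
    by_contra hcon
    push Not at hcon
    have h9 : C'.card * (((Lk H v).filter (fun p => p.1 ∈ C')).filter (fun t => t.1 = y)).card
        ≤ (2 * s) * s := Nat.mul_le_mul hC1' (h8.trans hcon.le)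
    have h10 : 2 * ((2 * s) * s) = 4 * s ^ 2 := by ring
    have h11 : 0 < s ^ 2 := by positivity
    omega

/-- sunflower bound -/
theorem common_sun {H H' : Finset (Finset V)} (h3 : ∀ e ∈ H, e.card = 3)
    (h3' : ∀ e ∈ H', e.card = 3) {s : ℕ} (hs : 0 < s) (hV : 0 < Fintype.card V)
    (hT : 37 * s ^ 2 * Fintype.card V ≤ (Tri H).card)
    (hT' : 37 * s ^ 2 * Fintype.card V ≤ (Tri H').card) :
    Common H H' s := by
  by_cases hM : HasM H s
  · by_cases hM' : HasM H' s
    · exact common_M h3 h3' hM hM'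
    · obtain ⟨h1, h2⟩ := sun_of_no_matching hs hV hT' hM'
      rcases sun_dichotomy hs hV hT with h | h
      · exact common_S1 h3 h3' h h1
      · exact common_S2 h3 h3' h h2
  · obtain ⟨h1, h2⟩ := sun_of_no_matching hs hV hT hM
    rcases sun_dichotomy hs hV hT' with h | h
    · exact common_S1 h3 h3' h1 h
    · exact common_S2 h3 h3' h2 h

end Sun

end Pool.Agent.Lib.MP_9dddc4_co
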