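import Mathlib
import Pool.Agent.Lib.MP_9dddc4_co.Tools
import Pool.Agent.Lib.MP_9dddc4_co.Sun

namespace Pool.Agent.Lib.MP_9dddc4_co

open Finset

section RS

variable {V : Type*} [Fintype V] [DecidableEq V]

/-- neighbourhood of a pair -/
def Nb (H : Finset (Finset V)) (a b : V) : Finset V :=
  univ.filter (fun x : V => (a, b, x) ∈ Tri H)

lemma mem_Nb {H : Finset (Finset V)} {a b x : V} : x ∈ Nb H a b ↔ (a, b, x) ∈ Tri H := by
  simp [Nb]

/-- star pairs `(s,x)` with `s ∈ S` in the link of `v` -/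
def StP (H : Finset (Finset V)) (v : V) (S : Finset V) : Finset (V × V) :=
  (Lk H v).filter (fun p => p.1 ∈ S)

lemma mem_StP {H : Finset (Finset V)} {v : V} {S : Finset V} {p : V × V} :
    p ∈ StP H v S ↔ (v, p.1, p.2) ∈ Tri H ∧ p.1 ∈ S := by
  rw [StP, mem_filter, mem_Lk]

/-- rich + star gives a large common subgraph -/
theorem common_RS {H₁ H₂ : Finset (Finset V)} (h3 : ∀ e ∈ H₁, e.card = 3)
    (h3' : ∀ e ∈ H₂, e.card = 3) (t : V) (Bt : Finset V) (v : V) (S : Finset V) (δ N : ℕ)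
    (hSB : S.card ≤ Bt.card) (hN : 0 < N)
    (hcod : ∀ b ∈ Bt, δ + S.card + 1 ≤ (Nb H₁ t b).card)
    (hI : 4 * N * Fintype.card V ≤ δ * (StP H₂ v S).card) :
    Common H₂ H₁ N := by
  classical
  set n := Fintype.card V with hn
  set I := StP H₂ v S with hIdef
  obtain ⟨c, hc⟩ := exists_coloring2 I (fun p => p.1) (fun p => p.2) (by
    intro p hp
    exact (Tri_ne h3' (mem_StP.mp hp).1).2.2)
  set I' := I.filter (fun p => c p.1 = 0 ∧ c p.2 = 1) with hI'
  set S' := S.filter (fun s => c s = 0 ∧ s ≠ v) with hS'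
  have hS'c : S'.card ≤ S.card := card_filter_le _ _
  have hnpos : 0 < n := by rw [hn]; exact Fintype.card_pos_iff.mpr ⟨v⟩
  have hBne : S.Nonempty → Bt.Nonempty := by
    intro h
    rw [← card_pos] at h ⊢
    omega
  -- nonempty
  have hIpos : 0 < I.card := by
    by_contra hcon
    have h0 : I.card = 0 := by omega
    rw [h0, mul_zero] at hI
    have : 0 < 4 * N * n := by positivity
    omega
  have hδ : 0 < δ := by
    by_contra hcon
    have h0 : δ = 0 := by omega
    rw [h0, zero_mul] at hI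
    have : 0 < 4 * N * n := by positivity
    omega
  have hSne : S.Nonempty := by
    obtain ⟨p, hp⟩ := card_pos.mp hIpos
    exact ⟨p.1, (mem_StP.mp hp).2⟩
  have hBtne := hBne hSne
  -- injection of S' into Bt
  obtain ⟨β, hβ1, hβ2, _⟩ := exists_inj_avg (ι := V) S' Bt (hS'c.trans hSB) hBtne ∅ id
    (fun _ => ∅)
  have hβt : ∀ s ∈ S', β s ≠ t := by
    intro s hs hst
    have h1 := hcod _ (hβ2 s hs)
    have h2 : 0 < (Nb H₁ t (β s)).card := by omega
    obtain ⟨x, hx⟩ := card_pos.mp h2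
    exact (Tri_ne h3 (mem_Nb.mp hx)).1 hst.symm
  set A : Finset V := univ \ (insert v S') with hA
  set W : Finset V := univ \ (insert t (S'.image β)) with hW
  have hvS' : v ∉ S' := by
    intro h
    exact (mem_filter.mp h).2.2 rfl
  have htS' : t ∉ S'.image β := by
    intro h
    obtain ⟨s, hs, hst⟩ := mem_image.mp h
    exact hβt s hs hst
  have hAc : A.card = n - (S'.card + 1) := by
    rw [hA, card_sdiff_of_subset (subset_univ _), card_univ, card_insert_of_notMem hvS']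
  have hWc : W.card = n - (S'.card + 1) := by
    rw [hW, card_sdiff_of_subset (subset_univ _), card_univ, card_insert_of_notMem htS',
      card_image_of_injOn hβ1]
  have hWle : W.card ≤ n := by rw [hWc]; exact Nat.sub_le _ _
  have hWne : W.Nonempty := by
    obtain ⟨b, hb⟩ := hBtne
    have h1 := hcod b hb
    have h2 : (Nb H₁ t b).card ≤ n := card_le_univ _
    rw [← card_pos, hWc]
    omega
  obtain ⟨π, hπ1, hπ2, hπ3⟩ := exists_inj_avg A W (by rw [hAc, hWc]) hWne I' (fun p => p.2)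
    (fun p => Nb H₁ t (β p.1))
  set Hs := I'.filter (fun p => π p.2 ∈ Nb H₁ t (β p.1)) with hHs
  have hI'mem : ∀ p ∈ I', (v, p.1, p.2) ∈ Tri H₂ ∧ p.1 ∈ S' ∧ p.2 ∈ A := by
    intro p hp
    rw [hI', mem_filter] at hp
    obtain ⟨hp1, hp2, hp3⟩ := hp
    have h1 := mem_StP.mp hp1
    have h2 := Tri_ne h3' h1.1
    refine ⟨h1.1, mem_filter.mpr ⟨h1.2, hp2, h2.1.symm⟩, ?_⟩
    rw [hA, mem_sdiff]
    refine ⟨mem_univ _, ?_⟩
    rw [mem_insert]
    push Not
    refine ⟨h2.2.1.symm, ?_⟩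
    intro h
    have h4 := (mem_filter.mp h).2.1
    rw [hp3] at h4
    exact absurd h4 (by decide)
  have hterm : ∀ p ∈ I', δ ≤ (Nb H₁ t (β p.1) ∩ W).card := by
    intro p hp
    have hp1 := (hI'mem p hp).2.1
    have h1 := hcod _ (hβ2 _ hp1)
    have h2 : Nb H₁ t (β p.1) ⊆ (Nb H₁ t (β p.1) ∩ W) ∪ insert t (S'.image β) := by
      intro x hx
      by_cases hxx : x ∈ insert t (S'.image β)
      · exact mem_union_right _ hxx
      · exact mem_union_left _ (mem_inter.mpr ⟨hx, mem_sdiff.mpr ⟨mem_univ _, hxx⟩⟩)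
    have h3 := card_le_card h2
    have h4 := card_union_le (Nb H₁ t (β p.1) ∩ W) (insert t (S'.image β))
    have h5 : (insert t (S'.image β)).card ≤ S'.card + 1 := by
      rw [card_insert_of_notMem htS']
      exact Nat.add_le_add_right card_image_le _
    omega
  have hsum : I'.card * δ ≤ W.card * Hs.card := by
    calc I'.card * δ = ∑ _p ∈ I', δ := by rw [sum_const, smul_eq_mul]
      _ ≤ ∑ p ∈ I', (Nb H₁ t (β p.1) ∩ W).card := sum_le_sum hterm
      _ ≤ _ := hπ3
  have hHsN : N ≤ Hs.card := by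
    have h1 : 4 * n * N ≤ 4 * n * Hs.card := by
      calc 4 * n * N = 4 * N * n := by ring
        _ ≤ δ * I.card := hI
        _ ≤ δ * (4 * I'.card) := Nat.mul_le_mul_left _ hc
        _ = 4 * (I'.card * δ) := by ring
        _ ≤ 4 * (W.card * Hs.card) := Nat.mul_le_mul_left _ hsum
        _ ≤ 4 * (n * Hs.card) := Nat.mul_le_mul_left _ (Nat.mul_le_mul_right _ hWle)
        _ = 4 * n * Hs.card := by ring
    exact Nat.le_of_mul_le_mul_left h1 (by positivity)
  have hHmem : ∀ p ∈ Hs, (v, p.1, p.2) ∈ Tri H₂ ∧ p.1 ∈ S' ∧ p.2 ∈ A ∧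
      (t, β p.1, π p.2) ∈ Tri H₁ := by
    intro p hp
    rw [hHs, mem_filter] at hp
    obtain ⟨h1, h2, h3⟩ := hI'mem p hp.1
    exact ⟨h1, h2, h3, mem_Nb.mp hp.2⟩
  set Ts : Finset (Unit × V × V) := Hs.image (fun p => ((), p.1, p.2)) with hTs
  have hmem : ∀ u ∈ Ts, ∃ p ∈ Hs, u = ((), p.1, p.2) := by
    intro u hu
    obtain ⟨p, hp, rfl⟩ := mem_image.mp hu
    exact ⟨p, hp, rfl⟩
  obtain ⟨SS, F, f, hP, hF, _⟩ := piece_of_triples H₂ H₁ Ts
    (fun _ => v) (fun _ => t) (fun s => s) β (fun x => x) π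
    (fun _ _ _ _ _ => rfl) (fun _ _ _ _ _ => rfl)
    (fun _ _ _ _ h => h)
    (by
      intro u hu u' hu' h
      obtain ⟨p, hp, rfl⟩ := hmem u hu
      obtain ⟨p', hp', rfl⟩ := hmem u' hu'
      exact hβ1 (mem_coe.mpr (hHmem p hp).2.1) (mem_coe.mpr (hHmem p' hp').2.1) h)
    (fun _ _ _ _ h => h)
    (by
      intro u hu u' hu' h
      obtain ⟨p, hp, rfl⟩ := hmem u hu
      obtain ⟨p', hp', rfl⟩ := hmem u' hu'
      exact hπ1 (mem_coe.mpr (hHmem p hp).2.2.1) (mem_coe.mpr (hHmem p' hp').2.2.1) h)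
    (by
      intro u hu u' hu'
      obtain ⟨p', hp', rfl⟩ := hmem u' hu'
      exact (Tri_ne h3' (hHmem p' hp').1).1)
    (by
      intro u hu u' hu'
      obtain ⟨p', hp', rfl⟩ := hmem u' hu'
      exact (Tri_ne h3 (hHmem p' hp').2.2.2).1)
    (by
      intro u hu u' hu'
      obtain ⟨p', hp', rfl⟩ := hmem u' hu'
      exact (Tri_ne h3' (hHmem p' hp').1).2.1)
    (by
      intro u hu u' hu'
      obtain ⟨p', hp', rfl⟩ := hmem u' hu'
      exact (Tri_ne h3 (hHmem p' hp').2.2.2).2.1)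
    (by
      intro u hu u' hu'
      obtain ⟨p, hp, rfl⟩ := hmem u hu
      obtain ⟨p', hp', rfl⟩ := hmem u' hu'
      intro h
      have h1 := (hHmem p' hp').2.2.1
      rw [hA, mem_sdiff] at h1
      apply h1.2
      have h2 := (hHmem p hp).2.1
      simp only at h
      rw [← h]
      exact mem_insert_of_mem h2)
    (by
      intro u hu u' hu'
      obtain ⟨p, hp, rfl⟩ := hmem u hu
      obtain ⟨p', hp', rfl⟩ := hmem u' hu'
      intro h
      have h1 := hπ2 _ (hHmem p' hp').2.2.1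
      rw [hW, mem_sdiff] at h1
      apply h1.2
      have h2 := (hHmem p hp).2.1
      simp only at h
      rw [← h]
      exact mem_insert_of_mem (mem_image_of_mem β h2))
    (by
      intro u hu
      obtain ⟨p, hp, rfl⟩ := hmem u hu
      exact mem_Tri'.mp (hHmem p hp).1)
    (by
      intro u hu
      obtain ⟨p, hp, rfl⟩ := hmem u hu
      exact mem_Tri'.mp (hHmem p hp).2.2.2)
    ∅ ∅ (by simp) (by simp)
  refine ⟨SS, F, f, hP, ?_⟩
  rw [hF, hTs, card_image_of_injective _ (fun a b h => (Prod.mk.inj h).2)]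
  exact hHsN

end RS

end Pool.Agent.Lib.MP_9dddc4_co
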