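import Mathlib
import Pool.Agent.Lib.MP_9dddc4_co.RS
import Pool.Agent.Lib.MP_9dddc4_co.Embed

namespace Pool.Agent.Lib.MP_9dddc4_co

open Finset

/-- greedy choice of distinct representatives -/
lemma greedy_assign {ι V : Type*} [DecidableEq ι] [DecidableEq V] (I : Finset ι)
    (N : ι → Finset V) (hN : ∀ i ∈ I, I.card ≤ (N i).card) (hV : Nonempty V) :
    ∃ f : ι → V, (∀ i ∈ I, f i ∈ N i) ∧ (∀ i ∈ I, ∀ j ∈ I, f i = f j → i = j) := by
  classical
  have key : ∀ K : Finset ι, K ⊆ I → ∃ f : ι → V, (∀ i ∈ K, f i ∈ N i) ∧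
      (∀ i ∈ K, ∀ j ∈ K, f i = f j → i = j) := by
    intro K
    induction K using Finset.induction_on with
    | empty => intro _; exact ⟨fun _ => Classical.choice hV, by simp, by simp⟩
    | insert a K ha ih =>
      intro hsub
      obtain ⟨f, h1, h2⟩ := ih ((subset_insert _ _).trans hsub)
      have hc : (K.image f).card < (N a).card := by
        have h3 := card_le_card hsub
        rw [card_insert_of_notMem ha] at h3
        have h4 : (K.image f).card ≤ K.card := card_image_le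
        have h5 := hN a (hsub (mem_insert_self _ _))
        omega
      obtain ⟨w, hw1, hw2⟩ := exists_mem_notMem_of_card_lt_card hc
      refine ⟨Function.update f a w, ?_, ?_⟩
      · intro i hi
        by_cases hia : i = a
        · subst hia; rw [Function.update_self]; exact hw1
        · rw [Function.update_of_ne hia]
          exact h1 i ((mem_insert.mp hi).resolve_left hia)
      · intro i hi j hj hij
        by_cases hia : i = a
        · subst hia
          by_cases hja : j = i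
          · exact hja.symm
          · exfalso
            rw [Function.update_self, Function.update_of_ne hja] at hij
            apply hw2
            rw [hij]
            exact mem_image_of_mem f ((mem_insert.mp hj).resolve_left hja)
        · by_cases hja : j = a
          · subst hja
            exfalso
            rw [Function.update_self, Function.update_of_ne hia] at hij
            apply hw2
            rw [← hij]
            exact mem_image_of_mem f ((mem_insert.mp hi).resolve_left hia)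
          · rw [Function.update_of_ne hia, Function.update_of_ne hja] at hij
            exact h2 i ((mem_insert.mp hi).resolve_left hia) j
              ((mem_insert.mp hj).resolve_left hja) hij
  exact key I (Subset.refl _)

section HC

variable {V : Type*} [Fintype V] [DecidableEq V]

omit [Fintype V] [DecidableEq V] in
lemma Hit.mono {ξ : Type*} [DecidableEq ξ] {B : Finset V} {nb : V → Finset V}
    {E : Finset (V × V)} {X : V × V → Finset ξ} {m m' : ℕ} (h : Hit B nb E X m)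
    (hm : m' ≤ m) : ∃ (π ψ : V → V) (H : Finset (V × V)),
    (∀ h ∈ H, h.1 ∈ B ∧ h.2 ∈ nb h.1 ∧ (ψ h.1, π h.2) ∈ E) ∧
    (∀ h ∈ H, ∀ h' ∈ H, π h.2 = π h'.2 → h.2 = h'.2) ∧
    (∀ h ∈ H, ∀ h' ∈ H, ψ h.1 = ψ h'.1 → h.1 = h'.1) ∧
    (∀ h ∈ H, ∀ h' ∈ H, h ≠ h' → Disjoint (X (ψ h.1, π h.2)) (X (ψ h'.1, π h'.2))) ∧
    H.card = m' := by
  obtain ⟨π, ψ, H, h1, h2, h3, h4, h5⟩ := h
  obtain ⟨K, hK, hKc⟩ := exists_subset_card_eq (hm.trans h5)
  exact ⟨π, ψ, K, fun p hp => h1 p (hK hp), fun p hp p' hp' => h2 p (hK hp) p' (hK hp'),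
    fun p hp p' hp' => h3 p (hK hp) p' (hK hp'),
    fun p hp p' hp' => h4 p (hK hp) p' (hK hp'), hKc⟩

/-- hits with disjoint labels give common subgraphs -/
theorem hit_common {H₁ H₂ : Finset (Finset V)}
    (Q : Finset V) (N : V → V → Finset V) (δ : ℕ)
    (B : Finset V) (nb : V → Finset V) (E : Finset (V × V)) (X : V × V → Finset V)
    (ω m : ℕ) (c : V → Fin 3)
    (hQ : ∀ b ∈ B, ∀ a ∈ nb b, a ∈ Q ∧ b ∈ Q)
    (hN : ∀ b ∈ B, ∀ a ∈ nb b, δ ≤ (N b a).card)
    (hNQ : ∀ b ∈ B, ∀ a ∈ nb b, ∀ w ∈ N b a, w ∉ Q ∧ (b, a, w) ∈ Tri H₁)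
    (hBA : ∀ b ∈ B, ∀ b' ∈ B, ∀ a ∈ nb b, a ≠ b')
    (hE : ∀ e ∈ E, c e.1 = 0 ∧ c e.2 = 1 ∧ (X e).card = ω)
    (hX : ∀ e ∈ E, ∀ x ∈ X e, c x = 2 ∧ (e.1, e.2, x) ∈ Tri H₂)
    (hhit : Hit B nb E X m) (hm : m * ω ≤ δ) :
    Common H₂ H₁ (m * ω) := by
  classical
  obtain ⟨π, ψ, H, h1, h2, h3, h4, h5⟩ := hhit.mono le_rfl
  rcases Nat.eq_zero_or_pos (m * ω) with h0 | hpos
  · rw [h0]
    exact ⟨∅, ∅, id, ⟨by simp, by simp⟩, by simp⟩
  -- labels
  set L : Finset V := H.biUnion (fun h => X (ψ h.1, π h.2)) with hL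
  have hLc : L.card = m * ω := by
    rw [hL, card_biUnion (fun h hh h' hh' hne => h4 h hh h' hh' hne)]
    rw [sum_congr rfl (fun h hh => (hE _ (h1 h hh).2.2).2.2), sum_const, smul_eq_mul, h5]
  have hLmem : ∀ x ∈ L, ∃ h ∈ H, x ∈ X (ψ h.1, π h.2) := by
    intro x hx
    rw [hL, mem_biUnion] at hx
    exact hx
  -- owner
  let ow : V → V × V := fun x => if h : ∃ h ∈ H, x ∈ X (ψ h.1, π h.2) then h.choose else (x, x)
  have how : ∀ h ∈ H, ∀ x ∈ X (ψ h.1, π h.2), ow x = h := by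
    intro h hh x hx
    have hex : ∃ h ∈ H, x ∈ X (ψ h.1, π h.2) := ⟨h, hh, hx⟩
    simp only [ow]
    rw [dif_pos hex]
    by_contra hne
    exact (Finset.disjoint_left.mp (h4 _ hex.choose_spec.1 h hh hne)) hex.choose_spec.2 hx
  have hLow : ∀ x ∈ L, ow x ∈ H ∧ x ∈ X (ψ (ow x).1, π (ow x).2) := by
    intro x hx
    obtain ⟨h, hh, hxh⟩ := hLmem x hx
    rw [how h hh x hxh]
    exact ⟨hh, hxh⟩
  have hVne : Nonempty V := by
    have : 0 < L.card := by rw [hLc]; exact hpos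
    obtain ⟨x, _⟩ := card_pos.mp this
    exact ⟨x⟩
  obtain ⟨σ, hσ1, hσ2⟩ := greedy_assign L (fun x => N (ow x).1 (ow x).2) (by
    intro x hx
    have h6 := hLow x hx
    have h7 := h1 _ h6.1
    rw [hLc]
    exact hm.trans (hN _ h7.1 _ h7.2.1)) hVne
  set Ts : Finset (V × V × V) := L.image (fun x => ((ow x).1, (ow x).2, x)) with hTs
  have hmem : ∀ u ∈ Ts, ∃ x ∈ L, u = ((ow x).1, (ow x).2, x) := by
    intro u hu
    obtain ⟨x, hx, rfl⟩ := mem_image.mp hu
    exact ⟨x, hx, rfl⟩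
  have hfacts : ∀ x ∈ L, (ow x).1 ∈ B ∧ (ow x).2 ∈ nb (ow x).1 ∧
      (ψ (ow x).1, π (ow x).2) ∈ E := fun x hx => h1 _ (hLow x hx).1
  obtain ⟨SS, F, f, hP, hF, _⟩ := piece_of_triples H₂ H₁ Ts
    ψ (fun b => b) π (fun a => a) (fun x => x) σ
    (by
      intro u hu u' hu' h
      obtain ⟨x, hx, rfl⟩ := hmem u hu
      obtain ⟨x', hx', rfl⟩ := hmem u' hu'
      exact h3 _ (hLow x hx).1 _ (hLow x' hx').1 h)
    (fun _ _ _ _ h => h)
    (by
      intro u hu u' hu' h
      obtain ⟨x, hx, rfl⟩ := hmem u hu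
      obtain ⟨x', hx', rfl⟩ := hmem u' hu'
      exact h2 _ (hLow x hx).1 _ (hLow x' hx').1 h)
    (fun _ _ _ _ h => h)
    (fun _ _ _ _ h => h)
    (by
      intro u hu u' hu' h
      obtain ⟨x, hx, rfl⟩ := hmem u hu
      obtain ⟨x', hx', rfl⟩ := hmem u' hu'
      exact hσ2 x hx x' hx' h)
    (by
      intro u hu u' hu' h
      obtain ⟨x, hx, rfl⟩ := hmem u hu
      obtain ⟨x', hx', rfl⟩ := hmem u' hu'
      have e1 := (hE _ (hfacts x hx).2.2).1
      have e2 := (hE _ (hfacts x' hx').2.2).2.1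
      simp only at h e1 e2
      rw [h, e2] at e1
      exact absurd e1 (by decide))
    (by
      intro u hu u' hu'
      obtain ⟨x, hx, rfl⟩ := hmem u hu
      obtain ⟨x', hx', rfl⟩ := hmem u' hu'
      exact (hBA _ (hfacts x' hx').1 _ (hfacts x hx).1 _ (hfacts x' hx').2.1).symm)
    (by
      intro u hu u' hu' h
      obtain ⟨x, hx, rfl⟩ := hmem u hu
      obtain ⟨x', hx', rfl⟩ := hmem u' hu'
      have e1 := (hE _ (hfacts x hx).2.2).1
      have e2 := (hX _ (hfacts x' hx').2.2 _ (hLow x' hx').2).1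
      simp only at h e1 e2
      rw [h, e2] at e1
      exact absurd e1 (by decide))
    (by
      intro u hu u' hu' h
      obtain ⟨x, hx, rfl⟩ := hmem u hu
      obtain ⟨x', hx', rfl⟩ := hmem u' hu'
      have e1 := (hQ _ (hfacts x hx).1 _ (hfacts x hx).2.1).2
      have e2 := (hNQ _ (hfacts x' hx').1 _ (hfacts x' hx').2.1 _ (hσ1 x' hx')).1
      simp only at h
      rw [h] at e1
      exact e2 e1)
    (by
      intro u hu u' hu' h
      obtain ⟨x, hx, rfl⟩ := hmem u hu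
      obtain ⟨x', hx', rfl⟩ := hmem u' hu'
      have e1 := (hE _ (hfacts x hx).2.2).2.1
      have e2 := (hX _ (hfacts x' hx').2.2 _ (hLow x' hx').2).1
      simp only at h e1 e2
      rw [h, e2] at e1
      exact absurd e1 (by decide))
    (by
      intro u hu u' hu' h
      obtain ⟨x, hx, rfl⟩ := hmem u hu
      obtain ⟨x', hx', rfl⟩ := hmem u' hu'
      have e1 := (hQ _ (hfacts x hx).1 _ (hfacts x hx).2.1).1
      have e2 := (hNQ _ (hfacts x' hx').1 _ (hfacts x' hx').2.1 _ (hσ1 x' hx')).1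
      simp only at h
      rw [h] at e1
      exact e2 e1)
    (by
      intro u hu
      obtain ⟨x, hx, rfl⟩ := hmem u hu
      exact mem_Tri'.mp (hX _ (hfacts x hx).2.2 _ (hLow x hx).2).2)
    (by
      intro u hu
      obtain ⟨x, hx, rfl⟩ := hmem u hu
      exact mem_Tri'.mp (hNQ _ (hfacts x hx).1 _ (hfacts x hx).2.1 _ (hσ1 x hx)).2)
    ∅ ∅ (by simp) (by simp)
  refine ⟨SS, F, f, hP, ?_⟩
  rw [hF, hTs, card_image_of_injective _ (fun a b h => (Prod.mk.inj (Prod.mk.inj h).2).2), hLc]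

/-- hits without label control give common subgraphs -/
theorem hitN_common {H₁ H₂ : Finset (Finset V)}
    (Q : Finset V) (N : V → V → Finset V) (δ : ℕ)
    (B : Finset V) (nb : V → Finset V) (E : Finset (V × V)) (X : V × V → Finset V)
    (m : ℕ) (c : V → Fin 3)
    (hQ : ∀ b ∈ B, ∀ a ∈ nb b, a ∈ Q ∧ b ∈ Q)
    (hN : ∀ b ∈ B, ∀ a ∈ nb b, δ ≤ (N b a).card)
    (hNQ : ∀ b ∈ B, ∀ a ∈ nb b, ∀ w ∈ N b a, w ∉ Q ∧ (b, a, w) ∈ Tri H₁)
    (hBA : ∀ b ∈ B, ∀ b' ∈ B, ∀ a ∈ nb b, a ≠ b')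
    (hE : ∀ e ∈ E, c e.1 = 0 ∧ c e.2 = 1 ∧ (X e).Nonempty)
    (hX : ∀ e ∈ E, ∀ x ∈ X e, c x = 2 ∧ (e.1, e.2, x) ∈ Tri H₂)
    (hQc : Q.card ^ 2 + Q.card < Fintype.card V)
    (hhit : HitN B nb E m) :
    ∃ m', Common H₂ H₁ m' ∧ m * δ ≤ Fintype.card V * m' := by
  classical
  obtain ⟨π, ψ, H, h1, h2, h3, h4⟩ := hhit
  set n := Fintype.card V with hn
  have hch : ∀ e : V × V, ∃ x : V, e ∈ E → x ∈ X e := by
    intro e
    by_cases he : e ∈ E
    · obtain ⟨x, hx⟩ := (hE e he).2.2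
      exact ⟨x, fun _ => hx⟩
    · exact ⟨e.1, fun h => absurd h he⟩
  choose xx hxx using hch
  set lab : V × V → V := fun h => xx (ψ h.1, π h.2) with hlab
  set A : Finset V := H.image lab with hA
  set W : Finset V := univ \ Q with hW
  have hWc : W.card = n - Q.card := by
    rw [hW, card_sdiff_of_subset (subset_univ _), card_univ]
  have hHc : H.card ≤ Q.card ^ 2 := by
    have : H ⊆ Q ×ˢ Q := by
      intro h hh
      obtain ⟨e1, e2, _⟩ := h1 h hh
      obtain ⟨e3, e4⟩ := hQ _ e1 _ e2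
      exact mem_product.mpr ⟨e4, e3⟩
    calc H.card ≤ (Q ×ˢ Q).card := card_le_card this
      _ = Q.card ^ 2 := by rw [card_product]; ring
  have hAc : A.card ≤ W.card := by
    have : A.card ≤ H.card := card_image_le
    omega
  have hWne : W.Nonempty := by
    rw [← card_pos]; omega
  obtain ⟨σ, hσ1, hσ2, hσ3⟩ := exists_inj_avg A W hAc hWne H lab
    (fun h => N h.1 h.2)
  set G := H.filter (fun h => σ (lab h) ∈ N h.1 h.2) with hG
  have hterm : ∀ h ∈ H, δ ≤ (N h.1 h.2 ∩ W).card := by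
    intro h hh
    obtain ⟨e1, e2, _⟩ := h1 h hh
    have : N h.1 h.2 ∩ W = N h.1 h.2 := by
      rw [inter_eq_left]
      intro w hw
      exact mem_sdiff.mpr ⟨mem_univ _, (hNQ _ e1 _ e2 w hw).1⟩
    rw [this]
    exact hN _ e1 _ e2
  have hsum : m * δ ≤ n * G.card := by
    calc m * δ ≤ H.card * δ := Nat.mul_le_mul_right _ h4
      _ = ∑ _h ∈ H, δ := by rw [sum_const, smul_eq_mul]
      _ ≤ ∑ h ∈ H, (N h.1 h.2 ∩ W).card := sum_le_sum hterm
      _ ≤ W.card * G.card := hσ3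
      _ ≤ n * G.card := Nat.mul_le_mul_right _ (card_le_univ _)
  refine ⟨G.card, ?_, hsum⟩
  set Ts : Finset (V × V × V) := G.image (fun h => (h.1, h.2, lab h)) with hTs
  have hmem : ∀ u ∈ Ts, ∃ h ∈ G, u = (h.1, h.2, lab h) := by
    intro u hu
    obtain ⟨x, hx, rfl⟩ := mem_image.mp hu
    exact ⟨x, hx, rfl⟩
  have hfacts : ∀ h ∈ G, h.1 ∈ B ∧ h.2 ∈ nb h.1 ∧ (ψ h.1, π h.2) ∈ E :=
    fun h hh => h1 _ (mem_filter.mp hh).1
  have hlabA : ∀ h ∈ G, lab h ∈ A := fun h hh => mem_image_of_mem lab (mem_filter.mp hh).1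
  have hσN : ∀ h ∈ G, σ (lab h) ∈ N h.1 h.2 := fun h hh => (mem_filter.mp hh).2
  have hlabX : ∀ h ∈ G, lab h ∈ X (ψ h.1, π h.2) := fun h hh => hxx _ (hfacts h hh).2.2
  obtain ⟨SS, F, f, hP, hF, _⟩ := piece_of_triples H₂ H₁ Ts
    ψ (fun b => b) π (fun a => a) (fun x => x) σ
    (by
      intro u hu u' hu' h
      obtain ⟨x, hx, rfl⟩ := hmem u hu
      obtain ⟨x', hx', rfl⟩ := hmem u' hu'
      exact h3 _ (mem_filter.mp hx).1 _ (mem_filter.mp hx').1 h)
    (fun _ _ _ _ h => h)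
    (by
      intro u hu u' hu' h
      obtain ⟨x, hx, rfl⟩ := hmem u hu
      obtain ⟨x', hx', rfl⟩ := hmem u' hu'
      exact h2 _ (mem_filter.mp hx).1 _ (mem_filter.mp hx').1 h)
    (fun _ _ _ _ h => h)
    (fun _ _ _ _ h => h)
    (by
      intro u hu u' hu' h
      obtain ⟨x, hx, rfl⟩ := hmem u hu
      obtain ⟨x', hx', rfl⟩ := hmem u' hu'
      exact hσ1 (mem_coe.mpr (hlabA x hx)) (mem_coe.mpr (hlabA x' hx')) h)
    (by
      intro u hu u' hu' h
      obtain ⟨x, hx, rfl⟩ := hmem u hu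
      obtain ⟨x', hx', rfl⟩ := hmem u' hu'
      have e1 := (hE _ (hfacts x hx).2.2).1
      have e2 := (hE _ (hfacts x' hx').2.2).2.1
      simp only at h e1 e2
      rw [h, e2] at e1
      exact absurd e1 (by decide))
    (by
      intro u hu u' hu'
      obtain ⟨x, hx, rfl⟩ := hmem u hu
      obtain ⟨x', hx', rfl⟩ := hmem u' hu'
      exact (hBA _ (hfacts x' hx').1 _ (hfacts x hx).1 _ (hfacts x' hx').2.1).symm)
    (by
      intro u hu u' hu' h
      obtain ⟨x, hx, rfl⟩ := hmem u hu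
      obtain ⟨x', hx', rfl⟩ := hmem u' hu'
      have e1 := (hE _ (hfacts x hx).2.2).1
      have e2 := (hX _ (hfacts x' hx').2.2 _ (hlabX x' hx')).1
      simp only at h e1 e2
      rw [h, e2] at e1
      exact absurd e1 (by decide))
    (by
      intro u hu u' hu' h
      obtain ⟨x, hx, rfl⟩ := hmem u hu
      obtain ⟨x', hx', rfl⟩ := hmem u' hu'
      have e1 := (hQ _ (hfacts x hx).1 _ (hfacts x hx).2.1).2
      have e2 := (hNQ _ (hfacts x' hx').1 _ (hfacts x' hx').2.1 _ (hσN x' hx')).1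
      simp only at h
      rw [h] at e1
      exact e2 e1)
    (by
      intro u hu u' hu' h
      obtain ⟨x, hx, rfl⟩ := hmem u hu
      obtain ⟨x', hx', rfl⟩ := hmem u' hu'
      have e1 := (hE _ (hfacts x hx).2.2).2.1
      have e2 := (hX _ (hfacts x' hx').2.2 _ (hlabX x' hx')).1
      simp only at h e1 e2
      rw [h, e2] at e1
      exact absurd e1 (by decide))
    (by
      intro u hu u' hu' h
      obtain ⟨x, hx, rfl⟩ := hmem u hu
      obtain ⟨x', hx', rfl⟩ := hmem u' hu'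
      have e1 := (hQ _ (hfacts x hx).1 _ (hfacts x hx).2.1).1
      have e2 := (hNQ _ (hfacts x' hx').1 _ (hfacts x' hx').2.1 _ (hσN x' hx')).1
      simp only at h
      rw [h] at e1
      exact e2 e1)
    (by
      intro u hu
      obtain ⟨x, hx, rfl⟩ := hmem u hu
      exact mem_Tri'.mp (hX _ (hfacts x hx).2.2 _ (hlabX x hx)).2)
    (by
      intro u hu
      obtain ⟨x, hx, rfl⟩ := hmem u hu
      exact mem_Tri'.mp (hNQ _ (hfacts x hx).1 _ (hfacts x hx).2.1 _ (hσN x hx)).2)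
    ∅ ∅ (by simp) (by simp)
  refine ⟨SS, F, f, hP, ?_⟩
  rw [hF, hTs, card_image_of_injective]
  intro a b h
  have h5 := Prod.mk.inj h
  exact Prod.ext h5.1 (Prod.mk.inj h5.2).1

end HC

end Pool.Agent.Lib.MP_9dddc4_co
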