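import Mathlib
import Pool.Agent.Lib.MP_9dddc4_co.HitCommon

namespace Pool.Agent.Lib.MP_9dddc4_co

open Finset

/-- dyadic pigeonhole -/
lemma level_pigeon {ι : Type*} (G : Finset ι) (w : ι → ℕ) (hw : ∀ e ∈ G, 1 ≤ w e)
    (hG : G.Nonempty) :
    ∃ i : ℕ, (G.filter (fun e => Nat.log 2 (w e) = i)).Nonempty ∧
      ∑ e ∈ G, w e ≤ 4 ^ (i + 1) * (G.filter (fun e => Nat.log 2 (w e) = i)).card := by
  classical
  by_contra hcon
  push Not at hcon
  set M := ∑ e ∈ G, w e with hM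
  have hMpos : 0 < M := by
    obtain ⟨e, he⟩ := hG
    have := hw e he
    exact lt_of_lt_of_le (by omega) (single_le_sum (f := w) (fun _ _ => Nat.zero_le _) he)
  set L := G.sup (fun e => Nat.log 2 (w e)) + 1 with hL
  have hmaps : ∀ e ∈ G, Nat.log 2 (w e) ∈ range L := by
    intro e he
    rw [mem_range, hL]
    exact Nat.lt_succ_of_le (le_sup (f := fun e => Nat.log 2 (w e)) he)
  have hfib : ∑ i ∈ range L, ∑ e ∈ G.filter (fun e => Nat.log 2 (w e) = i), w e = M :=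
    sum_fiberwise_of_maps_to hmaps w
  have hlev : ∀ i ∈ range L, 2 ^ L * ∑ e ∈ G.filter (fun e => Nat.log 2 (w e) = i), w e
      ≤ 2 ^ (L - 1 - i) * M := by
    intro i hi
    rw [mem_range] at hi
    set Ei := G.filter (fun e => Nat.log 2 (w e) = i) with hEi
    have h1 : 4 ^ (i + 1) * Ei.card ≤ M := by
      rcases Ei.eq_empty_or_nonempty with h | h
      · rw [h]; simp
      · exact (hcon i h).le
    have h2 : ∑ e ∈ Ei, w e ≤ 2 ^ (i + 1) * Ei.card := by
      calc ∑ e ∈ Ei, w e ≤ ∑ _e ∈ Ei, 2 ^ (i + 1) := by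
            apply sum_le_sum
            intro e he
            have h3 := (mem_filter.mp he).2
            have h4 := Nat.lt_pow_succ_log_self (b := 2) (by norm_num) (w e)
            rw [h3] at h4
            exact h4.le
        _ = 2 ^ (i + 1) * Ei.card := by rw [sum_const, smul_eq_mul]; ring
    have h5 : 2 ^ L = 2 ^ (L - 1 - i) * 2 ^ (i + 1) := by
      rw [← pow_add]; congr 1; omega
    calc 2 ^ L * ∑ e ∈ Ei, w e ≤ 2 ^ L * (2 ^ (i + 1) * Ei.card) := Nat.mul_le_mul_left _ h2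
      _ = 2 ^ (L - 1 - i) * ((2 ^ (i + 1) * 2 ^ (i + 1)) * Ei.card) := by rw [h5]; ring
      _ = 2 ^ (L - 1 - i) * (4 ^ (i + 1) * Ei.card) := by
          rw [← mul_pow]; norm_num
      _ ≤ 2 ^ (L - 1 - i) * M := Nat.mul_le_mul_left _ h1
  have h6 : 2 ^ L * M ≤ (∑ i ∈ range L, 2 ^ (L - 1 - i)) * M := by
    calc 2 ^ L * M = ∑ i ∈ range L, 2 ^ L * ∑ e ∈ G.filter (fun e => Nat.log 2 (w e) = i), w e := by
          rw [← mul_sum, hfib]
      _ ≤ ∑ i ∈ range L, 2 ^ (L - 1 - i) * M := sum_le_sum hlev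
      _ = _ := by rw [sum_mul]
  have h7 : ∑ i ∈ range L, 2 ^ (L - 1 - i) = ∑ i ∈ range L, 2 ^ i :=
    sum_range_reflect (fun i => 2 ^ i) L
  have h8 : ∑ i ∈ range L, 2 ^ i < 2 ^ L := by
    have := Nat.geomSum_lt (m := 2) (n := L) (s := range L) (by norm_num)
      (fun i hi => mem_range.mp hi)
    exact this
  rw [h7] at h6
  have h9 := Nat.le_of_mul_le_mul_right h6 hMpos
  omega

section TypeII

variable {V : Type*} [Fintype V] [DecidableEq V]

lemma Nb_symm (H : Finset (Finset V)) (a b : V) : Nb H a b = Nb H b a := by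
  ext x
  rw [mem_Nb, mem_Nb]
  exact Tri_swap12

lemma StP_card (H : Finset (Finset V)) (v : V) (S : Finset V) :
    (StP H v S).card = ∑ s ∈ S, (Nb H v s).card := by
  classical
  rw [card_eq_sum_card_fiberwise (f := fun p : V × V => p.1) (t := S)
    (fun p hp => (mem_StP.mp hp).2)]
  apply sum_congr rfl
  intro s hs
  apply Finset.card_bij (fun p _ => p.2)
  · intro p hp
    rw [mem_filter, mem_StP] at hp
    rw [mem_Nb, ← hp.2]
    exact hp.1.1
  · intro p hp p' hp' h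
    rw [mem_filter] at hp hp'
    exact Prod.ext (hp.2.trans hp'.2.symm) h
  · intro x hx
    rw [mem_Nb] at hx
    exact ⟨(s, x), mem_filter.mpr ⟨mem_StP.mpr ⟨hx, hs⟩, rfl⟩, rfl⟩

/-- triples whose first pair lies in `P` -/
lemma Tri_pair_card (H : Finset (Finset V)) (P : Finset (V × V)) :
    ((Tri H).filter (fun t => (t.1, t.2.1) ∈ P)).card = ∑ p ∈ P, (Nb H p.1 p.2).card := by
  classical
  rw [card_eq_sum_card_fiberwise (s := (Tri H).filter (fun t => (t.1, t.2.1) ∈ P))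
    (f := fun t : V × V × V => (t.1, t.2.1)) (t := P)
    (fun p hp => (mem_filter.mp (mem_coe.mp hp)).2)]
  apply sum_congr rfl
  intro p hp
  apply Finset.card_bij (fun t _ => t.2.2)
  · rintro ⟨a, b, c⟩ ht
    rw [mem_filter, mem_filter] at ht
    obtain ⟨⟨h1, h2⟩, h3⟩ := ht
    simp only at h3
    rw [mem_Nb, ← h3]
    exact h1
  · rintro ⟨a, b, c⟩ ht ⟨a', b', c'⟩ ht' h
    rw [mem_filter, mem_filter] at ht ht'
    have h1 := ht.2.trans ht'.2.symm
    simp only [Prod.mk.injEq] at h h1 ⊢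
    exact ⟨h1.1, h1.2, h⟩
  · intro x hx
    rw [mem_Nb] at hx
    exact ⟨(p.1, p.2, x), mem_filter.mpr ⟨mem_filter.mpr ⟨hx, hp⟩, rfl⟩, rfl⟩

/-- the rich pairs of `Q` -/
def RP (H : Finset (Finset V)) (Q : Finset V) (n q : ℕ) : Finset (V × V) :=
  (Q ×ˢ Q).filter (fun p => n ≤ (Nb H p.1 p.2 \ Q).card * q ^ 14)

lemma mem_RP {H : Finset (Finset V)} {Q : Finset V} {n q : ℕ} {p : V × V} :
    p ∈ RP H Q n q ↔ (p.1 ∈ Q ∧ p.2 ∈ Q) ∧ n ≤ (Nb H p.1 p.2 \ Q).card * q ^ 14 := by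
  rw [RP, mem_filter, mem_product]

lemma RP_symm {H : Finset (Finset V)} {Q : Finset V} {n q : ℕ} {a b : V} :
    (a, b) ∈ RP H Q n q ↔ (b, a) ∈ RP H Q n q := by
  rw [mem_RP, mem_RP]
  simp only
  rw [Nb_symm H a b]
  tauto

lemma RP_large {n k q J : ℕ} (P : Par n k q J) (hn : Fintype.card V = n)
    {H : Finset (Finset V)} (hτ : n * k ^ 2 ≤ (Tri H).card) (Q : Finset V)
    (hQ : Q.card ≤ k * q ^ 6)
    (hQ2 : (Tri H).card ≤ 24 * ((Tri H).filter (fun t => t.1 ∈ Q ∧ t.2.1 ∈ Q)).card) :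
    k ^ 2 ≤ 48 * (RP H Q n q).card := by
  classical
  have hqpos := P.qpos
  have hkpos := P.kpos
  have hnpos := P.npos
  set R := RP H Q n q with hR
  have h1 : ((Tri H).filter (fun t => t.1 ∈ Q ∧ t.2.1 ∈ Q)).card
      = ∑ p ∈ Q ×ˢ Q, (Nb H p.1 p.2).card := by
    rw [← Tri_pair_card]
    congr 1
    apply filter_congr
    intro t _
    rw [mem_product]
  have hterm : ∀ p ∈ Q ×ˢ Q, q ^ 14 * (Nb H p.1 p.2).card
      ≤ (if p ∈ R then q ^ 14 * n else 0) + n + q ^ 14 * Q.card := by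
    intro p hp
    have h2 : (Nb H p.1 p.2).card ≤ (Nb H p.1 p.2 \ Q).card + Q.card := by
      have := card_le_card (s := Nb H p.1 p.2) (t := (Nb H p.1 p.2 \ Q) ∪ Q) (by
        intro x hx
        by_cases hxQ : x ∈ Q
        · exact mem_union_right _ hxQ
        · exact mem_union_left _ (mem_sdiff.mpr ⟨hx, hxQ⟩))
      exact this.trans (card_union_le _ _)
    by_cases hpR : p ∈ R
    · rw [if_pos hpR]
      have h3 : (Nb H p.1 p.2).card ≤ n := by rw [← hn]; exact card_le_univ _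
      have h4 : q ^ 14 * (Nb H p.1 p.2).card ≤ q ^ 14 * n := Nat.mul_le_mul_left _ h3
      omega
    · rw [if_neg hpR]
      have h3 : (Nb H p.1 p.2 \ Q).card * q ^ 14 < n := by
        by_contra hcon
        push Not at hcon
        exact hpR (mem_RP.mpr ⟨mem_product.mp hp, hcon⟩)
      calc q ^ 14 * (Nb H p.1 p.2).card ≤ q ^ 14 * ((Nb H p.1 p.2 \ Q).card + Q.card) :=
            Nat.mul_le_mul_left _ h2
        _ = (Nb H p.1 p.2 \ Q).card * q ^ 14 + q ^ 14 * Q.card := by ring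
        _ ≤ 0 + n + q ^ 14 * Q.card := by omega
  have hsum : q ^ 14 * ∑ p ∈ Q ×ˢ Q, (Nb H p.1 p.2).card
      ≤ R.card * (q ^ 14 * n) + Q.card ^ 2 * (n + q ^ 14 * Q.card) := by
    rw [mul_sum]
    refine (sum_le_sum hterm).trans ?_
    simp_rw [add_assoc]
    rw [sum_add_distrib, sum_const, smul_eq_mul, card_product, ← sum_filter, sum_const,
      smul_eq_mul]
    apply Nat.add_le_add
    · apply Nat.mul_le_mul_right
      apply card_le_card
      intro p hp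
      exact (mem_filter.mp hp).2
    · rw [pow_two]
  have hmain : q ^ 14 * (n * k ^ 2) ≤ 24 * (R.card * (q ^ 14 * n)
      + Q.card ^ 2 * (n + q ^ 14 * Q.card)) := by
    calc q ^ 14 * (n * k ^ 2) ≤ q ^ 14 * (24 * ∑ p ∈ Q ×ˢ Q, (Nb H p.1 p.2).card) := by
          apply Nat.mul_le_mul_left
          rw [← h1]
          exact hτ.trans hQ2
      _ = 24 * (q ^ 14 * ∑ p ∈ Q ×ˢ Q, (Nb H p.1 p.2).card) := by ring
      _ ≤ _ := Nat.mul_le_mul_left _ hsum
  -- error terms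
  have hQn : q ^ 14 * Q.card ≤ n := by
    calc q ^ 14 * Q.card ≤ q ^ 14 * (k * q ^ 6) := Nat.mul_le_mul_left _ hQ
      _ = k * q ^ 20 := by ring
      _ ≤ k ^ 2 * q ^ 20 := by
          apply Nat.mul_le_mul_right
          exact Nat.le_self_pow (by norm_num) k
      _ ≤ n := P.knpow (by norm_num)
  have herr : Q.card ^ 2 * (n + q ^ 14 * Q.card) ≤ k ^ 2 * q ^ 12 * (2 * n) := by
    apply Nat.mul_le_mul
    · calc Q.card ^ 2 ≤ (k * q ^ 6) ^ 2 := Nat.pow_le_pow_left hQ 2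
        _ = k ^ 2 * q ^ 12 := by ring
    · omega
  have herr2 : 96 * (k ^ 2 * q ^ 12 * n) ≤ q ^ 14 * (n * k ^ 2) := by
    calc 96 * (k ^ 2 * q ^ 12 * n) = 96 * (q ^ 12 * (n * k ^ 2)) := by ring
      _ ≤ q ^ 2 * (q ^ 12 * (n * k ^ 2)) := by
          apply Nat.mul_le_mul_right
          calc 96 ≤ 10 ^ 5 := by norm_num
            _ ≤ q := P.q1
            _ ≤ q ^ 2 := Nat.le_self_pow (by norm_num) q
      _ = q ^ 14 * (n * k ^ 2) := by ring
  have hfin : (q ^ 14 * n) * k ^ 2 ≤ (q ^ 14 * n) * (48 * R.card) := by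
    have e1 : q ^ 14 * (n * k ^ 2) = (q ^ 14 * n) * k ^ 2 := by ring
    have e2 : 24 * (R.card * (q ^ 14 * n)
      + Q.card ^ 2 * (n + q ^ 14 * Q.card)) = 24 * (R.card * (q ^ 14 * n)) +
        24 * (Q.card ^ 2 * (n + q ^ 14 * Q.card)) := by ring
    have e3 : 24 * (k ^ 2 * q ^ 12 * (2 * n)) = 48 * (k ^ 2 * q ^ 12 * n) := by ring
    have e4 : (q ^ 14 * n) * (48 * R.card) = 48 * (R.card * (q ^ 14 * n)) := by ring
    rw [e4]
    omega
  exact Nat.le_of_mul_le_mul_left hfin (by positivity)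

end TypeII

end Pool.Agent.Lib.MP_9dddc4_co
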