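import Mathlib
import Pool.Agent.Lib.MP_9dddc4_co.TypeII

namespace Pool.Agent.Lib.MP_9dddc4_co

open Finset

section TypeII2

variable {V : Type*} [Fintype V] [DecidableEq V]

/-- no dense small stars -/
def NoStar (H : Finset (Finset V)) (k q : ℕ) : Prop :=
  ∀ (v : V) (S : Finset V), S.card ≤ k / q ^ 7 → (StP H v S).card < k * q ^ 16

/-- rich + star -/
lemma common_of_rich_star {n k q J : ℕ} (P : Par n k q J) (hn : Fintype.card V = n)
    {H₁ H₂ : Finset (Finset V)} (h3 : ∀ e ∈ H₁, e.card = 3) (h3' : ∀ e ∈ H₂, e.card = 3)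
    (t : V) (Bt : Finset V) (hBt : k / q ^ 7 ≤ Bt.card)
    (hr : ∀ b ∈ Bt, n ≤ (Nb H₁ t b).card * q ^ 14) (hs : ¬ NoStar H₂ k q) :
    Common H₂ H₁ (k * q) := by
  classical
  have hqpos := P.qpos
  have hkpos := P.kpos
  have hnpos := P.npos
  unfold NoStar at hs
  push Not at hs
  obtain ⟨v, S, hS1, hS2⟩ := hs
  set δ := n / (2 * q ^ 14) with hδ
  have hq14 : 0 < q ^ 14 := by positivity
  have hδ1 : δ * (2 * q ^ 14) ≤ n := Nat.div_mul_le_self _ _
  have hn2 : 4 * (k ^ 2 * q ^ 14) ≤ n := P.cknpow (by norm_num) (by norm_num)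
  have hkk : k ≤ k ^ 2 := Nat.le_self_pow (by norm_num) k
  have hkk2 : 4 * (k * q ^ 14) ≤ n := by
    refine le_trans ?_ hn2
    exact Nat.mul_le_mul_left _ (Nat.mul_le_mul_right _ hkk)
  have hδ2 : n ≤ 4 * q ^ 14 * δ := by
    have h1 : 1 ≤ δ := by
      rw [hδ, Nat.one_le_div_iff (by positivity)]
      calc 2 * q ^ 14 ≤ 4 * (k * q ^ 14) := by
            have : q ^ 14 ≤ k * q ^ 14 := Nat.le_mul_of_pos_left _ hkpos
            omega
        _ ≤ n := hkk2
    have h2 := Nat.lt_mul_div_succ n (show 0 < 2 * q ^ 14 by positivity)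
    rw [← hδ] at h2
    calc n ≤ 2 * q ^ 14 * (δ + 1) := h2.le
      _ ≤ 2 * q ^ 14 * (2 * δ) := Nat.mul_le_mul_left _ (by omega)
      _ = 4 * q ^ 14 * δ := by ring
  have hSk : S.card ≤ k := hS1.trans (Nat.div_le_self _ _)
  apply common_RS h3 h3' t Bt v S δ (k * q) (hS1.trans hBt) (by positivity)
  · intro b hb
    have h1 := hr b hb
    have h2 : (δ + S.card + 1) * (2 * q ^ 14) ≤ (Nb H₁ t b).card * (2 * q ^ 14) := by
      have h3 : (S.card + 1) * (2 * q ^ 14) ≤ n := by
        calc (S.card + 1) * (2 * q ^ 14) ≤ (2 * k) * (2 * q ^ 14) :=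
              Nat.mul_le_mul_right _ (by omega)
          _ = 4 * (k * q ^ 14) := by ring
          _ ≤ n := hkk2
      calc (δ + S.card + 1) * (2 * q ^ 14) = δ * (2 * q ^ 14) + (S.card + 1) * (2 * q ^ 14) := by
            ring
        _ ≤ n + n := Nat.add_le_add hδ1 h3
        _ ≤ (Nb H₁ t b).card * q ^ 14 + (Nb H₁ t b).card * q ^ 14 := Nat.add_le_add h1 h1
        _ = (Nb H₁ t b).card * (2 * q ^ 14) := by ring
    exact Nat.le_of_mul_le_mul_right h2 (by positivity)
  · rw [hn]
    calc 4 * (k * q) * n ≤ 4 * (k * q) * (4 * q ^ 14 * δ) := Nat.mul_le_mul_left _ hδ2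
      _ = 16 * (k * q ^ 15 * δ) := by ring
      _ ≤ q * (k * q ^ 15 * δ) := Nat.mul_le_mul_right _ (le_trans (by norm_num) P.q1)
      _ = δ * (k * q ^ 16) := by ring
      _ ≤ δ * (StP H₂ v S).card := Nat.mul_le_mul_left _ hS2

lemma nostar_bad {n k q J : ℕ} (P : Par n k q J) (hn : Fintype.card V = n)
    {H : Finset (Finset V)} (hs : NoStar H k q) :
    ((Tri H).filter (fun t => q ^ 24 < (Nb H t.1 t.2.1).card)).card ≤ n * (k * q ^ 16) := by
  classical
  have hqpos := P.qpos
  have hkpos := P.kpos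
  set T := (Tri H).filter (fun t => q ^ 24 < (Nb H t.1 t.2.1).card) with hT
  have h1 : T.card = ∑ v : V, (T.filter (fun t => t.1 = v)).card :=
    card_eq_sum_card_fiberwise (fun t _ => mem_univ _)
  rw [h1]
  have h2 : ∀ v ∈ (univ : Finset V), (T.filter (fun t => t.1 = v)).card ≤ k * q ^ 16 := by
    intro v _
    set S := univ.filter (fun s : V => q ^ 24 < (Nb H v s).card) with hS
    have hSc : S.card ≤ k / q ^ 7 := by
      by_contra hcon
      push Not at hcon
      obtain ⟨S', hS', hS'c⟩ := exists_subset_card_eq hcon.le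
      have h3 := hs v S' hS'c.le
      rw [StP_card] at h3
      have h4 : S'.card * q ^ 24 ≤ ∑ s ∈ S', (Nb H v s).card := by
        rw [← smul_eq_mul, ← sum_const]
        apply sum_le_sum
        intro s hs'
        exact (mem_filter.mp (hS' hs')).2.le
      rw [hS'c] at h4
      have h5 : k * q ^ 16 ≤ (k / q ^ 7) * q ^ 24 := by
        have h6 : 1 ≤ k / q ^ 7 := by
          rw [Nat.one_le_div_iff (by positivity)]
          exact P.kpow (by norm_num)
        have h7 := Nat.lt_mul_div_succ k (show 0 < q ^ 7 by positivity)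
        calc k * q ^ 16 ≤ (q ^ 7 * (k / q ^ 7 + 1)) * q ^ 16 := Nat.mul_le_mul_right _ h7.le
          _ ≤ (q ^ 7 * (2 * (k / q ^ 7))) * q ^ 16 := by
              apply Nat.mul_le_mul_right
              apply Nat.mul_le_mul_left
              omega
          _ = 2 * ((k / q ^ 7) * q ^ 23) := by ring
          _ ≤ q * ((k / q ^ 7) * q ^ 23) :=
              Nat.mul_le_mul_right _ (le_trans (by norm_num) P.q1)
          _ = _ := by ring
      omega
    have h3 := hs v S hSc
    have h4 : (T.filter (fun t => t.1 = v)).card ≤ (StP H v S).card := by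
      apply Finset.card_le_card_of_injOn (fun t => t.2)
      · intro t ht
        have ht := mem_filter.mp (mem_coe.mp ht)
        rw [hT, mem_filter] at ht
        obtain ⟨⟨h5, h6⟩, h7⟩ := ht
        apply mem_coe.mpr
        rw [mem_StP, ← h7]
        refine ⟨h5, mem_filter.mpr ⟨mem_univ _, ?_⟩⟩
        rw [← h7]
        exact h6
      · intro t ht t' ht' heq
        have ht := mem_filter.mp (mem_coe.mp ht)
        have ht' := mem_filter.mp (mem_coe.mp ht')
        exact Prod.ext (ht.2.trans ht'.2.symm) heq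
    omega
  refine (sum_le_sum h2).trans ?_
  rw [sum_const, smul_eq_mul, card_univ, hn]

/-- triples with small codegrees -/
def GoodT (H : Finset (Finset V)) (μ : ℕ) : Finset (V × V × V) :=
  (Tri H).filter (fun t => (Nb H t.1 t.2.1).card ≤ μ ∧ (Nb H t.1 t.2.2).card ≤ μ ∧
    (Nb H t.2.1 t.2.2).card ≤ μ)

lemma nostar_good {n k q J : ℕ} (P : Par n k q J) (hn : Fintype.card V = n)
    {H : Finset (Finset V)} (hs : NoStar H k q) (hτ : n * k ^ 2 ≤ (Tri H).card) :
    n * k ^ 2 ≤ 2 * (GoodT H (q ^ 24)).card := by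
  classical
  have hb := nostar_bad P hn hs
  have h1 := Tri_count_swap23 H (fun a b _ => q ^ 24 < (Nb H a b).card)
  have h2 := Tri_count_swap12 H (fun a _ c => q ^ 24 < (Nb H a c).card)
  have hsub : Tri H ⊆ ((GoodT H (q ^ 24)) ∪
      (Tri H).filter (fun t => q ^ 24 < (Nb H t.1 t.2.1).card)) ∪
      ((Tri H).filter (fun t => q ^ 24 < (Nb H t.1 t.2.2).card) ∪
      (Tri H).filter (fun t => q ^ 24 < (Nb H t.2.1 t.2.2).card)) := by
    intro t ht
    by_cases c1 : (Nb H t.1 t.2.1).card ≤ q ^ 24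
    · by_cases c2 : (Nb H t.1 t.2.2).card ≤ q ^ 24
      · by_cases c3 : (Nb H t.2.1 t.2.2).card ≤ q ^ 24
        · exact mem_union_left _ (mem_union_left _ (mem_filter.mpr ⟨ht, c1, c2, c3⟩))
        · exact mem_union_right _ (mem_union_right _ (mem_filter.mpr ⟨ht, not_le.mp c3⟩))
      · exact mem_union_right _ (mem_union_left _ (mem_filter.mpr ⟨ht, not_le.mp c2⟩))
    · exact mem_union_left _ (mem_union_right _ (mem_filter.mpr ⟨ht, not_le.mp c1⟩))
  have c1 := card_le_card hsub
  have c2 := card_union_le ((GoodT H (q ^ 24)) ∪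
      (Tri H).filter (fun t => q ^ 24 < (Nb H t.1 t.2.1).card))
      ((Tri H).filter (fun t => q ^ 24 < (Nb H t.1 t.2.2).card) ∪
      (Tri H).filter (fun t => q ^ 24 < (Nb H t.2.1 t.2.2).card))
  have c3 := card_union_le (GoodT H (q ^ 24))
      ((Tri H).filter (fun t => q ^ 24 < (Nb H t.1 t.2.1).card))
  have c4 := card_union_le ((Tri H).filter (fun t => q ^ 24 < (Nb H t.1 t.2.2).card))
      ((Tri H).filter (fun t => q ^ 24 < (Nb H t.2.1 t.2.2).card))
  have c5 : 6 * (n * (k * q ^ 16)) ≤ n * k ^ 2 := by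
    calc 6 * (n * (k * q ^ 16)) = n * (k * (6 * q ^ 16)) := by ring
      _ ≤ n * (k * k) := by
          apply Nat.mul_le_mul_left
          apply Nat.mul_le_mul_left
          exact P.ckpow (by norm_num) (by norm_num)
      _ = n * k ^ 2 := by ring
  omega

end TypeII2

end Pool.Agent.Lib.MP_9dddc4_co
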