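import Mathlib
import Pool.Agent.Lib.MP_9dddc4_co.TypeII2

namespace Pool.Agent.Lib.MP_9dddc4_co

open Finset

section TypeII3

variable {V : Type*} [Fintype V] [DecidableEq V]

/-- the target structure in the second hypergraph -/
lemma level_structure {n k q J : ℕ} (P : Par n k q J) (hn : Fintype.card V = n)
    {H : Finset (Finset V)} (h3 : ∀ e ∈ H, e.card = 3)
    (hs : NoStar H k q) (hτ : n * k ^ 2 ≤ (Tri H).card) :
    ∃ (c : V → Fin 3) (ω : ℕ) (E : Finset (V × V)) (X : V × V → Finset V),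
      1 ≤ ω ∧ ω ≤ q ^ 24 ∧
      (∀ e ∈ E, c e.1 = 0 ∧ c e.2 = 1 ∧ (X e).card = ω) ∧
      (∀ e ∈ E, ∀ x ∈ X e, c x = 2 ∧ (e.1, e.2, x) ∈ Tri H) ∧
      (∀ z x, (univ.filter (fun y : V => (y, z) ∈ E ∧ x ∈ X (y, z))).card ≤ q ^ 24) ∧
      (∀ y x, (univ.filter (fun z : V => (y, z) ∈ E ∧ x ∈ X (y, z))).card ≤ q ^ 24) ∧
      n * k ^ 2 ≤ 216 * ω ^ 2 * E.card := by
  classical
  have hqpos := P.qpos
  have hkpos := P.kpos
  have hnpos := P.npos
  have hgood := nostar_good P hn hs hτ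
  set T := GoodT H (q ^ 24) with hT
  have hTmem : ∀ t ∈ T, t ∈ Tri H ∧ (Nb H t.1 t.2.1).card ≤ q ^ 24 ∧
      (Nb H t.1 t.2.2).card ≤ q ^ 24 ∧ (Nb H t.2.1 t.2.2).card ≤ q ^ 24 := by
    intro t ht
    rw [hT, GoodT, mem_filter] at ht
    exact ht
  obtain ⟨c, hc⟩ := exists_coloring3 T (fun t => t.1) (fun t => t.2.1) (fun t => t.2.2)
    (fun t ht => (Tri_ne h3 (hTmem t ht).1).1)
    (fun t ht => (Tri_ne h3 (hTmem t ht).1).2.1)
    (fun t ht => (Tri_ne h3 (hTmem t ht).1).2.2)
  set T3 := T.filter (fun t => c t.1 = 0 ∧ c t.2.1 = 1 ∧ c t.2.2 = 2) with hT3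
  have hT3c : n * k ^ 2 ≤ 54 * T3.card := by
    have : T.card ≤ 27 * T3.card := hc
    omega
  -- pairs and their third vertices
  let Xf : V × V → Finset V := fun e => univ.filter (fun x => (e.1, e.2, x) ∈ T3)
  have hXf : ∀ e x, x ∈ Xf e ↔ (e.1, e.2, x) ∈ T3 := by
    intro e x
    simp [Xf]
  set G : Finset (V × V) := univ.filter (fun e => 1 ≤ (Xf e).card) with hG
  have hsum : T3.card = ∑ e ∈ G, (Xf e).card := by
    rw [card_eq_sum_card_fiberwise (s := T3) (f := fun t : V × V × V => (t.1, t.2.1)) (t := G)]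
    · apply sum_congr rfl
      intro e _
      apply Finset.card_bij (fun t _ => t.2.2)
      · rintro ⟨a, b, x⟩ ht
        rw [mem_filter] at ht
        obtain ⟨h1, h2⟩ := ht
        simp only at h2
        rw [hXf, ← h2]
        exact h1
      · rintro ⟨a, b, x⟩ ht ⟨a', b', x'⟩ ht' h
        rw [mem_filter] at ht ht'
        have h1 := ht.2.trans ht'.2.symm
        simp only [Prod.mk.injEq] at h h1 ⊢
        exact ⟨h1.1, h1.2, h⟩
      · intro x hx
        rw [hXf] at hx
        exact ⟨(e.1, e.2, x), mem_filter.mpr ⟨hx, rfl⟩, rfl⟩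
    · rintro ⟨a, b, x⟩ ht
      apply mem_coe.mpr
      rw [hG, mem_filter]
      refine ⟨mem_univ _, card_pos.mpr ⟨x, ?_⟩⟩
      rw [hXf]
      exact ht
  have hGne : G.Nonempty := by
    by_contra hcon
    rw [not_nonempty_iff_eq_empty] at hcon
    rw [hcon, sum_empty] at hsum
    rw [hsum] at hT3c
    have : 0 < n * k ^ 2 := by positivity
    omega
  obtain ⟨i, hi1, hi2⟩ := level_pigeon G (fun e => (Xf e).card)
    (fun e he => (mem_filter.mp he).2) hGne
  set E := G.filter (fun e => Nat.log 2 (Xf e).card = i) with hE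
  have hEw : ∀ e ∈ E, 2 ^ i ≤ (Xf e).card := by
    intro e he
    rw [hE, mem_filter] at he
    have h1 := (mem_filter.mp he.1).2
    rw [← he.2]
    exact Nat.pow_log_le_self 2 (by omega)
  have hch : ∀ e : V × V, ∃ Y : Finset V, e ∈ E → Y ⊆ Xf e ∧ Y.card = 2 ^ i := by
    intro e
    by_cases he : e ∈ E
    · obtain ⟨Y, h1, h2⟩ := exists_subset_card_eq (hEw e he)
      exact ⟨Y, fun _ => ⟨h1, h2⟩⟩
    · exact ⟨∅, fun h => absurd h he⟩
  choose X hX using hch
  have hXT : ∀ e ∈ E, ∀ x ∈ X e, (e.1, e.2, x) ∈ T3 := by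
    intro e he x hx
    exact (hXf e x).mp ((hX e he).1 hx)
  have hXTri : ∀ e ∈ E, ∀ x ∈ X e, (e.1, e.2, x) ∈ T ∧ c e.1 = 0 ∧ c e.2 = 1 ∧ c x = 2 := by
    intro e he x hx
    have := hXT e he x hx
    rw [hT3, mem_filter] at this
    exact this
  have hne : ∀ e ∈ E, ∃ x, x ∈ X e := by
    intro e he
    have h1 : 0 < (X e).card := by rw [(hX e he).2]; positivity
    exact card_pos.mp h1
  refine ⟨c, 2 ^ i, E, X, Nat.one_le_two_pow, ?_, ?_, ?_, ?_, ?_, ?_⟩
  · obtain ⟨e, he⟩ := hi1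
    obtain ⟨x, hx⟩ := hne e he
    have h1 := hTmem _ (hXTri e he x hx).1
    refine (hEw e he).trans (le_trans (card_le_card ?_) h1.2.1)
    intro y hy
    rw [hXf, hT3, mem_filter] at hy
    rw [mem_Nb]
    exact (hTmem _ hy.1).1
  · intro e he
    obtain ⟨x, hx⟩ := hne e he
    have h1 := hXTri e he x hx
    exact ⟨h1.2.1, h1.2.2.1, (hX e he).2⟩
  · intro e he x hx
    have h1 := hXTri e he x hx
    exact ⟨h1.2.2.2, (hTmem _ h1.1).1⟩
  · intro z x
    rcases (univ.filter (fun y : V => (y, z) ∈ E ∧ x ∈ X (y, z))).eq_empty_or_nonempty with h | h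
    · rw [h]; simp
    · obtain ⟨y0, hy0⟩ := h
      rw [mem_filter] at hy0
      have h1 := hTmem _ (hXTri _ hy0.2.1 x hy0.2.2).1
      refine le_trans (card_le_card ?_) h1.2.2.2
      intro y hy
      rw [mem_filter] at hy
      have h2 := hTmem _ (hXTri _ hy.2.1 x hy.2.2).1
      rw [mem_Nb]
      exact Tri_swap23.mp (Tri_swap12.mp h2.1)
  · intro y x
    rcases (univ.filter (fun z : V => (y, z) ∈ E ∧ x ∈ X (y, z))).eq_empty_or_nonempty with h | h
    · rw [h]; simp
    · obtain ⟨z0, hz0⟩ := h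
      rw [mem_filter] at hz0
      have h1 := hTmem _ (hXTri _ hz0.2.1 x hz0.2.2).1
      refine le_trans (card_le_card ?_) h1.2.2.1
      intro z hz
      rw [mem_filter] at hz
      have h2 := hTmem _ (hXTri _ hz.2.1 x hz.2.2).1
      rw [mem_Nb]
      exact Tri_swap23.mp h2.1
  · calc n * k ^ 2 ≤ 54 * T3.card := hT3c
      _ ≤ 54 * (4 ^ (i + 1) * E.card) := by
          apply Nat.mul_le_mul_left
          rw [hsum]; exact hi2
      _ = 216 * (2 ^ i) ^ 2 * E.card := by
          have : (4 : ℕ) ^ i = (2 ^ i) ^ 2 := by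
            rw [← pow_mul, mul_comm i 2, pow_mul]; norm_num
          rw [pow_succ, this]; ring

theorem common_nostar {n k q J : ℕ} (P : Par n k q J) (hn : Fintype.card V = n)
    {H₁ H₂ : Finset (Finset V)} (h3 : ∀ e ∈ H₁, e.card = 3) (h3' : ∀ e ∈ H₂, e.card = 3)
    (hτ : n * k ^ 2 ≤ (Tri H₂).card) (Q : Finset V) (hQ : Q.card ≤ k * q ^ 6)
    (hR : k ^ 2 ≤ 48 * (RP H₁ Q n q).card) (hs : NoStar H₂ k q) :
    ∃ m, Common H₂ H₁ m ∧ k * J ≤ 25600 * m := by
  classical
  have hqpos := P.qpos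
  have hkpos := P.kpos
  have hnpos := P.npos
  have hk1600 : 12800 ≤ k := by
    have := P.ckpow (a := 0) (c := 12800) (by norm_num) (by norm_num)
    simpa using this
  set R := RP H₁ Q n q with hRdef
  have hRne : ∀ p ∈ R, p.1 ≠ p.2 := by
    intro p hp
    have h1 := mem_RP.mp hp
    have h2 : 0 < (Nb H₁ p.1 p.2 \ Q).card := by
      by_contra hcon
      have h0 : (Nb H₁ p.1 p.2 \ Q).card = 0 := by omega
      rw [h0, zero_mul] at h1
      omega
    obtain ⟨x, hx⟩ := card_pos.mp h2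
    exact (Tri_ne h3 (mem_Nb.mp (mem_sdiff.mp hx).1)).1
  obtain ⟨B, nb, hB1, hB2, hB3, hB4⟩ := orientation R k (by omega) hRne (by omega)
  have hB2' : ∀ b ∈ B, ∀ a ∈ nb b, (b, a) ∈ R := by
    intro b hb a ha
    rcases hB2 b hb a ha with h | h
    · exact RP_symm.mp h
    · exact h
  obtain ⟨c, ω, E, X, hω1, hω2, hE, hX, hμ1, hμ2, hEc⟩ := level_structure P hn h3' hs hτ
  set D := k ^ 2 / (432 * ω ^ 2) with hD
  have hω48 : ω ^ 2 ≤ q ^ 48 := by
    calc ω ^ 2 ≤ (q ^ 24) ^ 2 := Nat.pow_le_pow_left hω2 2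
      _ = q ^ 48 := by ring
  have hDmul : 432 * ω ^ 2 * D ≤ k ^ 2 := Nat.mul_div_le _ _
  have hD1pos : 1 ≤ D := by
    rw [hD, Nat.one_le_div_iff (by positivity)]
    calc 432 * ω ^ 2 ≤ 432 * q ^ 48 := Nat.mul_le_mul_left _ hω48
      _ ≤ k := P.ckpow (by norm_num) (by norm_num)
      _ ≤ k ^ 2 := Nat.le_self_pow (by norm_num) k
  have hDlow : k ^ 2 ≤ 864 * ω ^ 2 * D := by
    have h1 := Nat.lt_mul_div_succ (k ^ 2) (show 0 < 432 * ω ^ 2 by positivity)
    rw [← hD] at h1
    calc k ^ 2 ≤ 432 * ω ^ 2 * (D + 1) := h1.le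
      _ ≤ 432 * ω ^ 2 * (2 * D) := Nat.mul_le_mul_left _ (by omega)
      _ = 864 * ω ^ 2 * D := by ring
  have hD1 : 2 * n * D ≤ E.card := by
    have h1 : (216 * ω ^ 2) * (2 * n * D) ≤ (216 * ω ^ 2) * E.card := by
      calc (216 * ω ^ 2) * (2 * n * D) = n * (432 * ω ^ 2 * D) := by ring
        _ ≤ n * k ^ 2 := Nat.mul_le_mul_left _ hDmul
        _ ≤ 216 * ω ^ 2 * E.card := hEc
    exact Nat.le_of_mul_le_mul_left h1 (by positivity)
  have hD2 : D ≤ k ^ 2 := Nat.div_le_self _ _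
  have hD3 : k ^ 2 ≤ D * q ^ 60 := by
    calc k ^ 2 ≤ 864 * ω ^ 2 * D := hDlow
      _ ≤ 864 * q ^ 48 * D := by
          apply Nat.mul_le_mul_right
          exact Nat.mul_le_mul_left _ hω48
      _ ≤ q ^ 12 * q ^ 48 * D := by
          apply Nat.mul_le_mul_right
          apply Nat.mul_le_mul_right
          calc 864 ≤ 10 ^ 5 := by norm_num
            _ ≤ q := P.q1
            _ ≤ q ^ 12 := Nat.le_self_pow (by norm_num) q
      _ = D * q ^ 60 := by ring
  have hωμ : ω * q ^ 24 ≤ q ^ 48 := by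
    calc ω * q ^ 24 ≤ q ^ 24 * q ^ 24 := Nat.mul_le_mul_right _ hω2
      _ = q ^ 48 := by ring
  -- data for the conversion lemmas
  set N : V → V → Finset V := fun a b => Nb H₁ a b \ Q with hN
  set δ := n / q ^ 14 with hδ
  have hcQ : ∀ b ∈ B, ∀ a ∈ nb b, a ∈ Q ∧ b ∈ Q := by
    intro b hb a ha
    have h1 := mem_RP.mp (hB2' b hb a ha)
    exact ⟨h1.1.2, h1.1.1⟩
  have hcN : ∀ b ∈ B, ∀ a ∈ nb b, δ ≤ (N b a).card := by
    intro b hb a ha
    have h1 := (mem_RP.mp (hB2' b hb a ha)).2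
    exact Nat.div_le_of_le_mul (by rw [mul_comm]; exact h1)
  have hcNQ : ∀ b ∈ B, ∀ a ∈ nb b, ∀ w ∈ N b a, w ∉ Q ∧ (b, a, w) ∈ Tri H₁ := by
    intro b _ a _ w hw
    rw [hN] at hw
    have hw := mem_sdiff.mp hw
    exact ⟨hw.2, mem_Nb.mp hw.1⟩
  have hδbig : ∀ a, a ≤ 150 → k ^ 2 * q ^ a ≤ δ := by
    intro a ha
    rw [hδ, Nat.le_div_iff_mul_le (by positivity)]
    calc k ^ 2 * q ^ a * q ^ 14 = k ^ 2 * q ^ (a + 14) := by ring
      _ ≤ n := P.knpow (by omega)
  have hδbig1 : ∀ a, a ≤ 150 → k * q ^ a ≤ δ := by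
    intro a ha
    exact (Nat.mul_le_mul_right _ (Nat.le_self_pow (by norm_num) k)).trans (hδbig a ha)
  have hkJq : k * J ≤ k * q := Nat.mul_le_mul_left _ P.Jq
  by_cases hωJ : ω ≤ J
  · set J' := J / ω with hJ'
    have hJ'1 : 1 ≤ J' := by
      rw [hJ', Nat.one_le_div_iff hω1]; exact hωJ
    have hJω : J' * ω ≤ J := Nat.div_mul_le_self _ _
    have hJlow : J ≤ 2 * (J' * ω) := by
      have h1 := Nat.lt_mul_div_succ J (show 0 < ω from hω1)
      rw [← hJ'] at h1
      calc J ≤ ω * (J' + 1) := h1.le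
        _ ≤ ω * (2 * J') := Nat.mul_le_mul_left _ (by omega)
        _ = 2 * (J' * ω) := by ring
    have hratio : J' * k ^ 2 ≤ 864 * ω * J * D := by
      calc J' * k ^ 2 ≤ J' * (864 * ω ^ 2 * D) := Nat.mul_le_mul_left _ hDlow
        _ = 864 * ω * (J' * ω) * D := by ring
        _ ≤ 864 * ω * J * D := by
            apply Nat.mul_le_mul_right
            exact Nat.mul_le_mul_left _ hJω
    rcases embed P hn B nb hB1 hB4 E X ω (q ^ 24) J' D (fun e he => (hE e he).2.2.le)
      hμ1 hμ2 hJ'1 hω1 hJω hωμ hD1 hD2 hD3 hratio with ⟨m, hm1, hm2⟩ | ⟨m, hm1, hm2⟩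
    · -- labelled hits
      set m' := min m (J' * k) with hm'
      have hhit : Hit B nb E X m' := by
        obtain ⟨π, ψ, H, a1, a2, a3, a4, a5⟩ := hm1.mono (m' := m') (min_le_left _ _)
        exact ⟨π, ψ, H, a1, a2, a3, a4, a5.ge⟩
      have hm'δ : m' * ω ≤ δ := by
        calc m' * ω ≤ (J' * k) * ω := Nat.mul_le_mul_right _ (min_le_right _ _)
          _ = k * (J' * ω) := by ring
          _ ≤ k * J := Nat.mul_le_mul_left _ hJω
          _ ≤ k * q := hkJq
          _ = k * q ^ 1 := by ring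
          _ ≤ δ := hδbig1 1 (by norm_num)
      refine ⟨m' * ω, hit_common Q N δ B nb E X ω m' c hcQ hcN hcNQ hB3 hE hX hhit hm'δ, ?_⟩
      have h1 : J' * k ≤ 12800 * m' := by
        rcases le_total m (J' * k) with h | h
        · rw [hm', min_eq_left h]; exact hm2
        · rw [hm', min_eq_right h]; omega
      calc k * J ≤ k * (2 * (J' * ω)) := Nat.mul_le_mul_left _ hJlow
        _ = 2 * ((J' * k) * ω) := by ring
        _ ≤ 2 * ((12800 * m') * ω) :=
            Nat.mul_le_mul_left _ (Nat.mul_le_mul_right _ h1)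
        _ = 25600 * (m' * ω) := by ring
    · -- unlabelled hits
      obtain ⟨m', hc', hm'⟩ := hitN_common Q N δ B nb E X m c hcQ hcN hcNQ hB3
        (fun e he => ⟨(hE e he).1, (hE e he).2.1, card_pos.mp (by rw [(hE e he).2.2]; exact hω1)⟩)
        hX
        (by
          rw [hn]
          have h1 : Q.card ^ 2 ≤ k ^ 2 * q ^ 12 := by
            calc Q.card ^ 2 ≤ (k * q ^ 6) ^ 2 := Nat.pow_le_pow_left hQ 2
              _ = k ^ 2 * q ^ 12 := by ring
          have h2 : Q.card ≤ k ^ 2 * q ^ 12 := by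
            rcases Nat.eq_zero_or_pos Q.card with h | h
            · rw [h]; exact Nat.zero_le _
            · exact (Nat.le_self_pow (by norm_num) _).trans h1
          have h3 : 3 * (k ^ 2 * q ^ 12) ≤ n := P.cknpow (by norm_num) (by norm_num)
          have h4 : 0 < k ^ 2 * q ^ 12 := by positivity
          omega)
        hm1
      refine ⟨m', hc', ?_⟩
      rw [hn] at hm'
      have hδ2 : n ≤ 2 * q ^ 14 * δ := by
        have h1 : 1 ≤ δ := by
          have := hδbig1 0 (by norm_num)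
          simp at this
          omega
        have h2 := Nat.lt_mul_div_succ n (show 0 < q ^ 14 by positivity)
        rw [← hδ] at h2
        calc n ≤ q ^ 14 * (δ + 1) := h2.le
          _ ≤ q ^ 14 * (2 * δ) := Nat.mul_le_mul_left _ (by omega)
          _ = 2 * q ^ 14 * δ := by ring
      have h1 : n * m ≤ n * (2 * q ^ 14 * m') := by
        calc n * m ≤ (2 * q ^ 14 * δ) * m := Nat.mul_le_mul_right _ hδ2
          _ = 2 * q ^ 14 * (m * δ) := by ring
          _ ≤ 2 * q ^ 14 * (n * m') := Nat.mul_le_mul_left _ hm'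
          _ = _ := by ring
      have h2 := Nat.le_of_mul_le_mul_left h1 hnpos
      have h3 : k * k ≤ k * m' := by
        have h4 : 6400 * q ^ 15 * (k * k) ≤ 6400 * q ^ 15 * (k * m') := by
          calc 6400 * q ^ 15 * (k * k) ≤ k * (k * k) :=
                Nat.mul_le_mul_right _ (P.ckpow (by norm_num) (by norm_num))
            _ = k * k ^ 2 := by ring
            _ ≤ k * (3200 * q * m) := Nat.mul_le_mul_left _ hm2
            _ ≤ k * (3200 * q * (2 * q ^ 14 * m')) :=
                Nat.mul_le_mul_left _ (Nat.mul_le_mul_left _ h2)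
            _ = 6400 * q ^ 15 * (k * m') := by ring
        exact Nat.le_of_mul_le_mul_left h4 (by positivity)
      have h5 : k * q ≤ k * k := Nat.mul_le_mul_left _ (by simpa using P.kpow (a := 1) (by norm_num))
      have h6 := Nat.le_of_mul_le_mul_left h3 hkpos
      have h7 : k * J ≤ 25600 * m' := by
        have h8 : k ^ 2 ≤ 3200 * q * (2 * q ^ 14 * m') := hm2.trans (Nat.mul_le_mul_left _ h2)
        have h9 : (6400 * q ^ 15) * (k * q) ≤ (6400 * q ^ 15) * m' := by
          calc (6400 * q ^ 15) * (k * q) = k * (6400 * q ^ 16) := by ring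
            _ ≤ k * k := Nat.mul_le_mul_left _ (P.ckpow (by norm_num) (by norm_num))
            _ = k ^ 2 := by ring
            _ ≤ 3200 * q * (2 * q ^ 14 * m') := h8
            _ = (6400 * q ^ 15) * m' := by ring
        have h10 := Nat.le_of_mul_le_mul_left h9 (by positivity)
        omega
      exact h7
  · push Not at hωJ
    set h := k / 1600 with hh
    have hh1 : k ≤ 3200 * h := by omega
    have hhk : h ≤ k := Nat.div_le_self _ _
    have hBcard : h ≤ B.card := by
      have h1 : k * k ≤ k * (1600 * B.card) := by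
        calc k * k = k ^ 2 := by ring
          _ ≤ 1600 * ∑ b ∈ B, (nb b).card := hB4
          _ ≤ 1600 * (B.card * k) := by
              apply Nat.mul_le_mul_left
              rw [← smul_eq_mul, ← sum_const]
              exact sum_le_sum (fun b hb => (hB1 b hb).2)
          _ = k * (1600 * B.card) := by ring
      have h2 := Nat.le_of_mul_le_mul_left h1 hkpos
      omega
    have hg : 2 * n * (h + h * ω * q ^ 24) ≤ E.card := by
      have h1 : h + h * ω * q ^ 24 ≤ D := by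
        have h2 : (h + h * ω * q ^ 24) * q ^ 60 ≤ D * q ^ 60 := by
          calc (h + h * ω * q ^ 24) * q ^ 60 = h * (1 + ω * q ^ 24) * q ^ 60 := by ring
            _ ≤ k * (2 * q ^ 48) * q ^ 60 := by
                apply Nat.mul_le_mul_right
                apply Nat.mul_le_mul hhk
                have : 1 ≤ q ^ 48 := Nat.one_le_pow _ _ hqpos
                omega
            _ = k * (2 * q ^ 108) := by ring
            _ ≤ k * k := Nat.mul_le_mul_left _ (P.ckpow (by norm_num) (by norm_num))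
            _ = k ^ 2 := by ring
            _ ≤ D * q ^ 60 := hD3
        exact Nat.le_of_mul_le_mul_right h2 (by positivity)
      exact (Nat.mul_le_mul_left _ h1).trans hD1
    have hhit := hit_of_B B nb E X ω (q ^ 24) h (by rw [hn]; exact hnpos)
      (fun b hb => (hB1 b hb).1) (fun e he => (hE e he).2.2.le) hμ1 (by rw [hn]; exact hg) hBcard
    have hhδ : h * ω ≤ δ := by
      calc h * ω ≤ k * q ^ 24 := Nat.mul_le_mul hhk hω2
        _ ≤ δ := hδbig1 24 (by norm_num)
    refine ⟨h * ω, hit_common Q N δ B nb E X ω h c hcQ hcN hcNQ hB3 hE hX hhit hhδ, ?_⟩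
    calc k * J ≤ (3200 * h) * ω := Nat.mul_le_mul hh1 hωJ.le
      _ = 3200 * (h * ω) := by ring
      _ ≤ 25600 * (h * ω) := Nat.mul_le_mul_right _ (by norm_num)

/-- type II hypergraphs -/
theorem common_typeII {n k q J : ℕ} (P : Par n k q J) (hn : Fintype.card V = n)
    {H₁ H₂ : Finset (Finset V)} (h3 : ∀ e ∈ H₁, e.card = 3) (h3' : ∀ e ∈ H₂, e.card = 3)
    (hτ1 : n * k ^ 2 ≤ (Tri H₁).card)
    (hτ : n * k ^ 2 ≤ (Tri H₂).card) (Q : Finset V) (hQ : Q.card ≤ k * q ^ 6)
    (hQ2 : (Tri H₁).card ≤ 24 * ((Tri H₁).filter (fun t => t.1 ∈ Q ∧ t.2.1 ∈ Q)).card) :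
    ∃ m, Common H₂ H₁ m ∧ k * J ≤ 25600 * m := by
  classical
  have hqpos := P.qpos
  have hkpos := P.kpos
  have hnpos := P.npos
  have hR := RP_large P hn hτ1 Q hQ hQ2
  by_cases hs : NoStar H₂ k q
  · exact common_nostar P hn h3 h3' hτ Q hQ hR hs
  · -- rich vertex
    set R := RP H₁ Q n q with hRdef
    have hRpos : 0 < R.card := by
      by_contra hcon
      have h0 : R.card = 0 := by omega
      rw [h0] at hR
      have : 0 < k ^ 2 := by positivity
      omega
    have hQne : Q.Nonempty := by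
      obtain ⟨p, hp⟩ := card_pos.mp hRpos
      exact ⟨p.1, (mem_RP.mp hp).1.1⟩
    obtain ⟨t, ht, htc⟩ := pigeon R (fun p => p.1) Q (fun p hp => (mem_RP.mp hp).1.1) hQne
    set Bt := (R.filter (fun p => p.1 = t)).image Prod.snd with hBt
    have hBtc : Bt.card = (R.filter (fun p => p.1 = t)).card := by
      rw [hBt, card_image_of_injOn]
      intro p hp p' hp' heq
      have hp := (mem_filter.mp (mem_coe.mp hp)).2
      have hp' := (mem_filter.mp (mem_coe.mp hp')).2
      exact Prod.ext (hp.trans hp'.symm) heq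
    have hBt1 : k / q ^ 7 ≤ Bt.card := by
      apply Nat.div_le_of_le_mul
      rw [hBtc]
      have h1 : k * k ≤ k * (48 * q ^ 6 * (R.filter (fun p => p.1 = t)).card) := by
        calc k * k = k ^ 2 := by ring
          _ ≤ 48 * R.card := hR
          _ ≤ 48 * (Q.card * (R.filter (fun p => p.1 = t)).card) := Nat.mul_le_mul_left _ htc
          _ ≤ 48 * ((k * q ^ 6) * (R.filter (fun p => p.1 = t)).card) :=
              Nat.mul_le_mul_left _ (Nat.mul_le_mul_right _ hQ)
          _ = _ := by ring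
      have h2 := Nat.le_of_mul_le_mul_left h1 hkpos
      calc k ≤ 48 * q ^ 6 * (R.filter (fun p => p.1 = t)).card := h2
        _ ≤ q * q ^ 6 * (R.filter (fun p => p.1 = t)).card := by
            apply Nat.mul_le_mul_right
            apply Nat.mul_le_mul_right
            exact le_trans (by norm_num) P.q1
        _ = q ^ 7 * (R.filter (fun p => p.1 = t)).card := by ring
    have hr : ∀ b ∈ Bt, n ≤ (Nb H₁ t b).card * q ^ 14 := by
      intro b hb
      obtain ⟨p, hp, rfl⟩ := mem_image.mp hb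
      rw [mem_filter] at hp
      have h1 := (mem_RP.mp hp.1).2
      rw [hp.2] at h1
      exact h1.trans (Nat.mul_le_mul_right _ (card_le_card sdiff_subset))
    refine ⟨k * q, common_of_rich_star P hn h3 h3' t Bt hBt1 hr hs, ?_⟩
    calc k * J ≤ k * q := Nat.mul_le_mul_left _ P.Jq
      _ ≤ 25600 * (k * q) := Nat.le_mul_of_pos_left _ (by norm_num)

end TypeII3

end Pool.Agent.Lib.MP_9dddc4_co
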