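import Mathlib
import Pool.Agent.Lib.MP_9dddc4_co.TypeII3

namespace Pool.Agent.Lib.MP_9dddc4_co

open Finset

section KL

variable {V : Type*} [Fintype V] [DecidableEq V]

omit [Fintype V] [DecidableEq V] in
lemma Hit.toN {ξ : Type*} [DecidableEq ξ] {B : Finset V} {nb : V → Finset V}
    {E : Finset (V × V)} {X : V × V → Finset ξ} {m : ℕ} (h : Hit B nb E X m) :
    HitN B nb E m := by
  obtain ⟨π, ψ, H, h1, h2, h3, _, h5⟩ := h
  exact ⟨π, ψ, H, h1, h2, h3, h5⟩

/-- hits inside links give pieces -/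
lemma piece_of_hits {H₁ H₂ : Finset (Finset V)} (h3 : ∀ e ∈ H₁, e.card = 3)
    (h3' : ∀ e ∈ H₂, e.card = 3) (t v : V) (Z₁ Z₂ : Finset V)
    (B : Finset V) (nb : V → Finset V) (E : Finset (V × V)) (c : V → Fin 2) (m : ℕ)
    (ht : t ∉ Z₁) (hv : v ∉ Z₂)
    (hE : ∀ e ∈ E, (t, e.1, e.2) ∈ Tri H₁ ∧ e.1 ∉ Z₁ ∧ e.2 ∉ Z₁ ∧ c e.1 = 0 ∧ c e.2 = 1)
    (hM : ∀ b ∈ B, ∀ a ∈ nb b, (v, b, a) ∈ Tri H₂ ∧ b ∉ Z₂ ∧ a ∉ Z₂)
    (hBA : ∀ b ∈ B, ∀ b' ∈ B, ∀ a ∈ nb b, a ≠ b')
    (hhit : HitN B nb E m) :
    ∃ (S : Finset V) (F : Finset (Finset V)) (f : V → V), Piece H₁ H₂ S F f ∧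
      m ≤ F.card ∧ S.card ≤ 3 * F.card ∧ Disjoint S Z₁ ∧ Disjoint (S.image f) Z₂ := by
  classical
  obtain ⟨π, ψ, H, g1, g2, g3, g4⟩ := hhit
  set Ts : Finset (Unit × V × V) := H.image (fun p => ((), p.1, p.2)) with hTs
  have hmem : ∀ u ∈ Ts, ∃ p ∈ H, u = ((), p.1, p.2) := by
    intro u hu
    obtain ⟨p, hp, rfl⟩ := mem_image.mp hu
    exact ⟨p, hp, rfl⟩
  have hfE : ∀ p ∈ H, (t, ψ p.1, π p.2) ∈ Tri H₁ ∧ ψ p.1 ∉ Z₁ ∧ π p.2 ∉ Z₁ ∧
      c (ψ p.1) = 0 ∧ c (π p.2) = 1 := fun p hp => hE _ (g1 p hp).2.2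
  have hfM : ∀ p ∈ H, (v, p.1, p.2) ∈ Tri H₂ ∧ p.1 ∉ Z₂ ∧ p.2 ∉ Z₂ :=
    fun p hp => hM _ (g1 p hp).1 _ (g1 p hp).2.1
  obtain ⟨SS, F, f, hP, hF, hS, hd1, hd2⟩ := piece_of_triples H₁ H₂ Ts
    (fun _ => t) (fun _ => v) ψ (fun b => b) π (fun a => a)
    (fun _ _ _ _ _ => rfl) (fun _ _ _ _ _ => rfl)
    (by
      intro u hu u' hu' h
      obtain ⟨p, hp, rfl⟩ := hmem u hu
      obtain ⟨p', hp', rfl⟩ := hmem u' hu'
      exact g3 p hp p' hp' h)
    (fun _ _ _ _ h => h)
    (by
      intro u hu u' hu' h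
      obtain ⟨p, hp, rfl⟩ := hmem u hu
      obtain ⟨p', hp', rfl⟩ := hmem u' hu'
      exact g2 p hp p' hp' h)
    (fun _ _ _ _ h => h)
    (by
      intro u hu u' hu'
      obtain ⟨p', hp', rfl⟩ := hmem u' hu'
      exact (Tri_ne h3 (hfE p' hp').1).1)
    (by
      intro u hu u' hu'
      obtain ⟨p', hp', rfl⟩ := hmem u' hu'
      exact (Tri_ne h3' (hfM p' hp').1).1)
    (by
      intro u hu u' hu'
      obtain ⟨p', hp', rfl⟩ := hmem u' hu'
      exact (Tri_ne h3 (hfE p' hp').1).2.1)
    (by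
      intro u hu u' hu'
      obtain ⟨p', hp', rfl⟩ := hmem u' hu'
      exact (Tri_ne h3' (hfM p' hp').1).2.1)
    (by
      intro u hu u' hu' h
      obtain ⟨p, hp, rfl⟩ := hmem u hu
      obtain ⟨p', hp', rfl⟩ := hmem u' hu'
      have e1 := (hfE p hp).2.2.2.1
      have e2 := (hfE p' hp').2.2.2.2
      simp only at h
      rw [h, e2] at e1
      exact absurd e1 (by decide))
    (by
      intro u hu u' hu' h
      obtain ⟨p, hp, rfl⟩ := hmem u hu
      obtain ⟨p', hp', rfl⟩ := hmem u' hu'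
      exact hBA _ (g1 p' hp').1 _ (g1 p hp).1 _ (g1 p' hp').2.1 h.symm)
    (by
      intro u hu
      obtain ⟨p, hp, rfl⟩ := hmem u hu
      exact mem_Tri'.mp (hfE p hp).1)
    (by
      intro u hu
      obtain ⟨p, hp, rfl⟩ := hmem u hu
      exact mem_Tri'.mp (hfM p hp).1)
    Z₁ Z₂
    (by
      intro u hu
      obtain ⟨p, hp, rfl⟩ := hmem u hu
      exact ⟨ht, (hfE p hp).2.1, (hfE p hp).2.2.1⟩)
    (by
      intro u hu
      obtain ⟨p, hp, rfl⟩ := hmem u hu
      exact ⟨hv, (hfM p hp).2.1, (hfM p hp).2.2⟩)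
  have hTsc : Ts.card = H.card := by
    rw [hTs, card_image_of_injective _ (fun a b h => (Prod.mk.inj h).2)]
  refine ⟨SS, F, f, hP, ?_, ?_, hd1, hd2⟩
  · rw [hF, hTsc]; exact g4
  · rw [hF]; exact hS

/-- the one-vertex stage -/
theorem KL {n k q J : ℕ} (P : Par n k q J) (hn : Fintype.card V = n)
    {H₁ H₂ : Finset (Finset V)} (h3 : ∀ e ∈ H₁, e.card = 3)
    (h3' : ∀ e ∈ H₂, e.card = 3) (t v : V) (Z₁ Z₂ : Finset V) (ht : t ∉ Z₁) (hv : v ∉ Z₂)
    (L : Finset (V × V)) (hL : ∀ p ∈ L, (t, p.1, p.2) ∈ Tri H₁ ∧ p.1 ∉ Z₁ ∧ p.2 ∉ Z₁)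
    (hLc : n * k ≤ 24 * q ^ 2 * L.card)
    (M : Finset (V × V)) (hM : ∀ p ∈ M, (v, p.1, p.2) ∈ Tri H₂ ∧ p.1 ∉ Z₂ ∧ p.2 ∉ Z₂)
    (hMc : k ^ 2 ≤ 100 * M.card) :
    ∃ (S : Finset V) (F : Finset (Finset V)) (f : V → V), Piece H₁ H₂ S F f ∧
      (L.card * J ≤ 25600 * n * k * F.card ∨ k * J ≤ 25600 * F.card) ∧
      k ≤ 768 * q ^ 2 * F.card ∧
      S.card ≤ 3 * F.card ∧ Disjoint S Z₁ ∧ Disjoint (S.image f) Z₂ := by
  classical
  have hqpos := P.qpos
  have hkpos := P.kpos
  have hnpos := P.npos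
  have hk1600 : 12800 ≤ k := by
    have := P.ckpow (a := 0) (c := 12800) (by norm_num) (by norm_num)
    simpa using this
  have hJ1 := P.J1
  have hJk : J ≤ k := P.Jq.trans (by simpa using P.kpow (a := 1) (by norm_num))
  -- pattern
  obtain ⟨B, nb, hB1, hB2, hB3, hB4⟩ := orientation M k (by omega)
    (fun p hp => (Tri_ne h3' (hM p hp).1).2.2) hMc
  have hMp : ∀ b ∈ B, ∀ a ∈ nb b, (v, b, a) ∈ Tri H₂ ∧ b ∉ Z₂ ∧ a ∉ Z₂ := by
    intro b hb a ha
    rcases hB2 b hb a ha with h | h
    · obtain ⟨e1, e2, e3⟩ := hM _ h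
      exact ⟨Tri_swap23.mp e1, e3, e2⟩
    · exact hM _ h
  -- cut down L
  set g := min L.card (n * k ^ 2) with hg
  obtain ⟨L', hL'L, hL'c⟩ := exists_subset_card_eq (min_le_left L.card (n * k ^ 2))
  rw [← hg] at hL'c
  have hgk : n * k ≤ 24 * q ^ 2 * g := by
    rcases le_total L.card (n * k ^ 2) with h | h
    · rw [hg, min_eq_left h]; exact hLc
    · rw [hg, min_eq_right h]
      calc n * k ≤ n * k ^ 2 := Nat.mul_le_mul_left _ (Nat.le_self_pow (by norm_num) k)
        _ ≤ 24 * q ^ 2 * (n * k ^ 2) := Nat.le_mul_of_pos_left _ (by positivity)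
  have hgle : g ≤ n * k ^ 2 := min_le_right _ _
  obtain ⟨c, hc⟩ := exists_coloring2 L' (fun p => p.1) (fun p => p.2)
    (fun p hp => (Tri_ne h3 (hL p (hL'L hp)).1).2.2)
  set E := L'.filter (fun p => c p.1 = 0 ∧ c p.2 = 1) with hE
  have hgE : g ≤ 4 * E.card := by rw [← hL'c]; exact hc
  have hEg : E.card ≤ g := by rw [← hL'c]; exact card_filter_le _ _
  have hEp : ∀ e ∈ E, (t, e.1, e.2) ∈ Tri H₁ ∧ e.1 ∉ Z₁ ∧ e.2 ∉ Z₁ ∧ c e.1 = 0 ∧ c e.2 = 1 := by
    intro e he
    rw [hE, mem_filter] at he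
    obtain ⟨e1, e2, e3⟩ := hL e (hL'L he.1)
    exact ⟨e1, e2, e3, he.2.1, he.2.2⟩
  -- labels
  let X : V × V → Finset (V × V) := fun e => {e}
  have hX1 : ∀ e ∈ E, (X e).card ≤ 1 := fun e _ => by simp [X]
  have hμ1 : ∀ (z : V) (x : V × V),
      (univ.filter (fun y : V => (y, z) ∈ E ∧ x ∈ X (y, z))).card ≤ 1 := by
    intro z x
    rw [card_le_one]
    intro a ha b hb
    have ha := (mem_filter.mp ha).2.2
    have hb := (mem_filter.mp hb).2.2
    simp only [X, mem_singleton] at ha hb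
    have := ha.symm.trans hb
    exact (Prod.mk.inj this).1
  have hμ2 : ∀ (y : V) (x : V × V),
      (univ.filter (fun z : V => (y, z) ∈ E ∧ x ∈ X (y, z))).card ≤ 1 := by
    intro y x
    rw [card_le_one]
    intro a ha b hb
    have ha := (mem_filter.mp ha).2.2
    have hb := (mem_filter.mp hb).2.2
    simp only [X, mem_singleton] at ha hb
    have := ha.symm.trans hb
    exact (Prod.mk.inj this).2
  -- the main claim: enough hits
  have main : ∃ m, HitN B nb E m ∧ g * J ≤ 25600 * n * k * m ∧ k ≤ 768 * q ^ 2 * m := by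
    set J' := g * J / (n * k ^ 2) with hJ'
    rcases Nat.eq_zero_or_pos J' with h0 | hJ'1
    · -- few
      have hgJ : g * J < n * k ^ 2 := by
        rw [hJ'] at h0
        exact (Nat.div_eq_zero_iff_lt (by positivity)).mp h0
      set h := min (k / 1600) (E.card / (4 * n)) with hh
      have hBcard : h ≤ B.card := by
        have h1 : k * k ≤ k * (1600 * B.card) := by
          calc k * k = k ^ 2 := by ring
            _ ≤ 1600 * ∑ b ∈ B, (nb b).card := hB4
            _ ≤ 1600 * (B.card * k) := by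
                apply Nat.mul_le_mul_left
                rw [← smul_eq_mul, ← sum_const]
                exact sum_le_sum (fun b hb => (hB1 b hb).2)
            _ = k * (1600 * B.card) := by ring
        have h2 := Nat.le_of_mul_le_mul_left h1 hkpos
        have h3 : h ≤ k / 1600 := min_le_left _ _
        omega
      have hgg : 2 * n * (h + h * 1 * 1) ≤ E.card := by
        have h1 : h ≤ E.card / (4 * n) := min_le_right _ _
        have h2 := Nat.mul_div_le E.card (4 * n)
        calc 2 * n * (h + h * 1 * 1) = 4 * n * h := by ring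
          _ ≤ 4 * n * (E.card / (4 * n)) := Nat.mul_le_mul_left _ h1
          _ ≤ E.card := h2
      have hhit := hit_of_B B nb E X 1 1 h (by rw [hn]; exact hnpos)
        (fun b hb => (hB1 b hb).1) hX1 hμ1 (by rw [hn]; exact hgg) hBcard
      refine ⟨h, hhit.toN, ?_⟩
      rcases le_total (k / 1600) (E.card / (4 * n)) with hle | hle
      · have he : h = k / 1600 := by rw [hh, min_eq_left hle]
        have h1 : k ≤ 3200 * h := by omega
        constructor
        · calc g * J ≤ n * k ^ 2 := hgJ.le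
            _ = n * k * k := by ring
            _ ≤ n * k * (3200 * h) := Nat.mul_le_mul_left _ h1
            _ = 3200 * (n * k * h) := by ring
            _ ≤ 25600 * (n * k * h) := Nat.mul_le_mul_right _ (by norm_num)
            _ = _ := by ring
        · calc k ≤ 3200 * h := h1
            _ ≤ 768 * q ^ 2 * h := by
                apply Nat.mul_le_mul_right
                have : (10 ^ 5) ^ 2 ≤ q ^ 2 := Nat.pow_le_pow_left P.q1 2
                omega
      · have he : h = E.card / (4 * n) := by rw [hh, min_eq_right hle]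
        -- E.card / (4n) ≥ 1
        have hE4 : 4 * n ≤ E.card := by
          have h1 : (96 * q ^ 2) * (4 * n) ≤ (96 * q ^ 2) * E.card := by
            calc (96 * q ^ 2) * (4 * n) = n * (384 * q ^ 2) := by ring
              _ ≤ n * k := Nat.mul_le_mul_left _ (P.ckpow (by norm_num) (by norm_num))
              _ ≤ 24 * q ^ 2 * g := hgk
              _ ≤ 24 * q ^ 2 * (4 * E.card) := Nat.mul_le_mul_left _ hgE
              _ = _ := by ring
          exact Nat.le_of_mul_le_mul_left h1 (by positivity)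
        have hh1 : 1 ≤ h := by
          rw [he, Nat.one_le_div_iff (by positivity)]; exact hE4
        have hEh : E.card ≤ 8 * n * h := by
          have h1 := Nat.lt_mul_div_succ E.card (show 0 < 4 * n by positivity)
          rw [← he] at h1
          calc E.card ≤ 4 * n * (h + 1) := h1.le
            _ ≤ 4 * n * (2 * h) := Nat.mul_le_mul_left _ (by omega)
            _ = 8 * n * h := by ring
        have hgh : g ≤ 32 * n * h := by
          calc g ≤ 4 * E.card := hgE
            _ ≤ 4 * (8 * n * h) := Nat.mul_le_mul_left _ hEh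
            _ = _ := by ring
        constructor
        · calc g * J ≤ (32 * n * h) * k := Nat.mul_le_mul hgh hJk
            _ = 32 * (n * k * h) := by ring
            _ ≤ 25600 * (n * k * h) := Nat.mul_le_mul_right _ (by norm_num)
            _ = _ := by ring
        · have h1 : n * k ≤ n * (768 * q ^ 2 * h) := by
            calc n * k ≤ 24 * q ^ 2 * g := hgk
              _ ≤ 24 * q ^ 2 * (32 * n * h) := Nat.mul_le_mul_left _ hgh
              _ = _ := by ring
          exact Nat.le_of_mul_le_mul_left h1 hnpos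
    · have hJ'n : J' * (n * k ^ 2) ≤ g * J := Nat.div_mul_le_self _ _
      have hJ'low : g * J ≤ 2 * J' * (n * k ^ 2) := by
        have h1 := Nat.lt_mul_div_succ (g * J) (show 0 < n * k ^ 2 by positivity)
        rw [← hJ'] at h1
        calc g * J ≤ n * k ^ 2 * (J' + 1) := h1.le
          _ ≤ n * k ^ 2 * (2 * J') := Nat.mul_le_mul_left _ (by omega)
          _ = _ := by ring
      have hJ'J : J' ≤ J := by
        have h1 : J' * (n * k ^ 2) ≤ J * (n * k ^ 2) := by
          calc J' * (n * k ^ 2) ≤ g * J := hJ'n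
            _ ≤ (n * k ^ 2) * J := Nat.mul_le_mul_right _ hgle
            _ = J * (n * k ^ 2) := by ring
        exact Nat.le_of_mul_le_mul_right h1 (by positivity)
      have hgq : n * k ^ 2 ≤ q * g := by
        calc n * k ^ 2 ≤ J' * (n * k ^ 2) := Nat.le_mul_of_pos_left _ hJ'1
          _ ≤ g * J := hJ'n
          _ ≤ g * q := Nat.mul_le_mul_left _ P.Jq
          _ = q * g := by ring
      set D := E.card / (2 * n) with hD
      have hD1 : 2 * n * D ≤ E.card := Nat.mul_div_le _ _
      have hDpos : 1 ≤ D := by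
        rw [hD, Nat.one_le_div_iff (by positivity)]
        have h1 : (4 * q) * (2 * n) ≤ (4 * q) * E.card := by
          calc (4 * q) * (2 * n) = n * (8 * q ^ 1) := by ring
            _ ≤ n * k := Nat.mul_le_mul_left _ (P.ckpow (by norm_num) (by norm_num))
            _ ≤ n * k ^ 2 := Nat.mul_le_mul_left _ (Nat.le_self_pow (by norm_num) k)
            _ ≤ q * g := hgq
            _ ≤ q * (4 * E.card) := Nat.mul_le_mul_left _ hgE
            _ = (4 * q) * E.card := by ring
        exact Nat.le_of_mul_le_mul_left h1 (by positivity)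
      have hED : E.card ≤ 4 * n * D := by
        have h1 := Nat.lt_mul_div_succ E.card (show 0 < 2 * n by positivity)
        rw [← hD] at h1
        calc E.card ≤ 2 * n * (D + 1) := h1.le
          _ ≤ 2 * n * (2 * D) := Nat.mul_le_mul_left _ (by omega)
          _ = 4 * n * D := by ring
      have hgD : g ≤ 16 * n * D := by
        calc g ≤ 4 * E.card := hgE
          _ ≤ 4 * (4 * n * D) := Nat.mul_le_mul_left _ hED
          _ = _ := by ring
      have hD2 : D ≤ k ^ 2 := by
        have h1 : n * D ≤ n * k ^ 2 := by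
          calc n * D ≤ 2 * n * D := by
                apply Nat.mul_le_mul_right
                omega
            _ ≤ E.card := hD1
            _ ≤ g := hEg
            _ ≤ n * k ^ 2 := hgle
        exact Nat.le_of_mul_le_mul_left h1 hnpos
      have hD3 : k ^ 2 ≤ D * q ^ 60 := by
        have h1 : n * k ^ 2 ≤ n * (D * q ^ 60) := by
          calc n * k ^ 2 ≤ q * g := hgq
            _ ≤ q * (16 * n * D) := Nat.mul_le_mul_left _ hgD
            _ = 16 * (n * (D * q)) := by ring
            _ ≤ q * (n * (D * q)) := Nat.mul_le_mul_right _ (le_trans (by norm_num) P.q1)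
            _ = n * (D * q ^ 2) := by ring
            _ ≤ n * (D * q ^ 60) := by
                apply Nat.mul_le_mul_left
                apply Nat.mul_le_mul_left
                exact Nat.pow_le_pow_right hqpos (by norm_num)
        exact Nat.le_of_mul_le_mul_left h1 hnpos
      have hratio : J' * k ^ 2 ≤ 864 * 1 * J * D := by
        have h1 : n * (J' * k ^ 2) ≤ n * (864 * 1 * J * D) := by
          calc n * (J' * k ^ 2) = J' * (n * k ^ 2) := by ring
            _ ≤ g * J := hJ'n
            _ ≤ (16 * n * D) * J := Nat.mul_le_mul_right _ hgD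
            _ = 16 * (n * (J * D)) := by ring
            _ ≤ 864 * (n * (J * D)) := Nat.mul_le_mul_right _ (by norm_num)
            _ = _ := by ring
        exact Nat.le_of_mul_le_mul_left h1 hnpos
      rcases embed P hn B nb hB1 hB4 E X 1 1 J' D hX1 hμ1 hμ2 hJ'1 le_rfl (by omega)
        (by rw [mul_one]; exact Nat.one_le_pow _ _ hqpos) hD1 hD2 hD3 hratio with
        ⟨m, hm1, hm2⟩ | ⟨m, hm1, hm2⟩
      · refine ⟨m, hm1.toN, ?_, ?_⟩
        · calc g * J ≤ 2 * J' * (n * k ^ 2) := hJ'low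
            _ = 2 * (n * k) * (J' * k) := by ring
            _ ≤ 2 * (n * k) * (12800 * m) := Nat.mul_le_mul_left _ hm2
            _ = _ := by ring
        · calc k ≤ J' * k := Nat.le_mul_of_pos_left _ hJ'1
            _ ≤ 12800 * m := hm2
            _ ≤ 768 * q ^ 2 * m := by
                apply Nat.mul_le_mul_right
                have : (10 ^ 5) ^ 2 ≤ q ^ 2 := Nat.pow_le_pow_left P.q1 2
                omega
      · refine ⟨m, hm1, ?_, ?_⟩
        · calc g * J ≤ (n * k ^ 2) * q := Nat.mul_le_mul hgle P.Jq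
            _ ≤ (n * (3200 * q * m)) * q :=
                Nat.mul_le_mul_right _ (Nat.mul_le_mul_left _ hm2)
            _ = (n * m) * (3200 * q ^ 2) := by ring
            _ ≤ (n * m) * k := Nat.mul_le_mul_left _ (P.ckpow (by norm_num) (by norm_num))
            _ = 1 * (n * k * m) := by ring
            _ ≤ 25600 * (n * k * m) := Nat.mul_le_mul_right _ (by norm_num)
            _ = _ := by ring
        · calc k ≤ k ^ 2 := Nat.le_self_pow (by norm_num) k
            _ ≤ 3200 * q * m := hm2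
            _ ≤ 768 * q ^ 2 * m := by
                apply Nat.mul_le_mul_right
                calc 3200 * q ≤ (768 * q) * q := by
                      apply Nat.mul_le_mul_right
                      have := P.q1
                      omega
                  _ = 768 * q ^ 2 := by ring
  obtain ⟨m, hm1, hm2, hm3⟩ := main
  obtain ⟨S, F, f, hP, hmF, hSF, hd1, hd2⟩ := piece_of_hits h3 h3' t v Z₁ Z₂ B nb E c m ht hv
    hEp hMp hB3 hm1
  refine ⟨S, F, f, hP, ?_, ?_, hSF, hd1, hd2⟩
  · rcases le_total L.card (n * k ^ 2) with h | h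
    · left
      have he : g = L.card := by rw [hg, min_eq_left h]
      rw [← he]
      exact hm2.trans (Nat.mul_le_mul_left _ hmF)
    · right
      have he : g = n * k ^ 2 := by rw [hg, min_eq_right h]
      rw [he] at hm2
      have h1 : (n * k) * (k * J) ≤ (n * k) * (25600 * m) := by
        calc (n * k) * (k * J) = n * k ^ 2 * J := by ring
          _ ≤ 25600 * n * k * m := hm2
          _ = _ := by ring
      have h2 := Nat.le_of_mul_le_mul_left h1 (by positivity)
      exact h2.trans (Nat.mul_le_mul_left _ hmF)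
  · exact hm3.trans (Nat.mul_le_mul_left _ hmF)

end KL

end Pool.Agent.Lib.MP_9dddc4_co
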