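import Mathlib
import Pool.Agent.Lib.MP_9dddc4_co.KL

namespace Pool.Agent.Lib.MP_9dddc4_co

open Finset

section Stage

variable {V : Type*} [Fintype V] [DecidableEq V]

/-- remaining link pairs avoiding `Q` -/
def RL (H : Finset (Finset V)) (Q : Finset V) (t : V) : Finset (V × V) :=
  (Lk H t).filter (fun p => p.1 ∉ Q ∧ p.2 ∉ Q)

lemma mem_RL {H : Finset (Finset V)} {Q : Finset V} {t : V} {p : V × V} :
    p ∈ RL H Q t ↔ (t, p.1, p.2) ∈ Tri H ∧ p.1 ∉ Q ∧ p.2 ∉ Q := by
  rw [RL, mem_filter, mem_Lk]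

lemma RL_mono {H : Finset (Finset V)} {Q Q' : Finset V} (h : Q ⊆ Q') (t : V) :
    RL H Q' t ⊆ RL H Q t := by
  intro p hp
  rw [mem_RL] at hp ⊢
  exact ⟨hp.1, fun h1 => hp.2.1 (h h1), fun h1 => hp.2.2 (h h1)⟩

lemma first_count (H : Finset (Finset V)) (U Q : Finset V) (hUQ : U ⊆ Q) :
    ((Tri H).filter (fun t => t.1 ∈ U)).card ≤ ∑ t ∈ U, (RL H Q t).card
      + 2 * ((Tri H).filter (fun t => t.1 ∈ Q ∧ t.2.1 ∈ Q)).card := by
  classical
  have h1 := Tri_count_swap23 H (fun a b _ => a ∈ Q ∧ b ∈ Q)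
  have hsum : ((Tri H).filter (fun t => t.1 ∈ U ∧ t.2.1 ∉ Q ∧ t.2.2 ∉ Q)).card
      = ∑ t ∈ U, (RL H Q t).card := by
    rw [card_eq_sum_card_fiberwise
      (s := (Tri H).filter (fun t => t.1 ∈ U ∧ t.2.1 ∉ Q ∧ t.2.2 ∉ Q))
      (f := fun t : V × V × V => t.1) (t := U)
      (fun t ht => (mem_filter.mp (mem_coe.mp ht)).2.1)]
    apply sum_congr rfl
    intro u hu
    apply Finset.card_bij (fun t _ => t.2)
    · rintro ⟨a, b, c⟩ ht
      rw [mem_filter, mem_filter] at ht
      obtain ⟨⟨e1, e2⟩, e3⟩ := ht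
      simp only at e3
      subst e3
      rw [mem_RL]
      exact ⟨e1, e2.2⟩
    · rintro ⟨a, b, c⟩ ht ⟨a', b', c'⟩ ht' h
      rw [mem_filter] at ht ht'
      exact Prod.ext (ht.2.trans ht'.2.symm) h
    · intro p hp
      rw [mem_RL] at hp
      exact ⟨(u, p.1, p.2), mem_filter.mpr ⟨mem_filter.mpr ⟨hp.1, hu, hp.2⟩, rfl⟩, rfl⟩
  have hsub : (Tri H).filter (fun t => t.1 ∈ U) ⊆
      ((Tri H).filter (fun t => t.1 ∈ U ∧ t.2.1 ∉ Q ∧ t.2.2 ∉ Q) ∪
      (Tri H).filter (fun t => t.1 ∈ Q ∧ t.2.1 ∈ Q)) ∪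
      (Tri H).filter (fun t => t.1 ∈ Q ∧ t.2.2 ∈ Q) := by
    intro t ht
    rw [mem_filter] at ht
    by_cases c1 : t.2.1 ∈ Q
    · exact mem_union_left _ (mem_union_right _ (mem_filter.mpr ⟨ht.1, hUQ ht.2, c1⟩))
    · by_cases c2 : t.2.2 ∈ Q
      · exact mem_union_right _ (mem_filter.mpr ⟨ht.1, hUQ ht.2, c2⟩)
      · exact mem_union_left _ (mem_union_left _ (mem_filter.mpr ⟨ht.1, ht.2, c1, c2⟩))
  have c1 := card_le_card hsub
  have c2 := card_union_le ((Tri H).filter (fun t => t.1 ∈ U ∧ t.2.1 ∉ Q ∧ t.2.2 ∉ Q) ∪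
      (Tri H).filter (fun t => t.1 ∈ Q ∧ t.2.1 ∈ Q))
      ((Tri H).filter (fun t => t.1 ∈ Q ∧ t.2.2 ∈ Q))
  have c3 := card_union_le ((Tri H).filter (fun t => t.1 ∈ U ∧ t.2.1 ∉ Q ∧ t.2.2 ∉ Q))
      ((Tri H).filter (fun t => t.1 ∈ Q ∧ t.2.1 ∈ Q))
  rw [← hsum]
  omega

lemma avoid_count (H : Finset (Finset V)) (Q : Finset V) (hV : 0 < Fintype.card V)
    (hQ : 24 * ((Tri H).filter (fun t => t.1 ∈ Q)).card < 7 * (Tri H).card) :
    ∃ v, v ∉ Q ∧ (Tri H).card ≤ 8 * (Fintype.card V * (RL H Q v).card) := by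
  classical
  have h1 := Tri_count_swap12 H (fun a _ _ => a ∈ Q)
  have h2 := Tri_count_swap23 H (fun _ b _ => b ∈ Q)
  have h2' := Tri_count_swap23 H (fun _ b _ => b ∈ Q)
  set A := (Tri H).filter (fun t => t.1 ∉ Q ∧ t.2.1 ∉ Q ∧ t.2.2 ∉ Q) with hA
  have hsub : Tri H ⊆ (A ∪ (Tri H).filter (fun t => t.1 ∈ Q)) ∪
      ((Tri H).filter (fun t => t.2.1 ∈ Q) ∪ (Tri H).filter (fun t => t.2.2 ∈ Q)) := by
    intro t ht
    by_cases c1 : t.1 ∈ Q
    · exact mem_union_left _ (mem_union_right _ (mem_filter.mpr ⟨ht, c1⟩))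
    · by_cases c2 : t.2.1 ∈ Q
      · exact mem_union_right _ (mem_union_left _ (mem_filter.mpr ⟨ht, c2⟩))
      · by_cases c3 : t.2.2 ∈ Q
        · exact mem_union_right _ (mem_union_right _ (mem_filter.mpr ⟨ht, c3⟩))
        · exact mem_union_left _ (mem_union_left _ (mem_filter.mpr ⟨ht, c1, c2, c3⟩))
  have c1 := card_le_card hsub
  have c2 := card_union_le (A ∪ (Tri H).filter (fun t => t.1 ∈ Q))
      ((Tri H).filter (fun t => t.2.1 ∈ Q) ∪ (Tri H).filter (fun t => t.2.2 ∈ Q))
  have c3 := card_union_le A ((Tri H).filter (fun t => t.1 ∈ Q))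
  have c4 := card_union_le ((Tri H).filter (fun t => t.2.1 ∈ Q))
    ((Tri H).filter (fun t => t.2.2 ∈ Q))
  have hA8 : (Tri H).card < 8 * A.card := by omega
  have hne : (univ : Finset V).Nonempty := by
    rw [← card_pos, card_univ]; exact hV
  obtain ⟨v, _, hv⟩ := pigeon A (fun t => t.1) univ (fun _ _ => mem_univ _) hne
  rw [card_univ] at hv
  have hfib : (A.filter (fun t => t.1 = v)).card ≤ (RL H Q v).card := by
    apply Finset.card_le_card_of_injOn (fun t => t.2)
    · rintro ⟨a, b, c⟩ ht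
      have ht := mem_filter.mp (mem_coe.mp ht)
      obtain ⟨e1, e2⟩ := ht
      rw [hA, mem_filter] at e1
      simp only at e1 e2
      subst e2
      apply mem_coe.mpr
      rw [mem_RL]
      exact ⟨e1.1, e1.2.2⟩
    · intro t ht t' ht' heq
      have ht := mem_filter.mp (mem_coe.mp ht)
      have ht' := mem_filter.mp (mem_coe.mp ht')
      exact Prod.ext (ht.2.trans ht'.2.symm) heq
  have hvQ : v ∉ Q := by
    intro hvQ
    have h0 : A.filter (fun t => t.1 = v) = ∅ := by
      rw [filter_eq_empty_iff]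
      intro t ht he
      rw [hA, mem_filter] at ht
      rw [he] at ht
      exact ht.2.1 hvQ
    rw [h0, card_empty, mul_zero] at hv
    omega
  refine ⟨v, hvQ, ?_⟩
  have h5 : Fintype.card V * (A.filter (fun t => t.1 = v)).card
      ≤ Fintype.card V * (RL H Q v).card := Nat.mul_le_mul_left _ hfib
  omega

/-- case: `H₁` covered by few vertices (not type II), `H₂` not coverable -/
theorem common_C1 {n k q J : ℕ} (P : Par n k q J) (hn : Fintype.card V = n)
    {H₁ H₂ : Finset (Finset V)} (h3 : ∀ e ∈ H₁, e.card = 3) (h3' : ∀ e ∈ H₂, e.card = 3)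
    (hτ1 : n * k ^ 2 ≤ (Tri H₁).card) (hτ2 : n * k ^ 2 ≤ (Tri H₂).card)
    (U : Finset V) (hU : U.card ≤ k * q ^ 2)
    (hU2 : 7 * (Tri H₁).card ≤ 24 * ((Tri H₁).filter (fun t => t.1 ∈ U)).card)
    (hNT : ∀ Q : Finset V, Q.card ≤ k * q ^ 6 →
      24 * ((Tri H₁).filter (fun t => t.1 ∈ Q ∧ t.2.1 ∈ Q)).card < (Tri H₁).card)
    (hNC : ∀ Q : Finset V, Q.card ≤ k * q ^ 6 →
      24 * ((Tri H₂).filter (fun t => t.1 ∈ Q)).card < 7 * (Tri H₂).card) :
    ∃ m, Common H₁ H₂ m ∧ k * J ≤ 153600 * m := by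
  classical
  have hqpos := P.qpos
  have hkpos := P.kpos
  have hnpos := P.npos
  have hVpos : 0 < Fintype.card V := by rw [hn]; exact hnpos
  by_contra hdone
  have hnd : ∀ (S : Finset V) (F : Finset (Finset V)) (f : V → V), Piece H₁ H₂ S F f →
      153600 * F.card < k * J := by
    intro S F f hP
    by_contra hcon
    push Not at hcon
    exact hdone ⟨F.card, ⟨S, F, f, hP, le_rfl⟩, hcon⟩
  have state : ∀ r : ℕ, ∃ (S : Finset V) (F : Finset (Finset V)) (f : V → V) (T : Finset V),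
      Piece H₁ H₂ S F f ∧ T ⊆ U ∧ S ∩ U ⊆ T ∧ S.card ≤ 3 * F.card ∧
      (∑ t ∈ T, (RL H₁ (U ∪ S) t).card) * J ≤ 25600 * n * k * F.card ∧
      r * k ≤ 768 * q ^ 2 * F.card := by
    intro r
    induction r with
    | zero =>
      refine ⟨∅, ∅, id, ∅, ⟨by simp, by simp⟩, by simp, by simp, by simp, by simp, by simp⟩
    | succ r ih =>
      obtain ⟨S, F, f, T, hP, hTU, hSU, hSF, hTsum, hrk⟩ := ih
      have hF := hnd S F f hP
      have hkJ : k * J ≤ k * q := Nat.mul_le_mul_left _ P.Jq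
      have hSc : S.card ≤ k * q := by omega
      set Q := U ∪ S with hQ
      have hQc : Q.card ≤ k * q ^ 6 := by
        have h1 : Q.card ≤ U.card + S.card := card_union_le _ _
        have h2 : k * q ≤ k * q ^ 2 := Nat.mul_le_mul_left _ (Nat.le_self_pow (by norm_num) q)
        calc Q.card ≤ U.card + S.card := h1
          _ ≤ k * q ^ 2 + k * q ^ 2 := Nat.add_le_add hU (hSc.trans h2)
          _ = 2 * (k * q ^ 2) := by ring
          _ ≤ q ^ 4 * (k * q ^ 2) := by
              apply Nat.mul_le_mul_right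
              calc 2 ≤ 10 ^ 5 := by norm_num
                _ ≤ q := P.q1
                _ ≤ q ^ 4 := Nat.le_self_pow (by norm_num) q
          _ = k * q ^ 6 := by ring
      have hfirst := first_count H₁ U Q subset_union_left
      have hnt := hNT Q hQc
      -- sum over T is small
      have hT6 : 6 * (∑ t ∈ T, (RL H₁ Q t).card) < n * k ^ 2 := by
        have h1 : (6 * (∑ t ∈ T, (RL H₁ Q t).card)) * J < (n * k ^ 2) * J := by
          calc (6 * (∑ t ∈ T, (RL H₁ Q t).card)) * J
              = 6 * ((∑ t ∈ T, (RL H₁ Q t).card) * J) := by ring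
            _ ≤ 6 * (25600 * n * k * F.card) := Nat.mul_le_mul_left _ hTsum
            _ = (n * k) * (153600 * F.card) := by ring
            _ < (n * k) * (k * J) := Nat.mul_lt_mul_of_pos_left hF (by positivity)
            _ = _ := by ring
        exact Nat.lt_of_mul_lt_mul_right h1
      have hsplit : ∑ t ∈ U, (RL H₁ Q t).card
          = ∑ t ∈ T, (RL H₁ Q t).card + ∑ t ∈ U \ T, (RL H₁ Q t).card := by
        rw [add_comm]; exact (sum_sdiff hTU).symm
      have hUT : n * k ^ 2 ≤ 24 * ∑ t ∈ U \ T, (RL H₁ Q t).card := by omega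
      obtain ⟨t, ht, htc⟩ : ∃ t ∈ U \ T, n * k ^ 2 ≤ 24 * ((U \ T).card * (RL H₁ Q t).card) := by
        by_contra hcon
        push Not at hcon
        have hne : (U \ T).Nonempty := by
          by_contra he
          rw [not_nonempty_iff_eq_empty] at he
          rw [he, sum_empty, mul_zero] at hUT
          have : 0 < n * k ^ 2 := by positivity
          omega
        have h1 : ∑ t ∈ U \ T, 24 * ((U \ T).card * (RL H₁ Q t).card)
            < ∑ _t ∈ U \ T, n * k ^ 2 := sum_lt_sum_of_nonempty hne hcon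
        rw [sum_const, smul_eq_mul, ← mul_sum, ← mul_sum] at h1
        have h2 : 24 * ((U \ T).card * ∑ t ∈ U \ T, (RL H₁ Q t).card)
            = (U \ T).card * (24 * ∑ t ∈ U \ T, (RL H₁ Q t).card) := by ring
        rw [h2] at h1
        have h3 := Nat.lt_of_mul_lt_mul_left h1
        omega
      rw [mem_sdiff] at ht
      have htc' : n * k ≤ 24 * q ^ 2 * (RL H₁ Q t).card := by
        have h1 : k * (n * k) ≤ k * (24 * q ^ 2 * (RL H₁ Q t).card) := by
          calc k * (n * k) = n * k ^ 2 := by ring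
            _ ≤ 24 * ((U \ T).card * (RL H₁ Q t).card) := htc
            _ ≤ 24 * ((k * q ^ 2) * (RL H₁ Q t).card) := by
                apply Nat.mul_le_mul_left
                apply Nat.mul_le_mul_right
                exact (card_le_card sdiff_subset).trans hU
            _ = _ := by ring
        exact Nat.le_of_mul_le_mul_left h1 hkpos
      -- second hypergraph
      set Z₂ := S.image f with hZ₂
      have hZ₂c : Z₂.card ≤ k * q ^ 6 := by
        have h1 : Z₂.card ≤ S.card := card_image_le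
        have h2 : k * q ≤ k * q ^ 6 := Nat.mul_le_mul_left _ (Nat.le_self_pow (by norm_num) q)
        omega
      obtain ⟨v, hvZ, hvc⟩ := avoid_count H₂ Z₂ hVpos (hNC Z₂ hZ₂c)
      rw [hn] at hvc
      have hMc : k ^ 2 ≤ 100 * (RL H₂ Z₂ v).card := by
        have h1 : n * k ^ 2 ≤ n * (8 * (RL H₂ Z₂ v).card) := by
          calc n * k ^ 2 ≤ (Tri H₂).card := hτ2
            _ ≤ 8 * (n * (RL H₂ Z₂ v).card) := hvc
            _ = _ := by ring
        have h2 := Nat.le_of_mul_le_mul_left h1 hnpos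
        omega
      set Z₁ := S ∪ U.erase t with hZ₁
      have htS : t ∉ S := by
        intro h
        exact ht.2 (hSU (mem_inter.mpr ⟨h, ht.1⟩))
      have htZ₁ : t ∉ Z₁ := by
        rw [hZ₁, mem_union]
        push Not
        exact ⟨htS, notMem_erase _ _⟩
      have hZ₁Q : Z₁ ⊆ Q := by
        intro x hx
        rw [hZ₁, mem_union] at hx
        rw [hQ, mem_union]
        rcases hx with h | h
        · exact Or.inr h
        · exact Or.inl (mem_of_mem_erase h)
      obtain ⟨S', F', f', hP', hgain, hk', hSF', hd1, hd2⟩ := KL P hn h3 h3' t v Z₁ Z₂ htZ₁ hvZ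
        (RL H₁ Q t) (by
          intro p hp
          rw [mem_RL] at hp
          exact ⟨hp.1, fun h => hp.2.1 (hZ₁Q h), fun h => hp.2.2 (hZ₁Q h)⟩)
        htc' (RL H₂ Z₂ v) (fun p hp => mem_RL.mp hp) hMc
      have hdS : Disjoint S S' := by
        rw [disjoint_comm]
        exact disjoint_of_subset_right subset_union_left hd1
      obtain ⟨f'', hP'', hFc, hSim⟩ := hP.union hP' hdS hd2.symm
        (by
          intro e he
          rw [← card_pos, h3 e he]; norm_num)
      have hgain' : (RL H₁ Q t).card * J ≤ 25600 * n * k * F'.card := by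
        rcases hgain with h | h
        · exact h
        · exfalso
          have h1 := hnd _ _ _ hP'
          omega
      refine ⟨S ∪ S', F ∪ F', f'', insert t T, hP'', ?_, ?_, ?_, ?_, ?_⟩
      · exact insert_subset ht.1 hTU
      · intro x hx
        rw [mem_inter, mem_union] at hx
        rcases hx.1 with h | h
        · exact mem_insert_of_mem (hSU (mem_inter.mpr ⟨h, hx.2⟩))
        · by_cases hxt : x = t
          · rw [hxt]; exact mem_insert_self _ _
          · exfalso
            exact (Finset.disjoint_left.mp hd1) h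
              (mem_union_right _ (mem_erase.mpr ⟨hxt, hx.2⟩))
      · rw [hFc]
        have := card_union_le S S'
        omega
      · rw [sum_insert ht.2, hFc, add_mul]
        have hsubQ : Q ⊆ U ∪ (S ∪ S') := by
          rw [hQ]
          exact union_subset_union_right subset_union_left
        have h1 : (RL H₁ (U ∪ (S ∪ S')) t).card * J ≤ 25600 * n * k * F'.card :=
          (Nat.mul_le_mul_right _ (card_le_card (RL_mono hsubQ t))).trans hgain'
        have h2 : (∑ t ∈ T, (RL H₁ (U ∪ (S ∪ S')) t).card) * J ≤ 25600 * n * k * F.card :=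
          (Nat.mul_le_mul_right _
            (sum_le_sum (fun t _ => card_le_card (RL_mono hsubQ t)))).trans hTsum
        calc (RL H₁ (U ∪ (S ∪ S')) t).card * J + (∑ t ∈ T, (RL H₁ (U ∪ (S ∪ S')) t).card) * J
            ≤ 25600 * n * k * F'.card + 25600 * n * k * F.card := Nat.add_le_add h1 h2
          _ = 25600 * n * k * (F.card + F'.card) := by ring
      · rw [hFc]
        calc (r + 1) * k = r * k + k := by ring
          _ ≤ 768 * q ^ 2 * F.card + 768 * q ^ 2 * F'.card := Nat.add_le_add hrk hk'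
          _ = _ := by ring
  obtain ⟨S, F, f, T, hP, _, _, _, _, hrk⟩ := state (768 * q ^ 2 * J)
  have h1 := hnd S F f hP
  have h2 : (768 * q ^ 2) * (k * J) ≤ (768 * q ^ 2) * F.card := by
    calc (768 * q ^ 2) * (k * J) = 768 * q ^ 2 * J * k := by ring
      _ ≤ _ := hrk
  have h3 := Nat.le_of_mul_le_mul_left h2 (by positivity)
  omega

end Stage

end Pool.Agent.Lib.MP_9dddc4_co
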