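import Mathlib
import Pool.Agent.Lib.MP_9dddc4_co.Stage

namespace Pool.Agent.Lib.MP_9dddc4_co

open Finset

section Cases

variable {V : Type*} [Fintype V] [DecidableEq V]

/-- not coverable gives large matchings -/
lemma hasM_of_not_cov {H : Finset (Finset V)} {s : ℕ} (hne : 0 < (Tri H).card)
    (hNC : ∀ Q : Finset V, Q.card ≤ 3 * s →
      24 * ((Tri H).filter (fun t => t.1 ∈ Q)).card < 7 * (Tri H).card) :
    HasM H s := by
  classical
  rcases matching_or_cover (Tri H) vs3 3 (fun t _ => vs3_card_le t) s with h | ⟨C, hC1, hC2⟩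
  · exact h
  · exfalso
    have h1 := cover_first H C hC2
    have h2 := hNC C hC1
    omega

/-- a link vertex with a large link -/
lemma large_link_of_cov {n k q J : ℕ} (P : Par n k q J) {H : Finset (Finset V)}
    (hτ : n * k ^ 2 ≤ (Tri H).card) (U : Finset V) (hU : U.card ≤ k * q ^ 6)
    (hU2 : 7 * (Tri H).card ≤ 24 * ((Tri H).filter (fun t => t.1 ∈ U)).card) :
    ∃ t, n * k ≤ 4 * q ^ 6 * (Lk H t).card := by
  classical
  have hqpos := P.qpos
  have hkpos := P.kpos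
  have hnpos := P.npos
  have hpos : 0 < n * k ^ 2 := by positivity
  have hUne : U.Nonempty := by
    by_contra he
    rw [not_nonempty_iff_eq_empty] at he
    have h0 : ((Tri H).filter (fun t => t.1 ∈ U)).card = 0 := by
      rw [card_eq_zero, filter_eq_empty_iff]
      intro t _ ht
      rw [he] at ht
      simp at ht
    omega
  obtain ⟨t, ht, htc⟩ := pigeon ((Tri H).filter (fun t => t.1 ∈ U)) (fun t => t.1) U
    (fun t ht => (mem_filter.mp ht).2) hUne
  refine ⟨t, ?_⟩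
  have h1 : (((Tri H).filter (fun t => t.1 ∈ U)).filter (fun s => s.1 = t)).card
      ≤ (Lk H t).card := by
    rw [← Lk_card]
    apply card_le_card
    intro s hs
    rw [mem_filter, mem_filter] at hs
    exact mem_filter.mpr ⟨hs.1.1, hs.2⟩
  have h2 : 6 * k * (n * k) ≤ 6 * k * (4 * q ^ 6 * (Lk H t).card) := by
    calc 6 * k * (n * k) = 6 * (n * k ^ 2) := by ring
      _ ≤ 7 * (n * k ^ 2) := Nat.mul_le_mul_right _ (by norm_num)
      _ ≤ 7 * (Tri H).card := Nat.mul_le_mul_left _ hτ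
      _ ≤ 24 * ((Tri H).filter (fun t => t.1 ∈ U)).card := hU2
      _ ≤ 24 * (U.card * (((Tri H).filter (fun t => t.1 ∈ U)).filter
          (fun s => s.1 = t)).card) := Nat.mul_le_mul_left _ htc
      _ ≤ 24 * ((k * q ^ 6) * (Lk H t).card) :=
          Nat.mul_le_mul_left _ (Nat.mul_le_mul hU h1)
      _ = _ := by ring
  exact Nat.le_of_mul_le_mul_left h2 (by positivity)

lemma Lk_count_fst (H : Finset (Finset V)) (t : V) (C : Finset V) :
    ((Lk H t).filter (fun p => p.1 ∈ C)).card = ∑ c ∈ C, (Nb H t c).card := by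
  rw [← StP_card]; rfl

/-- covered link gives rich vertex -/
lemma rich_of_cover {n k q J : ℕ} (P : Par n k q J) (hn : Fintype.card V = n)
    {H : Finset (Finset V)} (t : V) (ht : n * k ≤ 4 * q ^ 6 * (Lk H t).card)
    (hM : ¬ HasS1 H (k * J)) :
    ∃ Bt : Finset V, k / q ^ 7 ≤ Bt.card ∧ ∀ b ∈ Bt, n ≤ (Nb H t b).card * q ^ 14 := by
  classical
  have hqpos := P.qpos
  have hkpos := P.kpos
  have hnpos := P.npos
  rcases matching_or_cover (Lk H t) vs2 2 (fun p _ => vs2_card_le p) (k * J) with h | ⟨C, hC1, hC2⟩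
  · obtain ⟨s, hs1, hs2⟩ := h
    exact absurd ⟨t, s, fun i => mem_Lk.mp (hs1 i), hs2⟩ hM
  · have h1 := cover_first_Lk H t C hC2
    rw [Lk_count_fst] at h1
    set Bt := C.filter (fun b => n ≤ (Nb H t b).card * q ^ 14) with hBt
    refine ⟨Bt, ?_, fun b hb => (mem_filter.mp hb).2⟩
    have hsum : q ^ 14 * ∑ c ∈ C, (Nb H t c).card ≤ Bt.card * (q ^ 14 * n) + C.card * n := by
      rw [mul_sum]
      have hterm : ∀ c ∈ C, q ^ 14 * (Nb H t c).card
          ≤ (if n ≤ (Nb H t c).card * q ^ 14 then q ^ 14 * n else 0) + n := by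
        intro c _
        by_cases hc : n ≤ (Nb H t c).card * q ^ 14
        · rw [if_pos hc]
          have h3 : (Nb H t c).card ≤ n := by rw [← hn]; exact card_le_univ _
          have h4 : q ^ 14 * (Nb H t c).card ≤ q ^ 14 * n := Nat.mul_le_mul_left _ h3
          omega
        · rw [if_neg hc]
          push Not at hc
          rw [mul_comm] at hc
          omega
      refine (sum_le_sum hterm).trans ?_
      rw [sum_add_distrib, sum_const, smul_eq_mul, ← sum_filter, sum_const, smul_eq_mul]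
    have hCc : C.card ≤ 2 * (k * q) := hC1.trans
      (Nat.mul_le_mul_left _ (Nat.mul_le_mul_left _ P.Jq))
    have hmain : n * (k * q ^ 14) ≤ n * (8 * q ^ 20 * Bt.card + 16 * k * q ^ 7) := by
      calc n * (k * q ^ 14) = q ^ 14 * (n * k) := by ring
        _ ≤ q ^ 14 * (4 * q ^ 6 * (Lk H t).card) := Nat.mul_le_mul_left _ ht
        _ ≤ q ^ 14 * (4 * q ^ 6 * (2 * ∑ c ∈ C, (Nb H t c).card)) := by
            apply Nat.mul_le_mul_left
            exact Nat.mul_le_mul_left _ h1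
        _ = 8 * q ^ 6 * (q ^ 14 * ∑ c ∈ C, (Nb H t c).card) := by ring
        _ ≤ 8 * q ^ 6 * (Bt.card * (q ^ 14 * n) + C.card * n) := Nat.mul_le_mul_left _ hsum
        _ ≤ 8 * q ^ 6 * (Bt.card * (q ^ 14 * n) + (2 * (k * q)) * n) := by
            apply Nat.mul_le_mul_left
            apply Nat.add_le_add_left
            exact Nat.mul_le_mul_right _ hCc
        _ = _ := by ring
    have h2 := Nat.le_of_mul_le_mul_left hmain hnpos
    have h3 : 32 * k * q ^ 7 ≤ k * q ^ 14 := by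
      calc 32 * k * q ^ 7 = 32 * (k * q ^ 7) := by ring
        _ ≤ q ^ 7 * (k * q ^ 7) := by
            apply Nat.mul_le_mul_right
            calc 32 ≤ 10 ^ 5 := by norm_num
              _ ≤ q := P.q1
              _ ≤ q ^ 7 := Nat.le_self_pow (by norm_num) q
        _ = k * q ^ 14 := by ring
    have h4 : k * q ^ 14 ≤ 16 * q ^ 20 * Bt.card := by
      have e1 : 32 * k * q ^ 7 = 2 * (16 * k * q ^ 7) := by ring
      have e2 : 16 * q ^ 20 * Bt.card = 2 * (8 * q ^ 20 * Bt.card) := by ring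
      omega
    have h5 : q ^ 14 * k ≤ q ^ 14 * (16 * q ^ 6 * Bt.card) := by
      calc q ^ 14 * k = k * q ^ 14 := by ring
        _ ≤ 16 * q ^ 20 * Bt.card := h4
        _ = _ := by ring
    have h6 := Nat.le_of_mul_le_mul_left h5 (by positivity)
    apply Nat.div_le_of_le_mul
    calc k ≤ 16 * q ^ 6 * Bt.card := h6
      _ ≤ q * q ^ 6 * Bt.card := by
          apply Nat.mul_le_mul_right
          apply Nat.mul_le_mul_right
          exact le_trans (by norm_num) P.q1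
      _ = q ^ 7 * Bt.card := by ring

/-- large link gives star -/
lemma star_of_link {n k q J : ℕ} (P : Par n k q J) (hn : Fintype.card V = n)
    {H : Finset (Finset V)} (t : V) (ht : n * k ≤ 4 * q ^ 6 * (Lk H t).card) :
    ¬ NoStar H k q := by
  classical
  have hqpos := P.qpos
  have hkpos := P.kpos
  have hnpos := P.npos
  intro hs
  set d := k / (8 * q ^ 6) with hd
  have hd1 : 8 * q ^ 6 * d ≤ k := Nat.mul_div_le _ _
  have hdpos : 1 ≤ d := by
    rw [hd, Nat.one_le_div_iff (by positivity)]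
    exact P.ckpow (by norm_num) (by norm_num)
  have hdlow : k ≤ 16 * q ^ 6 * d := by
    have h1 := Nat.lt_mul_div_succ k (show 0 < 8 * q ^ 6 by positivity)
    rw [← hd] at h1
    calc k ≤ 8 * q ^ 6 * (d + 1) := h1.le
      _ ≤ 8 * q ^ 6 * (2 * d) := Nat.mul_le_mul_left _ (by omega)
      _ = _ := by ring
  have hE : 2 * Fintype.card V * d ≤ (Lk H t).card := by
    rw [hn]
    have h1 : (4 * q ^ 6) * (2 * n * d) ≤ (4 * q ^ 6) * (Lk H t).card := by
      calc (4 * q ^ 6) * (2 * n * d) = n * (8 * q ^ 6 * d) := by ring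
        _ ≤ n * k := Nat.mul_le_mul_left _ hd1
        _ ≤ 4 * q ^ 6 * (Lk H t).card := ht
    exact Nat.le_of_mul_le_mul_left h1 (by positivity)
  have hmany := many_high_degree (Lk H t) d hE (by rw [hn]; exact hnpos)
  set Zh := univ.filter (fun z : V => d ≤ (univ.filter (fun y : V => (y, z) ∈ Lk H t)).card)
    with hZh
  set m := k / q ^ 7 with hm
  have hmd : m ≤ d := by
    rw [hm, hd]
    apply Nat.div_le_div_left
    · calc 8 * q ^ 6 ≤ q * q ^ 6 := Nat.mul_le_mul_right _ (le_trans (by norm_num) P.q1)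
        _ = q ^ 7 := by ring
    · positivity
  obtain ⟨S, hS, hSc⟩ := exists_subset_card_eq (hmd.trans hmany)
  have h1 := hs t S hSc.le
  rw [StP_card] at h1
  have h2 : S.card * d ≤ ∑ s ∈ S, (Nb H t s).card := by
    rw [← smul_eq_mul, ← sum_const]
    apply sum_le_sum
    intro s hs'
    have h3 := (mem_filter.mp (hS hs')).2
    refine h3.trans (card_le_card ?_)
    intro y hy
    rw [mem_filter] at hy
    rw [mem_Nb]
    exact Tri_swap23.mp (mem_Lk.mp hy.2)
  rw [hSc] at h2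
  have hmlow : k ≤ 2 * q ^ 7 * m := by
    have hmpos : 1 ≤ m := by
      rw [hm, Nat.one_le_div_iff (by positivity)]
      exact P.kpow (by norm_num)
    have h1 := Nat.lt_mul_div_succ k (show 0 < q ^ 7 by positivity)
    rw [← hm] at h1
    calc k ≤ q ^ 7 * (m + 1) := h1.le
      _ ≤ q ^ 7 * (2 * m) := Nat.mul_le_mul_left _ (by omega)
      _ = _ := by ring
  have h3 : (32 * q ^ 13) * (k * q ^ 16) ≤ (32 * q ^ 13) * (m * d) := by
    calc (32 * q ^ 13) * (k * q ^ 16) = k * (32 * q ^ 29) := by ring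
      _ ≤ k * k := Nat.mul_le_mul_left _ (P.ckpow (by norm_num) (by norm_num))
      _ ≤ (2 * q ^ 7 * m) * (16 * q ^ 6 * d) := Nat.mul_le_mul hmlow hdlow
      _ = _ := by ring
  have h4 := Nat.le_of_mul_le_mul_left h3 (by positivity)
  omega

/-- both coverable -/
lemma common_B {n k q J : ℕ} (P : Par n k q J) (hn : Fintype.card V = n)
    {H₁ H₂ : Finset (Finset V)} (h3 : ∀ e ∈ H₁, e.card = 3) (h3' : ∀ e ∈ H₂, e.card = 3)
    (hτ1 : n * k ^ 2 ≤ (Tri H₁).card) (hτ2 : n * k ^ 2 ≤ (Tri H₂).card)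
    (U₁ : Finset V) (hU₁ : U₁.card ≤ k * q ^ 6)
    (hU₁2 : 7 * (Tri H₁).card ≤ 24 * ((Tri H₁).filter (fun t => t.1 ∈ U₁)).card)
    (U₂ : Finset V) (hU₂ : U₂.card ≤ k * q ^ 6)
    (hU₂2 : 7 * (Tri H₂).card ≤ 24 * ((Tri H₂).filter (fun t => t.1 ∈ U₂)).card) :
    Common H₁ H₂ (k * J) := by
  obtain ⟨t₁, ht₁⟩ := large_link_of_cov P hτ1 U₁ hU₁ hU₁2
  obtain ⟨t₂, ht₂⟩ := large_link_of_cov P hτ2 U₂ hU₂ hU₂2
  have hkJ : k * J ≤ k * q := Nat.mul_le_mul_left _ P.Jq
  by_cases h1 : HasS1 H₁ (k * J)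
  · by_cases h2 : HasS1 H₂ (k * J)
    · exact common_S1 h3 h3' h1 h2
    · obtain ⟨Bt, hB1, hB2⟩ := rich_of_cover P hn t₂ ht₂ h2
      exact (common_of_rich_star P hn h3' h3 t₂ Bt hB1 hB2 (star_of_link P hn t₁ ht₁)).mono hkJ
  · obtain ⟨Bt, hB1, hB2⟩ := rich_of_cover P hn t₁ ht₁ h1
    exact ((common_of_rich_star P hn h3 h3' t₁ Bt hB1 hB2
      (star_of_link P hn t₂ ht₂)).mono hkJ).symm

/-- the key theorem -/
theorem common_K {n k q J : ℕ} (P : Par n k q J) (hn : Fintype.card V = n)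
    {H₁ H₂ : Finset (Finset V)} (h3 : ∀ e ∈ H₁, e.card = 3) (h3' : ∀ e ∈ H₂, e.card = 3)
    (hτ1 : n * k ^ 2 ≤ (Tri H₁).card) (hτ2 : n * k ^ 2 ≤ (Tri H₂).card) :
    ∃ m, Common H₁ H₂ m ∧ k * J ≤ 153600 * m := by
  classical
  have hqpos := P.qpos
  have hkpos := P.kpos
  have hnpos := P.npos
  have hkJ : k * J ≤ k * q := Nat.mul_le_mul_left _ P.Jq
  have hkJ2 : k * J ≤ 153600 * (k * J) := Nat.le_mul_of_pos_left _ (by norm_num)
  have hpos : 0 < n * k ^ 2 := by positivity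
  by_cases hT1 : ∀ Q : Finset V, Q.card ≤ k * q ^ 6 →
      24 * ((Tri H₁).filter (fun t => t.1 ∈ Q ∧ t.2.1 ∈ Q)).card < (Tri H₁).card
  swap
  · push Not at hT1
    obtain ⟨Q, hQ, hQ2⟩ := hT1
    obtain ⟨m, hm1, hm2⟩ := common_typeII P hn h3 h3' hτ1 hτ2 Q hQ hQ2
    exact ⟨m, hm1.symm, by omega⟩
  by_cases hT2 : ∀ Q : Finset V, Q.card ≤ k * q ^ 6 →
      24 * ((Tri H₂).filter (fun t => t.1 ∈ Q ∧ t.2.1 ∈ Q)).card < (Tri H₂).card
  swap
  · push Not at hT2
    obtain ⟨Q, hQ, hQ2⟩ := hT2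
    obtain ⟨m, hm1, hm2⟩ := common_typeII P hn h3' h3 hτ2 hτ1 Q hQ hQ2
    exact ⟨m, hm1, by omega⟩
  have hq26 : k * q ^ 2 ≤ k * q ^ 6 :=
    Nat.mul_le_mul_left _ (Nat.pow_le_pow_right hqpos (by norm_num))
  have h3q : 3 * (k * q) ≤ k * q ^ 2 := by
    calc 3 * (k * q) ≤ q * (k * q) := Nat.mul_le_mul_right _ (le_trans (by norm_num) P.q1)
      _ = k * q ^ 2 := by ring
  by_cases hC1 : ∀ Q : Finset V, Q.card ≤ k * q ^ 2 →
      24 * ((Tri H₁).filter (fun t => t.1 ∈ Q)).card < 7 * (Tri H₁).card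
  · by_cases hC2 : ∀ Q : Finset V, Q.card ≤ k * q ^ 2 →
        24 * ((Tri H₂).filter (fun t => t.1 ∈ Q)).card < 7 * (Tri H₂).card
    · have m1 : HasM H₁ (k * q) := hasM_of_not_cov (by omega)
        (fun Q hQ => hC1 Q (hQ.trans h3q))
      have m2 : HasM H₂ (k * q) := hasM_of_not_cov (by omega)
        (fun Q hQ => hC2 Q (hQ.trans h3q))
      exact ⟨k * J, (common_M h3 h3' m1 m2).mono hkJ, hkJ2⟩
    · push Not at hC2
      obtain ⟨U, hU1, hU2⟩ := hC2
      by_cases hC1' : ∀ Q : Finset V, Q.card ≤ k * q ^ 6 →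
        24 * ((Tri H₁).filter (fun t => t.1 ∈ Q)).card < 7 * (Tri H₁).card
      · obtain ⟨m, hm1, hm2⟩ := common_C1 P hn h3' h3 hτ2 hτ1 U hU1 hU2 hT2 hC1'
        exact ⟨m, hm1.symm, hm2⟩
      · push Not at hC1'
        obtain ⟨U', hU1', hU2'⟩ := hC1'
        exact ⟨k * J, common_B P hn h3 h3' hτ1 hτ2 U' hU1' hU2' U (hU1.trans hq26) hU2, hkJ2⟩
  · push Not at hC1
    obtain ⟨U, hU1, hU2⟩ := hC1
    by_cases hC2' : ∀ Q : Finset V, Q.card ≤ k * q ^ 6 →
        24 * ((Tri H₂).filter (fun t => t.1 ∈ Q)).card < 7 * (Tri H₂).card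
    · exact common_C1 P hn h3 h3' hτ1 hτ2 U hU1 hU2 hT1 hC2'
    · push Not at hC2'
      obtain ⟨U', hU1', hU2'⟩ := hC2'
      exact ⟨k * J, common_B P hn h3 h3' hτ1 hτ2 U (hU1.trans hq26) hU2 U' hU1' hU2', hkJ2⟩

end Cases

end Pool.Agent.Lib.MP_9dddc4_co
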