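import Mathlib

/-!
Definitions for Ulam decompositions of uniform hypergraphs (problem MP_9dddc4_co).
-/

namespace Pool.Agent.Lib.MP_9dddc4_co

/-- The edge set `H` (on the vertex set `Fin n`) is an `r`-graph: every edge has exactly
`r` vertices. -/
def IsRGraph {n : ℕ} (r : ℕ) (H : Finset (Finset (Fin n))) : Prop :=
  ∀ e ∈ H, e.card = r

/-- The vertices covered by a set of edges. -/
def covered {n : ℕ} (F : Finset (Finset (Fin n))) : Finset (Fin n) := F.biUnion id

/-- Two edge sets are isomorphic: there is a bijection from the vertices covered by `F` onto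
the vertices covered by `F'` that carries the edge set `F` onto the edge set `F'`. -/
def EdgeIso {n : ℕ} (F F' : Finset (Finset (Fin n))) : Prop :=
  ∃ g : Fin n → Fin n, Set.BijOn g (covered F) (covered F') ∧
    F.image (fun e => e.image g) = F'

/-- The family `H` of `k` edge sets has a U-decomposition into `t` parts. -/
def HasUDecomp {n k : ℕ} (H : Fin k → Finset (Finset (Fin n))) (t : ℕ) : Prop :=
  ∃ E : Fin k → Fin t → Finset (Finset (Fin n)),
    (∀ i, Finset.univ.biUnion (E i) = H i) ∧
    (∀ i j j', j ≠ j' → Disjoint (E i j) (E i j')) ∧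
    (∀ j i i', EdgeIso (E i j) (E i' j))

/-- `U k n r` is the least `t` such that every family of `k` `r`-graphs on `n` vertices, all
with the same number of edges, has a U-decomposition into at most `t` parts. -/
noncomputable def U (k n r : ℕ) : ℕ :=
  sInf {t | ∀ H : Fin k → Finset (Finset (Fin n)), (∀ i, IsRGraph r (H i)) →
    (∀ i i', (H i).card = (H i').card) → ∃ s ≤ t, HasUDecomp H s}

end Pool.Agent.Lib.MP_9dddc4_co
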