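import Mathlib
import Pool.Agent.Lib.MP_9dddc4_co.Defs

/-!
Lower bound for the Ulam decomposition number of two 3-graphs.
-/

namespace Pool.Agent.Lib.MP_9dddc4_co

open Finset Filter

lemma card_mono_colorings {α : Type*} [Fintype α] [DecidableEq α] (M : ℕ)
    (F : Finset α) (i : Fin M) :
    (univ.filter (fun c : α → Fin M => ∀ p ∈ F, c p = i)).card
      = M ^ (Fintype.card α - F.card) := by
  classical
  have h : (univ.filter (fun c : α → Fin M => ∀ p ∈ F, c p = i))
      = Fintype.piFinset (fun p => if p ∈ F then ({i} : Finset (Fin M)) else univ) := by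
    ext c
    simp only [mem_filter, mem_univ, true_and, Fintype.mem_piFinset]
    constructor
    · intro h p
      by_cases hp : p ∈ F
      · simp [hp, h p hp]
      · simp [hp]
    · intro h p hp
      have := h p
      simpa [hp] using this
  rw [h, Fintype.card_piFinset]
  have h2 : ∀ p : α, (if p ∈ F then ({i} : Finset (Fin M)) else univ).card
      = if p ∈ F then 1 else M := by
    intro p
    by_cases hp : p ∈ F <;> simp [hp]
  simp_rw [h2]
  rw [Finset.prod_ite]
  simp only [prod_const_one, prod_const, one_mul]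
  congr 1
  have h3 : (univ.filter (fun x => x ∉ F)) = univ \ F := by
    ext x; simp
  rw [h3, Finset.card_sdiff_of_subset (Finset.subset_univ F), Finset.card_univ]

/-- If there are few test sets, some colouring has no test set with `m` elements of one colour. -/
lemma exists_good_coloring {α : Type*} [Fintype α] [DecidableEq α] (M m K : ℕ)
    (T : Finset (Finset α)) (hT : ∀ t ∈ T, t.card ≤ K)
    (hm : m ≤ Fintype.card α) (hM : 0 < M)
    (h : T.card * K.choose m * M < M ^ m) :
    ∃ c : α → Fin M, ∀ t ∈ T, ∀ i, (t.filter (fun p => c p = i)).card < m := by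
  classical
  by_contra hcon
  push Not at hcon
  have hsub : (univ : Finset (α → Fin M)) ⊆
      T.biUnion (fun t => (t.powersetCard m).biUnion (fun F =>
        (univ : Finset (Fin M)).biUnion (fun i =>
          univ.filter (fun c : α → Fin M => ∀ p ∈ F, c p = i)))) := by
    intro c _
    obtain ⟨t, ht, i, hi⟩ := hcon c
    obtain ⟨F, hF, hFc⟩ := Finset.exists_subset_card_eq hi
    simp only [mem_biUnion, mem_filter, mem_univ, true_and]
    refine ⟨t, ht, F, ?_, i, ?_⟩
    · rw [mem_powersetCard]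
      exact ⟨hF.trans (filter_subset _ _), hFc⟩
    · intro p hp
      exact (mem_filter.mp (hF hp)).2
  have hcard := Finset.card_le_card hsub
  rw [Finset.card_univ, Fintype.card_fun, Fintype.card_fin] at hcard
  have hb : (T.biUnion (fun t => (t.powersetCard m).biUnion (fun F =>
        (univ : Finset (Fin M)).biUnion (fun i =>
          univ.filter (fun c : α → Fin M => ∀ p ∈ F, c p = i))))).card
      ≤ T.card * (K.choose m * (M * M ^ (Fintype.card α - m))) := by
    refine Finset.card_biUnion_le_card_mul _ _ _ ?_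
    intro t ht
    refine (Finset.card_biUnion_le_card_mul _ _ (M * M ^ (Fintype.card α - m)) ?_).trans ?_
    · intro F hF
      have hFc : F.card = m := (mem_powersetCard.mp hF).2
      refine (Finset.card_biUnion_le_card_mul _ _ (M ^ (Fintype.card α - m)) ?_).trans ?_
      · intro i _
        rw [card_mono_colorings, hFc]
      · rw [Finset.card_univ, Fintype.card_fin]
    · rw [Finset.card_powersetCard]
      exact Nat.mul_le_mul_right _ (Nat.choose_le_choose m (hT t ht))
  have h1 := hcard.trans hb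
  have h2 : M ^ (Fintype.card α) = M ^ m * M ^ (Fintype.card α - m) := by
    rw [← pow_add]; congr 1; omega
  rw [h2] at h1
  have h3 : T.card * (K.choose m * (M * M ^ (Fintype.card α - m)))
      = (T.card * K.choose m * M) * M ^ (Fintype.card α - m) := by ring
  rw [h3] at h1
  have h4 : 0 < M ^ (Fintype.card α - m) := Nat.pow_pos hM
  have h5 := Nat.le_of_mul_le_mul_right h1 h4
  omega

lemma block_card (n k i : ℕ) (hk : 0 < k) (hi : i < n / k) :
    ((univ : Finset (Fin n)).filter (fun v => v.val / k = i)).card = k := by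
  have h1 : (i + 1) * k ≤ n := by
    have := Nat.div_mul_le_self n k
    calc (i + 1) * k ≤ (n / k) * k := Nat.mul_le_mul_right k hi
      _ ≤ n := this
  have h2 : ((univ : Finset (Fin n)).filter (fun v => v.val / k = i)).card
      = (Finset.Ico (i * k) ((i + 1) * k)).card := by
    apply Finset.card_bij (fun v _ => v.val)
    · intro v hv
      rw [mem_filter] at hv
      rw [Finset.mem_Ico]
      have := (Nat.div_eq_iff hk).mp hv.2
      constructor
      · have h3 := Nat.div_mul_le_self v.val k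
        rw [hv.2] at h3; exact h3
      · have h3 := Nat.lt_mul_of_div_lt (a := v.val) (b := i + 1) (c := k) (by omega) hk
        exact h3
    · intro a _ b _ h
      exact Fin.ext h
    · intro b hb
      rw [Finset.mem_Ico] at hb
      refine ⟨⟨b, by omega⟩, ?_, rfl⟩
      rw [mem_filter]
      refine ⟨mem_univ _, ?_⟩
      apply Nat.div_eq_of_lt_le
      · exact hb.1
      · exact hb.2
  rw [h2, Nat.card_Ico, Nat.add_mul, one_mul]
  omega

/-- the blocks hypergraph: disjoint complete `3`-graphs on `k` vertices -/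
def blocksH (n k : ℕ) : Finset (Finset (Fin n)) :=
  (range (n / k)).biUnion
    (fun i => ((univ : Finset (Fin n)).filter (fun v => v.val / k = i)).powersetCard 3)

lemma blocksH_card (n k : ℕ) (hk : 0 < k) : (blocksH n k).card = (n / k) * k.choose 3 := by
  unfold blocksH
  rw [Finset.card_biUnion]
  · rw [Finset.sum_congr rfl (g := fun _ => k.choose 3)]
    · simp
    · intro i hi
      rw [card_powersetCard, block_card n k i hk (mem_range.mp hi)]
  · intro i _ j _ hij
    simp only [Function.onFun]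
    rw [Finset.disjoint_left]
    intro e he he'
    rw [mem_powersetCard] at he he'
    have hne : e.Nonempty := by
      rw [← card_pos]; omega
    obtain ⟨v, hv⟩ := hne
    have h1 := (mem_filter.mp (he.1 hv)).2
    have h2 := (mem_filter.mp (he'.1 hv)).2
    exact hij (h1.symm.trans h2)

lemma blocksH_isRGraph (n k : ℕ) : IsRGraph 3 (blocksH n k) := by
  intro e he
  simp only [blocksH, mem_biUnion, mem_powersetCard] at he
  obtain ⟨i, _, h⟩ := he
  exact h.2

lemma blocksH_mem_block {n k : ℕ} {e : Finset (Fin n)} (he : e ∈ blocksH n k) {v w : Fin n}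
    (hv : v ∈ e) (hw : w ∈ e) : v.val / k = w.val / k ∧ v.val / k < n / k := by
  simp only [blocksH, mem_biUnion, mem_powersetCard, mem_range] at he
  obtain ⟨i, hi, h⟩ := he
  have h1 := (mem_filter.mp (h.1 hv)).2
  have h2 := (mem_filter.mp (h.1 hw)).2
  exact ⟨h1.trans h2.symm, h1 ▸ hi⟩

theorem lower_core (n k m M t : ℕ) (hk : 3 ≤ k) (hkn : k ≤ n) (hM : 0 < M)
    (hMe : M * ((n / k) * k.choose 3) ≤ (n - 1).choose 2)
    (hgood : ∀ (α : Type) (_ : Fintype α) (_ : DecidableEq α) (T : Finset (Finset α)),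
      (∀ t ∈ T, t.card ≤ k.choose 2) → Fintype.card α = (n - 1).choose 2 →
      T.card ≤ n.choose k →
      ∃ c : α → Fin M, ∀ t ∈ T, ∀ i, (t.filter (fun p => c p = i)).card < m)
    (hU : ∀ H : Fin 2 → Finset (Finset (Fin n)), (∀ i, IsRGraph 3 (H i)) →
      (∀ i i', (H i).card = (H i').card) → ∃ s ≤ t, HasUDecomp H s) :
    (n / k) * k.choose 3 ≤ t * (m - 1) := by
  classical
  set v0 : Fin n := ⟨0, by omega⟩ with hv0
  let A : Finset (Finset (Fin n)) := (univ.erase v0).powersetCard 2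
  have hAcard : A.card = (n - 1).choose 2 := by
    simp [A, card_powersetCard, card_erase_of_mem]
  let T : Finset (Finset {p // p ∈ A}) :=
    ((univ : Finset (Fin n)).powersetCard k).image (fun S => univ.filter (fun p => p.1 ⊆ S))
  obtain ⟨c, hc⟩ := hgood {p // p ∈ A} inferInstance inferInstance T
    (by
      intro t ht
      simp only [T, mem_image, mem_powersetCard] at ht
      obtain ⟨S, ⟨_, hS⟩, rfl⟩ := ht
      rw [← hS, ← card_powersetCard]
      apply Finset.card_le_card_of_injOn (fun p => p.1)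
      · intro p hp
        simp only [coe_filter, mem_univ, true_and, Set.mem_ofPred_eq] at hp
        have := (mem_powersetCard.mp p.2).2
        rw [mem_coe, mem_powersetCard]
        exact ⟨hp, this⟩
      · intro a _ b _ h
        exact Subtype.ext h)
    (by rw [Fintype.card_coe, hAcard])
    (by
      refine card_image_le.trans ?_
      simp)
  have : Nonempty (Fin M) := ⟨⟨0, hM⟩⟩
  obtain ⟨i0, _, hi0⟩ := Finset.exists_le_card_fiber_of_mul_le_card_of_maps_to
    (s := (univ : Finset {p // p ∈ A})) (t := (univ : Finset (Fin M))) (f := c)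
    (n := (n / k) * k.choose 3) (fun a _ => mem_univ _) univ_nonempty
    (by rw [card_univ, card_univ, Fintype.card_fin, Fintype.card_coe, hAcard]; exact hMe)
  obtain ⟨L, hL, hLcard⟩ := Finset.exists_subset_card_eq hi0
  have hv0A : ∀ p : {p // p ∈ A}, v0 ∉ p.1 := by
    intro p hp
    have := (mem_powersetCard.mp p.2).1 hp
    simp at this
  let H1 : Finset (Finset (Fin n)) := L.image (fun p => insert v0 p.1)
  have hH1card : H1.card = (n / k) * k.choose 3 := by
    rw [card_image_of_injOn, hLcard]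
    intro a _ b _ h
    apply Subtype.ext
    have h1 : (insert v0 a.1).erase v0 = (insert v0 b.1).erase v0 := by
      simp only at h; rw [h]
    rwa [erase_insert (hv0A a), erase_insert (hv0A b)] at h1
  have hH1R : IsRGraph 3 H1 := by
    intro e he
    simp only [H1, mem_image] at he
    obtain ⟨p, _, rfl⟩ := he
    rw [card_insert_of_notMem (hv0A p), (mem_powersetCard.mp p.2).2]
  obtain ⟨s, hs, E, hE1, hE2, hE3⟩ := hU ![H1, blocksH n k]
    (by
      intro i
      fin_cases i
      · exact hH1R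
      · exact blocksH_isRGraph n k)
    (by
      have h1 := blocksH_card n k (by omega)
      intro i i'
      fin_cases i <;> fin_cases i' <;> simp [hH1card, h1])
  -- each part is small
  have hpart : ∀ j, (E 0 j).card ≤ m - 1 := by
    intro j
    rcases (E 0 j).eq_empty_or_nonempty with h0 | hne
    · simp [h0]
    have hsub1 : E 0 j ⊆ H1 := by
      have := hE1 0
      simp only [Matrix.cons_val_zero] at this
      rw [← this]
      exact subset_biUnion_of_mem (E 0) (mem_univ j)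
    have hsub2 : E 1 j ⊆ blocksH n k := by
      have := hE1 1
      simp only [Matrix.cons_val_one] at this
      have h2 := subset_biUnion_of_mem (E 1) (mem_univ j)
      rw [this] at h2
      exact h2
    obtain ⟨g, hg, hgE⟩ := hE3 j 0 1
    have hv0mem : ∀ e ∈ E 0 j, v0 ∈ e := by
      intro e he
      have := hsub1 he
      simp only [H1, mem_image] at this
      obtain ⟨p, _, rfl⟩ := this
      exact mem_insert_self _ _
    -- covered vertices on the right lie in the block of g v0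
    have hcov : covered (E 1 j) ⊆ univ.filter (fun v : Fin n => v.val / k = (g v0).val / k) ∧
        (g v0).val / k < n / k := by
      constructor
      · intro w hw
        simp only [covered, mem_biUnion, id] at hw
        obtain ⟨e', he', hwe'⟩ := hw
        have he'2 := he'
        rw [← hgE, mem_image] at he'
        obtain ⟨e, he, rfl⟩ := he'
        have hgv : g v0 ∈ e.image g := mem_image_of_mem g (hv0mem e he)
        have := blocksH_mem_block (hsub2 he'2) hwe' hgv
        rw [mem_filter]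
        exact ⟨mem_univ _, this.1⟩
      · obtain ⟨e, he⟩ := hne
        have he' : e.image g ∈ E 1 j := by
          rw [← hgE]; exact mem_image_of_mem _ he
        have hgv : g v0 ∈ e.image g := mem_image_of_mem g (hv0mem e he)
        exact (blocksH_mem_block (hsub2 he') hgv hgv).2
    have hcovcard : (covered (E 0 j)).card ≤ k := by
      have h1 : (covered (E 0 j)).card = (covered (E 1 j)).card := by
        apply Finset.card_bij (fun v _ => g v)
        · intro a ha; exact hg.mapsTo ha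
        · intro a ha b hb h; exact hg.injOn ha hb h
        · intro b hb
          obtain ⟨a, ha, h⟩ := hg.surjOn hb
          exact ⟨a, ha, h⟩
      rw [h1]
      refine (card_le_card hcov.1).trans ?_
      rw [block_card n k _ (by omega) hcov.2]
    obtain ⟨S, hS1, hS2⟩ : ∃ S : Finset (Fin n), covered (E 0 j) ⊆ S ∧ S.card = k := by
      obtain ⟨S, h1, _, h3⟩ := Finset.exists_subsuperset_card_eq
        (subset_univ (covered (E 0 j))) hcovcard (by simpa using hkn)
      exact ⟨S, h1, h3⟩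
    have hT : univ.filter (fun p : {p // p ∈ A} => p.1 ⊆ S) ∈ T := by
      simp only [T, mem_image, mem_powersetCard]
      exact ⟨S, ⟨subset_univ _, hS2⟩, rfl⟩
    have hlt := hc _ hT i0
    have hle : (E 0 j).card ≤ ((univ.filter (fun p : {p // p ∈ A} => p.1 ⊆ S)).filter
        (fun p => c p = i0)).card := by
      have hsub3 : E 0 j ⊆ (((univ.filter (fun p : {p // p ∈ A} => p.1 ⊆ S)).filter
        (fun p => c p = i0))).image (fun p => insert v0 p.1) := by
        intro e he
        have h1 := hsub1 he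
        simp only [H1, mem_image] at h1
        obtain ⟨p, hp, rfl⟩ := h1
        refine mem_image.mpr ⟨p, ?_, rfl⟩
        rw [mem_filter, mem_filter]
        refine ⟨⟨mem_univ _, ?_⟩, (mem_filter.mp (hL hp)).2⟩
        intro v hv
        apply hS1
        simp only [covered, mem_biUnion, id]
        exact ⟨_, he, mem_insert_of_mem hv⟩
      exact (card_le_card hsub3).trans card_image_le
    omega
  have htot : (n / k) * k.choose 3 = ∑ j, (E 0 j).card := by
    have h1 := hE1 0
    simp only [Matrix.cons_val_zero] at h1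
    rw [← hH1card, ← h1, card_biUnion]
    intro j _ j' _ hjj
    exact hE2 0 j j' hjj
  rw [htot]
  calc ∑ j, (E 0 j).card ≤ ∑ _j : Fin s, (m - 1) := Finset.sum_le_sum (fun j _ => hpart j)
    _ = s * (m - 1) := by simp
    _ ≤ t * (m - 1) := Nat.mul_le_mul_right _ hs

lemma covered_singleton {n : ℕ} (e : Finset (Fin n)) : covered {e} = e := by
  simp [covered]

lemma edgeIso_singleton {n : ℕ} {e e' : Finset (Fin n)} (h : e.card = e'.card) :
    EdgeIso ({e} : Finset (Finset (Fin n))) {e'} := by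
  classical
  let φ := Finset.equivOfCardEq h
  let g : Fin n → Fin n := fun v => if hv : v ∈ e then (φ ⟨v, hv⟩ : Fin n) else v
  have hg : ∀ v (hv : v ∈ e), g v = φ ⟨v, hv⟩ := by
    intro v hv; simp only [g]; rw [dif_pos hv]
  have hbij : Set.BijOn g (e : Set (Fin n)) (e' : Set (Fin n)) := by
    refine ⟨?_, ?_, ?_⟩
    · intro v hv
      have hv' : v ∈ e := hv
      rw [hg v hv']
      exact (φ ⟨v, hv'⟩).2
    · intro a ha b hb hab
      have ha' : a ∈ e := ha
      have hb' : b ∈ e := hb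
      rw [hg a ha', hg b hb'] at hab
      have := φ.injective (Subtype.ext hab)
      exact congrArg Subtype.val this
    · intro b hb
      have hb' : b ∈ e' := hb
      refine ⟨φ.symm ⟨b, hb'⟩, (φ.symm ⟨b, hb'⟩).2, ?_⟩
      rw [hg _ (φ.symm ⟨b, hb'⟩).2]
      simp
  refine ⟨g, ?_, ?_⟩
  · rw [covered_singleton, covered_singleton]; exact hbij
  · rw [image_singleton]
    congr 1
    apply Finset.coe_injective
    rw [coe_image]
    exact hbij.image_eq

lemma hasUDecomp_card {n k r : ℕ} (H : Fin k → Finset (Finset (Fin n)))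
    (hr : ∀ i, IsRGraph r (H i)) (m : ℕ) (hm : ∀ i, (H i).card = m) :
    HasUDecomp H m := by
  classical
  let φ : ∀ i, Fin m ≃ {e // e ∈ H i} := fun i => ((H i).equivFinOfCardEq (hm i)).symm
  refine ⟨fun i j => {((φ i j : {e // e ∈ H i}) : Finset (Fin n))}, ?_, ?_, ?_⟩
  · intro i
    ext e
    simp only [mem_biUnion, mem_univ, true_and, mem_singleton]
    constructor
    · rintro ⟨j, rfl⟩
      exact (φ i j).2
    · intro he
      refine ⟨(φ i).symm ⟨e, he⟩, ?_⟩
      simp
  · intro i j j' hjj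
    rw [disjoint_singleton]
    intro h
    exact hjj ((φ i).injective (Subtype.ext h))
  · intro j i i'
    apply edgeIso_singleton
    rw [hr i _ (φ i j).2, hr i' _ (φ i' j).2]

lemma U_set_nonempty (k n r : ℕ) :
    {t | ∀ H : Fin k → Finset (Finset (Fin n)), (∀ i, IsRGraph r (H i)) →
    (∀ i i', (H i).card = (H i').card) → ∃ s ≤ t, HasUDecomp H s}.Nonempty := by
  refine ⟨Fintype.card (Finset (Fin n)), ?_⟩
  intro H hr hc
  rcases Nat.eq_zero_or_pos k with rfl | hk
  · refine ⟨0, Nat.zero_le _, fun i => i.elim0, fun i => i.elim0, fun i => i.elim0, fun j => j.elim0⟩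
  · refine ⟨(H ⟨0, hk⟩).card, card_le_univ _, ?_⟩
    exact hasUDecomp_card H hr _ (fun i => hc i _)

lemma U_spec (k n r : ℕ) : ∀ H : Fin k → Finset (Finset (Fin n)), (∀ i, IsRGraph r (H i)) →
    (∀ i i', (H i).card = (H i').card) → ∃ s ≤ U k n r, HasUDecomp H s :=
  Nat.sInf_mem (U_set_nonempty k n r)

lemma U_le {k n r t : ℕ} (h : ∀ H : Fin k → Finset (Finset (Fin n)), (∀ i, IsRGraph r (H i)) →
    (∀ i i', (H i).card = (H i').card) → ∃ s ≤ t, HasUDecomp H s) : U k n r ≤ t :=
  Nat.sInf_le h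

lemma choose_bound (K m : ℕ) (hm : 0 < m) :
    ((K.choose m : ℕ) : ℝ) ≤ ((K : ℝ) * Real.exp 1 / m) ^ m := by
  have h1 : ((K.choose m : ℕ) : ℝ) ≤ (K : ℝ) ^ m / (m.factorial : ℝ) := Nat.choose_le_pow_div m K
  have hmR : (0 : ℝ) < m := by exact_mod_cast hm
  have h2 : (m : ℝ) ^ m / (m.factorial : ℝ) ≤ Real.exp m :=
    Real.pow_div_factorial_le_exp (m : ℝ) hmR.le m
  have hf : (0 : ℝ) < (m.factorial : ℝ) := by exact_mod_cast Nat.factorial_pos m
  have h3 : (K : ℝ) ^ m / (m.factorial : ℝ) ≤ (K : ℝ) ^ m * (Real.exp m / (m : ℝ) ^ m) := by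
    rw [div_eq_mul_inv]
    apply mul_le_mul_of_nonneg_left _ (by positivity)
    rw [inv_le_comm₀ hf (by positivity)]
    rw [inv_div]
    rw [div_le_iff₀ hf] at h2
    rw [div_le_iff₀ (Real.exp_pos _)]
    linarith [h2]
  refine h1.trans (h3.trans (le_of_eq ?_))
  have h4 : Real.exp (m : ℝ) = (Real.exp 1) ^ m := by
    rw [← Real.exp_nat_mul]; simp
  rw [h4, div_pow, mul_pow]
  ring

lemma exp_one_cube_le : Real.exp 1 ^ 3 ≤ 25 := by
  have h := Real.exp_one_lt_d9
  have h0 := Real.exp_pos 1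
  calc Real.exp 1 ^ 3 ≤ (2.7182818286 : ℝ) ^ 3 := by
        apply pow_le_pow_left₀ h0.le h.le
    _ ≤ 25 := by norm_num

/-- eventual facts about `x = (n log n)^(1/3)`. -/
lemma eventually_facts : ∀ᶠ n : ℕ in atTop,
    (100 : ℝ) ≤ n ∧ 1 ≤ Real.log n ∧ 6 ≤ ((n : ℝ) * Real.log n) ^ (1 / 3 : ℝ) ∧
    8 * (((n : ℝ) * Real.log n) ^ (1 / 3 : ℝ)) ^ 2 ≤ n ∧
    1000 * (((n : ℝ) * Real.log n) ^ (1 / 3 : ℝ)) * Real.log n ≤ (n : ℝ) ^ 2 / 3 := by
  have h1 : ∀ᶠ x : ℝ in atTop, Real.log x ≤ x ^ (1 / 8 : ℝ) := by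
    have := isLittleO_log_rpow_atTop (r := (1 / 8 : ℝ)) (by norm_num)
    have h := this.bound (c := 1) one_pos
    filter_upwards [h, eventually_ge_atTop 1] with x hx hx1
    rw [one_mul, Real.norm_eq_abs, Real.norm_eq_abs] at hx
    have h2 : (0 : ℝ) ≤ x ^ (1 / 8 : ℝ) := Real.rpow_nonneg (by linarith) _
    rw [abs_of_nonneg h2] at hx
    exact (le_abs_self _).trans hx
  have h2 : ∀ᶠ x : ℝ in atTop, (10000 : ℝ) ≤ x ^ (1 / 8 : ℝ) :=
    (tendsto_rpow_atTop (by norm_num : (0 : ℝ) < 1 / 8)).eventually_ge_atTop 10000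
  have h3 : ∀ᶠ x : ℝ in atTop, (1 : ℝ) ≤ Real.log x :=
    Real.tendsto_log_atTop.eventually_ge_atTop 1
  have hall : ∀ᶠ x : ℝ in atTop, (100 : ℝ) ≤ x ∧ 1 ≤ Real.log x ∧
      6 ≤ (x * Real.log x) ^ (1 / 3 : ℝ) ∧
      8 * ((x * Real.log x) ^ (1 / 3 : ℝ)) ^ 2 ≤ x ∧
      1000 * ((x * Real.log x) ^ (1 / 3 : ℝ)) * Real.log x ≤ x ^ 2 / 3 := by
    filter_upwards [h1, h2, h3, eventually_ge_atTop (1000 : ℝ)] with x hx1 hx2 hx3 hx4
    have hx0 : (0 : ℝ) < x := by linarith
    have hlog0 : 0 < Real.log x := by linarith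
    have hy : (x * Real.log x) ≤ x ^ (9 / 8 : ℝ) := by
      calc x * Real.log x ≤ x * x ^ (1 / 8 : ℝ) := by
            apply mul_le_mul_of_nonneg_left hx1 hx0.le
        _ = x ^ (9 / 8 : ℝ) := by
            rw [← Real.rpow_one_add' hx0.le (by norm_num)]; norm_num
    have hy3 : (x * Real.log x) ^ (1 / 3 : ℝ) ≤ x ^ (3 / 8 : ℝ) := by
      calc (x * Real.log x) ^ (1 / 3 : ℝ) ≤ (x ^ (9 / 8 : ℝ)) ^ (1 / 3 : ℝ) :=
            Real.rpow_le_rpow (by positivity) hy (by norm_num)
        _ = x ^ (3 / 8 : ℝ) := by rw [← Real.rpow_mul hx0.le]; norm_num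
    have hylow : x ^ (1 / 3 : ℝ) ≤ (x * Real.log x) ^ (1 / 3 : ℝ) := by
      apply Real.rpow_le_rpow hx0.le _ (by norm_num)
      nlinarith
    have h18 : x ^ (1 / 8 : ℝ) ≤ x ^ (1 / 3 : ℝ) :=
      Real.rpow_le_rpow_of_exponent_le (by linarith) (by norm_num)
    have hypos : 0 ≤ (x * Real.log x) ^ (1 / 3 : ℝ) := by positivity
    have h38 : x ^ (3 / 8 : ℝ) * x ^ (3 / 8 : ℝ) * x ^ (1 / 8 : ℝ) * x ^ (1 / 8 : ℝ) = x := by
      rw [← Real.rpow_add hx0, ← Real.rpow_add hx0, ← Real.rpow_add hx0]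
      norm_num
    have hp38 : 0 < x ^ (3 / 8 : ℝ) := Real.rpow_pos_of_pos hx0 _
    have hp18 : 0 < x ^ (1 / 8 : ℝ) := Real.rpow_pos_of_pos hx0 _
    refine ⟨by linarith, hx3, by linarith, ?_, ?_⟩
    · have hsq : ((x * Real.log x) ^ (1 / 3 : ℝ)) ^ 2 ≤ x ^ (3 / 8 : ℝ) * x ^ (3 / 8 : ℝ) := by
        rw [sq]; exact mul_le_mul hy3 hy3 hypos hp38.le
      calc 8 * ((x * Real.log x) ^ (1 / 3 : ℝ)) ^ 2
          ≤ 8 * (x ^ (3 / 8 : ℝ) * x ^ (3 / 8 : ℝ)) := by linarith
        _ ≤ (x ^ (1 / 8 : ℝ) * x ^ (1 / 8 : ℝ)) * (x ^ (3 / 8 : ℝ) * x ^ (3 / 8 : ℝ)) := by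
            apply mul_le_mul_of_nonneg_right _ (by positivity)
            nlinarith
        _ = x := by linarith [h38]
    · have h5 : x ^ (3 / 8 : ℝ) ≤ x := by
        calc x ^ (3 / 8 : ℝ) ≤ x ^ (1 : ℝ) :=
              Real.rpow_le_rpow_of_exponent_le (by linarith) (by norm_num)
          _ = x := Real.rpow_one x
      have h6 : x ^ (1 / 8 : ℝ) ≤ x ^ (5 / 8 : ℝ) / 3000 := by
        have h7 : x ^ (5 / 8 : ℝ) = x ^ (1 / 8 : ℝ) * x ^ (1 / 2 : ℝ) := by
          rw [← Real.rpow_add hx0]; norm_num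
        have h8 : x ^ (1 / 8 : ℝ) ≤ x ^ (1 / 2 : ℝ) :=
          Real.rpow_le_rpow_of_exponent_le (by linarith) (by norm_num)
        rw [h7]
        nlinarith
      have h9 : x ^ (3 / 8 : ℝ) * x ^ (5 / 8 : ℝ) = x := by
        rw [← Real.rpow_add hx0]; norm_num
      calc 1000 * ((x * Real.log x) ^ (1 / 3 : ℝ)) * Real.log x
          ≤ 1000 * x ^ (3 / 8 : ℝ) * x ^ (1 / 8 : ℝ) := by
            apply mul_le_mul _ hx1 hlog0.le (by positivity)
            linarith
        _ ≤ 1000 * x ^ (3 / 8 : ℝ) * (x ^ (5 / 8 : ℝ) / 3000) := by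
            apply mul_le_mul_of_nonneg_left h6 (by positivity)
        _ = (x ^ (3 / 8 : ℝ) * x ^ (5 / 8 : ℝ)) / 3 := by ring
        _ = x / 3 := by rw [h9]
        _ ≤ x ^ 2 / 3 := by nlinarith
  exact tendsto_natCast_atTop_atTop.eventually hall

theorem lower_bound_eventually : ∀ᶠ n : ℕ in atTop,
    (n : ℝ) ^ (4 / 3 : ℝ) / (Real.log n) ^ (2 / 3 : ℝ) / 3000 ≤ (U 2 n 3 : ℝ) := by
  filter_upwards [eventually_facts] with n hn
  obtain ⟨hn100, hlog, hx6, hx2, hxl⟩ := hn
  set l : ℝ := Real.log n with hl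
  set x : ℝ := ((n : ℝ) * l) ^ (1 / 3 : ℝ) with hx
  have hnpos : (0 : ℝ) < n := by linarith
  have hlpos : 0 < l := by linarith
  have hx0 : 0 < x := by linarith
  have hx3 : x ^ 3 = n * l := by
    rw [hx, ← Real.rpow_natCast, ← Real.rpow_mul (by positivity)]
    norm_num
  set k : ℕ := ⌈x⌉₊ with hk
  have hkx : x ≤ k := Nat.le_ceil x
  have hkx1 : (k : ℝ) < x + 1 := Nat.ceil_lt_add_one hx0.le
  have hk6 : (6 : ℝ) ≤ k := by linarith
  have hk6' : 6 ≤ k := by exact_mod_cast hk6
  have hkpos : (0 : ℝ) < k := by linarith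
  have hk2x : (k : ℝ) ≤ 2 * x := by linarith
  -- k^2 * 2 ≤ n
  have hksq : 2 * (k : ℝ) ^ 2 ≤ n := by
    have : (k : ℝ) ^ 2 ≤ (2 * x) ^ 2 := pow_le_pow_left₀ hkpos.le hk2x 2
    nlinarith
  have hk3 : (k : ℝ) ^ 3 ≤ 8 * (n * l) := by
    have : (k : ℝ) ^ 3 ≤ (2 * x) ^ 3 := pow_le_pow_left₀ hkpos.le hk2x 3
    calc (k : ℝ) ^ 3 ≤ (2 * x) ^ 3 := this
      _ = 8 * x ^ 3 := by ring
      _ = 8 * (n * l) := by rw [hx3]
  have hkn2 : (k : ℝ) * 2 ≤ n := by nlinarith
  have hkn : k ≤ n := by
    have : (k : ℝ) ≤ n := by linarith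
    exact_mod_cast this
  set m : ℕ := ⌈100 * k * l⌉₊ with hm
  have hmge : 100 * k * l ≤ (m : ℝ) := Nat.le_ceil _
  have hmlt : (m : ℝ) < 100 * k * l + 1 := Nat.ceil_lt_add_one (by positivity)
  have hkl : 1 ≤ (k : ℝ) * l := by nlinarith
  have hm101 : (m : ℝ) ≤ 101 * k * l := by nlinarith
  have hmpos : (0 : ℝ) < m := by nlinarith
  have hmpos' : 0 < m := by exact_mod_cast hmpos
  set e : ℕ := (n / k) * k.choose 3 with he
  -- bounds on e
  have hch_le : ((k.choose 3 : ℕ) : ℝ) ≤ (k : ℝ) ^ 3 / 6 := by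
    have := Nat.choose_le_pow_div (α := ℝ) 3 k
    simpa [Nat.factorial] using this
  have hch_ge : (k : ℝ) ^ 3 / 12 ≤ ((k.choose 3 : ℕ) : ℝ) := by
    have h1 : ((k.choose 3 : ℕ) : ℝ) = (k : ℝ) * (k - 1) * (k - 2) / 6 := by
      have h2 := Nat.descFactorial_eq_factorial_mul_choose k 3
      have h3 : k.descFactorial 3 = k * (k - 1) * (k - 2) := by
        simp [Nat.descFactorial]; ring
      rw [h3] at h2
      have h4 : ((k * (k - 1) * (k - 2) : ℕ) : ℝ) = ((Nat.factorial 3 * k.choose 3 : ℕ) : ℝ) := by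
        exact_mod_cast h2
      rw [Nat.cast_mul, Nat.cast_mul, Nat.cast_sub (by omega), Nat.cast_sub (by omega)] at h4
      push_cast at h4
      simp [Nat.factorial] at h4
      linarith
    rw [h1]
    have : (k : ℝ) ^ 2 / 2 ≤ (k - 1) * (k - 2) := by nlinarith
    nlinarith
  have hnk_le : ((n / k : ℕ) : ℝ) ≤ (n : ℝ) / k := Nat.cast_div_le
  have hnk_ge : (n : ℝ) / k / 2 ≤ ((n / k : ℕ) : ℝ) := by
    have h1 : (n : ℝ) / k < ((n / k : ℕ) : ℝ) + 1 := by
      have h2 := Nat.lt_div_mul_add (a := n) (b := k) (by omega)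
      rw [div_lt_iff₀ hkpos]
      have h3 : (n : ℝ) < ((n / k * k + k : ℕ) : ℝ) := by exact_mod_cast h2
      push_cast at h3
      linarith
    have h2 : 2 ≤ (n : ℝ) / k := by rw [le_div_iff₀ hkpos]; linarith
    linarith
  have he_le : (e : ℝ) ≤ n * k ^ 2 / 6 := by
    rw [he]; push_cast
    calc ((n / k : ℕ) : ℝ) * ((k.choose 3 : ℕ) : ℝ) ≤ (n : ℝ) / k * (k ^ 3 / 6) := by
          apply mul_le_mul hnk_le hch_le (by positivity) (by positivity)
      _ = n * k ^ 2 / 6 := by field_simp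
  have he_ge : n * (k : ℝ) ^ 2 / 24 ≤ (e : ℝ) := by
    rw [he]; push_cast
    calc n * (k : ℝ) ^ 2 / 24 = (n : ℝ) / k / 2 * (k ^ 3 / 12) := by field_simp; ring
      _ ≤ _ := by
          apply mul_le_mul hnk_ge hch_ge (by positivity) (by positivity)
  have hepos : (0 : ℝ) < e := lt_of_lt_of_le (by positivity) he_ge
  have hepos' : 0 < e := by exact_mod_cast hepos
  set N : ℕ := (n - 1).choose 2 with hN
  have hn100' : 100 ≤ n := by exact_mod_cast hn100
  have hNeq : (N : ℝ) = (n - 1) * (n - 2) / 2 := by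
    rw [hN, Nat.cast_choose_two, Nat.cast_sub (by omega)]
    push_cast
    ring
  have hN_ge : (n : ℝ) ^ 2 / 3 ≤ N := by rw [hNeq]; nlinarith
  have hN_le : (N : ℝ) ≤ n ^ 2 := by rw [hNeq]; nlinarith
  set M : ℕ := N / e with hM
  have hMe : M * e ≤ N := Nat.div_mul_le_self N e
  have hM_ge : (n : ℝ) / k ^ 2 ≤ M := by
    have h1 : (N : ℝ) / e < (M : ℝ) + 1 := by
      have h2 := Nat.lt_div_mul_add (a := N) (b := e) hepos'
      rw [div_lt_iff₀ hepos]
      have h3 : (N : ℝ) < ((N / e * e + e : ℕ) : ℝ) := by exact_mod_cast h2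
      push_cast at h3
      rw [hM]
      linarith
    have h2 : 2 * ((n : ℝ) / k ^ 2) ≤ (N : ℝ) / e := by
      rw [le_div_iff₀ hepos]
      calc 2 * ((n : ℝ) / k ^ 2) * e ≤ 2 * ((n : ℝ) / k ^ 2) * (n * k ^ 2 / 6) := by
            apply mul_le_mul_of_nonneg_left he_le (by positivity)
        _ = (n : ℝ) ^ 2 / 3 := by field_simp; ring
        _ ≤ N := hN_ge
    have h3 : 1 ≤ (n : ℝ) / k ^ 2 := by
      rw [le_div_iff₀ (by positivity)]; linarith
    linarith
  have hMpos : (0 : ℝ) < M := lt_of_lt_of_le (by positivity) hM_ge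
  have hMpos' : 0 < M := by exact_mod_cast hMpos
  have hM_le : (M : ℝ) ≤ n ^ 2 := by
    have : (M : ℝ) ≤ N := by exact_mod_cast Nat.div_le_self N e
    linarith
  have hmN : m ≤ N := by
    have : (m : ℝ) ≤ N := by
      calc (m : ℝ) ≤ 101 * k * l := hm101
        _ ≤ 1000 * x * l := by nlinarith
        _ ≤ (n : ℝ) ^ 2 / 3 := hxl
        _ ≤ N := hN_ge
    exact_mod_cast this
  -- the counting inequality
  have hcount : n.choose k * (k.choose 2).choose m * M < M ^ m := by
    have hK : ((k.choose 2 : ℕ) : ℝ) ≤ (k : ℝ) ^ 2 / 2 := by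
      have := Nat.choose_le_pow_div (α := ℝ) 2 k
      simpa [Nat.factorial] using this
    have h1 : (((k.choose 2).choose m : ℕ) : ℝ) ≤ ((M : ℝ) * (Real.exp 1)⁻¹ ^ 2) ^ m := by
      refine (choose_bound _ m hmpos').trans ?_
      apply pow_le_pow_left₀ (by positivity)
      rw [div_le_iff₀ hmpos]
      have he1 := Real.exp_pos 1
      have he3 := exp_one_cube_le
      have h2 : (k : ℝ) ^ 2 / 2 * Real.exp 1 ^ 3 ≤ M * m := by
        calc (k : ℝ) ^ 2 / 2 * Real.exp 1 ^ 3 ≤ (k : ℝ) ^ 2 / 2 * 25 := by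
              apply mul_le_mul_of_nonneg_left he3 (by positivity)
          _ ≤ (n : ℝ) / k ^ 2 * (100 * k * l) := by
              have h3 : (n : ℝ) / k ^ 2 * (100 * k * l) = 100 * (n * l) / k := by
                field_simp
              rw [h3, le_div_iff₀ hkpos]
              nlinarith
          _ ≤ M * m := by
              apply mul_le_mul hM_ge hmge (by positivity) hMpos.le
      calc ((k.choose 2 : ℕ) : ℝ) * Real.exp 1 ≤ (k : ℝ) ^ 2 / 2 * Real.exp 1 := by
            apply mul_le_mul_of_nonneg_right hK he1.le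
        _ = ((k : ℝ) ^ 2 / 2 * Real.exp 1 ^ 3) * (Real.exp 1)⁻¹ ^ 2 := by
            field_simp
        _ ≤ (M * m) * (Real.exp 1)⁻¹ ^ 2 := by
            apply mul_le_mul_of_nonneg_right h2 (by positivity)
        _ = (M : ℝ) * (Real.exp 1)⁻¹ ^ 2 * m := by ring
    have h2 : ((n.choose k : ℕ) : ℝ) ≤ (n : ℝ) ^ k := by exact_mod_cast Nat.choose_le_pow n k
    have h3 : ((M : ℝ) * (Real.exp 1)⁻¹ ^ 2) ^ m = (M : ℝ) ^ m * Real.exp (-(2 * m)) := by
      rw [mul_pow, ← pow_mul, ← Real.exp_neg, ← Real.exp_nat_mul]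
      congr 2
      push_cast
      ring
    have h4 : (n : ℝ) ^ k * n ^ 2 = Real.exp ((k + 2) * l) := by
      rw [← pow_add, hl, ← Real.exp_log hnpos, ← Real.exp_nat_mul, Real.log_exp]
      push_cast
      ring_nf
    have h5 : ((n.choose k * (k.choose 2).choose m * M : ℕ) : ℝ) < ((M ^ m : ℕ) : ℝ) := by
      push_cast
      calc ((n.choose k : ℕ) : ℝ) * (((k.choose 2).choose m : ℕ) : ℝ) * M
          ≤ (n : ℝ) ^ k * ((M : ℝ) ^ m * Real.exp (-(2 * m))) * n ^ 2 := by
            rw [h3] at h1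
            apply mul_le_mul _ hM_le hMpos.le (by positivity)
            apply mul_le_mul h2 h1 (by positivity) (by positivity)
        _ = (M : ℝ) ^ m * (Real.exp ((k + 2) * l) * Real.exp (-(2 * m))) := by
            rw [← h4]; ring
        _ < (M : ℝ) ^ m * 1 := by
            apply mul_lt_mul_of_pos_left _ (by positivity)
            rw [← Real.exp_add, Real.exp_lt_one_iff]
            nlinarith
        _ = (M : ℝ) ^ m := mul_one _
    exact_mod_cast h5
  have hcore := lower_core n k m M (U 2 n 3) (by omega) hkn hMpos' hMe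
    (by
      intro α _ _ T hT hα hTc
      apply exists_good_coloring M m (k.choose 2) T hT (by rw [hα]; exact hmN) hMpos'
      refine lt_of_le_of_lt ?_ hcount
      exact Nat.mul_le_mul_right _ (Nat.mul_le_mul_right _ hTc))
    (U_spec 2 n 3)
  have hcoreR : (e : ℝ) ≤ (U 2 n 3 : ℝ) * m := by
    have h1 : e ≤ U 2 n 3 * m := hcore.trans (Nat.mul_le_mul_left _ (Nat.sub_le _ _))
    exact_mod_cast h1
  have hUge : n * (k : ℝ) ^ 2 / 24 ≤ (U 2 n 3 : ℝ) * (101 * k * l) := by
    calc n * (k : ℝ) ^ 2 / 24 ≤ e := he_ge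
      _ ≤ (U 2 n 3 : ℝ) * m := hcoreR
      _ ≤ (U 2 n 3 : ℝ) * (101 * k * l) := by
          apply mul_le_mul_of_nonneg_left hm101 (by positivity)
  have hfin : n * x / (3000 * l) ≤ (U 2 n 3 : ℝ) := by
    rw [div_le_iff₀ (by positivity)]
    have h1 : n * (k : ℝ) ≤ (U 2 n 3 : ℝ) * (3000 * l) := by
      have h2 : (n * (k : ℝ)) * k ≤ ((U 2 n 3 : ℝ) * (3000 * l)) * k := by
        have hU0 : (0 : ℝ) ≤ (U 2 n 3 : ℝ) := by positivity
        have h3 : 0 ≤ (U 2 n 3 : ℝ) * (k * l) := by positivity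
        nlinarith
      exact le_of_mul_le_mul_right h2 hkpos
    calc n * x ≤ n * (k : ℝ) := by
          apply mul_le_mul_of_nonneg_left hkx hnpos.le
      _ ≤ _ := h1
  refine le_trans (le_of_eq ?_) hfin
  have h43 : (n : ℝ) ^ (4 / 3 : ℝ) = n * (n : ℝ) ^ (1 / 3 : ℝ) := by
    rw [← Real.rpow_one_add' hnpos.le (by norm_num)]; norm_num
  have hl1 : l = l ^ (1 / 3 : ℝ) * l ^ (2 / 3 : ℝ) := by
    rw [← Real.rpow_add hlpos]; norm_num
  have hxsplit : x = (n : ℝ) ^ (1 / 3 : ℝ) * l ^ (1 / 3 : ℝ) := by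
    rw [hx, Real.mul_rpow hnpos.le hlpos.le]
  have hl13 : 0 < l ^ (1 / 3 : ℝ) := Real.rpow_pos_of_pos hlpos _
  have hl23 : 0 < l ^ (2 / 3 : ℝ) := Real.rpow_pos_of_pos hlpos _
  rw [h43, hxsplit]
  rw [div_div, div_eq_div_iff (by positivity) (by positivity)]
  conv_lhs => rw [hl1]
  ring

end Pool.Agent.Lib.MP_9dddc4_co
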