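import Mathlib
import Pool.Agent.Lib.MP_9dddc4_co.Lower

/-!
General `k` and `r`: common subgraphs, copies of an abstract hypergraph, greedy decomposition.
-/

namespace Pool.Agent.Lib.MP_9dddc4_co

open Finset

section GCore

variable {n k : ℕ}

/-- `k` edge sets have pairwise isomorphic subsets with `m` edges. -/
def CommonK (H : Fin k → Finset (Finset (Fin n))) (m : ℕ) : Prop :=
  ∃ F : Fin k → Finset (Finset (Fin n)), (∀ i, F i ⊆ H i) ∧ (∀ i, (F i).card = m) ∧
    ∀ i j, EdgeIso (F i) (F j)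

/-- `H` contains a copy of the abstract hypergraph `G`. -/
def Copy {W : Type*} [DecidableEq W] (G : Finset (Finset W)) (H : Finset (Finset (Fin n))) :
    Prop :=
  ∃ f : W → Fin n, (∀ e ∈ G, ∀ e' ∈ G, ∀ v ∈ e, ∀ v' ∈ e', f v = f v' → v = v') ∧
    ∀ e ∈ G, e.image f ∈ H

lemma covered_image_eq {W : Type*} [DecidableEq W] (G : Finset (Finset W)) (f : W → Fin n)
    (v : Fin n) :
    v ∈ covered (G.image (fun e => e.image f)) ↔ ∃ e ∈ G, ∃ w ∈ e, f w = v := by
  simp only [covered, mem_biUnion, mem_image, id, exists_exists_and_eq_and]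

lemma edgeIso_of_maps {W : Type*} [DecidableEq W] (G : Finset (Finset W)) (f f' : W → Fin n)
    (hf : ∀ e ∈ G, ∀ e' ∈ G, ∀ v ∈ e, ∀ v' ∈ e', f v = f v' → v = v')
    (hf' : ∀ e ∈ G, ∀ e' ∈ G, ∀ v ∈ e, ∀ v' ∈ e', f' v = f' v' → v = v') :
    EdgeIso (G.image (fun e => e.image f)) (G.image (fun e => e.image f')) := by
  classical
  let g : Fin n → Fin n := fun v =>
    if h : ∃ w, (∃ e ∈ G, w ∈ e) ∧ f w = v then f' (Classical.choose h) else v
  have hg : ∀ e ∈ G, ∀ w ∈ e, g (f w) = f' w := by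
    intro e he w hw
    have h : ∃ w', (∃ e ∈ G, w' ∈ e) ∧ f w' = f w := ⟨w, ⟨e, he, hw⟩, rfl⟩
    simp only [g]
    rw [dif_pos h]
    obtain ⟨⟨e', he', hw'⟩, heq⟩ := Classical.choose_spec h
    rw [hf e' he' e he _ hw' w hw heq]
  refine ⟨g, ⟨?_, ?_, ?_⟩, ?_⟩
  · intro v hv
    have hv := mem_coe.mp hv
    rw [covered_image_eq] at hv
    obtain ⟨e, he, w, hw, rfl⟩ := hv
    apply mem_coe.mpr
    rw [covered_image_eq]
    exact ⟨e, he, w, hw, (hg e he w hw).symm⟩
  · intro v hv v' hv' h
    have hv := mem_coe.mp hv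
    have hv' := mem_coe.mp hv'
    rw [covered_image_eq] at hv hv'
    obtain ⟨e, he, w, hw, rfl⟩ := hv
    obtain ⟨e', he', w', hw', rfl⟩ := hv'
    rw [hg e he w hw, hg e' he' w' hw'] at h
    rw [hf' e he e' he' w hw w' hw' h]
  · intro v hv
    have hv := mem_coe.mp hv
    rw [covered_image_eq] at hv
    obtain ⟨e, he, w, hw, rfl⟩ := hv
    refine ⟨f w, ?_, hg e he w hw⟩
    apply mem_coe.mpr
    rw [covered_image_eq]
    exact ⟨e, he, w, hw, rfl⟩
  · rw [image_image]
    apply image_congr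
    intro e he
    have he := mem_coe.mp he
    simp only [Function.comp_apply]
    rw [image_image]
    apply image_congr
    intro w hw
    exact hg e he w (mem_coe.mp hw)

lemma card_image_maps {W : Type*} [DecidableEq W] (G : Finset (Finset W)) (f : W → Fin n)
    (hf : ∀ e ∈ G, ∀ e' ∈ G, ∀ v ∈ e, ∀ v' ∈ e', f v = f v' → v = v') :
    (G.image (fun e => e.image f)).card = G.card := by
  apply card_image_of_injOn
  intro e he e' he' heq
  have he := mem_coe.mp he
  have he' := mem_coe.mp he'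
  simp only at heq
  ext v
  constructor
  · intro hv
    have h3 : f v ∈ e'.image f := by rw [← heq]; exact mem_image_of_mem f hv
    obtain ⟨u, hu, huv⟩ := mem_image.mp h3
    rw [← hf e' he' e he u hu v hv huv]; exact hu
  · intro hv
    have h3 : f v ∈ e.image f := by rw [heq]; exact mem_image_of_mem f hv
    obtain ⟨u, hu, huv⟩ := mem_image.mp h3
    rw [← hf e he e' he' u hu v hv huv]; exact hu

theorem commonK_of_copy {W : Type*} [DecidableEq W] (G : Finset (Finset W))
    (H : Fin k → Finset (Finset (Fin n))) (h : ∀ i, Copy G (H i)) : CommonK H G.card := by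
  classical
  choose f hf hfH using h
  refine ⟨fun i => G.image (fun e => e.image (f i)), ?_, ?_, ?_⟩
  · intro i e he
    obtain ⟨e0, he0, rfl⟩ := mem_image.mp he
    exact hfH i e0 he0
  · intro i
    exact card_image_maps G (f i) (hf i)
  · intro i j
    exact edgeIso_of_maps G (f i) (f j) (hf i) (hf j)

/-- the common subgraph with a single edge -/
lemma commonK_one {r : ℕ} (H : Fin k → Finset (Finset (Fin n))) (hr : ∀ i, IsRGraph r (H i))
    (h : ∀ i, 0 < (H i).card) : CommonK H 1 := by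
  classical
  have h1 : ∀ i, ∃ e, e ∈ H i := fun i => card_pos.mp (h i)
  choose e he using h1
  refine ⟨fun i => {e i}, ?_, ?_, ?_⟩
  · intro i
    rw [singleton_subset_iff]
    exact he i
  · intro i
    rfl
  · intro i j
    apply edgeIso_singleton
    rw [hr i _ (he i), hr j _ (he j)]

/-- greedy decomposition with a potential function -/
theorem greedyK {r : ℕ} (Ψ : ℕ → ℝ) (h0 : 0 ≤ Ψ 0)
    (step : ∀ e : ℕ, 0 < e → ∀ H : Fin k → Finset (Finset (Fin n)), (∀ i, IsRGraph r (H i)) →
      (∀ i, (H i).card = e) → ∃ m, 0 < m ∧ CommonK H m ∧ Ψ (e - m) + 1 ≤ Ψ e) :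
    ∀ e : ℕ, ∀ H : Fin k → Finset (Finset (Fin n)), (∀ i, IsRGraph r (H i)) →
      (∀ i, (H i).card = e) → ∃ s : ℕ, (s : ℝ) ≤ Ψ e ∧ HasUDecomp H s := by
  classical
  intro e
  induction e using Nat.strong_induction_on with
  | _ e ih =>
    intro H h3 hc
    rcases Nat.eq_zero_or_pos e with he | he
    · subst he
      refine ⟨0, by simpa using h0, fun _ j => j.elim0, ?_, ?_, ?_⟩
      · intro i
        rw [card_eq_zero.mp (hc i)]
        rfl
      · intro i j; exact j.elim0
      · intro j; exact j.elim0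
    · obtain ⟨m, hm, ⟨F, hFH, hFc, hFiso⟩, hΨ⟩ := step e he H h3 hc
      have hcard : ∀ i, (H i \ F i).card = e - m := by
        intro i
        rw [card_sdiff_of_subset (hFH i), hc i, hFc i]
      obtain ⟨s, hs, E, hE1, hE2, hE3⟩ := ih (e - m) (by omega) (fun i => H i \ F i)
        (fun i d hd => h3 i d (mem_sdiff.mp hd).1) hcard
      have hEsub : ∀ i j, E i j ⊆ H i \ F i := by
        intro i j
        have h1 := subset_biUnion_of_mem (E i) (mem_univ j)
        rw [hE1 i] at h1
        exact h1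
      refine ⟨s + 1, ?_, fun i => Fin.cons (F i) (E i), ?_, ?_, ?_⟩
      · push_cast
        linarith
      · intro i
        ext d
        simp only [mem_biUnion, mem_univ, true_and]
        constructor
        · rintro ⟨j, hj⟩
          revert hj
          refine Fin.cases ?_ (fun j => ?_) j
          · intro hj
            exact hFH i hj
          · intro hj
            exact (mem_sdiff.mp (hEsub i j hj)).1
        · intro hd
          by_cases hdP : d ∈ F i
          · exact ⟨0, hdP⟩
          · have h1 : d ∈ univ.biUnion (E i) := by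
              rw [hE1 i]
              exact mem_sdiff.mpr ⟨hd, hdP⟩
            obtain ⟨j, _, hj⟩ := mem_biUnion.mp h1
            exact ⟨j.succ, hj⟩
      · intro i j j'
        refine Fin.cases ?_ (fun j => ?_) j
        · refine Fin.cases ?_ (fun j' => ?_) j'
          · intro h; exact absurd rfl h
          · intro _
            exact disjoint_of_subset_right (hEsub i j') disjoint_sdiff
        · refine Fin.cases ?_ (fun j' => ?_) j'
          · intro _
            exact disjoint_of_subset_left (hEsub i j) sdiff_disjoint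
          · intro h
            exact hE2 i j j' (fun h' => h (by rw [h']))
      · intro j i i'
        refine Fin.cases ?_ (fun j => ?_) j
        · exact hFiso i i'
        · exact hE3 j i i'

lemma card_le_pow_of_isRGraph {r : ℕ} (H : Finset (Finset (Fin n))) (hr : IsRGraph r H) :
    H.card ≤ n ^ r := by
  have h1 : H ⊆ (univ : Finset (Fin n)).powersetCard r := by
    intro e he
    rw [mem_powersetCard]
    exact ⟨subset_univ _, hr e he⟩
  refine (card_le_card h1).trans ?_
  rw [card_powersetCard, card_univ, Fintype.card_fin]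
  exact Nat.choose_le_pow n r

/-- a lower bound on common subgraphs gives an upper bound on `U` -/
theorem U_le_sum {r : ℕ} (hk : 0 < k) (f : ℕ → ℝ) (hf : ∀ e, 0 < e → 0 < f e)
    (hmono : ∀ a b, 0 < a → a ≤ b → f a ≤ f b)
    (h : ∀ e : ℕ, 0 < e → ∀ H : Fin k → Finset (Finset (Fin n)), (∀ i, IsRGraph r (H i)) →
      (∀ i, (H i).card = e) → ∃ m, CommonK H m ∧ f e ≤ m) :
    (U k n r : ℝ) ≤ ∑ e ∈ Ioc 0 (n ^ r), 1 / f e := by
  set Ψ : ℕ → ℝ := fun e => ∑ j ∈ Ioc 0 e, 1 / f j with hΨ
  have hstep : ∀ e : ℕ, 0 < e → ∀ H : Fin k → Finset (Finset (Fin n)),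
      (∀ i, IsRGraph r (H i)) → (∀ i, (H i).card = e) →
      ∃ m, 0 < m ∧ CommonK H m ∧ Ψ (e - m) + 1 ≤ Ψ e := by
    intro e he H hr hc
    obtain ⟨m, hm, hfm⟩ := h e he H hr hc
    have hmpos : 0 < m := by
      have : (0 : ℝ) < m := lt_of_lt_of_le (hf e he) hfm
      exact_mod_cast this
    have hme : m ≤ e := by
      obtain ⟨F, hF, hFc, _⟩ := hm
      rw [← hFc ⟨0, hk⟩, ← hc ⟨0, hk⟩]
      exact card_le_card (hF _)
    refine ⟨m, hmpos, hm, ?_⟩
    have h1 : Ψ e = Ψ (e - m) + ∑ j ∈ Ioc (e - m) e, 1 / f j := by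
      simp only [hΨ]
      rw [← sum_union]
      · congr 1
        ext j
        simp only [mem_union, mem_Ioc]
        omega
      · rw [disjoint_left]
        intro j hj hj'
        simp only [mem_Ioc] at hj hj'
        omega
    have h2 : ∑ j ∈ Ioc (e - m) e, 1 / f e ≤ ∑ j ∈ Ioc (e - m) e, 1 / f j := by
      apply sum_le_sum
      intro j hj
      rw [mem_Ioc] at hj
      have hj0 : 0 < j := by omega
      exact one_div_le_one_div_of_le (hf j hj0) (hmono j e hj0 hj.2)
    rw [sum_const, Nat.card_Ioc, nsmul_eq_mul] at h2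
    have h3 : e - (e - m) = m := by omega
    rw [h3] at h2
    have h4 : 1 ≤ (m : ℝ) * (1 / f e) := by
      rw [mul_one_div, le_div_iff₀ (hf e he)]
      linarith
    rw [h1]
    linarith
  have hmonoΨ : ∀ a b, a ≤ b → Ψ a ≤ Ψ b := by
    intro a b hab
    simp only [hΨ]
    apply sum_le_sum_of_subset_of_nonneg
    · intro j hj
      rw [mem_Ioc] at hj ⊢
      omega
    · intro j hj _
      rw [mem_Ioc] at hj
      exact (one_div_pos.mpr (hf j hj.1)).le
  have hT0 : 0 ≤ Ψ (n ^ r) := by
    have h1 := hmonoΨ 0 (n ^ r) (Nat.zero_le _)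
    have h2 : Ψ 0 = 0 := by simp [hΨ]
    linarith
  have h1 : U k n r ≤ ⌊Ψ (n ^ r)⌋₊ := by
    apply U_le
    intro H hr hc
    obtain ⟨s, hs, hd⟩ := greedyK Ψ (by simp [hΨ]) hstep (H ⟨0, hk⟩).card H hr
      (fun i => hc i _)
    refine ⟨s, Nat.le_floor (hs.trans ?_), hd⟩
    exact hmonoΨ _ _ (card_le_pow_of_isRGraph _ (hr _))
  calc (U k n r : ℝ) ≤ (⌊Ψ (n ^ r)⌋₊ : ℝ) := by exact_mod_cast h1
    _ ≤ Ψ (n ^ r) := Nat.floor_le hT0

end GCore

end Pool.Agent.Lib.MP_9dddc4_co
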