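import Mathlib
import Pool.Agent.Lib.MP_9dddc4_co.GCore
import Pool.Agent.Lib.MP_9dddc4_co.Tools
import Pool.Agent.Lib.MP_9dddc4_co.TriBasic

/-!
General `k` and `r`: partite representation and random alignment.
-/

namespace Pool.Agent.Lib.MP_9dddc4_co

open Finset

section GRand

variable {n k r : ℕ}

/-- the rainbow edges of `H` for the colouring `c`, as tuples. -/
def Part (H : Finset (Finset (Fin n))) (c : Fin n → Fin r) : Finset (Fin r → Fin n) :=
  univ.filter (fun t => (∀ j, c (t j) = j) ∧ univ.image t ∈ H)

lemma mem_Part {H : Finset (Finset (Fin n))} {c : Fin n → Fin r} {t : Fin r → Fin n} :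
    t ∈ Part H c ↔ (∀ j, c (t j) = j) ∧ univ.image t ∈ H := by
  simp [Part]

lemma exists_ordering {e : Finset (Fin n)} (he : e.card = r) :
    ∃ t : Fin r → Fin n, Function.Injective t ∧ univ.image t = e := by
  refine ⟨fun j => e.orderEmbOfFin he j, (e.orderEmbOfFin he).injective, ?_⟩
  ext v
  simp only [mem_image, mem_univ, true_and]
  constructor
  · rintro ⟨j, rfl⟩
    exact Finset.orderEmbOfFin_mem e he j
  · intro hv
    have h1 : (v : Fin n) ∈ Set.range (e.orderEmbOfFin he) := by
      rw [Finset.range_orderEmbOfFin]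
      exact hv
    exact h1

theorem exists_part (hr0 : 0 < r) (H : Finset (Finset (Fin n))) (hr : IsRGraph r H) :
    ∃ c : Fin n → Fin r, H.card ≤ r ^ r * (Part H c).card := by
  classical
  have hord : ∀ e : {e // e ∈ H}, ∃ t : Fin r → Fin n, Function.Injective t ∧
      univ.image t = e.1 := fun e => exists_ordering (hr e.1 e.2)
  choose t ht1 ht2 using hord
  have : NeZero r := ⟨by omega⟩
  -- for each edge count the colourings
  have hone : ∀ e : {e // e ∈ H}, (univ.filter (fun c : Fin n → Fin r =>
      ∀ j, c (t e j) = j)).card * r ^ r = r ^ n := by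
    intro e
    have h := card_restrict (ζ := Fin r) (t e) (ht1 e) (fun f => ∀ j, f j = j)
    have h2 : (univ.filter (fun f : Fin r → Fin r => ∀ j, f j = j)).card = 1 := by
      rw [card_eq_one]
      refine ⟨id, ?_⟩
      ext f
      simp only [mem_filter, mem_univ, true_and, mem_singleton]
      constructor
      · intro h; funext j; exact h j
      · rintro rfl j; rfl
    rw [h2, Fintype.card_fin, Fintype.card_fin, one_mul] at h
    exact h
  by_contra hcon
  push Not at hcon
  have hle : ∀ c : Fin n → Fin r,
      (univ.filter (fun e : {e // e ∈ H} => ∀ j, c (t e j) = j)).card ≤ (Part H c).card := by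
    intro c
    apply Finset.card_le_card_of_injOn (fun e => t e)
    · intro e he
      have he := (mem_filter.mp (mem_coe.mp he)).2
      apply mem_coe.mpr
      rw [mem_Part]
      refine ⟨he, ?_⟩
      rw [ht2 e]
      exact e.2
    · intro e _ e' _ h
      apply Subtype.ext
      rw [← ht2 e, ← ht2 e']
      simp only at h
      rw [h]
  have hsum : ∑ c : Fin n → Fin r,
      (univ.filter (fun e : {e // e ∈ H} => ∀ j, c (t e j) = j)).card
      = ∑ e : {e // e ∈ H}, (univ.filter (fun c : Fin n → Fin r => ∀ j, c (t e j) = j)).card := by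
    simp_rw [card_filter]
    rw [sum_comm]
  have h1 : (∑ c : Fin n → Fin r,
      (univ.filter (fun e : {e // e ∈ H} => ∀ j, c (t e j) = j)).card) * r ^ r
      = H.card * r ^ n := by
    rw [hsum, sum_mul, sum_congr rfl (fun e _ => hone e), sum_const, smul_eq_mul, card_univ,
      Fintype.card_coe]
  have hne : (univ : Finset (Fin n → Fin r)).Nonempty := univ_nonempty
  have h2 : ∑ c : Fin n → Fin r, r ^ r * (Part H c).card < ∑ _c : Fin n → Fin r, H.card :=
    sum_lt_sum_of_nonempty hne (fun c _ => hcon c)
  have h3 : ∑ c : Fin n → Fin r,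
      r ^ r * (univ.filter (fun e : {e // e ∈ H} => ∀ j, c (t e j) = j)).card
      ≤ ∑ c : Fin n → Fin r, r ^ r * (Part H c).card :=
    sum_le_sum (fun c _ => Nat.mul_le_mul_left _ (hle c))
  rw [← mul_sum, mul_comm, h1] at h3
  rw [sum_const, smul_eq_mul, card_univ, Fintype.card_fun, Fintype.card_fin,
    Fintype.card_fin, mul_comm] at h2
  omega

/-- random alignment -/
theorem random_align (hn : 0 < n) (hr0 : 0 < r) (H : Fin k → Finset (Finset (Fin n)))
    (hr : ∀ i, IsRGraph r (H i)) :
    ∃ m, CommonK H m ∧ (∏ i, (H i).card) * n ^ r ≤ (r ^ r) ^ k * n ^ (r * k) * m := by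
  classical
  have hpart := fun i => exists_part hr0 (H i) (hr i)
  choose c hc using hpart
  obtain ⟨op, hop1, hop2⟩ := exists_latin (V := Fin n) (by rw [Fintype.card_fin]; exact hn)
  -- shifted tuples
  let sh : (Fin k → Fin r → Fin n) → Fin k → (Fin r → Fin n) → (Fin r → Fin n) :=
    fun s i t j => op (s i j) (t j)
  let hits : (Fin k → Fin r → Fin n) → Finset (Fin r → Fin n) := fun s =>
    univ.filter (fun t => ∀ i, sh s i t ∈ Part (H i) (c i))
  have hone : ∀ t : Fin r → Fin n, (univ.filter (fun s : Fin k → Fin r → Fin n =>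
      ∀ i, sh s i t ∈ Part (H i) (c i))).card = ∏ i, (Part (H i) (c i)).card := by
    intro t
    rw [← Fintype.card_piFinset]
    apply Finset.card_bij (fun s _ => fun i => sh s i t)
    · intro s hs
      rw [mem_filter] at hs
      rw [Fintype.mem_piFinset]
      exact hs.2
    · intro s _ s' _ h
      funext i j
      have h1 : op (s i j) (t j) = op (s' i j) (t j) := by
        have := congrFun (congrFun h i) j
        exact this
      obtain ⟨u, _, hu⟩ := hop2 (t j) (op (s' i j) (t j))
      rw [hu _ h1, hu _ rfl]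
    · intro b hb
      rw [Fintype.mem_piFinset] at hb
      have hex : ∀ i j, ∃ u, op u (t j) = b i j := fun i j => by
        obtain ⟨u, hu, _⟩ := hop2 (t j) (b i j)
        exact ⟨u, hu⟩
      choose u hu using hex
      have hsh : (fun i => sh u i t) = b := by
        funext i j
        exact hu i j
      refine ⟨u, ?_, hsh⟩
      rw [mem_filter]
      refine ⟨mem_univ _, fun i => ?_⟩
      have h3 : sh u i t = b i := congrFun hsh i
      rw [h3]
      exact hb i
  have hsum : ∑ s : Fin k → Fin r → Fin n, (hits s).card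
      = n ^ r * ∏ i, (Part (H i) (c i)).card := by
    simp only [hits]
    simp_rw [card_filter]
    rw [sum_comm]
    simp_rw [← card_filter]
    rw [sum_congr rfl (fun t _ => hone t), sum_const, smul_eq_mul, card_univ, Fintype.card_fun,
      Fintype.card_fin, Fintype.card_fin]
  have hcardS : (univ : Finset (Fin k → Fin r → Fin n)).card = n ^ (r * k) := by
    rw [card_univ, Fintype.card_fun, Fintype.card_fun, Fintype.card_fin, Fintype.card_fin,
      Fintype.card_fin, ← pow_mul]
  have hne : (univ : Finset (Fin k → Fin r → Fin n)).Nonempty := by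
    rw [← card_pos, hcardS]; positivity
  obtain ⟨s, _, hs⟩ : ∃ s ∈ (univ : Finset (Fin k → Fin r → Fin n)),
      n ^ r * ∏ i, (Part (H i) (c i)).card ≤ n ^ (r * k) * (hits s).card := by
    by_contra hcon
    push Not at hcon
    have h1 : ∑ s : Fin k → Fin r → Fin n, n ^ (r * k) * (hits s).card
        < ∑ _s : Fin k → Fin r → Fin n, n ^ r * ∏ i, (Part (H i) (c i)).card :=
      sum_lt_sum_of_nonempty hne (fun s hs => hcon s hs)
    rw [← mul_sum, hsum, sum_const, smul_eq_mul, hcardS] at h1
    exact lt_irrefl _ h1
  -- the abstract graph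
  let gr : (Fin r → Fin n) → Finset (Fin r × Fin n) := fun t => univ.image (fun j => (j, t j))
  have hgr_inj : Function.Injective gr := by
    intro t t' h
    funext j
    have h1 : (j, t j) ∈ gr t' := by
      rw [← h]; exact mem_image_of_mem _ (mem_univ j)
    simp only [gr, mem_image, mem_univ, true_and, Prod.mk.injEq] at h1
    obtain ⟨j', rfl, h2⟩ := h1
    exact h2.symm
  have hcopy : ∀ i, Copy ((hits s).image gr) (H i) := by
    intro i
    refine ⟨fun p => op (s i p.1) p.2, ?_, ?_⟩
    · have key : ∀ e ∈ (hits s).image gr, ∀ v ∈ e, c i (op (s i v.1) v.2) = v.1 := by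
        intro e he v hv
        obtain ⟨t, ht, rfl⟩ := mem_image.mp he
        simp only [gr, mem_image, mem_univ, true_and] at hv
        obtain ⟨j, rfl⟩ := hv
        have h1 := (mem_filter.mp ht).2 i
        rw [mem_Part] at h1
        exact h1.1 j
      intro e he e' he' v hv v' hv' h
      have h : op (s i v.1) v.2 = op (s i v'.1) v'.2 := h
      have h1 : v.1 = v'.1 := by
        rw [← key e he v hv, ← key e' he' v' hv', h]
      apply Prod.ext h1
      rw [h1] at h
      exact hop1 _ h
    · intro e he
      obtain ⟨t, ht, rfl⟩ := mem_image.mp he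
      have h1 := (mem_filter.mp ht).2 i
      rw [mem_Part] at h1
      have h2 : (gr t).image (fun p => op (s i p.1) p.2) = univ.image (sh s i t) := by
        simp only [gr]
        rw [image_image]
        rfl
      rw [h2]
      exact h1.2
  refine ⟨((hits s).image gr).card, commonK_of_copy _ H hcopy, ?_⟩
  rw [card_image_of_injective _ hgr_inj]
  have hprod : ∏ i, (H i).card ≤ (r ^ r) ^ k * ∏ i, (Part (H i) (c i)).card := by
    calc ∏ i, (H i).card ≤ ∏ i, (r ^ r * (Part (H i) (c i)).card) :=
          prod_le_prod' (fun i _ => hc i)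
      _ = (r ^ r) ^ k * ∏ i, (Part (H i) (c i)).card := by
          rw [prod_mul_distrib, prod_const, card_univ, Fintype.card_fin]
  calc (∏ i, (H i).card) * n ^ r ≤ ((r ^ r) ^ k * ∏ i, (Part (H i) (c i)).card) * n ^ r :=
        Nat.mul_le_mul_right _ hprod
    _ = (r ^ r) ^ k * (n ^ r * ∏ i, (Part (H i) (c i)).card) := by ring
    _ ≤ (r ^ r) ^ k * (n ^ (r * k) * (hits s).card) := Nat.mul_le_mul_left _ hs
    _ = (r ^ r) ^ k * n ^ (r * k) * (hits s).card := by ring

end GRand

end Pool.Agent.Lib.MP_9dddc4_co
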