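import Mathlib
import Pool.Agent.Lib.MP_9dddc4_co.GRand

/-!
General `r`: forests of sunflowers with kernels of size `r - 1`.
-/

namespace Pool.Agent.Lib.MP_9dddc4_co

open Finset

section GForest

variable {n : ℕ}

/-- greedy matchings: either `m` pairwise disjoint items or a maximal family. -/
lemma matching_or_max {ι V : Type*} [DecidableEq V] (O : Finset ι) (vs : ι → Finset V)
    (m : ℕ) :
    (∃ t : Fin m → ι, (∀ i, t i ∈ O) ∧ ∀ i j, i ≠ j → Disjoint (vs (t i)) (vs (t j))) ∨
    (∃ l < m, ∃ t : Fin l → ι, (∀ i, t i ∈ O) ∧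
      ∀ i ∈ O, ¬ Disjoint (vs i) (univ.biUnion (fun j => vs (t j)))) := by
  classical
  induction m with
  | zero =>
    left
    exact ⟨fun i => i.elim0, fun i => i.elim0, fun i => i.elim0⟩
  | succ m ih =>
    rcases ih with ⟨t, ht1, ht2⟩ | ⟨l, hl, t, ht1, ht2⟩
    · by_cases h : ∃ i ∈ O, Disjoint (vs i) (univ.biUnion (fun j : Fin m => vs (t j)))
      · obtain ⟨i, hi, hd⟩ := h
        left
        rw [Finset.disjoint_biUnion_right] at hd
        refine ⟨Fin.snoc t i, ?_, ?_⟩
        · intro j
          refine Fin.lastCases ?_ (fun j => ?_) j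
          · simpa using hi
          · simpa using ht1 j
        · intro j j' hjj
          revert hjj
          refine Fin.lastCases ?_ (fun j => ?_) j
          · refine Fin.lastCases ?_ (fun j' => ?_) j'
            · intro h; exact absurd rfl h
            · intro _
              simpa using hd j' (mem_univ _)
          · refine Fin.lastCases ?_ (fun j' => ?_) j'
            · intro _
              simpa using (hd j (mem_univ _)).symm
            · intro h
              have : j ≠ j' := fun h2 => h (by rw [h2])
              simpa using ht2 j j' this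
      · push Not at h
        right
        exact ⟨m, Nat.lt_succ_self m, t, ht1, h⟩
    · right
      exact ⟨l, by omega, t, ht1, ht2⟩

/-- tuples with a prescribed coordinate -/
lemma card_fix_coord {q : ℕ} (p : Fin (q + 1)) (u : Fin n) :
    ((univ : Finset (Fin (q + 1) → Fin n)).filter (fun t => t p = u)).card ≤ n ^ q := by
  classical
  have h : ((univ : Finset (Fin (q + 1) → Fin n)).filter (fun t => t p = u)).card
      ≤ (univ : Finset (Fin q → Fin n)).card := by
    apply Finset.card_le_card_of_injOn (fun t => fun i => t (p.succAbove i))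
    · intro t _
      exact mem_coe.mpr (mem_univ _)
    · intro t ht t' ht' h
      have ht := (mem_filter.mp (mem_coe.mp ht)).2
      have ht' := (mem_filter.mp (mem_coe.mp ht')).2
      funext j
      rcases Fin.eq_self_or_eq_succAbove p j with rfl | ⟨i, rfl⟩
      · rw [ht, ht']
      · exact congrFun h i
  rw [card_univ, Fintype.card_fun, Fintype.card_fin, Fintype.card_fin] at h
  exact h

/-- tuples of a partite system hitting a set -/
lemma card_hit_le {q : ℕ} (P : Finset (Fin (q + 1) → Fin n)) (c : Fin n → Fin (q + 1))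
    (hc : ∀ t ∈ P, ∀ j, c (t j) = j) (U : Finset (Fin n))
    [DecidablePred (fun t : Fin (q + 1) → Fin n => ∃ j, t j ∈ U)] :
    (P.filter (fun t => ∃ j, t j ∈ U)).card ≤ U.card * n ^ q := by
  classical
  have hsub : P.filter (fun t => ∃ j, t j ∈ U) ⊆
      U.biUnion (fun u => (univ : Finset (Fin (q + 1) → Fin n)).filter (fun t => t (c u) = u)) := by
    intro t ht
    rw [mem_filter] at ht
    obtain ⟨htP, j, hj⟩ := ht
    rw [mem_biUnion]
    refine ⟨t j, hj, ?_⟩
    rw [mem_filter]
    exact ⟨mem_univ _, by rw [hc t htP j]⟩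
  refine (card_le_card hsub).trans ?_
  exact card_biUnion_le_card_mul _ _ _ (fun u _ => card_fix_coord _ _)

/-- the abstract forest: `R` disjoint sunflowers with kernels of size `q` and `D` petals. -/
def forestG (q R D : ℕ) : Finset (Finset (Fin R × (Fin q ⊕ Fin D))) :=
  (univ : Finset (Fin R × Fin D)).image
    (fun p => insert (p.1, Sum.inr p.2) (univ.image (fun i : Fin q => (p.1, Sum.inl i))))

lemma forestG_card (q R D : ℕ) : (forestG q R D).card = R * D := by
  classical
  unfold forestG
  rw [card_image_of_injective]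
  · rw [card_univ, Fintype.card_prod, Fintype.card_fin, Fintype.card_fin]
  · rintro ⟨a, b⟩ ⟨a', b'⟩ h
    simp only at h
    have h1 : ((a, Sum.inr b) : Fin R × (Fin q ⊕ Fin D)) ∈
        insert ((a', Sum.inr b') : Fin R × (Fin q ⊕ Fin D))
          (univ.image (fun i : Fin q => (a', Sum.inl i))) := by
      rw [← h]; exact mem_insert_self _ _
    simp only [mem_insert, Prod.mk.injEq, Sum.inr.injEq, mem_image, mem_univ,
      reduceCtorEq, and_false, exists_false, or_false] at h1
    rw [h1.1, h1.2]

lemma insertNth_image {q : ℕ} (j : Fin (q + 1)) (x : Fin n) (ρ : Fin q → Fin n) :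
    univ.image (j.insertNth (α := fun _ => Fin n) x ρ) = insert x (univ.image ρ) := by
  classical
  ext v
  simp only [mem_image, mem_univ, true_and, mem_insert]
  constructor
  · rintro ⟨i, rfl⟩
    rcases Fin.eq_self_or_eq_succAbove j i with rfl | ⟨i, rfl⟩
    · left; simp
    · right; exact ⟨i, by simp⟩
  · rintro (rfl | ⟨i, rfl⟩)
    · exact ⟨j, by simp⟩
    · exact ⟨j.succAbove i, by simp⟩

/-- disjoint items give a copy of the forest -/
lemma copy_forest_of_items {q R D : ℕ} (H : Finset (Finset (Fin n)))
    (c : Fin n → Fin (q + 1)) (j : Fin (q + 1))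
    (t : Fin R → (Fin q → Fin n) × Finset (Fin n))
    (ht : ∀ a, (t a).2.card = D ∧ ∀ x ∈ (t a).2,
      j.insertNth (α := fun _ => Fin n) x (t a).1 ∈ Part H c)
    (hd : ∀ a a', a ≠ a' → Disjoint (univ.image (t a).1 ∪ (t a).2)
      (univ.image (t a').1 ∪ (t a').2)) :
    Copy (forestG q R D) H := by
  classical
  have hx : ∀ a, ∃ x : Fin D → Fin n, Function.Injective x ∧ ∀ b, x b ∈ (t a).2 := by
    intro a
    obtain ⟨x, hx1, hx2⟩ := exists_ordering (ht a).1
    refine ⟨x, hx1, fun b => ?_⟩
    rw [← hx2]
    exact mem_image_of_mem _ (mem_univ b)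
  choose x hx1 hx2 using hx
  let f : Fin R × (Fin q ⊕ Fin D) → Fin n := fun w =>
    Sum.elim (fun i => (t w.1).1 i) (fun b => x w.1 b) w.2
  have hfl : ∀ a i, f (a, Sum.inl i) = (t a).1 i := fun a i => rfl
  have hfr : ∀ a b, f (a, Sum.inr b) = x a b := fun a b => rfl
  have hmemU : ∀ w, f w ∈ univ.image (t w.1).1 ∪ (t w.1).2 := by
    rintro ⟨a, i | b⟩
    · rw [hfl]
      exact mem_union_left _ (mem_image_of_mem _ (mem_univ i))
    · rw [hfr]
      exact mem_union_right _ (hx2 a b)
  -- colours
  have hcl : ∀ a (b : Fin D) i, c (f (a, Sum.inl i)) = j.succAbove i := by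
    intro a b i
    have h1 := (ht a).2 (x a b) (hx2 a b)
    rw [mem_Part] at h1
    have h2 := h1.1 (j.succAbove i)
    rw [Fin.insertNth_apply_succAbove] at h2
    rw [hfl]; exact h2
  have hcr : ∀ a b, c (f (a, Sum.inr b)) = j := by
    intro a b
    have h1 := (ht a).2 (x a b) (hx2 a b)
    rw [mem_Part] at h1
    have h2 := h1.1 j
    rw [Fin.insertNth_apply_same] at h2
    rw [hfr]; exact h2
  refine ⟨f, ?_, ?_⟩
  · intro e he e' he' v hv v' hv' h
    -- nonemptiness of `Fin D`
    obtain ⟨⟨_, b0⟩, _, _⟩ := mem_image.mp he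
    have ha : v.1 = v'.1 := by
      by_contra hne
      have h1 := hmemU v
      have h2 := hmemU v'
      rw [h] at h1
      exact (Finset.disjoint_left.mp (hd _ _ hne)) h1 h2
    obtain ⟨a, s⟩ := v
    obtain ⟨a', s'⟩ := v'
    simp only at ha
    subst ha
    rcases s with i | b <;> rcases s' with i' | b'
    · have h1 : j.succAbove i = j.succAbove i' := by
        rw [← hcl a b0 i, ← hcl a b0 i', h]
      have h2 := Fin.succAbove_right_injective h1
      rw [h2]
    · exfalso
      have h1 : j.succAbove i = j := by
        rw [← hcl a b0 i, h, hcr]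
      exact Fin.succAbove_ne _ _ h1
    · exfalso
      have h1 : j.succAbove i' = j := by
        rw [← hcl a b0 i', ← h, hcr]
      exact Fin.succAbove_ne _ _ h1
    · rw [hfr, hfr] at h
      rw [hx1 a h]
  · intro e he
    obtain ⟨⟨a, b⟩, _, rfl⟩ := mem_image.mp he
    have h1 := (ht a).2 (x a b) (hx2 a b)
    rw [mem_Part] at h1
    have h2 := h1.2
    rw [insertNth_image] at h2
    rw [image_insert, image_image]
    exact h2

/-- forests are unavoidable -/
theorem copy_forest {q R D : ℕ} (hD : 0 < D) (H : Finset (Finset (Fin n)))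
    (hr : IsRGraph (q + 1) H)
    (h : (q + 1) ^ (q + 1) * ((R * D) ^ (q + 1) + (q + 1) * ((R * q + D) * n ^ q)) < H.card) :
    Copy (forestG q R D) H := by
  classical
  obtain ⟨c, hc⟩ := exists_part (Nat.succ_pos q) H hr
  by_contra hcon
  set P := Part H c with hP
  have hPc : ∀ t ∈ P, ∀ j, c (t j) = j := fun t ht => (mem_Part.mp ht).1
  let O : Fin (q + 1) → Finset ((Fin q → Fin n) × Finset (Fin n)) := fun j =>
    univ.filter (fun p => p.2.card = D ∧
      ∀ x ∈ p.2, j.insertNth (α := fun _ => Fin n) x p.1 ∈ P)
  let vs : (Fin q → Fin n) × Finset (Fin n) → Finset (Fin n) := fun p => univ.image p.1 ∪ p.2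
  have hmax : ∀ j : Fin (q + 1), ∃ l < R, ∃ t : Fin l → (Fin q → Fin n) × Finset (Fin n),
      (∀ i, t i ∈ O j) ∧ ∀ p ∈ O j, ¬ Disjoint (vs p) (univ.biUnion (fun a => vs (t a))) := by
    intro j
    rcases matching_or_max (O j) vs R with ⟨t, ht1, ht2⟩ | h1
    · exfalso
      apply hcon
      exact copy_forest_of_items H c j t (fun a => (mem_filter.mp (ht1 a)).2) ht2
    · exact h1
  choose l hl t ht1 ht2 using hmax
  let L : Fin (q + 1) → Finset (Fin n) := fun j => univ.biUnion (fun a => (t j a).2)
  let U : Fin (q + 1) → Finset (Fin n) := fun j => univ.biUnion (fun a => univ.image (t j a).1)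
  have hLcard : ∀ j, (L j).card ≤ R * D := by
    intro j
    refine (card_biUnion_le_card_mul _ _ D (fun a _ => ?_)).trans ?_
    · rw [(mem_filter.mp (ht1 j a)).2.1]
    · rw [card_univ, Fintype.card_fin]
      exact Nat.mul_le_mul_right _ (hl j).le
  have hUcard : ∀ j, (U j).card ≤ R * q := by
    intro j
    refine (card_biUnion_le_card_mul _ _ q (fun a _ => ?_)).trans ?_
    · refine card_image_le.trans ?_
      rw [card_univ, Fintype.card_fin]
    · rw [card_univ, Fintype.card_fin]
      exact Nat.mul_le_mul_right _ (hl j).le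
  have hLc : ∀ j, ∀ x ∈ L j, c x = j := by
    intro j x hx
    obtain ⟨a, _, ha⟩ := mem_biUnion.mp hx
    have h1 := (mem_filter.mp (ht1 j a)).2.2 x ha
    have h2 := hPc _ h1 j
    rwa [Fin.insertNth_apply_same] at h2
  have hUc : ∀ j, ∀ x ∈ U j, c x ≠ j := by
    intro j x hx
    obtain ⟨a, _, ha⟩ := mem_biUnion.mp hx
    obtain ⟨i, _, rfl⟩ := mem_image.mp ha
    have hne : ((t j a).2).Nonempty := by
      rw [← card_pos, (mem_filter.mp (ht1 j a)).2.1]; exact hD
    obtain ⟨y, hy⟩ := hne
    have h1 := (mem_filter.mp (ht1 j a)).2.2 y hy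
    have h2 := hPc _ h1 (j.succAbove i)
    rw [Fin.insertNth_apply_succAbove] at h2
    rw [h2]
    exact Fin.succAbove_ne _ _
  -- the bad set
  let Bad : Fin (q + 1) → Finset (Fin (q + 1) → Fin n) := fun j =>
    P.filter (fun s => (∀ i, s (j.succAbove i) ∉ U j) ∧ s j ∉ L j)
  have hBad : ∀ j, (Bad j).card ≤ D * n ^ q := by
    intro j
    have h1 := card_le_mul_card_image_of_maps_to
      (s := Bad j) (t := (univ : Finset (Fin q → Fin n)))
      (f := fun s => fun i => s (j.succAbove i)) (fun _ _ => mem_univ _) D
      (by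
        intro ρ _
        by_contra hlt
        push Not at hlt
        set Fb := (Bad j).filter (fun s => (fun i => s (j.succAbove i)) = ρ) with hFb
        have hinj : Set.InjOn (fun s : Fin (q + 1) → Fin n => s j) Fb := by
          intro s hs s' hs' heq
          have hs := (mem_filter.mp (mem_coe.mp hs)).2
          have hs' := (mem_filter.mp (mem_coe.mp hs')).2
          funext i
          rcases Fin.eq_self_or_eq_succAbove j i with rfl | ⟨i, rfl⟩
          · exact heq
          · have h3 : s (j.succAbove i) = ρ i := congrFun hs i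
            have h4 : s' (j.succAbove i) = ρ i := congrFun hs' i
            rw [h3, h4]
        have hc2 : D ≤ (Fb.image (fun s => s j)).card := by
          rw [card_image_of_injOn hinj]
          exact hlt.le
        obtain ⟨S, hS1, hS2⟩ := Finset.exists_subset_card_eq hc2
        have hform : ∀ x ∈ S, j.insertNth (α := fun _ => Fin n) x ρ ∈ Bad j := by
          intro x hx
          obtain ⟨s, hs, rfl⟩ := mem_image.mp (hS1 hx)
          rw [hFb, mem_filter] at hs
          have : j.insertNth (α := fun _ => Fin n) (s j) ρ = s := by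
            rw [← hs.2]
            exact Fin.insertNth_self_removeNth j s
          rw [this]
          exact hs.1
        have hO : (ρ, S) ∈ O j := by
          simp only [O, mem_filter, mem_univ, true_and]
          exact ⟨hS2, fun x hx => (mem_filter.mp (hform x hx)).1⟩
        have hnd := ht2 j (ρ, S) hO
        rw [not_disjoint_iff] at hnd
        obtain ⟨v, hv1, hv2⟩ := hnd
        have hSne : S.Nonempty := by
          rw [← card_pos, hS2]; exact hD
        obtain ⟨x0, hx0⟩ := hSne
        have hv2' : v ∈ U j ∨ v ∈ L j := by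
          obtain ⟨a, _, ha⟩ := mem_biUnion.mp hv2
          rcases mem_union.mp ha with h5 | h5
          · left; exact mem_biUnion.mpr ⟨a, mem_univ _, h5⟩
          · right; exact mem_biUnion.mpr ⟨a, mem_univ _, h5⟩
        rcases mem_union.mp hv1 with h5 | h5
        · obtain ⟨i, _, rfl⟩ := mem_image.mp h5
          have h6 := mem_filter.mp (hform x0 hx0)
          have h7 := h6.2.1 i
          rw [Fin.insertNth_apply_succAbove] at h7
          have h8 := hPc _ h6.1 (j.succAbove i)
          rw [Fin.insertNth_apply_succAbove] at h8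
          rcases hv2' with h9 | h9
          · exact h7 h9
          · have h10 := hLc j _ h9
            simp only at h10
            rw [h8] at h10
            exact Fin.succAbove_ne _ _ h10
        · have h6 := mem_filter.mp (hform v h5)
          have h7 := h6.2.2
          rw [Fin.insertNth_apply_same] at h7
          have h8 := hPc _ h6.1 j
          rw [Fin.insertNth_apply_same] at h8
          rcases hv2' with h9 | h9
          · exact hUc j _ h9 h8
          · exact h7 h9)
    rw [card_univ, Fintype.card_fun, Fintype.card_fin, Fintype.card_fin] at h1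
    exact h1
  -- the covering
  have hcover : P ⊆ (univ.biUnion (fun j => (P.filter (fun s => ∃ i, s i ∈ U j)) ∪ Bad j)) ∪
      Fintype.piFinset L := by
    intro s hs
    by_cases hall : ∀ j, s j ∈ L j
    · apply mem_union_right
      rw [Fintype.mem_piFinset]
      exact hall
    · push Not at hall
      obtain ⟨j, hj⟩ := hall
      apply mem_union_left
      rw [mem_biUnion]
      refine ⟨j, mem_univ _, ?_⟩
      by_cases hU : ∃ i, s i ∈ U j
      · exact mem_union_left _ (mem_filter.mpr ⟨hs, hU⟩)
      · push Not at hU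
        apply mem_union_right
        exact mem_filter.mpr ⟨hs, fun i => hU _, hj⟩
  have hPcard : P.card ≤ (R * D) ^ (q + 1) + (q + 1) * ((R * q + D) * n ^ q) := by
    refine (card_le_card hcover).trans ((card_union_le _ _).trans ?_)
    rw [add_comm]
    apply Nat.add_le_add
    · rw [Fintype.card_piFinset]
      calc ∏ j, (L j).card ≤ ∏ _j : Fin (q + 1), R * D := prod_le_prod' (fun j _ => hLcard j)
        _ = (R * D) ^ (q + 1) := by rw [prod_const, card_univ, Fintype.card_fin]
    · refine (card_biUnion_le_card_mul _ _ ((R * q + D) * n ^ q) (fun j _ => ?_)).trans ?_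
      · refine (card_union_le _ _).trans
          ((Nat.add_le_add (card_hit_le P c hPc (U j)) (hBad j)).trans ?_)
        have h3 : (U j).card * n ^ q ≤ R * q * n ^ q := Nat.mul_le_mul_right _ (hUcard j)
        rw [Nat.add_mul]
        omega
      · rw [card_univ, Fintype.card_fin]
  have h5 : H.card ≤ (q + 1) ^ (q + 1) *
      ((R * D) ^ (q + 1) + (q + 1) * ((R * q + D) * n ^ q)) :=
    hc.trans (Nat.mul_le_mul_left _ hPcard)
  omega

end GForest

end Pool.Agent.Lib.MP_9dddc4_co
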