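import Mathlib
import Pool.Agent.Lib.MP_9dddc4_co.Lower

/-!
General `k` and `r`: the lower bound, a clique against random hypergraphs.
-/

namespace Pool.Agent.Lib.MP_9dddc4_co

open Finset Filter

section GLower

lemma card_fixed_colorings {ι : Type*} [Fintype ι] [DecidableEq ι] (M : ℕ) (S : Finset ι)
    (a : ι → Fin M) :
    (univ.filter (fun c : ι → Fin M => ∀ p ∈ S, c p = a p)).card
      = M ^ (Fintype.card ι - S.card) := by
  classical
  have h : (univ.filter (fun c : ι → Fin M => ∀ p ∈ S, c p = a p))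
      = Fintype.piFinset (fun p => if p ∈ S then ({a p} : Finset (Fin M)) else univ) := by
    ext c
    simp only [mem_filter, mem_univ, true_and, Fintype.mem_piFinset]
    constructor
    · intro h p
      by_cases hp : p ∈ S
      · simp [hp, h p hp]
      · simp [hp]
    · intro h p hp
      have := h p
      simpa [hp] using this
  rw [h, Fintype.card_piFinset]
  have h2 : ∀ p : ι, (if p ∈ S then ({a p} : Finset (Fin M)) else univ).card
      = if p ∈ S then 1 else M := by
    intro p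
    by_cases hp : p ∈ S <;> simp [hp]
  simp_rw [h2]
  rw [Finset.prod_ite]
  simp only [prod_const_one, prod_const, one_mul]
  congr 1
  have h3 : (univ.filter (fun x => x ∉ S)) = univ \ S := by
    ext x; simp
  rw [h3, Finset.card_sdiff_of_subset (Finset.subset_univ S), Finset.card_univ]

/-- the union bound -/
lemma exists_avoiding {ι γ : Type*} [Fintype ι] [DecidableEq ι] (M K : ℕ) (hM : 0 < M)
    (J : Finset γ) (S : γ → Finset ι) (a : γ → ι → Fin M) (hS : ∀ j ∈ J, K ≤ (S j).card)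
    (h : J.card < M ^ K) :
    ∃ c : ι → Fin M, ∀ j ∈ J, ∃ p ∈ S j, c p ≠ a j p := by
  classical
  by_contra hcon
  push Not at hcon
  have hJne : J.Nonempty := by
    obtain ⟨j, hj, _⟩ := hcon (fun _ => ⟨0, hM⟩)
    exact ⟨j, hj⟩
  have hKι : K ≤ Fintype.card ι := by
    obtain ⟨j, hj⟩ := hJne
    exact (hS j hj).trans (card_le_univ _)
  have hsub : (univ : Finset (ι → Fin M)) ⊆
      J.biUnion (fun j => univ.filter (fun c : ι → Fin M => ∀ p ∈ S j, c p = a j p)) := by
    intro c _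
    obtain ⟨j, hj, hjc⟩ := hcon c
    rw [mem_biUnion]
    exact ⟨j, hj, mem_filter.mpr ⟨mem_univ _, hjc⟩⟩
  have hcard := card_le_card hsub
  rw [card_univ, Fintype.card_fun, Fintype.card_fin] at hcard
  have hb : (J.biUnion (fun j => univ.filter
      (fun c : ι → Fin M => ∀ p ∈ S j, c p = a j p))).card ≤
      J.card * M ^ (Fintype.card ι - K) := by
    refine card_biUnion_le_card_mul _ _ _ ?_
    intro j hj
    rw [card_fixed_colorings]
    apply Nat.pow_le_pow_right hM
    have := hS j hj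
    omega
  have h1 : M ^ (Fintype.card ι) = M ^ K * M ^ (Fintype.card ι - K) := by
    rw [← pow_add]; congr 1; omega
  rw [h1] at hcard
  have h2 := Nat.le_of_mul_le_mul_right (hcard.trans hb) (Nat.pow_pos hM)
  omega

lemma card_first (n N : ℕ) (h : N ≤ n) :
    ((univ : Finset (Fin n)).filter (fun v => v.val < N)).card = N := by
  have h2 : ((univ : Finset (Fin n)).filter (fun v => v.val < N)).card = (range N).card := by
    apply Finset.card_bij (fun v _ => v.val)
    · intro v hv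
      rw [mem_filter] at hv
      exact mem_range.mpr hv.2
    · intro a _ b _ h
      exact Fin.ext h
    · intro b hb
      rw [mem_range] at hb
      exact ⟨⟨b, by omega⟩, mem_filter.mpr ⟨mem_univ _, hb⟩, rfl⟩
  rw [h2, card_range]

theorem lower_coreK (n r k N m M t : ℕ) (hN : N ≤ n) (hM : 0 < M)
    (hMe : M * N.choose r ≤ n.choose r)
    (hcount : (N.choose r).choose m * (n ^ N) ^ k * M ^ k < M ^ (k * m))
    (hU : ∀ H : Fin (k + 1) → Finset (Finset (Fin n)), (∀ i, IsRGraph r (H i)) →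
      (∀ i i', (H i).card = (H i').card) → ∃ s ≤ t, HasUDecomp H s) :
    N.choose r ≤ t * (m - 1) := by
  classical
  set V0 : Finset (Fin n) := univ.filter (fun v => v.val < N) with hV0
  set KN : Finset (Finset (Fin n)) := V0.powersetCard r with hKN
  have hKNcard : KN.card = N.choose r := by
    rw [hKN, card_powersetCard, hV0, card_first n N hN]
  -- extension of maps
  let ext : (Fin N → Fin n) → Fin n → Fin n := fun g v => if h : v.val < N then g ⟨v.val, h⟩ else v
  let γ := Finset (Finset (Fin n)) × (Fin k → Fin N → Fin n) × (Fin k → Fin M)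
  let J : Finset γ := ((KN.powersetCard m) ×ˢ
      ((univ : Finset (Fin k → Fin N → Fin n)) ×ˢ (univ : Finset (Fin k → Fin M)))).filter
    (fun j => ∀ i, ∀ e ∈ j.1, ∀ e' ∈ j.1, ∀ v ∈ e, ∀ v' ∈ e', ext (j.2.1 i) v = ext (j.2.1 i) v' →
      v = v')
  let S : γ → Finset (Fin k × Finset (Fin n)) := fun j =>
    ((univ : Finset (Fin k)) ×ˢ j.1).image (fun p => (p.1, p.2.image (ext (j.2.1 p.1))))
  have hJcard : J.card ≤ (N.choose r).choose m * (n ^ N) ^ k * M ^ k := by
    refine (card_filter_le _ _).trans ?_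
    rw [card_product, card_product, card_powersetCard, hKNcard, card_univ, card_univ,
      Fintype.card_fun, Fintype.card_fun, Fintype.card_fun, Fintype.card_fin, Fintype.card_fin,
      Fintype.card_fin, Fintype.card_fin, mul_assoc]
  have hS : ∀ j ∈ J, k * m ≤ (S j).card := by
    intro j hj
    have hj1 := (mem_filter.mp hj)
    have hjm := mem_powersetCard.mp (mem_product.mp hj1.1).1
    simp only [S]
    rw [card_image_of_injOn]
    · rw [card_product, card_univ, Fintype.card_fin, hjm.2]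
    · rintro ⟨i, e⟩ he ⟨i', e'⟩ he' heq
      simp only [Prod.mk.injEq] at heq
      obtain ⟨rfl, heq⟩ := heq
      have he := (mem_product.mp (mem_coe.mp he)).2
      have he' := (mem_product.mp (mem_coe.mp he')).2
      simp only at he he'
      have : e = e' := by
        ext v
        constructor
        · intro hv
          have h3 : ext (j.2.1 i) v ∈ e'.image (ext (j.2.1 i)) := by
            rw [← heq]; exact mem_image_of_mem _ hv
          obtain ⟨u, hu, huv⟩ := mem_image.mp h3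
          rw [← hj1.2 i e' he' e he u hu v hv huv]; exact hu
        · intro hv
          have h3 : ext (j.2.1 i) v ∈ e.image (ext (j.2.1 i)) := by
            rw [heq]; exact mem_image_of_mem _ hv
          obtain ⟨u, hu, huv⟩ := mem_image.mp h3
          rw [← hj1.2 i e he e' he' u hu v hv huv]; exact hu
      rw [this]
  obtain ⟨c, hc⟩ := exists_avoiding (ι := Fin k × Finset (Fin n)) M (k * m) hM J S
    (fun j p => j.2.2 p.1) hS (lt_of_le_of_lt hJcard hcount)
  -- colour classes
  have : Nonempty (Fin M) := ⟨⟨0, hM⟩⟩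
  have hclass : ∀ i : Fin k, ∃ (a : Fin M) (L : Finset (Finset (Fin n))),
      L ⊆ (univ : Finset (Fin n)).powersetCard r ∧ (∀ e ∈ L, c (i, e) = a) ∧
      L.card = N.choose r := by
    intro i
    obtain ⟨a, _, ha⟩ := Finset.exists_le_card_fiber_of_mul_le_card_of_maps_to
      (s := (univ : Finset (Fin n)).powersetCard r) (t := (univ : Finset (Fin M)))
      (f := fun e => c (i, e)) (n := N.choose r) (fun a _ => mem_univ _) univ_nonempty
      (by rw [card_univ, Fintype.card_fin, card_powersetCard, card_univ, Fintype.card_fin]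
          exact hMe)
    obtain ⟨L, hL, hLcard⟩ := Finset.exists_subset_card_eq ha
    exact ⟨a, L, fun e he => (mem_filter.mp (hL he)).1, fun e he => (mem_filter.mp (hL he)).2,
      hLcard⟩
  choose a L hL1 hL2 hL3 using hclass
  obtain ⟨s, hs, E, hE1, hE2, hE3⟩ := hU (Fin.cons KN L)
    (by
      intro i
      refine Fin.cases ?_ (fun i => ?_) i
      · intro e he
        exact (mem_powersetCard.mp he).2
      · intro e he
        exact (mem_powersetCard.mp (hL1 i he)).2)
    (by
      have h1 : ∀ i : Fin (k + 1),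
          (Fin.cons (α := fun _ => Finset (Finset (Fin n))) KN L i).card = N.choose r := by
        intro i
        refine Fin.cases ?_ (fun i => ?_) i
        · exact hKNcard
        · exact hL3 i
      intro i i'
      rw [h1, h1])
  have hE0 : ∀ j, E 0 j ⊆ KN := by
    intro j
    have h1 := hE1 0
    rw [Fin.cons_zero] at h1
    rw [← h1]
    exact subset_biUnion_of_mem (E 0) (mem_univ j)
  have hEs : ∀ i : Fin k, ∀ j, E i.succ j ⊆ L i := by
    intro i j
    have h1 := hE1 i.succ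
    rw [Fin.cons_succ] at h1
    rw [← h1]
    exact subset_biUnion_of_mem (E i.succ) (mem_univ j)
  have hpart : ∀ j, (E 0 j).card ≤ m - 1 := by
    intro j
    by_contra hlt
    have hle : m ≤ (E 0 j).card := by omega
    obtain ⟨F, hF, hFm⟩ := Finset.exists_subset_card_eq hle
    have hiso := fun i : Fin k => hE3 j 0 i.succ
    choose g hg hgE using hiso
    have hcovN : ∀ e ∈ F, ∀ v ∈ e, v.val < N := by
      intro e he v hv
      have h1 := (mem_powersetCard.mp (hE0 j (hF he))).1 hv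
      rw [hV0, mem_filter] at h1
      exact h1.2
    let g' : Fin k → Fin N → Fin n := fun i v => g i (Fin.castLE hN v)
    have hext : ∀ i, ∀ e ∈ F, ∀ v ∈ e, ext (g' i) v = g i v := by
      intro i e he v hv
      simp only [ext, g']
      rw [dif_pos (hcovN e he v hv)]
      rfl
    have hcovF : ∀ e ∈ F, ∀ v ∈ e, v ∈ (covered (E 0 j) : Set (Fin n)) := by
      intro e he v hv
      apply mem_coe.mpr
      simp only [covered, mem_biUnion, id]
      exact ⟨e, hF he, hv⟩
    have hmem : ((F, g', a) : γ) ∈ J := by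
      simp only [J, mem_filter, mem_product, mem_powersetCard, mem_univ, and_true]
      refine ⟨⟨hF.trans (hE0 j), hFm⟩, ?_⟩
      intro i e he e' he' v hv v' hv' heq
      rw [hext i e he v hv, hext i e' he' v' hv'] at heq
      exact (hg i).injOn (hcovF e he v hv) (hcovF e' he' v' hv') heq
    obtain ⟨p, hp, hpc⟩ := hc _ hmem
    simp only [S, mem_image, mem_product, mem_univ, true_and] at hp
    obtain ⟨⟨i, e⟩, he, rfl⟩ := hp
    simp only at he hpc
    have himg : e.image (ext (g' i)) = e.image (g i) := by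
      apply image_congr
      intro v hv
      exact hext i e he v (mem_coe.mp hv)
    rw [himg] at hpc
    apply hpc
    apply hL2 i
    apply hEs i j
    rw [← hgE i]
    exact mem_image_of_mem _ (hF he)
  have htot : N.choose r = ∑ j, (E 0 j).card := by
    have h1 := hE1 0
    rw [Fin.cons_zero] at h1
    rw [← hKNcard, ← h1, card_biUnion]
    intro j _ j' _ hjj
    exact hE2 0 j j' hjj
  rw [htot]
  calc ∑ j, (E 0 j).card ≤ ∑ _j : Fin s, (m - 1) := Finset.sum_le_sum (fun j _ => hpart j)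
    _ = s * (m - 1) := by simp
    _ ≤ t * (m - 1) := Nat.mul_le_mul_right _ hs

lemma choose_ge_half {a r : ℕ} (h : 2 * r ≤ a) :
    ((a : ℝ) / 2) ^ r / (r.factorial : ℝ) ≤ ((a.choose r : ℕ) : ℝ) := by
  refine le_trans ?_ (Nat.pow_le_choose (α := ℝ) r a)
  apply div_le_div_of_nonneg_right _ (by positivity)
  apply pow_le_pow_left₀ (by positivity)
  rw [Nat.cast_sub (by omega)]
  push_cast
  have : 2 * (r : ℝ) ≤ a := by exact_mod_cast h
  linarith

lemma eventually_facts_gen (q d : ℕ) : ∀ᶠ n : ℕ in atTop,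
    1 ≤ Real.log n ∧ 8 ^ d * Real.log n ≤ (n : ℝ) ∧
    ((4 * (q : ℝ) + 8) ^ d ≤ (n : ℝ)) ∧ 2 * (q + 1) ≤ n := by
  have h1 : ∀ᶠ x : ℝ in atTop, 8 ^ d * Real.log x ≤ x := by
    have := isLittleO_log_rpow_atTop (r := (1 : ℝ)) (by norm_num)
    have h := this.bound (c := 1 / 8 ^ d) (by positivity)
    filter_upwards [h, eventually_ge_atTop 1] with x hx hx1
    rw [Real.rpow_one, Real.norm_eq_abs, Real.norm_eq_abs, abs_of_nonneg (by linarith : 0 ≤ x)] at hx
    have h2 : Real.log x ≤ 1 / 8 ^ d * x := (le_abs_self _).trans hx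
    calc 8 ^ d * Real.log x ≤ 8 ^ d * (1 / 8 ^ d * x) :=
          mul_le_mul_of_nonneg_left h2 (by positivity)
      _ = x := by field_simp
  have h3 : ∀ᶠ x : ℝ in atTop, (1 : ℝ) ≤ Real.log x :=
    Real.tendsto_log_atTop.eventually_ge_atTop 1
  have h4 : ∀ᶠ x : ℝ in atTop, (4 * (q : ℝ) + 8) ^ d ≤ x := eventually_ge_atTop _
  filter_upwards [tendsto_natCast_atTop_atTop.eventually h1,
    tendsto_natCast_atTop_atTop.eventually h3, tendsto_natCast_atTop_atTop.eventually h4,
    eventually_ge_atTop (2 * (q + 1))] with n a b c d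
  exact ⟨b, a, c, d⟩

theorem lower_general (q k : ℕ) (hq : 1 ≤ q) (hk : 1 ≤ k) : ∃ c : ℝ, 0 < c ∧
    ∀ᶠ n : ℕ in atTop, c * (((n : ℝ) ^ ((q + 1) * k) * Real.log n) ^
      ((q : ℝ) / (((q + 1) * k + q : ℕ) : ℝ)) / Real.log n) ≤ (U (k + 1) n (q + 1) : ℝ) := by
  set d : ℕ := (q + 1) * k + q with hd
  have hd0 : 0 < d := by rw [hd]; omega
  set C0 : ℝ := 25 * 2 ^ ((q + 2) * k + d) * (((q : ℝ) + 2) * k) with hC0
  have hkR : (1 : ℝ) ≤ k := by exact_mod_cast hk
  have hqR : (1 : ℝ) ≤ q := by exact_mod_cast hq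
  have hC0a : 25 * 2 ^ ((q + 2) * k + d) ≤ C0 := by
    rw [hC0]
    have h1 : (1 : ℝ) ≤ ((q : ℝ) + 2) * k := by nlinarith
    have h2 : (0 : ℝ) < 25 * 2 ^ ((q + 2) * k + d) := by positivity
    nlinarith
  have hC0b : ((q : ℝ) + 2) * k ≤ C0 := by
    rw [hC0]
    have h1 : (0 : ℝ) ≤ ((q : ℝ) + 2) * k := by positivity
    have h2 : (1 : ℝ) ≤ 25 * 2 ^ ((q + 2) * k + d) := by
      have : (1 : ℝ) ≤ 2 ^ ((q + 2) * k + d) := one_le_pow₀ (by norm_num)
      linarith
    nlinarith
  have hC0pos : 0 < C0 := by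
    have : (0 : ℝ) < 25 * 2 ^ ((q + 2) * k + d) := by positivity
    linarith
  have hC01 : 1 ≤ C0 := by
    have : (1 : ℝ) ≤ 2 ^ ((q + 2) * k + d) := one_le_pow₀ (by norm_num)
    linarith
  refine ⟨1 / (2 ^ (q + 2) * ((q + 1).factorial : ℝ) * C0), by positivity, ?_⟩
  filter_upwards [eventually_facts_gen q d] with n hn
  obtain ⟨hl1, h8, hbig, hn2⟩ := hn
  set l : ℝ := Real.log n with hl
  have hl0 : 0 < l := by linarith
  have hnpos' : 0 < n := by omega
  have hn0 : (0 : ℝ) < n := by exact_mod_cast hnpos'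
  have hn1 : (1 : ℝ) ≤ n := by exact_mod_cast hnpos'
  set W : ℝ := (n : ℝ) ^ ((q + 1) * k) * l with hW
  have hW0 : 0 < W := by positivity
  set x : ℝ := W ^ (1 / (d : ℝ)) with hx
  have hdR : (0 : ℝ) < d := by exact_mod_cast hd0
  have hx0 : 0 < x := by positivity
  have hxd : x ^ d = W := by
    rw [hx, ← Real.rpow_natCast, ← Real.rpow_mul hW0.le, one_div_mul_cancel hdR.ne',
      Real.rpow_one]
  -- x is large
  have hxlarge : 4 * (q : ℝ) + 8 ≤ x := by
    apply le_of_pow_le_pow_left₀ hd0.ne' hx0.le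
    rw [hxd, hW]
    calc (4 * (q : ℝ) + 8) ^ d ≤ n := hbig
      _ = (n : ℝ) ^ 1 * 1 := by ring
      _ ≤ (n : ℝ) ^ ((q + 1) * k) * l := by
          apply mul_le_mul _ hl1 (by norm_num) (by positivity)
          apply pow_le_pow_right₀ hn1
          have : 1 ≤ (q + 1) * k := Nat.one_le_iff_ne_zero.mpr (by positivity)
          exact this
  have hxsmall : x ≤ n / 8 := by
    apply le_of_pow_le_pow_left₀ hd0.ne' (by positivity)
    rw [hxd, hW, div_pow, le_div_iff₀ (by positivity)]
    calc (n : ℝ) ^ ((q + 1) * k) * l * 8 ^ d = (n : ℝ) ^ ((q + 1) * k) * (8 ^ d * l) := by ring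
      _ ≤ (n : ℝ) ^ ((q + 1) * k) * n := mul_le_mul_of_nonneg_left h8 (by positivity)
      _ ≤ (n : ℝ) ^ ((q + 1) * k) * (n : ℝ) ^ q := by
          apply mul_le_mul_of_nonneg_left _ (by positivity)
          calc (n : ℝ) = (n : ℝ) ^ 1 := (pow_one _).symm
            _ ≤ (n : ℝ) ^ q := pow_le_pow_right₀ hn1 hq
      _ = (n : ℝ) ^ d := by rw [← pow_add, hd]
  set N : ℕ := ⌈x⌉₊ with hN
  have hNx : x ≤ N := Nat.le_ceil x
  have hNx1 : (N : ℝ) < x + 1 := Nat.ceil_lt_add_one hx0.le
  have hN2x : (N : ℝ) ≤ 2 * x := by linarith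
  have hN0 : (0 : ℝ) < N := by linarith
  have hNn : N ≤ n := by
    have : (N : ℝ) ≤ n := by linarith
    exact_mod_cast this
  have hN2r : 2 * (q + 1) ≤ N := by
    have : (2 * ((q : ℝ) + 1)) ≤ N := by linarith
    exact_mod_cast this
  set m : ℕ := ⌈C0 * N * l⌉₊ with hm
  have hmge : C0 * N * l ≤ (m : ℝ) := Nat.le_ceil _
  have hmlt : (m : ℝ) < C0 * N * l + 1 := Nat.ceil_lt_add_one (by positivity)
  have hNl : 1 ≤ (N : ℝ) * l := by nlinarith
  have hC0Nl : 1 ≤ C0 * N * l := by nlinarith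
  have hm2 : (m : ℝ) ≤ 2 * (C0 * N * l) := by linarith
  have hmpos : (0 : ℝ) < m := by linarith
  have hmpos' : 0 < m := by exact_mod_cast hmpos
  set e : ℕ := N.choose (q + 1) with he
  have hfac : (0 : ℝ) < ((q + 1).factorial : ℝ) := by exact_mod_cast Nat.factorial_pos _
  have he_le : (e : ℝ) ≤ (N : ℝ) ^ (q + 1) / ((q + 1).factorial : ℝ) := Nat.choose_le_pow_div _ _
  have he_le' : (e : ℝ) ≤ (N : ℝ) ^ (q + 1) := by
    have := Nat.choose_le_pow N (q + 1)
    exact_mod_cast this
  have he_ge : ((N : ℝ) / 2) ^ (q + 1) / ((q + 1).factorial : ℝ) ≤ (e : ℝ) :=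
    choose_ge_half hN2r
  have hepos : (0 : ℝ) < e := lt_of_lt_of_le (by positivity) he_ge
  have hepos' : 0 < e := by exact_mod_cast hepos
  set T : ℕ := n.choose (q + 1) with hT
  have hT_ge : ((n : ℝ) / 2) ^ (q + 1) / ((q + 1).factorial : ℝ) ≤ (T : ℝ) :=
    choose_ge_half hn2
  have hT_le : (T : ℝ) ≤ (n : ℝ) ^ (q + 1) := by
    have := Nat.choose_le_pow n (q + 1)
    exact_mod_cast this
  set M : ℕ := T / e with hM
  have hMe : M * e ≤ T := Nat.div_mul_le_self T e
  set y : ℝ := (n : ℝ) / (2 * N) with hy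
  have hy2 : 2 ≤ y := by
    rw [hy, le_div_iff₀ (by positivity)]; linarith
  have hM_ge : y ^ (q + 1) / 2 ≤ M := by
    have h1 : (T : ℝ) / e < (M : ℝ) + 1 := by
      have h2 := Nat.lt_div_mul_add (a := T) (b := e) hepos'
      rw [div_lt_iff₀ hepos]
      have h3 : (T : ℝ) < ((T / e * e + e : ℕ) : ℝ) := by exact_mod_cast h2
      push_cast at h3
      rw [hM]
      linarith
    have h2 : y ^ (q + 1) ≤ (T : ℝ) / e := by
      rw [le_div_iff₀ hepos]
      calc y ^ (q + 1) * e ≤ y ^ (q + 1) * ((N : ℝ) ^ (q + 1) / ((q + 1).factorial : ℝ)) :=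
            mul_le_mul_of_nonneg_left he_le (by positivity)
        _ = (y * N) ^ (q + 1) / ((q + 1).factorial : ℝ) := by rw [mul_pow]; ring
        _ = ((n : ℝ) / 2) ^ (q + 1) / ((q + 1).factorial : ℝ) := by
            congr 2; rw [hy]; field_simp
        _ ≤ T := hT_ge
    have h3 : 2 ≤ y ^ (q + 1) := by
      calc (2 : ℝ) ≤ y := hy2
        _ = y ^ 1 := (pow_one _).symm
        _ ≤ y ^ (q + 1) := pow_le_pow_right₀ (by linarith) (by omega)
    linarith
  have hMpos : (0 : ℝ) < M := lt_of_lt_of_le (by positivity) hM_ge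
  have hMpos' : 0 < M := by exact_mod_cast hMpos
  have hM_le : (M : ℝ) ≤ (n : ℝ) ^ (q + 1) := by
    have : (M : ℝ) ≤ T := by exact_mod_cast Nat.div_le_self T e
    linarith
  -- the counting inequality
  have hkey : (e : ℝ) * Real.exp 1 ^ 3 ≤ (M : ℝ) ^ k * m := by
    have he3 := exp_one_cube_le
    have h1 : (y ^ (q + 1) / 2) ^ k * (C0 * N * l) ≤ (M : ℝ) ^ k * m := by
      apply mul_le_mul _ hmge (by positivity) (by positivity)
      exact pow_le_pow_left₀ (by positivity) hM_ge k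
    have h2 : (e : ℝ) * Real.exp 1 ^ 3 ≤ 25 * (N : ℝ) ^ (q + 1) := by
      have : (0 : ℝ) < Real.exp 1 ^ 3 := by positivity
      nlinarith
    refine h2.trans (le_trans ?_ h1)
    have hyN : y * (2 * N) = n := by rw [hy]; field_simp
    have h3 : (25 * (N : ℝ) ^ (q + 1)) * ((2 * N) ^ ((q + 1) * k) * 2 ^ k) ≤
        ((y ^ (q + 1) / 2) ^ k * (C0 * N * l)) * ((2 * N) ^ ((q + 1) * k) * 2 ^ k) := by
      have h4 : ((y ^ (q + 1) / 2) ^ k * (C0 * N * l)) * ((2 * (N : ℝ)) ^ ((q + 1) * k) * 2 ^ k)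
          = C0 * N * W := by
        rw [hW, ← hyN, mul_pow y, div_pow, ← pow_mul]
        field_simp
      have h5 : (25 * (N : ℝ) ^ (q + 1)) * ((2 * (N : ℝ)) ^ ((q + 1) * k) * 2 ^ k)
          = 25 * 2 ^ ((q + 2) * k) * N * (N : ℝ) ^ d := by
        rw [hd, mul_pow, pow_add (N : ℝ) ((q + 1) * k) q]
        have h6 : (2 : ℝ) ^ ((q + 2) * k) = 2 ^ ((q + 1) * k) * 2 ^ k := by
          rw [← pow_add]; congr 1; ring
        rw [h6]; ring
      rw [h4, h5]
      have h7 : (N : ℝ) ^ d ≤ 2 ^ d * W := by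
        calc (N : ℝ) ^ d ≤ (2 * x) ^ d := pow_le_pow_left₀ hN0.le hN2x d
          _ = 2 ^ d * W := by rw [mul_pow, hxd]
      calc 25 * 2 ^ ((q + 2) * k) * N * (N : ℝ) ^ d
          ≤ 25 * 2 ^ ((q + 2) * k) * N * (2 ^ d * W) :=
            mul_le_mul_of_nonneg_left h7 (by positivity)
        _ = (25 * 2 ^ ((q + 2) * k + d)) * (N * W) := by rw [pow_add]; ring
        _ ≤ C0 * (N * W) := mul_le_mul_of_nonneg_right hC0a (by positivity)
        _ = C0 * N * W := by ring
    exact le_of_mul_le_mul_right h3 (by positivity)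
  have hcount : e.choose m * (n ^ N) ^ k * M ^ k < M ^ (k * m) := by
    have he1 := Real.exp_pos 1
    have h1 : ((e.choose m : ℕ) : ℝ) ≤ ((M : ℝ) ^ k * (Real.exp 1)⁻¹ ^ 2) ^ m := by
      refine (choose_bound _ m hmpos').trans ?_
      apply pow_le_pow_left₀ (by positivity)
      rw [div_le_iff₀ hmpos]
      calc (e : ℝ) * Real.exp 1 = ((e : ℝ) * Real.exp 1 ^ 3) * (Real.exp 1)⁻¹ ^ 2 := by
            field_simp
        _ ≤ ((M : ℝ) ^ k * m) * (Real.exp 1)⁻¹ ^ 2 :=
            mul_le_mul_of_nonneg_right hkey (by positivity)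
        _ = (M : ℝ) ^ k * (Real.exp 1)⁻¹ ^ 2 * m := by ring
    have h3 : ((M : ℝ) ^ k * (Real.exp 1)⁻¹ ^ 2) ^ m = (M : ℝ) ^ (k * m) * Real.exp (-(2 * m)) := by
      rw [mul_pow, ← pow_mul, ← pow_mul, ← Real.exp_neg, ← Real.exp_nat_mul]
      congr 2
      push_cast
      ring
    have h4 : ((n : ℝ) ^ N) ^ k * ((n : ℝ) ^ (q + 1)) ^ k =
        Real.exp ((((N : ℝ) + (q + 1)) * k) * l) := by
      rw [← pow_mul, ← pow_mul, ← pow_add, hl]
      nth_rewrite 1 [← Real.exp_log hn0]
      rw [← Real.exp_nat_mul]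
      congr 1
      push_cast
      ring
    have h5 : ((e.choose m * (n ^ N) ^ k * M ^ k : ℕ) : ℝ) < ((M ^ (k * m) : ℕ) : ℝ) := by
      push_cast
      rw [h3] at h1
      calc ((e.choose m : ℕ) : ℝ) * ((n : ℝ) ^ N) ^ k * (M : ℝ) ^ k
          ≤ ((M : ℝ) ^ (k * m) * Real.exp (-(2 * m))) * ((n : ℝ) ^ N) ^ k *
            ((n : ℝ) ^ (q + 1)) ^ k := by
            apply mul_le_mul _ (pow_le_pow_left₀ hMpos.le hM_le k) (by positivity) (by positivity)
            exact mul_le_mul_of_nonneg_right h1 (by positivity)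
        _ = (M : ℝ) ^ (k * m) * (Real.exp ((((N : ℝ) + (q + 1)) * k) * l) *
              Real.exp (-(2 * m))) := by
            rw [← h4]; ring
        _ < (M : ℝ) ^ (k * m) * 1 := by
            apply mul_lt_mul_of_pos_left _ (by positivity)
            rw [← Real.exp_add, Real.exp_lt_one_iff]
            have h6 : ((N : ℝ) + (q + 1)) * k * l ≤ ((q : ℝ) + 2) * k * N * l := by
              apply mul_le_mul_of_nonneg_right _ hl0.le
              have hN1 : (1 : ℝ) ≤ N := by linarith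
              have h7 : (N : ℝ) + (q + 1) ≤ (q + 2) * N := by nlinarith
              calc ((N : ℝ) + (q + 1)) * k ≤ ((q + 2) * N) * k :=
                    mul_le_mul_of_nonneg_right h7 (by positivity)
                _ = ((q : ℝ) + 2) * k * N := by ring
            have h8 : ((q : ℝ) + 2) * k * N * l ≤ C0 * N * l := by
              apply mul_le_mul_of_nonneg_right _ hl0.le
              exact mul_le_mul_of_nonneg_right hC0b hN0.le
            linarith
        _ = (M : ℝ) ^ (k * m) := mul_one _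
    exact_mod_cast h5
  have hcore := lower_coreK n (q + 1) k N m M (U (k + 1) n (q + 1)) hNn hMpos' hMe hcount
    (U_spec (k + 1) n (q + 1))
  have hcoreR : (e : ℝ) ≤ (U (k + 1) n (q + 1) : ℝ) * m := by
    have h1 : e ≤ U (k + 1) n (q + 1) * m := hcore.trans (Nat.mul_le_mul_left _ (Nat.sub_le _ _))
    exact_mod_cast h1
  have hU0 : (0 : ℝ) ≤ (U (k + 1) n (q + 1) : ℝ) := by positivity
  have hfin : ((N : ℝ) / 2) ^ (q + 1) / ((q + 1).factorial : ℝ) ≤
      (U (k + 1) n (q + 1) : ℝ) * (2 * (C0 * N * l)) :=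
    he_ge.trans (hcoreR.trans (mul_le_mul_of_nonneg_left hm2 hU0))
  have hxq : W ^ ((q : ℝ) / (d : ℝ)) = x ^ q := by
    rw [hx, ← Real.rpow_natCast, ← Real.rpow_mul hW0.le]
    congr 1
    ring
  rw [hxq]
  have hNq : x ^ q ≤ (N : ℝ) ^ q := pow_le_pow_left₀ hx0.le hNx q
  have hfin2 : (N : ℝ) ^ q / (2 ^ (q + 2) * ((q + 1).factorial : ℝ) * C0 * l) ≤
      (U (k + 1) n (q + 1) : ℝ) := by
    rw [div_le_iff₀ (by positivity)]
    rw [div_pow, div_div, div_le_iff₀ (by positivity)] at hfin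
    have h9 : (N : ℝ) ^ q * N ≤ ((U (k + 1) n (q + 1) : ℝ) *
        (2 ^ (q + 2) * ((q + 1).factorial : ℝ) * C0 * l)) * N := by
      calc (N : ℝ) ^ q * N = (N : ℝ) ^ (q + 1) := (pow_succ _ _).symm
        _ ≤ _ := hfin
        _ = _ := by ring
    exact le_of_mul_le_mul_right h9 hN0
  calc 1 / (2 ^ (q + 2) * ((q + 1).factorial : ℝ) * C0) * (x ^ q / l)
      = x ^ q / (2 ^ (q + 2) * ((q + 1).factorial : ℝ) * C0 * l) := by
        field_simp
    _ ≤ (N : ℝ) ^ q / (2 ^ (q + 2) * ((q + 1).factorial : ℝ) * C0 * l) :=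
        div_le_div_of_nonneg_right hNq (by positivity)
    _ ≤ _ := hfin2

end GLower

end Pool.Agent.Lib.MP_9dddc4_co
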