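import Mathlib
import Pool.Agent.Lib.MP_9dddc4_co.GForest

/-!
General `r`: sunflowers with a kernel of size one.
-/

namespace Pool.Agent.Lib.MP_9dddc4_co

open Finset

section GSun

variable {n : ℕ}

/-- eliminate one coordinate -/
lemma card_elim {ι : Type*} [Fintype ι] [DecidableEq ι] (T : Finset (ι → Fin n)) (b : ι)
    (v0 : Fin n) (d : ℕ) (D : (ι → Fin n) → Finset (Fin n)) (hD : ∀ t, (D t).card ≤ d)
    (h : ∀ t ∈ T, t b ∈ D (Function.update t b v0)) :
    T.card ≤ d * (T.image (fun t => Function.update t b v0)).card := by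
  classical
  refine card_le_mul_card_image T d ?_
  intro τ _
  refine le_trans ?_ (hD τ)
  apply Finset.card_le_card_of_injOn (fun t => t b)
  · intro t ht
    have ht := mem_filter.mp (mem_coe.mp ht)
    have h1 := h t ht.1
    rw [ht.2] at h1
    exact mem_coe.mpr h1
  · intro t ht t' ht' heq
    have ht := (mem_filter.mp (mem_coe.mp ht)).2
    have ht' := (mem_filter.mp (mem_coe.mp ht')).2
    funext i
    by_cases hi : i = b
    · rw [hi]; exact heq
    · have h1 := congrFun (ht.trans ht'.symm) i
      rwa [Function.update_of_ne hi, Function.update_of_ne hi] at h1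

lemma card_le_mono {α : Type*} [Fintype α] [DecidableEq α] (M : ℕ)
    (F : Finset α) (i : Fin M) (T : Finset (α → Fin M)) (hT : ∀ c ∈ T, ∀ p ∈ F, c p = i) :
    T.card ≤ M ^ (Fintype.card α - F.card) := by
  classical
  rw [← card_mono_colorings M F i]
  apply card_le_card
  intro c hc
  rw [mem_filter]
  exact ⟨mem_univ _, hT c hc⟩

/-- tuples with two dependent coordinates -/
lemma card_two_dep {q d : ℕ} (hn : 0 < n) (C : Fin n → Finset (Fin n))
    (hC : ∀ v, (C v).card ≤ d) (a a' b b' : Fin (q + 1)) (hab : a ≠ b) (ha : a' ≠ a)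
    (hab' : a' ≠ b) (hb : b' ≠ b) :
    ((univ : Finset (Fin (q + 1) → Fin n)).filter
      (fun t => t a ∈ C (t a') ∧ t b ∈ C (t b'))).card ≤ d ^ 2 * n ^ (q - 1) := by
  classical
  set v0 : Fin n := ⟨0, hn⟩ with hv0
  set T := (univ : Finset (Fin (q + 1) → Fin n)).filter
      (fun t => t a ∈ C (t a') ∧ t b ∈ C (t b')) with hT
  have h1 := card_elim T b v0 d (fun t => C (t b')) (fun t => hC _) (by
    intro t ht
    rw [Function.update_of_ne hb]
    exact (mem_filter.mp ht).2.2)
  have h2 := card_elim (T.image (fun t => Function.update t b v0)) a v0 d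
    (fun t => C (t a')) (fun t => hC _) (by
    intro t ht
    obtain ⟨t0, ht0, rfl⟩ := mem_image.mp ht
    rw [Function.update_of_ne ha, Function.update_of_ne hab, Function.update_of_ne hab']
    exact (mem_filter.mp ht0).2.1)
  have h3 : (((T.image (fun t => Function.update t b v0)).image
      (fun t => Function.update t a v0))).card ≤ n ^ (q - 1) := by
    have h5 : q - 1 = Fintype.card (Fin (q + 1)) - ({a, b} : Finset (Fin (q + 1))).card := by
      rw [card_pair hab, Fintype.card_fin]; omega
    rw [h5]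
    apply card_le_mono n ({a, b} : Finset (Fin (q + 1))) v0
    intro t ht p hp
    obtain ⟨t1, ht1, rfl⟩ := mem_image.mp ht
    obtain ⟨t0, ht0, rfl⟩ := mem_image.mp ht1
    rw [mem_insert, mem_singleton] at hp
    rcases hp with rfl | rfl
    · rw [Function.update_self]
    · rw [Function.update_of_ne hab.symm, Function.update_self]
  calc T.card ≤ d * (T.image (fun t => Function.update t b v0)).card := h1
    _ ≤ d * (d * _) := Nat.mul_le_mul_left _ h2
    _ ≤ d * (d * n ^ (q - 1)) := Nat.mul_le_mul_left _ (Nat.mul_le_mul_left _ h3)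
    _ = d ^ 2 * n ^ (q - 1) := by ring

/-- the abstract sunflower with a one-element kernel and `s` petals of size `q`. -/
def sunG (q s : ℕ) : Finset (Finset (Option (Fin s × Fin q))) :=
  (univ : Finset (Fin s)).image
    (fun a => insert none (univ.image (fun i : Fin q => some (a, i))))

lemma sunG_card (q s : ℕ) (hq : 0 < q) : (sunG q s).card = s := by
  classical
  unfold sunG
  rw [card_image_of_injective]
  · rw [card_univ, Fintype.card_fin]
  · intro a a' h
    simp only at h
    have h1 : (some (a, ⟨0, hq⟩) : Option (Fin s × Fin q)) ∈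
        insert (none : Option (Fin s × Fin q)) (univ.image (fun i : Fin q => some (a', i))) := by
      rw [← h]
      exact mem_insert_of_mem (mem_image_of_mem _ (mem_univ _))
    simp only [mem_insert, reduceCtorEq, mem_image, mem_univ, true_and, Option.some.injEq,
      Prod.mk.injEq, false_or, exists_and_left] at h1
    exact h1.1.symm

lemma copy_sun_of_items {q s : ℕ} (H : Finset (Finset (Fin n))) (c : Fin n → Fin (q + 1))
    (v : Fin n) (t : Fin s → (Fin q → Fin n))
    (ht : ∀ a, (c v).insertNth (α := fun _ => Fin n) v (t a) ∈ Part H c)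
    (hd : ∀ a a', a ≠ a' → Disjoint (univ.image (t a)) (univ.image (t a'))) :
    Copy (sunG q s) H := by
  classical
  let f : Option (Fin s × Fin q) → Fin n := fun w => w.elim v (fun p => t p.1 p.2)
  have hcs : ∀ a i, c (f (some (a, i))) = (c v).succAbove i := by
    intro a i
    have h1 := (mem_Part.mp (ht a)).1 ((c v).succAbove i)
    rw [Fin.insertNth_apply_succAbove] at h1
    exact h1
  have hinj : ∀ w w', f w = f w' → w = w' := by
    intro w w' h
    rcases w with _ | ⟨a, i⟩ <;> rcases w' with _ | ⟨a', i'⟩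
    · rfl
    · exfalso
      have h1 := hcs a' i'
      rw [← h] at h1
      exact Fin.succAbove_ne _ _ h1.symm
    · exfalso
      have h1 := hcs a i
      rw [h] at h1
      exact Fin.succAbove_ne _ _ h1.symm
    · have h1 : (c v).succAbove i = (c v).succAbove i' := by
        rw [← hcs a i, ← hcs a' i', h]
      have h2 := Fin.succAbove_right_injective h1
      subst h2
      have h3 : a = a' := by
        by_contra hne
        have h4 : t a i ∈ univ.image (t a) := mem_image_of_mem _ (mem_univ i)
        have h5 : t a' i ∈ univ.image (t a') := mem_image_of_mem _ (mem_univ i)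
        have h6 : t a i = t a' i := h
        rw [h6] at h4
        exact (Finset.disjoint_left.mp (hd _ _ hne)) h4 h5
      rw [h3]
  refine ⟨f, fun _ _ _ _ w _ w' _ h => hinj w w' h, ?_⟩
  intro e he
  obtain ⟨a, _, rfl⟩ := mem_image.mp he
  have h2 := (mem_Part.mp (ht a)).2
  rw [insertNth_image] at h2
  rw [image_insert, image_image]
  exact h2

/-- a digraph fact -/
lemma digraph_pattern {q : ℕ} (hq : 2 ≤ q) (f : Fin (q + 1) → Fin (q + 1))
    (hf : ∀ j, f j ≠ j) :
    ∃ a a' b b' : Fin (q + 1), a ≠ b ∧ a' ≠ a ∧ a' ≠ b ∧ b' ≠ b ∧ f a' = a ∧ f b' = b := by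
  classical
  by_cases h : ∃ j, f (f j) ≠ j
  · obtain ⟨j, hj⟩ := h
    exact ⟨f j, j, f (f j), f j, (hf _).symm, (hf j).symm, hj.symm, (hf _).symm, rfl, rfl⟩
  · push Not at h
    obtain ⟨b', hb1, hb2⟩ : ∃ b' : Fin (q + 1), b' ≠ 0 ∧ b' ≠ f 0 := by
      have h1 : (({0, f 0} : Finset (Fin (q + 1)))).card < (univ : Finset (Fin (q + 1))).card := by
        rw [card_univ, Fintype.card_fin]
        have := card_le_two (a := (0 : Fin (q + 1))) (b := f 0)
        omega
      obtain ⟨b', _, hb'⟩ := exists_mem_notMem_of_card_lt_card h1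
      rw [mem_insert, mem_singleton, not_or] at hb'
      exact ⟨b', hb'.1, hb'.2⟩
    refine ⟨f 0, 0, f b', b', ?_, (hf 0).symm, ?_, (hf b').symm, rfl, rfl⟩
    · intro h2
      have h3 := congrArg f h2
      rw [h, h] at h3
      exact hb1 h3.symm
    · intro h2
      have h3 := congrArg f h2
      rw [h] at h3
      exact hb2 h3.symm

/-- sunflowers with a one-element kernel are unavoidable -/
theorem copy_sun {q s : ℕ} (hq : 2 ≤ q) (H : Finset (Finset (Fin n)))
    (hr : IsRGraph (q + 1) H)
    (h : (q + 1) ^ (q + 1) * ((q + 1) ^ 4 * ((q * s) ^ 2 * n ^ (q - 1))) < H.card) :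
    Copy (sunG q s) H := by
  classical
  obtain ⟨c, hc⟩ := exists_part (Nat.succ_pos q) H hr
  by_contra hcon
  have hHne : 0 < H.card := lt_of_le_of_lt (Nat.zero_le _) h
  have hn : 0 < n := by
    obtain ⟨e, he⟩ := card_pos.mp hHne
    have h1 : 0 < e.card := by rw [hr e he]; omega
    obtain ⟨v, _⟩ := card_pos.mp h1
    exact Fin.pos v
  set P := Part H c with hP
  have hPc : ∀ t ∈ P, ∀ j, c (t j) = j := fun t ht => (mem_Part.mp ht).1
  let O : Fin n → Finset (Fin q → Fin n) := fun v =>
    univ.filter (fun p => (c v).insertNth (α := fun _ => Fin n) v p ∈ P)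
  have hcov : ∀ v, ∃ C : Finset (Fin n), C.card ≤ q * s ∧
      ∀ p ∈ O v, ¬ Disjoint (univ.image p) C := by
    intro v
    rcases matching_or_cover (O v) (fun p => univ.image p) q (by
      intro p _
      refine card_image_le.trans ?_
      rw [card_univ, Fintype.card_fin]) s with ⟨t, ht1, ht2⟩ | h1
    · exfalso
      apply hcon
      exact copy_sun_of_items H c v t (fun a => (mem_filter.mp (ht1 a)).2) ht2
    · exact h1
  choose C hC1 hC2 using hcov
  have hedge : ∀ t ∈ P, ∀ j, ∃ i, i ≠ j ∧ t i ∈ C (t j) := by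
    intro t ht j
    have hcj := hPc t ht j
    have h1 : (fun i => t (j.succAbove i)) ∈ O (t j) := by
      simp only [O, mem_filter, mem_univ, true_and]
      rw [hcj]
      have : j.insertNth (α := fun _ => Fin n) (t j) (fun i => t (j.succAbove i)) = t :=
        Fin.insertNth_self_removeNth j t
      rw [this]
      exact ht
    have h2 := hC2 (t j) _ h1
    rw [not_disjoint_iff] at h2
    obtain ⟨x, hx1, hx2⟩ := h2
    obtain ⟨i, _, rfl⟩ := mem_image.mp hx1
    exact ⟨j.succAbove i, Fin.succAbove_ne _ _, hx2⟩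
  let I : Finset (Fin (q + 1) × Fin (q + 1) × Fin (q + 1) × Fin (q + 1)) :=
    univ.filter (fun p => p.1 ≠ p.2.2.1 ∧ p.2.1 ≠ p.1 ∧ p.2.1 ≠ p.2.2.1 ∧ p.2.2.2 ≠ p.2.2.1)
  have hcover : P ⊆ I.biUnion (fun p => (univ : Finset (Fin (q + 1) → Fin n)).filter
      (fun t => t p.1 ∈ C (t p.2.1) ∧ t p.2.2.1 ∈ C (t p.2.2.2))) := by
    intro t ht
    choose f hf1 hf2 using hedge t ht
    obtain ⟨a, a', b, b', h1, h2, h3, h4, h5, h6⟩ := digraph_pattern hq f hf1
    rw [mem_biUnion]
    refine ⟨(a, a', b, b'), ?_, ?_⟩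
    · simp only [I, mem_filter, mem_univ, true_and]
      exact ⟨h1, h2, h3, h4⟩
    · rw [mem_filter]
      refine ⟨mem_univ _, ?_, ?_⟩
      · have := hf2 a'
        rw [h5] at this
        exact this
      · have := hf2 b'
        rw [h6] at this
        exact this
  have hPcard : P.card ≤ (q + 1) ^ 4 * ((q * s) ^ 2 * n ^ (q - 1)) := by
    refine (card_le_card hcover).trans ?_
    refine (card_biUnion_le_card_mul _ _ ((q * s) ^ 2 * n ^ (q - 1)) ?_).trans ?_
    · intro p hp
      simp only [I, mem_filter, mem_univ, true_and] at hp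
      exact card_two_dep hn C hC1 p.1 p.2.1 p.2.2.1 p.2.2.2 hp.1 hp.2.1 hp.2.2.1 hp.2.2.2
    · apply Nat.mul_le_mul_right
      refine (card_le_univ _).trans ?_
      rw [Fintype.card_prod, Fintype.card_prod, Fintype.card_prod, Fintype.card_fin]
      apply le_of_eq
      ring
  have h5 : H.card ≤ (q + 1) ^ (q + 1) * ((q + 1) ^ 4 * ((q * s) ^ 2 * n ^ (q - 1))) :=
    hc.trans (Nat.mul_le_mul_left _ hPcard)
  omega

end GSun

end Pool.Agent.Lib.MP_9dddc4_co
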