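import Mathlib
import Pool.Agent.Lib.MP_9dddc4_co.GSun

/-!
`r`-graphs: mixed forests.
-/

namespace Pool.Agent.Lib.MP_9dddc4_co

open Finset

section GMixR

variable {n : ℕ}

/-- `Q` contains `R` disjoint trees, each with a root, `D1` disjoint middle parts and `D2` leaves
for each middle part. -/
def HasMixR {Y : Type*} (g : Y → Finset (Fin n)) (Q : Finset (Fin n × Y × Fin n))
    (R D1 D2 : ℕ) : Prop :=
  ∃ (x : Fin R → Fin n) (y : Fin R → Fin D1 → Y) (z : Fin R → Fin D1 → Fin D2 → Fin n),
    (∀ a a', x a = x a' → a = a') ∧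
    (∀ a b a' b', (a ≠ a' ∨ b ≠ b') → Disjoint (g (y a b)) (g (y a' b'))) ∧
    (∀ a b c a' b' c', z a b c = z a' b' c' → a = a' ∧ b = b' ∧ c = c') ∧
    ∀ a b c, (x a, y a b, z a b c) ∈ Q

/-- if there is no mixed forest, most triples are in a structured part -/
lemma role_lemmaR {Y : Type} [Fintype Y] {R D1 D2 w : ℕ} (g : Y → Finset (Fin n))
    (hg : ∀ y, (g y).card ≤ w) (Q : Finset (Fin n × Y × Fin n)) (h : ¬ HasMixR g Q R D1 D2) :
    ∃ (UY UZ : Finset (Fin n)) (M L : Fin n → Finset (Fin n)), UY.card ≤ R * (D1 * w) ∧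
      UZ.card ≤ R * (D1 * D2) ∧ (∀ v, (M v).card ≤ D1 * w) ∧ (∀ v, (L v).card ≤ D1 * D2) ∧
      ∀ B ⊆ Q, (∀ t ∈ B, Disjoint (g t.2.1) UY ∧ t.2.2 ∉ UZ ∧ Disjoint (g t.2.1) (M t.1) ∧
        t.2.2 ∉ L t.1) → B.card ≤ (R + D2) * (n * Fintype.card Y) := by
  classical
  let O : Finset (Fin n × (Fin D1 → Y) × (Fin D1 → Fin D2 → Fin n)) :=
    univ.filter (fun p => (∀ b b', b ≠ b' → Disjoint (g (p.2.1 b)) (g (p.2.1 b'))) ∧
      (∀ b c b' c', p.2.2 b c = p.2.2 b' c' → b = b' ∧ c = c') ∧
      ∀ b c, (p.1, p.2.1 b, p.2.2 b c) ∈ Q)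
  let vs : Fin n × (Fin D1 → Y) × (Fin D1 → Fin D2 → Fin n) → Finset (Fin 3 × Fin n) :=
    fun p => {((0 : Fin 3), p.1)} ∪
      univ.biUnion (fun b => (g (p.2.1 b)).image (fun v => ((1 : Fin 3), v))) ∪
      univ.image (fun bc : Fin D1 × Fin D2 => ((2 : Fin 3), p.2.2 bc.1 bc.2))
  have hvs0 : ∀ p v, ((0 : Fin 3), v) ∈ vs p ↔ v = p.1 := by
    intro p v
    simp [vs]
  have hvs1 : ∀ p v, ((1 : Fin 3), v) ∈ vs p ↔ ∃ b, v ∈ g (p.2.1 b) := by
    intro p v
    simp [vs]
  have hvs2 : ∀ p v, ((2 : Fin 3), v) ∈ vs p ↔ ∃ b c, p.2.2 b c = v := by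
    intro p v
    simp [vs]
  rcases matching_or_max O vs R with ⟨t, ht1, ht2⟩ | ⟨l, hl, t, ht1, ht2⟩
  · exfalso
    apply h
    have hmem := fun a => (mem_filter.mp (ht1 a)).2
    refine ⟨fun a => (t a).1, fun a => (t a).2.1, fun a => (t a).2.2, ?_, ?_, ?_, ?_⟩
    · intro a a' heq
      by_contra hne
      have h1 := ht2 a a' hne
      exact (Finset.disjoint_left.mp h1) ((hvs0 _ _).mpr rfl) ((hvs0 _ _).mpr heq)
    · intro a b a' b' hne
      by_cases haa : a = a'
      · subst haa
        rcases hne with hne | hne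
        · exact absurd rfl hne
        · exact (hmem a).1 b b' hne
      · have h1 := ht2 a a' haa
        rw [disjoint_left]
        intro v hv hv'
        exact (Finset.disjoint_left.mp h1) ((hvs1 _ _).mpr ⟨b, hv⟩) ((hvs1 _ _).mpr ⟨b', hv'⟩)
    · intro a b c a' b' c' heq
      have haa : a = a' := by
        by_contra hne
        have h1 := ht2 a a' hne
        exact (Finset.disjoint_left.mp h1) ((hvs2 _ _).mpr ⟨b, c, rfl⟩)
          ((hvs2 _ _).mpr ⟨b', c', heq.symm⟩)
      subst haa
      exact ⟨rfl, (hmem a).2.1 b c b' c' heq⟩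
    · intro a b c
      exact (hmem a).2.2 b c
  · set UX : Finset (Fin n) := univ.image (fun a => (t a).1) with hUX
    set UY : Finset (Fin n) := univ.biUnion
      (fun a => univ.biUnion (fun b => g ((t a).2.1 b))) with hUY
    set UZ : Finset (Fin n) := univ.biUnion
      (fun a => univ.image (fun bc : Fin D1 × Fin D2 => (t a).2.2 bc.1 bc.2)) with hUZ
    have hUXc : UX.card ≤ R := by
      refine card_image_le.trans ?_
      rw [card_univ, Fintype.card_fin]; exact hl.le
    have hUYc : UY.card ≤ R * (D1 * w) := by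
      refine (card_biUnion_le_card_mul _ _ (D1 * w) (fun a _ => ?_)).trans ?_
      · refine (card_biUnion_le_card_mul _ _ w (fun b _ => hg _)).trans ?_
        rw [card_univ, Fintype.card_fin]
      · rw [card_univ, Fintype.card_fin]
        exact Nat.mul_le_mul_right _ hl.le
    have hUZc : UZ.card ≤ R * (D1 * D2) := by
      refine (card_biUnion_le_card_mul _ _ (D1 * D2) (fun a _ => ?_)).trans ?_
      · refine card_image_le.trans ?_
        rw [card_univ, Fintype.card_prod, Fintype.card_fin, Fintype.card_fin]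
      · rw [card_univ, Fintype.card_fin]
        exact Nat.mul_le_mul_right _ hl.le
    -- sub-items
    let O' : Fin n → Finset (Y × (Fin D2 → Fin n)) := fun v =>
      univ.filter (fun p => (∀ c c', p.2 c = p.2 c' → c = c') ∧ (∀ c, (v, p.1, p.2 c) ∈ Q) ∧
        Disjoint (g p.1) UY ∧ ∀ c, p.2 c ∉ UZ)
    let vs' : Y × (Fin D2 → Fin n) → Finset (Fin 3 × Fin n) := fun p =>
      (g p.1).image (fun v => ((1 : Fin 3), v)) ∪ univ.image (fun c => ((2 : Fin 3), p.2 c))
    have hvs1' : ∀ p v, ((1 : Fin 3), v) ∈ vs' p ↔ v ∈ g p.1 := by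
      intro p v
      simp [vs']
    have hvs2' : ∀ p v, ((2 : Fin 3), v) ∈ vs' p ↔ ∃ c, p.2 c = v := by
      intro p v
      simp [vs']
    have hML : ∀ v, ∃ M L : Finset (Fin n), M.card ≤ D1 * w ∧ L.card ≤ D1 * D2 ∧
        (v ∉ UX → ∀ p ∈ O' v, ¬ Disjoint (g p.1) M ∨ ∃ c, p.2 c ∈ L) := by
      intro v
      by_cases hv : v ∈ UX
      · exact ⟨∅, ∅, by simp, by simp, fun h => absurd hv h⟩
      rcases matching_or_max (O' v) vs' D1 with ⟨s, hs1, hs2⟩ | ⟨l', hl', s, hs1, hs2⟩
      · exfalso
        have hsm := fun b => (mem_filter.mp (hs1 b)).2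
        have hO : (v, (fun b => (s b).1), (fun b c => (s b).2 c)) ∈ O := by
          simp only [O, mem_filter, mem_univ, true_and]
          refine ⟨?_, ?_, ?_⟩
          · intro b b' hne
            rw [disjoint_left]
            intro u hu hu'
            exact (Finset.disjoint_left.mp (hs2 b b' hne)) ((hvs1' _ _).mpr hu)
              ((hvs1' _ _).mpr hu')
          · intro b c b' c' heq
            have hbb : b = b' := by
              by_contra hne
              exact (Finset.disjoint_left.mp (hs2 b b' hne)) ((hvs2' _ _).mpr ⟨c, rfl⟩)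
                ((hvs2' _ _).mpr ⟨c', heq.symm⟩)
            subst hbb
            exact ⟨rfl, (hsm b).1 c c' heq⟩
          · intro b c
            exact (hsm b).2.1 c
        have h1 := ht2 _ hO
        apply h1
        rw [disjoint_left]
        rintro ⟨i, u⟩ hw hw'
        obtain ⟨a, _, ha⟩ := mem_biUnion.mp hw'
        have hi : i = 0 ∨ i = 1 ∨ i = 2 := by
          fin_cases i <;> simp
        rcases hi with rfl | rfl | rfl
        · rw [hvs0] at hw ha
          apply hv
          rw [hUX, mem_image]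
          exact ⟨a, mem_univ _, by rw [← ha, hw]⟩
        · rw [hvs1] at hw ha
          obtain ⟨b, hb⟩ := hw
          obtain ⟨b', hb'⟩ := ha
          have h5 := (hsm b).2.2.1
          rw [disjoint_left] at h5
          apply h5 hb
          rw [hUY, mem_biUnion]
          exact ⟨a, mem_univ _, mem_biUnion.mpr ⟨b', mem_univ _, hb'⟩⟩
        · rw [hvs2] at hw ha
          obtain ⟨b, c, rfl⟩ := hw
          obtain ⟨b', c', hb'⟩ := ha
          apply (hsm b).2.2.2 c
          rw [hUZ, mem_biUnion]
          exact ⟨a, mem_univ _, mem_image.mpr ⟨(b', c'), mem_univ _, hb'⟩⟩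
      · refine ⟨univ.biUnion (fun b => g (s b).1), univ.biUnion (fun b => univ.image (s b).2),
          ?_, ?_, ?_⟩
        · refine (card_biUnion_le_card_mul _ _ w (fun b _ => hg _)).trans ?_
          rw [card_univ, Fintype.card_fin]
          exact Nat.mul_le_mul_right _ hl'.le
        · refine (card_biUnion_le_card_mul _ _ D2 (fun a _ => ?_)).trans ?_
          · refine card_image_le.trans ?_
            rw [card_univ, Fintype.card_fin]
          · rw [card_univ, Fintype.card_fin]
            exact Nat.mul_le_mul_right _ hl'.le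
        · intro _ p hp
          have h1 := hs2 p hp
          rw [not_disjoint_iff] at h1
          obtain ⟨⟨i, u⟩, hw, hw'⟩ := h1
          obtain ⟨b, _, hb⟩ := mem_biUnion.mp hw'
          have hi : i = 0 ∨ i = 1 ∨ i = 2 := by
            fin_cases i <;> simp
          rcases hi with rfl | rfl | rfl
          · exfalso
            simp [vs'] at hw
          · left
            rw [hvs1'] at hw hb
            rw [not_disjoint_iff]
            exact ⟨u, hw, mem_biUnion.mpr ⟨b, mem_univ _, hb⟩⟩
          · right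
            rw [hvs2'] at hw hb
            obtain ⟨c, rfl⟩ := hw
            obtain ⟨c', hc'⟩ := hb
            refine ⟨c, ?_⟩
            rw [mem_biUnion]
            exact ⟨b, mem_univ _, mem_image.mpr ⟨c', mem_univ _, hc'⟩⟩
    choose M L hM hL hMLp using hML
    refine ⟨UY, UZ, M, L, hUYc, hUZc, hM, hL, ?_⟩
    intro B hBQ hB
    have hsub : B ⊆ (UX ×ˢ (univ : Finset (Y × Fin n))) ∪ B.filter (fun t => t.1 ∉ UX) := by
      intro t ht
      by_cases htx : t.1 ∈ UX
      · exact mem_union_left _ (mem_product.mpr ⟨htx, mem_univ _⟩)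
      · exact mem_union_right _ (mem_filter.mpr ⟨ht, htx⟩)
    have h1 : (UX ×ˢ (univ : Finset (Y × Fin n))).card ≤ R * (n * Fintype.card Y) := by
      rw [card_product, card_univ, Fintype.card_prod, Fintype.card_fin, mul_comm n]
      exact Nat.mul_le_mul_right _ hUXc
    have h2 : (B.filter (fun t => t.1 ∉ UX)).card ≤ D2 * (n * Fintype.card Y) := by
      have h3 := card_le_mul_card_image_of_maps_to
        (s := B.filter (fun t => t.1 ∉ UX)) (t := (univ : Finset (Fin n × Y)))
        (f := fun t => (t.1, t.2.1)) (fun _ _ => mem_univ _) D2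
        (by
          rintro ⟨v, y⟩ _
          by_contra hlt
          push Not at hlt
          set Fb := (B.filter (fun t => t.1 ∉ UX)).filter (fun t => (t.1, t.2.1) = (v, y)) with hFb
          have hform : ∀ s ∈ Fb, s = (v, y, s.2.2) := by
            rintro ⟨s1, s2, s3⟩ hs
            rw [hFb, mem_filter] at hs
            have h4 := hs.2
            simp only [Prod.mk.injEq] at h4 ⊢
            exact ⟨h4.1, h4.2, trivial⟩
          have hinj : Set.InjOn (fun s : Fin n × Y × Fin n => s.2.2) Fb := by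
            intro s hs s' hs' heq
            rw [hform s (mem_coe.mp hs), hform s' (mem_coe.mp hs')]
            simp only at heq
            rw [heq]
          have hc2 : D2 ≤ (Fb.image (fun s => s.2.2)).card := by
            rw [card_image_of_injOn hinj]; exact hlt.le
          obtain ⟨S, hS1, hS2⟩ := Finset.exists_subset_card_eq hc2
          obtain ⟨z, hz1, hz2⟩ := exists_ordering hS2
          have hz : ∀ c, (v, y, z c) ∈ Fb := by
            intro c
            have h5 : z c ∈ S := by rw [← hz2]; exact mem_image_of_mem _ (mem_univ c)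
            obtain ⟨s, hs, hsz⟩ := mem_image.mp (hS1 h5)
            have h6 := hform s hs
            rw [← hsz, ← h6]
            exact hs
          have hFb0 : Fb.Nonempty := by
            rw [← card_pos]; omega
          obtain ⟨s0, hs0⟩ := hFb0
          have h7 : s0.1 ∉ UX ∧ Disjoint (g s0.2.1) UY ∧ Disjoint (g s0.2.1) (M s0.1) := by
            rw [hFb, mem_filter, mem_filter] at hs0
            have h8 := hB s0 hs0.1.1
            exact ⟨hs0.1.2, h8.1, h8.2.2.1⟩
          rw [hform s0 hs0] at h7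
          simp only at h7
          have hzp : ∀ c, (v, y, z c) ∈ Q ∧ z c ∉ UZ ∧ z c ∉ L v := by
            intro c
            have h8 := hz c
            rw [hFb, mem_filter, mem_filter] at h8
            have h9 := hB _ h8.1.1
            exact ⟨hBQ h8.1.1, h9.2.1, h9.2.2.2⟩
          have hO' : (y, z) ∈ O' v := by
            simp only [O', mem_filter, mem_univ, true_and]
            exact ⟨fun c c' hcc => hz1 hcc, fun c => (hzp c).1, h7.2.1, fun c => (hzp c).2.1⟩
          rcases hMLp v h7.1 _ hO' with h9 | ⟨c, h9⟩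
          · exact h9 h7.2.2
          · exact (hzp c).2.2 h9)
      rw [card_univ, Fintype.card_prod, Fintype.card_fin] at h3
      exact h3
    calc B.card ≤ _ := card_le_card hsub
      _ ≤ _ := card_union_le _ _
      _ ≤ R * (n * Fintype.card Y) + D2 * (n * Fintype.card Y) := Nat.add_le_add h1 h2
      _ = (R + D2) * (n * Fintype.card Y) := by ring

/-- the abstract mixed forest -/
def mixGR (w R D1 D2 : ℕ) :
    Finset (Finset (Fin R ⊕ ((Fin R × Fin D1 × Fin w) ⊕ (Fin R × Fin D1 × Fin D2)))) :=
  (univ : Finset (Fin R × Fin D1 × Fin D2)).image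
    (fun p => insert (Sum.inl p.1) (insert (Sum.inr (Sum.inr p))
      (univ.image (fun u : Fin w => Sum.inr (Sum.inl (p.1, p.2.1, u))))))

lemma mixGR_card (w R D1 D2 : ℕ) : (mixGR w R D1 D2).card = R * D1 * D2 := by
  classical
  unfold mixGR
  rw [card_image_of_injective]
  · rw [card_univ, Fintype.card_prod, Fintype.card_prod, Fintype.card_fin, Fintype.card_fin,
      Fintype.card_fin, mul_assoc]
  · intro p p' h
    simp only at h
    have h1 : (Sum.inr (Sum.inr p) :
        Fin R ⊕ ((Fin R × Fin D1 × Fin w) ⊕ (Fin R × Fin D1 × Fin D2))) ∈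
        insert (Sum.inl p'.1) (insert (Sum.inr (Sum.inr p'))
          (univ.image (fun u : Fin w => (Sum.inr (Sum.inl (p'.1, p'.2.1, u)) :
            Fin R ⊕ ((Fin R × Fin D1 × Fin w) ⊕ (Fin R × Fin D1 × Fin D2)))))) := by
      rw [← h]; simp
    simpa using h1

/-- enumeration of the middle coordinates -/
lemma exists_enum {q : ℕ} {i j : Fin (q + 1)} (hij : i ≠ j) :
    ∃ e : Fin (q - 1) → Fin (q + 1), Function.Injective e ∧
      (∀ v, e v ≠ i ∧ e v ≠ j) ∧ ∀ u, u = i ∨ u = j ∨ ∃ v, e v = u := by
  classical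
  have hcard : ((univ : Finset (Fin (q + 1))) \ {i, j}).card = q - 1 := by
    rw [card_sdiff_of_subset (subset_univ _), card_univ, Fintype.card_fin, card_pair hij]
    omega
  obtain ⟨e, he1, he2⟩ := exists_ordering hcard
  refine ⟨e, he1, ?_, ?_⟩
  · intro v
    have h1 : e v ∈ (univ : Finset (Fin (q + 1))) \ {i, j} := by
      rw [← he2]; exact mem_image_of_mem _ (mem_univ v)
    rw [mem_sdiff, mem_insert, mem_singleton, not_or] at h1
    exact h1.2
  · intro u
    by_cases h1 : u = i
    · exact Or.inl h1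
    by_cases h2 : u = j
    · exact Or.inr (Or.inl h2)
    · right; right
      have h3 : u ∈ (univ : Finset (Fin (q + 1))) \ {i, j} := by
        rw [mem_sdiff, mem_insert, mem_singleton, not_or]
        exact ⟨mem_univ _, h1, h2⟩
      rw [← he2, mem_image] at h3
      obtain ⟨v, _, hv⟩ := h3
      exact ⟨v, hv⟩

lemma copy_mixR_of_hasMix {q R D1 D2 : ℕ} (H : Finset (Finset (Fin n)))
    (c : Fin n → Fin (q + 1)) {i j : Fin (q + 1)} (hij : i ≠ j)
    (e : Fin (q - 1) → Fin (q + 1)) (he : Function.Injective e)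
    (he1 : ∀ v, e v ≠ i ∧ e v ≠ j) (he2 : ∀ u, u = i ∨ u = j ∨ ∃ v, e v = u)
    (h : HasMixR (fun y : Fin (q - 1) → Fin n => univ.image y)
      ((Part H c).image (fun t => (t i, (fun v => t (e v)), t j))) R D1 D2) :
    Copy (mixGR (q - 1) R D1 D2) H := by
  classical
  obtain ⟨x, y, z, hx, hy, hz, hQ⟩ := h
  have hP : ∀ a b e', c (x a) = i ∧ (∀ v, c (y a b v) = e v) ∧ c (z a b e') = j ∧
      insert (x a) (insert (z a b e') (univ.image (y a b))) ∈ H := by
    intro a b e'
    obtain ⟨t, ht, heq⟩ := mem_image.mp (hQ a b e')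
    simp only [Prod.mk.injEq] at heq
    rw [mem_Part] at ht
    refine ⟨?_, ?_, ?_, ?_⟩
    · rw [← heq.1]; exact ht.1 i
    · intro v
      rw [← heq.2.1]; exact ht.1 (e v)
    · rw [← heq.2.2]; exact ht.1 j
    · have h1 : univ.image t = insert (x a) (insert (z a b e') (univ.image (y a b))) := by
        rw [← heq.1, ← heq.2.1, ← heq.2.2]
        ext v
        simp only [mem_image, mem_univ, true_and, mem_insert]
        constructor
        · rintro ⟨u, rfl⟩
          rcases he2 u with rfl | rfl | ⟨v, rfl⟩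
          · left; rfl
          · right; left; rfl
          · right; right; exact ⟨v, rfl⟩
        · rintro (rfl | rfl | ⟨v, rfl⟩)
          · exact ⟨i, rfl⟩
          · exact ⟨j, rfl⟩
          · exact ⟨e v, rfl⟩
      rw [← h1]
      exact ht.2
  let f : Fin R ⊕ ((Fin R × Fin D1 × Fin (q - 1)) ⊕ (Fin R × Fin D1 × Fin D2)) → Fin n :=
    fun w => Sum.elim (fun a => x a)
      (Sum.elim (fun p => y p.1 p.2.1 p.2.2) (fun p => z p.1 p.2.1 p.2.2)) w
  refine ⟨f, ?_, ?_⟩
  · -- colours
    have key : ∀ E ∈ mixGR (q - 1) R D1 D2, ∀ v ∈ E, c (f v) =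
        Sum.elim (fun _ => i) (Sum.elim (fun p => e p.2.2) (fun _ => j)) v := by
      intro E hE v hv
      obtain ⟨⟨a, b, e'⟩, _, rfl⟩ := mem_image.mp hE
      have h1 := hP a b e'
      simp only [mem_insert, mem_image, mem_univ, true_and] at hv
      rcases hv with rfl | rfl | ⟨u, rfl⟩
      · exact h1.1
      · exact h1.2.2.1
      · exact h1.2.1 u
    intro E hE E' hE' v hv v' hv' heq
    have h1 := key E hE v hv
    have h2 := key E' hE' v' hv'
    rw [heq, h2] at h1
    rcases v with a | ⟨a, b, u⟩ | ⟨a, b, e'⟩ <;> rcases v' with a' | ⟨a', b', u'⟩ | ⟨a', b', e''⟩ <;>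
      simp only [Sum.elim_inl, Sum.elim_inr] at h1
    · rw [hx a a' heq]
    · exact absurd h1 (he1 u').1
    · exact absurd h1.symm hij
    · exact absurd h1.symm (he1 u).1
    · have h3 := he h1
      subst h3
      have h4 : y a b u' = y a' b' u' := heq
      by_cases hab : a = a' ∧ b = b'
      · rw [hab.1, hab.2]
      · exfalso
        have h5 : a ≠ a' ∨ b ≠ b' := by
          by_contra h6
          push Not at h6
          exact hab h6
        have h7 := hy a b a' b' h5
        simp only at h7
        rw [disjoint_left] at h7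
        apply h7 (mem_image_of_mem _ (mem_univ u'))
        rw [h4]
        exact mem_image_of_mem _ (mem_univ u')
    · exact absurd h1.symm (he1 u).2
    · exact absurd h1 hij
    · exact absurd h1 (he1 u').2
    · obtain ⟨h3, h4, h5⟩ := hz a b e' a' b' e'' heq
      rw [h3, h4, h5]
  · intro E hE
    obtain ⟨⟨a, b, e'⟩, _, rfl⟩ := mem_image.mp hE
    have h1 := (hP a b e').2.2.2
    have h2 : image f (insert (Sum.inl a) (insert (Sum.inr (Sum.inr (a, b, e')))
        (univ.image (fun u : Fin (q - 1) => Sum.inr (Sum.inl (a, b, u))))))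
        = insert (x a) (insert (z a b e') (univ.image (y a b))) := by
      rw [image_insert, image_insert, image_image]
      rfl
    rw [h2]
    exact h1

end GMixR

end Pool.Agent.Lib.MP_9dddc4_co
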