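import Mathlib
import Pool.Agent.Lib.MP_9dddc4_co.GMixR

/-!
`r`-graphs: mixed forests are unavoidable.
-/

namespace Pool.Agent.Lib.MP_9dddc4_co

open Finset

section GMixR2

variable {n : ℕ}

/-- the case analysis -/
lemma cert_logicR {q : ℕ} (hq : 2 ≤ q) (gm gl : Fin (q + 1) → Prop)
    (dd de : Fin (q + 1) → Fin (q + 1) → Prop)
    (h1 : ∀ i, gm i → gl i) (h2 : ∀ i j, dd i j → de i j)
    (H : ∀ i j : Fin (q + 1), i ≠ j → (∃ u, u ≠ i ∧ u ≠ j ∧ gm u) ∨ gl j ∨
      (∃ u, u ≠ i ∧ u ≠ j ∧ dd i u) ∨ de i j) :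
    (∃ i j, i ≠ j ∧ gm i ∧ gm j) ∨ (∃ i j, i ≠ j ∧ gl i ∧ dd i j) ∨
    (∃ a a' b b' : Fin (q + 1), (a ≠ b ∧ a' ≠ a ∧ a' ≠ b ∧ b' ≠ b) ∧ de a' a ∧ de b' b) ∨
    (∀ i, gl i) ∨ (∃ i j, i ≠ j ∧ (∀ u, u ≠ j → gl u) ∧ de i j) ∨
    (∃ i j, i ≠ j ∧ gm i ∧ de i j) := by
  classical
  by_cases hall : ∀ i, gl i
  · exact Or.inr (Or.inr (Or.inr (Or.inl hall)))
  by_cases hnone : ∀ i, ¬ gl i
  · -- every vertex has an out-neighbour
    have hout : ∀ i : Fin (q + 1), ∃ u, u ≠ i ∧ de i u := by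
      intro i
      obtain ⟨j, hj⟩ : ∃ j : Fin (q + 1), j ≠ i := by
        have : Nontrivial (Fin (q + 1)) := Fin.nontrivial_iff_two_le.mpr (by omega)
        exact exists_ne i
      rcases H i j hj.symm with ⟨u, _, _, hu⟩ | h | ⟨u, hui, _, hu⟩ | h
      · exact absurd (h1 _ hu) (hnone u)
      · exact absurd h (hnone j)
      · exact ⟨u, hui, h2 _ _ hu⟩
      · exact ⟨j, hj, h⟩
    choose f hf1 hf2 using hout
    obtain ⟨a, a', b, b', p1, p2, p3, p4, p5, p6⟩ := digraph_pattern hq f hf1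
    right; right; left
    refine ⟨a, a', b, b', ⟨p1, p2, p3, p4⟩, ?_, ?_⟩
    · have := hf2 a'
      rwa [p5] at this
    · have := hf2 b'
      rwa [p6] at this
  push Not at hall hnone
  obtain ⟨j0, hj0⟩ := hall
  obtain ⟨i0, hi0⟩ := hnone
  have hij0 : i0 ≠ j0 := by
    rintro rfl; exact hj0 hi0
  by_cases hgm : ∃ x, gm x
  · obtain ⟨x, hx⟩ := hgm
    have hxj : x ≠ j0 := by
      rintro rfl; exact hj0 (h1 _ hx)
    rcases H x j0 hxj with ⟨u, hux, _, hu⟩ | h | ⟨u, hux, _, hu⟩ | h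
    · exact Or.inl ⟨x, u, hux.symm, hx, hu⟩
    · exact absurd h hj0
    · exact Or.inr (Or.inl ⟨x, u, hux.symm, h1 _ hx, hu⟩)
    · exact Or.inr (Or.inr (Or.inr (Or.inr (Or.inr ⟨x, j0, hxj, hx, h⟩))))
  · push Not at hgm
    have key : ∀ i j, gl i → ¬ gl j → (∃ u, i ≠ u ∧ gl i ∧ dd i u) ∨ de i j := by
      intro i j hi hj
      have hne : i ≠ j := by
        rintro rfl; exact hj hi
      rcases H i j hne with ⟨u, _, _, hu⟩ | h | ⟨u, hui, _, hu⟩ | h
      · exact absurd hu (hgm u)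
      · exact absurd h hj
      · exact Or.inl ⟨u, hui.symm, hi, hu⟩
      · exact Or.inr h
    rcases key i0 j0 hi0 hj0 with ⟨u, h3, h4, h5⟩ | h
    · exact Or.inr (Or.inl ⟨i0, u, h3, h4, h5⟩)
    by_cases hsec : ∃ j1, j1 ≠ j0 ∧ ¬ gl j1
    · obtain ⟨j1, hj1, hj1g⟩ := hsec
      rcases key i0 j1 hi0 hj1g with ⟨u, h3, h4, h5⟩ | h'
      · exact Or.inr (Or.inl ⟨i0, u, h3, h4, h5⟩)
      · right; right; left
        have hij1 : i0 ≠ j1 := by
          rintro rfl; exact hj1g hi0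
        exact ⟨j0, i0, j1, i0, ⟨hj1.symm, hij0, hij1, hij1⟩, h, h'⟩
    · push Not at hsec
      exact Or.inr (Or.inr (Or.inr (Or.inr (Or.inl ⟨i0, j0, hij0, hsec, h⟩))))

/-- tuples with one restricted and one dependent coordinate -/
lemma card_one_dep {q a b : ℕ} (hn : 0 < n) (A : Finset (Fin n)) (hA : A.card ≤ a)
    (C : Fin n → Finset (Fin n)) (hC : ∀ v, (C v).card ≤ b) (i j : Fin (q + 1)) (hij : i ≠ j) :
    ((univ : Finset (Fin (q + 1) → Fin n)).filter
      (fun t => t i ∈ A ∧ t j ∈ C (t i))).card ≤ a * b * n ^ (q - 1) := by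
  classical
  set v0 : Fin n := ⟨0, hn⟩ with hv0
  set T := (univ : Finset (Fin (q + 1) → Fin n)).filter
      (fun t => t i ∈ A ∧ t j ∈ C (t i)) with hT
  have h1 := card_elim T j v0 b (fun t => C (t i)) (fun t => hC _) (by
    intro t ht
    rw [Function.update_of_ne hij]
    exact (mem_filter.mp ht).2.2)
  have h2 := card_elim (T.image (fun t => Function.update t j v0)) i v0 a
    (fun _ => A) (fun _ => hA) (by
    intro t ht
    obtain ⟨t0, ht0, rfl⟩ := mem_image.mp ht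
    rw [Function.update_of_ne hij]
    exact (mem_filter.mp ht0).2.1)
  have h3 : (((T.image (fun t => Function.update t j v0)).image
      (fun t => Function.update t i v0))).card ≤ n ^ (q - 1) := by
    have h5 : q - 1 = Fintype.card (Fin (q + 1)) - ({i, j} : Finset (Fin (q + 1))).card := by
      rw [card_pair hij, Fintype.card_fin]; omega
    rw [h5]
    apply card_le_mono n ({i, j} : Finset (Fin (q + 1))) v0
    intro t ht p hp
    obtain ⟨t1, ht1, rfl⟩ := mem_image.mp ht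
    obtain ⟨t0, ht0, rfl⟩ := mem_image.mp ht1
    rw [mem_insert, mem_singleton] at hp
    rcases hp with rfl | rfl
    · rw [Function.update_self]
    · rw [Function.update_of_ne hij.symm, Function.update_self]
  calc T.card ≤ b * (T.image (fun t => Function.update t j v0)).card := h1
    _ ≤ b * (a * _) := Nat.mul_le_mul_left _ h2
    _ ≤ b * (a * n ^ (q - 1)) := Nat.mul_le_mul_left _ (Nat.mul_le_mul_left _ h3)
    _ = a * b * n ^ (q - 1) := by ring

/-- tuples with all but one coordinate restricted and one dependent coordinate -/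
lemma card_all_dep {q a b : ℕ} (hn : 0 < n) (A : Finset (Fin n)) (hA : A.card ≤ a)
    (C : Fin n → Finset (Fin n)) (hC : ∀ v, (C v).card ≤ b) (i j : Fin (q + 1)) (hij : i ≠ j) :
    ((univ : Finset (Fin (q + 1) → Fin n)).filter
      (fun t => (∀ u, u ≠ j → t u ∈ A) ∧ t j ∈ C (t i))).card ≤ a ^ q * b := by
  classical
  set v0 : Fin n := ⟨0, hn⟩ with hv0
  set T := (univ : Finset (Fin (q + 1) → Fin n)).filter
      (fun t => (∀ u, u ≠ j → t u ∈ A) ∧ t j ∈ C (t i)) with hT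
  have h1 := card_elim T j v0 b (fun t => C (t i)) (fun t => hC _) (by
    intro t ht
    rw [Function.update_of_ne hij]
    exact (mem_filter.mp ht).2.2)
  have h3 : (T.image (fun t => Function.update t j v0)).card ≤ a ^ q := by
    have hsub : T.image (fun t => Function.update t j v0) ⊆
        Fintype.piFinset (fun u => if u = j then ({v0} : Finset (Fin n)) else A) := by
      intro t ht
      obtain ⟨t0, ht0, rfl⟩ := mem_image.mp ht
      rw [Fintype.mem_piFinset]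
      intro u
      by_cases hu : u = j
      · subst hu
        rw [Function.update_self, if_pos rfl]
        exact mem_singleton_self _
      · rw [Function.update_of_ne hu, if_neg hu]
        exact (mem_filter.mp ht0).2.1 u hu
    refine (card_le_card hsub).trans ?_
    rw [Fintype.card_piFinset]
    rw [← Finset.mul_prod_erase univ _ (mem_univ j)]
    rw [if_pos rfl, card_singleton, one_mul]
    calc ∏ u ∈ univ.erase j, (if u = j then ({v0} : Finset (Fin n)) else A).card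
        ≤ ∏ _u ∈ (univ : Finset (Fin (q + 1))).erase j, a := by
          apply prod_le_prod'
          intro u hu
          rw [if_neg (ne_of_mem_erase hu)]
          exact hA
      _ = a ^ q := by
          rw [prod_const, card_erase_of_mem (mem_univ _), card_univ, Fintype.card_fin,
            Nat.add_sub_cancel]
  calc T.card ≤ b * (T.image (fun t => Function.update t j v0)).card := h1
    _ ≤ b * a ^ q := Nat.mul_le_mul_left _ h3
    _ = a ^ q * b := mul_comm _ _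

/-- constant -/
def cZ (q : ℕ) : ℕ := 4 * ((q + 1) ^ 2) ^ 2 * ((q + 1) ^ 2 * q) ^ (q + 1)

theorem copy_mixR {q a d : ℕ} (hq : 2 ≤ q) (ha : 1 ≤ a) (H : Finset (Finset (Fin n)))
    (hr : IsRGraph (q + 1) H)
    (h : (q + 1) ^ (q + 1) * (cZ q * (a * n ^ q + (a * d) ^ 2 * n ^ (q - 1) +
      (a ^ 2 * d) ^ (q + 1))) < H.card) :
    Copy (mixGR (q - 1) a d a) H := by
  classical
  obtain ⟨c, hc⟩ := exists_part (Nat.succ_pos q) H hr
  by_contra hcon
  have hHne : 0 < H.card := lt_of_le_of_lt (Nat.zero_le _) h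
  have hn : 0 < n := by
    obtain ⟨e, he⟩ := card_pos.mp hHne
    have h1 : 0 < e.card := by rw [hr e he]; omega
    obtain ⟨v, _⟩ := card_pos.mp h1
    exact Fin.pos v
  set P := Part H c with hP
  let I : Finset (Fin (q + 1) × Fin (q + 1)) := univ.filter (fun p => p.1 ≠ p.2)
  have hIcard : I.card ≤ (q + 1) ^ 2 := by
    refine (card_le_univ _).trans ?_
    rw [Fintype.card_prod, Fintype.card_fin, sq]
  set w := q - 1 with hw
  have hrole : ∀ p : Fin (q + 1) × Fin (q + 1), p.1 ≠ p.2 →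
      ∃ (UY UZ : Finset (Fin n)) (M L : Fin n → Finset (Fin n)),
      (UY.card ≤ a * (d * w) ∧ UZ.card ≤ a * (d * a) ∧ (∀ v, (M v).card ≤ d * w) ∧
      (∀ v, (L v).card ≤ d * a)) ∧
      ((univ : Finset (Fin (q + 1) → Fin n)).filter (fun t => t ∈ P ∧
        (∀ u, u ≠ p.1 → u ≠ p.2 → t u ∉ UY) ∧ t p.2 ∉ UZ ∧
        (∀ u, u ≠ p.1 → u ≠ p.2 → t u ∉ M (t p.1)) ∧ t p.2 ∉ L (t p.1))).card
        ≤ (a + a) * n ^ q := by
    intro p hp
    obtain ⟨e, he, he1, he2⟩ := exists_enum hp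
    obtain ⟨UY, UZ, M, L, h1, h2, h3, h4, h5⟩ := role_lemmaR
      (Y := Fin (q - 1) → Fin n) (R := a) (D1 := d) (D2 := a) (w := q - 1)
      (fun y => univ.image y) (fun y => by
        refine card_image_le.trans ?_
        rw [card_univ, Fintype.card_fin])
      (P.image (fun t => (t p.1, (fun v => t (e v)), t p.2)))
      (fun hmix => hcon (copy_mixR_of_hasMix H c hp e he he1 he2 hmix))
    refine ⟨UY, UZ, M, L, ⟨h1, h2, h3, h4⟩, ?_⟩
    set T := (univ : Finset (Fin (q + 1) → Fin n)).filter (fun t => t ∈ P ∧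
        (∀ u, u ≠ p.1 → u ≠ p.2 → t u ∉ UY) ∧ t p.2 ∉ UZ ∧
        (∀ u, u ≠ p.1 → u ≠ p.2 → t u ∉ M (t p.1)) ∧ t p.2 ∉ L (t p.1)) with hT
    have h6 := h5 (T.image (fun t => (t p.1, (fun v => t (e v)), t p.2)))
      (by
        intro s hs
        obtain ⟨t, ht, rfl⟩ := mem_image.mp hs
        exact mem_image_of_mem _ (mem_filter.mp ht).2.1)
      (by
        intro s hs
        obtain ⟨t, ht, rfl⟩ := mem_image.mp hs
        have ht' := (mem_filter.mp ht).2
        refine ⟨?_, ht'.2.2.1, ?_, ht'.2.2.2.2⟩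
        · rw [disjoint_left]
          intro x hx
          obtain ⟨v, _, rfl⟩ := mem_image.mp hx
          exact ht'.2.1 _ (he1 v).1 (he1 v).2
        · rw [disjoint_left]
          intro x hx
          obtain ⟨v, _, rfl⟩ := mem_image.mp hx
          exact ht'.2.2.2.1 _ (he1 v).1 (he1 v).2)
    have h7 : (T.image (fun t => (t p.1, (fun v => t (e v)), t p.2))).card = T.card := by
      apply card_image_of_injective
      intro t t' heq
      simp only [Prod.mk.injEq] at heq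
      funext u
      rcases he2 u with h8 | h8 | ⟨v, h8⟩
      · rw [h8]; exact heq.1
      · rw [h8]; exact heq.2.2
      · rw [← h8]; exact congrFun heq.2.1 v
    rw [h7] at h6
    refine h6.trans (le_of_eq ?_)
    rw [Fintype.card_fun, Fintype.card_fin, Fintype.card_fin]
    congr 1
    rw [← pow_succ']
    congr 1
    omega
  choose! UY UZ M L hbd hexc using hrole
  -- combined sets
  set S : ℕ := (q + 1) ^ 2 * q with hS
  set VM : Finset (Fin n) := I.biUnion UY with hVM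
  set VL : Finset (Fin n) := VM ∪ I.biUnion UZ with hVL
  let MD : Fin n → Finset (Fin n) := fun v => I.biUnion (fun p => M p v)
  let NE : Fin n → Finset (Fin n) := fun v => MD v ∪ I.biUnion (fun p => L p v)
  have hI : ∀ p ∈ I, p.1 ≠ p.2 := fun p hp => (mem_filter.mp hp).2
  have hW : ∀ {x y : ℕ}, x ≤ y → I.card * x ≤ (q + 1) ^ 2 * y := fun {x y} hxy =>
    Nat.mul_le_mul hIcard hxy
  have hwq : w + 1 = q := by omega
  have hGMc : VM.card ≤ (q + 1) ^ 2 * (a * (d * w)) := by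
    refine (card_biUnion_le_card_mul _ _ _ (fun p hp => (hbd p (hI p hp)).1)).trans ?_
    exact hW le_rfl
  have hUZc : (I.biUnion UZ).card ≤ (q + 1) ^ 2 * (a * (d * a)) := by
    refine (card_biUnion_le_card_mul _ _ _ (fun p hp => (hbd p (hI p hp)).2.1)).trans ?_
    exact hW le_rfl
  have hMDc : ∀ v, (MD v).card ≤ (q + 1) ^ 2 * (d * w) := by
    intro v
    refine (card_biUnion_le_card_mul _ _ _ (fun p hp => (hbd p (hI p hp)).2.2.1 v)).trans ?_
    exact hW le_rfl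
  have hLc : ∀ v, (I.biUnion (fun p => L p v)).card ≤ (q + 1) ^ 2 * (d * a) := by
    intro v
    refine (card_biUnion_le_card_mul _ _ _ (fun p hp => (hbd p (hI p hp)).2.2.2 v)).trans ?_
    exact hW le_rfl
  have hVM' : VM.card ≤ S * (a * d) := by
    refine hGMc.trans ?_
    rw [hS]
    calc (q + 1) ^ 2 * (a * (d * w)) ≤ (q + 1) ^ 2 * (a * (d * q)) := by
          apply Nat.mul_le_mul_left
          apply Nat.mul_le_mul_left
          apply Nat.mul_le_mul_left
          omega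
      _ = (q + 1) ^ 2 * q * (a * d) := by ring
  have hada : a * d ≤ a ^ 2 * d := by
    calc a * d = 1 * (a * d) := (one_mul _).symm
      _ ≤ a * (a * d) := Nat.mul_le_mul_right _ ha
      _ = a ^ 2 * d := by ring
  have hdad : d ≤ a * d := Nat.le_mul_of_pos_left d ha
  have hVL' : VL.card ≤ S * (a ^ 2 * d) := by
    refine (card_union_le _ _).trans ?_
    calc VM.card + (I.biUnion UZ).card
        ≤ (q + 1) ^ 2 * (a * (d * w)) + (q + 1) ^ 2 * (a * (d * a)) :=
          Nat.add_le_add hGMc hUZc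
      _ = (q + 1) ^ 2 * (w * (a * d) + a ^ 2 * d) := by ring
      _ ≤ (q + 1) ^ 2 * (w * (a ^ 2 * d) + a ^ 2 * d) := by
          apply Nat.mul_le_mul_left
          apply Nat.add_le_add_right
          exact Nat.mul_le_mul_left _ hada
      _ = (q + 1) ^ 2 * ((w + 1) * (a ^ 2 * d)) := by ring
      _ = S * (a ^ 2 * d) := by rw [hwq, hS]; ring
  have hMD' : ∀ v, (MD v).card ≤ S * d := by
    intro v
    refine (hMDc v).trans ?_
    rw [hS]
    calc (q + 1) ^ 2 * (d * w) ≤ (q + 1) ^ 2 * (d * q) := by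
          apply Nat.mul_le_mul_left
          apply Nat.mul_le_mul_left
          omega
      _ = (q + 1) ^ 2 * q * d := by ring
  have hNE' : ∀ v, (NE v).card ≤ S * (a * d) := by
    intro v
    refine (card_union_le _ _).trans ?_
    calc (MD v).card + (I.biUnion (fun p => L p v)).card
        ≤ (q + 1) ^ 2 * (d * w) + (q + 1) ^ 2 * (d * a) := Nat.add_le_add (hMDc v) (hLc v)
      _ = (q + 1) ^ 2 * (w * d + a * d) := by ring
      _ ≤ (q + 1) ^ 2 * (w * (a * d) + a * d) := by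
          apply Nat.mul_le_mul_left
          apply Nat.add_le_add_right
          exact Nat.mul_le_mul_left _ hdad
      _ = (q + 1) ^ 2 * ((w + 1) * (a * d)) := by ring
      _ = S * (a * d) := by rw [hwq, hS]; ring
  -- sets of tuples
  let F : Finset (Fin (q + 1) → Fin n) := univ
  let Exc : Fin (q + 1) × Fin (q + 1) → Finset (Fin (q + 1) → Fin n) := fun p =>
    univ.filter (fun t => t ∈ P ∧
        (∀ u, u ≠ p.1 → u ≠ p.2 → t u ∉ UY p) ∧ t p.2 ∉ UZ p ∧
        (∀ u, u ≠ p.1 → u ≠ p.2 → t u ∉ M p (t p.1)) ∧ t p.2 ∉ L p (t p.1))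
  let K1 : Fin (q + 1) × Fin (q + 1) → Finset (Fin (q + 1) → Fin n) := fun p =>
    F.filter (fun t => t p.1 ∈ VM ∧ t p.2 ∈ VM)
  let K2 : Fin (q + 1) × Fin (q + 1) → Finset (Fin (q + 1) → Fin n) := fun p =>
    F.filter (fun t => t p.1 ∈ VL ∧ t p.2 ∈ MD (t p.1))
  let K5 : Fin (q + 1) × Fin (q + 1) → Finset (Fin (q + 1) → Fin n) := fun p =>
    F.filter (fun t => (∀ u, u ≠ p.2 → t u ∈ VL) ∧ t p.2 ∈ NE (t p.1))
  let K6 : Fin (q + 1) × Fin (q + 1) → Finset (Fin (q + 1) → Fin n) := fun p =>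
    F.filter (fun t => t p.1 ∈ VM ∧ t p.2 ∈ NE (t p.1))
  let J : Finset (Fin (q + 1) × Fin (q + 1) × Fin (q + 1) × Fin (q + 1)) :=
    univ.filter (fun p => p.1 ≠ p.2.2.1 ∧ p.2.1 ≠ p.1 ∧ p.2.1 ≠ p.2.2.1 ∧ p.2.2.2 ≠ p.2.2.1)
  let K3 : Fin (q + 1) × Fin (q + 1) × Fin (q + 1) × Fin (q + 1) →
      Finset (Fin (q + 1) → Fin n) := fun p =>
    F.filter (fun t => t p.1 ∈ NE (t p.2.1) ∧ t p.2.2.1 ∈ NE (t p.2.2.2))
  have hcover : P ⊆ I.biUnion (fun p => Exc p ∪ (K1 p ∪ (K2 p ∪ (K5 p ∪ K6 p)))) ∪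
      (J.biUnion K3 ∪ Fintype.piFinset (fun _ : Fin (q + 1) => VL)) := by
    intro t ht
    by_cases hex : ∃ p ∈ I, t ∈ Exc p
    · obtain ⟨p, hp, hpt⟩ := hex
      exact mem_union_left _ (mem_biUnion.mpr ⟨p, hp, mem_union_left _ hpt⟩)
    push Not at hex
    have hH : ∀ i j : Fin (q + 1), i ≠ j → (∃ u, u ≠ i ∧ u ≠ j ∧ t u ∈ VM) ∨ t j ∈ VL ∨
        (∃ u, u ≠ i ∧ u ≠ j ∧ t u ∈ MD (t i)) ∨ t j ∈ NE (t i) := by
      intro i j hij
      have hp : ((i, j) : Fin (q + 1) × Fin (q + 1)) ∈ I := mem_filter.mpr ⟨mem_univ _, hij⟩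
      have h1 := hex _ hp
      have h2 : ¬ (t ∈ P ∧ (∀ u, u ≠ i → u ≠ j → t u ∉ UY (i, j)) ∧ t j ∉ UZ (i, j) ∧
        (∀ u, u ≠ i → u ≠ j → t u ∉ M (i, j) (t i)) ∧ t j ∉ L (i, j) (t i)) :=
        fun h' => h1 (mem_filter.mpr ⟨mem_univ _, h'⟩)
      by_contra hno
      push Not at hno
      obtain ⟨n1, n2, n3, n4⟩ := hno
      apply h2
      refine ⟨ht, ?_, ?_, ?_, ?_⟩
      · intro u hui huj hu
        exact n1 u hui huj (mem_biUnion.mpr ⟨(i, j), hp, hu⟩)
      · intro hu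
        exact n2 (mem_union_right _ (mem_biUnion.mpr ⟨(i, j), hp, hu⟩))
      · intro u hui huj hu
        exact n3 u hui huj (mem_biUnion.mpr ⟨(i, j), hp, hu⟩)
      · intro hu
        exact n4 (mem_union_right _ (mem_biUnion.mpr ⟨(i, j), hp, hu⟩))
    have hF : t ∈ F := mem_univ _
    rcases cert_logicR hq (fun i => t i ∈ VM) (fun i => t i ∈ VL) (fun i j => t j ∈ MD (t i))
      (fun i j => t j ∈ NE (t i)) (fun i hi => mem_union_left _ hi)
      (fun i j hi => mem_union_left _ hi) hH with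
      ⟨i, j, hij, h1, h2⟩ | ⟨i, j, hij, h1, h2⟩ | ⟨x, x', y, y', hJ, h1, h2⟩ | h1 |
      ⟨i, j, hij, h1, h2⟩ | ⟨i, j, hij, h1, h2⟩
    · apply mem_union_left
      refine mem_biUnion.mpr ⟨(i, j), mem_filter.mpr ⟨mem_univ _, hij⟩, ?_⟩
      exact mem_union_right _ (mem_union_left _ (mem_filter.mpr ⟨hF, h1, h2⟩))
    · apply mem_union_left
      refine mem_biUnion.mpr ⟨(i, j), mem_filter.mpr ⟨mem_univ _, hij⟩, ?_⟩
      exact mem_union_right _ (mem_union_right _ (mem_union_left _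
        (mem_filter.mpr ⟨hF, h1, h2⟩)))
    · apply mem_union_right
      apply mem_union_left
      exact mem_biUnion.mpr ⟨(x, x', y, y'), mem_filter.mpr ⟨mem_univ _, hJ⟩,
        mem_filter.mpr ⟨hF, h1, h2⟩⟩
    · apply mem_union_right
      apply mem_union_right
      rw [Fintype.mem_piFinset]
      exact h1
    · apply mem_union_left
      refine mem_biUnion.mpr ⟨(i, j), mem_filter.mpr ⟨mem_univ _, hij⟩, ?_⟩
      exact mem_union_right _ (mem_union_right _ (mem_union_right _ (mem_union_left _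
        (mem_filter.mpr ⟨hF, h1, h2⟩))))
    · apply mem_union_left
      refine mem_biUnion.mpr ⟨(i, j), mem_filter.mpr ⟨mem_univ _, hij⟩, ?_⟩
      exact mem_union_right _ (mem_union_right _ (mem_union_right _ (mem_union_right _
        (mem_filter.mpr ⟨hF, h1, h2⟩))))
  -- the counting
  set X1 : ℕ := a * n ^ q with hX1
  set X2 : ℕ := (a * d) ^ 2 * n ^ (q - 1) with hX2
  set X3 : ℕ := (a ^ 2 * d) ^ (q + 1) with hX3
  have b0 : ∀ p ∈ I, (Exc p).card ≤ 2 * X1 := by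
    intro p hp
    refine (hexc p (hI p hp)).trans (le_of_eq ?_)
    rw [hX1]; ring
  have b1 : ∀ p ∈ I, (K1 p).card ≤ S ^ 2 * X2 := by
    intro p hp
    refine (card_one_dep hn VM hVM' (fun _ => VM) (fun _ => hVM') p.1 p.2 (hI p hp)).trans
      (le_of_eq ?_)
    rw [hX2]; ring
  have b2 : ∀ p ∈ I, (K2 p).card ≤ S ^ 2 * X2 := by
    intro p hp
    refine (card_one_dep hn VL hVL' MD hMD' p.1 p.2 (hI p hp)).trans (le_of_eq ?_)
    rw [hX2]; ring
  have b6 : ∀ p ∈ I, (K6 p).card ≤ S ^ 2 * X2 := by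
    intro p hp
    refine (card_one_dep hn VM hVM' NE hNE' p.1 p.2 (hI p hp)).trans (le_of_eq ?_)
    rw [hX2]; ring
  have b5 : ∀ p ∈ I, (K5 p).card ≤ S ^ (q + 1) * X3 := by
    intro p hp
    refine (card_all_dep hn VL hVL' NE hNE' p.1 p.2 (hI p hp)).trans ?_
    calc (S * (a ^ 2 * d)) ^ q * (S * (a * d)) ≤ (S * (a ^ 2 * d)) ^ q * (S * (a ^ 2 * d)) :=
          Nat.mul_le_mul_left _ (Nat.mul_le_mul_left _ hada)
      _ = (S * (a ^ 2 * d)) ^ (q + 1) := (pow_succ _ _).symm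
      _ = S ^ (q + 1) * X3 := by rw [mul_pow, hX3]
  have b3 : ∀ p ∈ J, (K3 p).card ≤ S ^ 2 * X2 := by
    intro p hp
    have hp' := (mem_filter.mp hp).2
    refine (card_two_dep hn NE hNE' p.1 p.2.1 p.2.2.1 p.2.2.2 hp'.1 hp'.2.1 hp'.2.2.1
      hp'.2.2.2).trans (le_of_eq ?_)
    rw [hX2]; ring
  have hJcard : J.card ≤ ((q + 1) ^ 2) ^ 2 := by
    refine (card_le_univ _).trans ?_
    rw [Fintype.card_prod, Fintype.card_prod, Fintype.card_prod, Fintype.card_fin]
    apply le_of_eq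
    ring
  have b4 : (Fintype.piFinset (fun _ : Fin (q + 1) => VL)).card ≤ S ^ (q + 1) * X3 := by
    rw [Fintype.card_piFinset, prod_const, card_univ, Fintype.card_fin]
    calc VL.card ^ (q + 1) ≤ (S * (a ^ 2 * d)) ^ (q + 1) := Nat.pow_le_pow_left hVL' _
      _ = S ^ (q + 1) * X3 := by rw [mul_pow, hX3]
  set W : ℕ := (q + 1) ^ 2 with hWdef
  have hW9 : 9 ≤ W := by
    rw [hWdef]
    calc 9 = 3 ^ 2 := by norm_num
      _ ≤ (q + 1) ^ 2 := Nat.pow_le_pow_left (by omega) 2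
  have hS1 : 1 ≤ S := by
    rw [hS]
    exact Nat.one_le_iff_ne_zero.mpr (by positivity)
  have hPcard : P.card ≤ cZ q * (X1 + X2 + X3) := by
    have t1 : (I.biUnion (fun p => Exc p ∪ (K1 p ∪ (K2 p ∪ (K5 p ∪ K6 p))))).card ≤
        W * (2 * X1 + 3 * (S ^ 2 * X2) + S ^ (q + 1) * X3) := by
      refine (card_biUnion_le_card_mul _ _
        (2 * X1 + 3 * (S ^ 2 * X2) + S ^ (q + 1) * X3) (fun p hp => ?_)).trans
        (Nat.mul_le_mul_right _ hIcard)
      have u1 := card_union_le (Exc p) (K1 p ∪ (K2 p ∪ (K5 p ∪ K6 p)))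
      have u2 := card_union_le (K1 p) (K2 p ∪ (K5 p ∪ K6 p))
      have u3 := card_union_le (K2 p) (K5 p ∪ K6 p)
      have u4 := card_union_le (K5 p) (K6 p)
      have v0 := b0 p hp
      have v1 := b1 p hp
      have v2 := b2 p hp
      have v5 := b5 p hp
      have v6 := b6 p hp
      omega
    have t2 : (J.biUnion K3).card ≤ W ^ 2 * (S ^ 2 * X2) := by
      refine (card_biUnion_le_card_mul _ _ (S ^ 2 * X2) b3).trans
        (Nat.mul_le_mul_right _ hJcard)
    have t3 : P.card ≤ W * (2 * X1 + 3 * (S ^ 2 * X2) + S ^ (q + 1) * X3) +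
        (W ^ 2 * (S ^ 2 * X2) + S ^ (q + 1) * X3) := by
      refine (card_le_card hcover).trans ((card_union_le _ _).trans ?_)
      apply Nat.add_le_add t1
      exact (card_union_le _ _).trans (Nat.add_le_add t2 b4)
    refine t3.trans ?_
    have hSS : S ^ 2 ≤ S ^ (q + 1) := Nat.pow_le_pow_right hS1 (by omega)
    have hS0 : 1 ≤ S ^ (q + 1) := Nat.one_le_pow _ _ hS1
    have hZ : cZ q = 4 * W ^ 2 * S ^ (q + 1) := rfl
    rw [hZ]
    have w1 : W * (2 * X1) ≤ 4 * W ^ 2 * S ^ (q + 1) * X1 := by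
      have : 2 * W ≤ 4 * W ^ 2 * S ^ (q + 1) := by nlinarith
      calc W * (2 * X1) = (2 * W) * X1 := by ring
        _ ≤ _ := Nat.mul_le_mul_right _ this
    have w2 : W * (3 * (S ^ 2 * X2)) + W ^ 2 * (S ^ 2 * X2) ≤
        4 * W ^ 2 * S ^ (q + 1) * X2 := by
      have : (3 * W + W ^ 2) * S ^ 2 ≤ (4 * W ^ 2) * S ^ (q + 1) := by
        apply Nat.mul_le_mul _ hSS
        nlinarith
      calc W * (3 * (S ^ 2 * X2)) + W ^ 2 * (S ^ 2 * X2) = ((3 * W + W ^ 2) * S ^ 2) * X2 := by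
            ring
        _ ≤ _ := Nat.mul_le_mul_right _ this
    have w3 : W * (S ^ (q + 1) * X3) + S ^ (q + 1) * X3 ≤ 4 * W ^ 2 * S ^ (q + 1) * X3 := by
      have : (W + 1) * S ^ (q + 1) ≤ (4 * W ^ 2) * S ^ (q + 1) := by
        apply Nat.mul_le_mul_right
        nlinarith
      calc W * (S ^ (q + 1) * X3) + S ^ (q + 1) * X3 = ((W + 1) * S ^ (q + 1)) * X3 := by ring
        _ ≤ _ := Nat.mul_le_mul_right _ this
    calc W * (2 * X1 + 3 * (S ^ 2 * X2) + S ^ (q + 1) * X3) +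
        (W ^ 2 * (S ^ 2 * X2) + S ^ (q + 1) * X3)
        = W * (2 * X1) + (W * (3 * (S ^ 2 * X2)) + W ^ 2 * (S ^ 2 * X2)) +
          (W * (S ^ (q + 1) * X3) + S ^ (q + 1) * X3) := by ring
      _ ≤ 4 * W ^ 2 * S ^ (q + 1) * X1 + 4 * W ^ 2 * S ^ (q + 1) * X2 +
          4 * W ^ 2 * S ^ (q + 1) * X3 := Nat.add_le_add (Nat.add_le_add w1 w2) w3
      _ = 4 * W ^ 2 * S ^ (q + 1) * (X1 + X2 + X3) := by ring
  have h5 : H.card ≤ (q + 1) ^ (q + 1) * (cZ q * (X1 + X2 + X3)) :=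
    hc.trans (Nat.mul_le_mul_left _ hPcard)
  omega

end GMixR2

end Pool.Agent.Lib.MP_9dddc4_co
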