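import Mathlib

/-!
Sums of powers and the splitting lemma used for the upper bounds.
-/

namespace Pool.Agent.Lib.MP_9dddc4_co

open Finset

section GSum

lemma sum_rpow_small (s : ℝ) (hs0 : 0 ≤ s) (hs1 : s < 1) (E : ℕ) :
    ∑ e ∈ Ioc 0 E, (e : ℝ) ^ (-s) ≤ (E : ℝ) ^ (1 - s) / (1 - s) := by
  have hp : 0 < 1 - s := by linarith
  induction E with
  | zero =>
    rw [Ioc_self, sum_empty]
    positivity
  | succ E ih =>
    have hI : Ioc 0 (E + 1) = insert (E + 1) (Ioc 0 E) := by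
      ext j
      simp only [mem_Ioc, mem_insert]
      omega
    rw [hI, sum_insert (by simp)]
    have hE : (0 : ℝ) < (E : ℝ) + 1 := by positivity
    have key : (E : ℝ) ^ (1 - s) ≤ ((E : ℝ) + 1) ^ (1 - s) - (1 - s) * ((E : ℝ) + 1) ^ (-s) := by
      have h1 : (E : ℝ) = ((E : ℝ) + 1) * (1 + -(1 / ((E : ℝ) + 1))) := by
        field_simp
        ring
      have h2 : (1 + -(1 / ((E : ℝ) + 1))) ^ (1 - s) ≤ 1 + (1 - s) * -(1 / ((E : ℝ) + 1)) := by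
        apply rpow_one_add_le_one_add_mul_self
        · have : 1 / ((E : ℝ) + 1) ≤ 1 := by
            rw [div_le_one hE]
            have : (0 : ℝ) ≤ E := Nat.cast_nonneg _
            linarith
          linarith
        · exact hp.le
        · linarith
      have h3 : 0 ≤ 1 + -(1 / ((E : ℝ) + 1)) := by
        have : 1 / ((E : ℝ) + 1) ≤ 1 := by
          rw [div_le_one hE]
          have : (0 : ℝ) ≤ E := Nat.cast_nonneg _
          linarith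
        linarith
      have h4 : ((E : ℝ) + 1) ^ (-s) = ((E : ℝ) + 1) ^ (1 - s) * (1 / ((E : ℝ) + 1)) := by
        rw [show (-s : ℝ) = (1 - s) - 1 by ring, Real.rpow_sub_one hE.ne']
        ring
      calc (E : ℝ) ^ (1 - s) = ((E : ℝ) + 1) ^ (1 - s) * (1 + -(1 / ((E : ℝ) + 1))) ^ (1 - s) := by
            conv_lhs => rw [h1]
            rw [Real.mul_rpow hE.le h3]
        _ ≤ ((E : ℝ) + 1) ^ (1 - s) * (1 + (1 - s) * -(1 / ((E : ℝ) + 1))) :=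
            mul_le_mul_of_nonneg_left h2 (by positivity)
        _ = ((E : ℝ) + 1) ^ (1 - s) - (1 - s) * ((E : ℝ) + 1) ^ (-s) := by
            rw [h4]; ring
    push_cast
    have h5 : (E : ℝ) ^ (1 - s) / (1 - s) ≤
        ((E : ℝ) + 1) ^ (1 - s) / (1 - s) - ((E : ℝ) + 1) ^ (-s) := by
      rw [div_le_iff₀ hp]
      calc (E : ℝ) ^ (1 - s) ≤ _ := key
        _ = (((E : ℝ) + 1) ^ (1 - s) / (1 - s) - ((E : ℝ) + 1) ^ (-s)) * (1 - s) := by
            field_simp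
    linarith

lemma rpow_step (u : ℝ) (hu : 0 < u) (e : ℕ) (he : 1 ≤ e) :
    u * ((e : ℝ) + 1) ^ (-(u + 1)) ≤ (e : ℝ) ^ (-u) - ((e : ℝ) + 1) ^ (-u) := by
  have he0 : (0 : ℝ) < e := by exact_mod_cast he
  have he1 : (0 : ℝ) < (e : ℝ) + 1 := by positivity
  have h1 : (e : ℝ) ^ (-u) = ((e : ℝ) + 1) ^ (-u) * (((e : ℝ) + 1) / e) ^ u := by
    rw [Real.div_rpow he1.le he0.le, Real.rpow_neg he1.le, Real.rpow_neg he0.le]
    have : ((e : ℝ) + 1) ^ u ≠ 0 := (Real.rpow_pos_of_pos he1 u).ne'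
    field_simp
  have h2 : 1 + u * (1 / ((e : ℝ) + 1)) ≤ (((e : ℝ) + 1) / e) ^ u := by
    have hx : (0 : ℝ) < ((e : ℝ) + 1) / e := by positivity
    rw [Real.rpow_def_of_pos hx]
    have h3 : 1 - (((e : ℝ) + 1) / e)⁻¹ ≤ Real.log (((e : ℝ) + 1) / e) :=
      Real.one_sub_inv_le_log_of_pos hx
    have h4 : 1 - (((e : ℝ) + 1) / e)⁻¹ = 1 / ((e : ℝ) + 1) := by
      field_simp
      ring
    rw [h4] at h3
    have h5 := Real.add_one_le_exp (Real.log (((e : ℝ) + 1) / e) * u)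
    have h6 : u * (1 / ((e : ℝ) + 1)) ≤ Real.log (((e : ℝ) + 1) / e) * u := by
      rw [mul_comm]
      exact mul_le_mul_of_nonneg_right h3 hu.le
    linarith
  have h7 : ((e : ℝ) + 1) ^ (-(u + 1)) = ((e : ℝ) + 1) ^ (-u) * (1 / ((e : ℝ) + 1)) := by
    rw [show (-(u + 1) : ℝ) = (-u) - 1 by ring, Real.rpow_sub_one he1.ne']
    ring
  rw [h1, h7]
  have h8 : 0 < ((e : ℝ) + 1) ^ (-u) := Real.rpow_pos_of_pos he1 _
  nlinarith [mul_le_mul_of_nonneg_left h2 h8.le]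

lemma sum_rpow_large (p : ℝ) (hp : 1 < p) (E N : ℕ) (hE : 1 ≤ E) :
    ∑ e ∈ Ioc E N, (e : ℝ) ^ (-p) ≤ (E : ℝ) ^ (1 - p) / (p - 1) := by
  have hu : 0 < p - 1 := by linarith
  have hmain : ∀ N, E ≤ N → ∑ e ∈ Ioc E N, (e : ℝ) ^ (-p) ≤
      (E : ℝ) ^ (1 - p) / (p - 1) - (N : ℝ) ^ (1 - p) / (p - 1) := by
    intro N hN
    induction N, hN using Nat.le_induction with
    | base =>
      rw [Ioc_self, sum_empty]
      linarith
    | succ N hN ih =>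
      have hI : Ioc E (N + 1) = insert (N + 1) (Ioc E N) := by
        ext j
        simp only [mem_Ioc, mem_insert]
        omega
      rw [hI, sum_insert (by simp)]
      have h1 := rpow_step (p - 1) hu N (by omega)
      rw [show (-(p - 1 + 1) : ℝ) = -p by ring, show (-(p - 1) : ℝ) = 1 - p by ring] at h1
      push_cast
      have h2 : ((N : ℝ) + 1) ^ (-p) ≤ (N : ℝ) ^ (1 - p) / (p - 1) -
          ((N : ℝ) + 1) ^ (1 - p) / (p - 1) := by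
        rw [← sub_div, le_div_iff₀ hu]
        linarith
      linarith
  rcases le_total E N with h | h
  · have h1 := hmain N h
    have h2 : 0 ≤ (N : ℝ) ^ (1 - p) / (p - 1) := by positivity
    linarith
  · rw [Ioc_eq_empty_of_le h, sum_empty]
    positivity

lemma sum_split (N E1 E3 : ℕ) (g a b1 b2 c : ℕ → ℝ)
    (ha0 : ∀ e, 0 ≤ a e) (hb10 : ∀ e, 0 ≤ b1 e) (hb20 : ∀ e, 0 ≤ b2 e) (hc0 : ∀ e, 0 ≤ c e)
    (ha : ∀ e, 0 < e → g e ≤ a e) (hb : ∀ e, 0 < e → g e ≤ b1 e + b2 e)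
    (hc : ∀ e, 0 < e → g e ≤ c e) :
    ∑ e ∈ Ioc 0 N, g e ≤ ∑ e ∈ Ioc 0 E1, a e + ∑ e ∈ Ioc E1 N, b1 e + ∑ e ∈ Ioc 0 E3, b2 e +
      ∑ e ∈ Ioc E3 N, c e := by
  classical
  have h1 : ∑ e ∈ Ioc 0 N, g e ≤ ∑ e ∈ Ioc 0 N, ((if e ≤ E1 then a e else 0) +
      (if E1 < e then b1 e else 0) + (if e ≤ E3 then b2 e else 0) +
      (if E3 < e then c e else 0)) := by
    apply sum_le_sum
    intro e he
    rw [mem_Ioc] at he
    by_cases h : e ≤ E1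
    · have h2 := ha e he.1
      have h3 := hb20 e
      have h4 := hc0 e
      rw [if_pos h, if_neg (by omega)]
      split_ifs <;> linarith
    · by_cases h' : e ≤ E3
      · rw [if_neg h, if_pos (by omega), if_pos h', if_neg (by omega)]
        linarith [hb e he.1]
      · rw [if_neg h, if_pos (by omega), if_neg h', if_pos (by omega)]
        linarith [hc e he.1, hb10 e]
  refine h1.trans ?_
  rw [sum_add_distrib, sum_add_distrib, sum_add_distrib]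
  rw [← sum_filter, ← sum_filter, ← sum_filter, ← sum_filter]
  apply add_le_add (add_le_add (add_le_add ?_ ?_) ?_) ?_
  · apply sum_le_sum_of_subset_of_nonneg
    · intro e he
      rw [mem_filter, mem_Ioc] at he
      rw [mem_Ioc]; omega
    · intro e _ _; exact ha0 e
  · apply sum_le_sum_of_subset_of_nonneg
    · intro e he
      rw [mem_filter, mem_Ioc] at he
      rw [mem_Ioc]; omega
    · intro e _ _; exact hb10 e
  · apply sum_le_sum_of_subset_of_nonneg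
    · intro e he
      rw [mem_filter, mem_Ioc] at he
      rw [mem_Ioc]; omega
    · intro e _ _; exact hb20 e
  · apply sum_le_sum_of_subset_of_nonneg
    · intro e he
      rw [mem_filter, mem_Ioc] at he
      rw [mem_Ioc]; omega
    · intro e _ _; exact hc0 e

/-- the power bookkeeping for the upper bound. -/
lemma sum_bound {n N : ℕ} (hn : 1 ≤ n) (K : ℝ) (hK : 0 ≤ K) (g : ℕ → ℝ)
    (α a1 β p s γ k a3 θ : ℝ) (ha1 : 0 ≤ a1) (ha3 : 0 ≤ a3) (hp : 3 / 2 ≤ p) (hs0 : 0 ≤ s)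
    (hs1 : s ≤ 1 / 2) (hk : 2 ≤ k)
    (hA : ∀ e : ℕ, 0 < e → g e ≤ K * ((n : ℝ) ^ α * (e : ℝ) ^ (-(1 / 2) : ℝ)))
    (hB : ∀ e : ℕ, 0 < e → g e ≤ K * ((n : ℝ) ^ β * (e : ℝ) ^ (-p) + (e : ℝ) ^ (-s)))
    (hC : ∀ e : ℕ, 0 < e → g e ≤ K * ((n : ℝ) ^ γ * (e : ℝ) ^ (-k)))
    (h1 : α + a1 / 2 ≤ θ) (h2 : β + a1 * (1 - p) ≤ θ) (h3 : a3 * (1 - s) ≤ θ)
    (h4 : γ + a3 * (1 - k) ≤ θ) :
    ∑ e ∈ Ioc 0 N, g e ≤ 11 * K * (n : ℝ) ^ θ := by
  have hx1 : (1 : ℝ) ≤ n := by exact_mod_cast hn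
  have hx0 : (0 : ℝ) < n := by linarith
  set E1 : ℕ := ⌈(n : ℝ) ^ a1⌉₊ with hE1
  set E3 : ℕ := ⌈(n : ℝ) ^ a3⌉₊ with hE3
  have hn1 : (1 : ℝ) ≤ (n : ℝ) ^ a1 := Real.one_le_rpow hx1 ha1
  have hn3 : (1 : ℝ) ≤ (n : ℝ) ^ a3 := Real.one_le_rpow hx1 ha3
  have hE1l : (n : ℝ) ^ a1 ≤ E1 := Nat.le_ceil _
  have hE3l : (n : ℝ) ^ a3 ≤ E3 := Nat.le_ceil _
  have hE1u : (E1 : ℝ) ≤ 2 * (n : ℝ) ^ a1 := by
    have := Nat.ceil_lt_add_one (a := (n : ℝ) ^ a1) (by positivity)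
    linarith
  have hE3u : (E3 : ℝ) ≤ 2 * (n : ℝ) ^ a3 := by
    have := Nat.ceil_lt_add_one (a := (n : ℝ) ^ a3) (by positivity)
    linarith
  have hE11 : 1 ≤ E1 := by
    have : (1 : ℝ) ≤ E1 := by linarith
    exact_mod_cast this
  have hE31 : 1 ≤ E3 := by
    have : (1 : ℝ) ≤ E3 := by linarith
    exact_mod_cast this
  have hE10 : (0 : ℝ) < E1 := by linarith
  have hE30 : (0 : ℝ) < E3 := by linarith
  have hsplit := sum_split N E1 E3 g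
    (fun e => K * ((n : ℝ) ^ α * (e : ℝ) ^ (-(1 / 2) : ℝ)))
    (fun e => K * ((n : ℝ) ^ β * (e : ℝ) ^ (-p)))
    (fun e => K * (e : ℝ) ^ (-s))
    (fun e => K * ((n : ℝ) ^ γ * (e : ℝ) ^ (-k)))
    (fun e => by positivity) (fun e => by positivity) (fun e => by positivity)
    (fun e => by positivity) hA
    (fun e he => by
      have := hB e he
      rw [mul_add] at this
      exact this) hC
  refine hsplit.trans ?_
  simp only [← mul_sum]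
  have hmono : ∀ {y : ℝ}, y ≤ θ → (n : ℝ) ^ y ≤ (n : ℝ) ^ θ := fun {y} hy =>
    Real.rpow_le_rpow_of_exponent_le hx1 hy
  have hpow2 : ∀ {y : ℝ}, 0 ≤ y → y ≤ 1 → (2 : ℝ) ^ y ≤ 2 := fun {y} _ hy1 => by
    calc (2 : ℝ) ^ y ≤ 2 ^ (1 : ℝ) := Real.rpow_le_rpow_of_exponent_le (by norm_num) hy1
      _ = 2 := by norm_num
  -- the four sums
  have s1 : (n : ℝ) ^ α * ∑ e ∈ Ioc 0 E1, (e : ℝ) ^ (-(1 / 2) : ℝ) ≤ 4 * (n : ℝ) ^ θ := by
    have h := sum_rpow_small (1 / 2) (by norm_num) (by norm_num) E1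
    have h' : (E1 : ℝ) ^ (1 - 1 / 2 : ℝ) ≤ 2 * (n : ℝ) ^ (a1 / 2) := by
      calc (E1 : ℝ) ^ (1 - 1 / 2 : ℝ) ≤ (2 * (n : ℝ) ^ a1) ^ (1 - 1 / 2 : ℝ) :=
            Real.rpow_le_rpow hE10.le hE1u (by norm_num)
        _ = 2 ^ (1 - 1 / 2 : ℝ) * (n : ℝ) ^ (a1 / 2) := by
            rw [Real.mul_rpow (by norm_num) (by positivity), ← Real.rpow_mul hx0.le]
            congr 2; ring
        _ ≤ 2 * (n : ℝ) ^ (a1 / 2) := by
            apply mul_le_mul_of_nonneg_right _ (by positivity)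
            exact hpow2 (by norm_num) (by norm_num)
    have h'' : ∑ e ∈ Ioc 0 E1, (e : ℝ) ^ (-(1 / 2) : ℝ) ≤ 4 * (n : ℝ) ^ (a1 / 2) := by
      refine h.trans ?_
      rw [div_le_iff₀ (by norm_num)]
      linarith
    calc (n : ℝ) ^ α * ∑ e ∈ Ioc 0 E1, (e : ℝ) ^ (-(1 / 2) : ℝ)
        ≤ (n : ℝ) ^ α * (4 * (n : ℝ) ^ (a1 / 2)) := mul_le_mul_of_nonneg_left h'' (by positivity)
      _ = 4 * (n : ℝ) ^ (α + a1 / 2) := by rw [Real.rpow_add hx0]; ring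
      _ ≤ 4 * (n : ℝ) ^ θ := by linarith [hmono h1]
  have s2 : (n : ℝ) ^ β * ∑ e ∈ Ioc E1 N, (e : ℝ) ^ (-p) ≤ 2 * (n : ℝ) ^ θ := by
    have h := sum_rpow_large p (by linarith) E1 N hE11
    have h' : (E1 : ℝ) ^ (1 - p) ≤ (n : ℝ) ^ (a1 * (1 - p)) := by
      calc (E1 : ℝ) ^ (1 - p) ≤ ((n : ℝ) ^ a1) ^ (1 - p) :=
            Real.rpow_le_rpow_of_nonpos (by positivity) hE1l (by linarith)
        _ = (n : ℝ) ^ (a1 * (1 - p)) := by rw [← Real.rpow_mul hx0.le]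
    have h'' : ∑ e ∈ Ioc E1 N, (e : ℝ) ^ (-p) ≤ 2 * (n : ℝ) ^ (a1 * (1 - p)) := by
      refine h.trans ?_
      rw [div_le_iff₀ (by linarith)]
      have h5 : 0 < (n : ℝ) ^ (a1 * (1 - p)) := by positivity
      nlinarith
    calc (n : ℝ) ^ β * ∑ e ∈ Ioc E1 N, (e : ℝ) ^ (-p)
        ≤ (n : ℝ) ^ β * (2 * (n : ℝ) ^ (a1 * (1 - p))) :=
          mul_le_mul_of_nonneg_left h'' (by positivity)
      _ = 2 * (n : ℝ) ^ (β + a1 * (1 - p)) := by rw [Real.rpow_add hx0]; ring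
      _ ≤ 2 * (n : ℝ) ^ θ := by linarith [hmono h2]
  have s3 : ∑ e ∈ Ioc 0 E3, (e : ℝ) ^ (-s) ≤ 4 * (n : ℝ) ^ θ := by
    have h := sum_rpow_small s hs0 (by linarith) E3
    have h' : (E3 : ℝ) ^ (1 - s) ≤ 2 * (n : ℝ) ^ (a3 * (1 - s)) := by
      calc (E3 : ℝ) ^ (1 - s) ≤ (2 * (n : ℝ) ^ a3) ^ (1 - s) :=
            Real.rpow_le_rpow hE30.le hE3u (by linarith)
        _ = 2 ^ (1 - s) * (n : ℝ) ^ (a3 * (1 - s)) := by
            rw [Real.mul_rpow (by norm_num) (by positivity), ← Real.rpow_mul hx0.le]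
        _ ≤ 2 * (n : ℝ) ^ (a3 * (1 - s)) := by
            apply mul_le_mul_of_nonneg_right _ (by positivity)
            exact hpow2 (by linarith) (by linarith)
    refine h.trans ?_
    rw [div_le_iff₀ (by linarith)]
    have h5 := hmono h3
    have h6 : 0 < (n : ℝ) ^ θ := by positivity
    nlinarith
  have s4 : (n : ℝ) ^ γ * ∑ e ∈ Ioc E3 N, (e : ℝ) ^ (-k) ≤ (n : ℝ) ^ θ := by
    have h := sum_rpow_large k (by linarith) E3 N hE31
    have h' : (E3 : ℝ) ^ (1 - k) ≤ (n : ℝ) ^ (a3 * (1 - k)) := by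
      calc (E3 : ℝ) ^ (1 - k) ≤ ((n : ℝ) ^ a3) ^ (1 - k) :=
            Real.rpow_le_rpow_of_nonpos (by positivity) hE3l (by linarith)
        _ = (n : ℝ) ^ (a3 * (1 - k)) := by rw [← Real.rpow_mul hx0.le]
    have h'' : ∑ e ∈ Ioc E3 N, (e : ℝ) ^ (-k) ≤ (n : ℝ) ^ (a3 * (1 - k)) := by
      refine h.trans ?_
      rw [div_le_iff₀ (by linarith)]
      have h5 : 0 < (n : ℝ) ^ (a3 * (1 - k)) := by positivity
      nlinarith
    calc (n : ℝ) ^ γ * ∑ e ∈ Ioc E3 N, (e : ℝ) ^ (-k)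
        ≤ (n : ℝ) ^ γ * (n : ℝ) ^ (a3 * (1 - k)) :=
          mul_le_mul_of_nonneg_left h'' (by positivity)
      _ = (n : ℝ) ^ (γ + a3 * (1 - k)) := by rw [Real.rpow_add hx0]
      _ ≤ (n : ℝ) ^ θ := hmono h4
  nlinarith [mul_le_mul_of_nonneg_left s1 hK, mul_le_mul_of_nonneg_left s2 hK,
    mul_le_mul_of_nonneg_left s3 hK, mul_le_mul_of_nonneg_left s4 hK]

end GSum

end Pool.Agent.Lib.MP_9dddc4_co
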