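import Mathlib
import Pool.Agent.Lib.MP_9dddc4_co.GSun
import Pool.Agent.Lib.MP_9dddc4_co.GSum

/-!
General `r` and large `k`: the upper bound.
-/

namespace Pool.Agent.Lib.MP_9dddc4_co

open Finset

section GUpper

lemma floor_ge_half {z : ℝ} (hz : 1 ≤ z) : z / 2 ≤ (⌊z⌋₊ : ℝ) := by
  have h1 := Nat.lt_floor_add_one z
  have h2 : (1 : ℝ) ≤ (⌊z⌋₊ : ℝ) := by
    have : 1 ≤ ⌊z⌋₊ := (Nat.one_le_floor_iff z).mpr hz
    exact_mod_cast this
  linarith

/-- constant for the sunflower bound -/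
noncomputable def cA (q : ℕ) : ℝ := 1 / (2 * ((q : ℝ) + 1) ^ (q + 5))

lemma cA_pos (q : ℕ) : 0 < cA q := by unfold cA; positivity

lemma common_A {q k n e : ℕ} (hq : 2 ≤ q) (hn : 1 ≤ n) (he : 0 < e)
    (H : Fin k → Finset (Finset (Fin n))) (hr : ∀ i, IsRGraph (q + 1) (H i))
    (hc : ∀ i, (H i).card = e) :
    ∃ m, CommonK H m ∧ cA q * Real.sqrt ((e : ℝ) / (n : ℝ) ^ (q - 1)) ≤ m := by
  set y : ℝ := (e : ℝ) / (n : ℝ) ^ (q - 1) with hy
  have hn0 : (0 : ℝ) < n := by exact_mod_cast hn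
  have he0 : (0 : ℝ) < e := by exact_mod_cast he
  have hy0 : 0 < y := by positivity
  set c : ℝ := (q : ℝ) + 1 with hc'
  have hc3 : 3 ≤ c := by
    have : (2 : ℝ) ≤ q := by exact_mod_cast hq
    rw [hc']; linarith
  set P : ℝ := c ^ (q + 5) with hP
  have hP0 : 0 < P := by positivity
  have hPc : c ^ 2 ≤ P := by
    rw [hP]; exact pow_le_pow_right₀ (by linarith) (by omega)
  set z : ℝ := 1 / P * Real.sqrt y with hz
  have hcA : cA q * Real.sqrt y = z / 2 := by
    unfold cA
    rw [hz, hP, hc']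
    field_simp
  rw [hcA]
  by_cases hz1 : 1 ≤ z
  · refine ⟨⌊z⌋₊, ?_, floor_ge_half hz1⟩
    have hs1 : 1 ≤ ⌊z⌋₊ := (Nat.one_le_floor_iff z).mpr hz1
    have hsz : (⌊z⌋₊ : ℝ) ≤ z := Nat.floor_le (by linarith)
    rw [← sunG_card q ⌊z⌋₊ (by omega)]
    apply commonK_of_copy
    intro i
    apply copy_sun hq (H i) (hr i)
    rw [hc i]
    have hsq : ((⌊z⌋₊ : ℝ)) ^ 2 ≤ 1 / P ^ 2 * y := by
      calc ((⌊z⌋₊ : ℝ)) ^ 2 ≤ z ^ 2 := pow_le_pow_left₀ (by positivity) hsz 2
        _ = 1 / P ^ 2 * y := by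
            rw [hz, mul_pow, Real.sq_sqrt hy0.le, one_div_pow]
    have hreal : ((q : ℝ) + 1) ^ (q + 1) * (((q : ℝ) + 1) ^ 4 *
        (((q : ℝ) * (⌊z⌋₊ : ℝ)) ^ 2 * (n : ℝ) ^ (q - 1))) < e := by
      have h1 : ((q : ℝ) + 1) ^ (q + 1) * (((q : ℝ) + 1) ^ 4 *
        (((q : ℝ) * (⌊z⌋₊ : ℝ)) ^ 2 * (n : ℝ) ^ (q - 1)))
          = (P * (q : ℝ) ^ 2 * (n : ℝ) ^ (q - 1)) * (⌊z⌋₊ : ℝ) ^ 2 := by
        rw [hP, hc']; ring
      rw [h1]
      calc (P * (q : ℝ) ^ 2 * (n : ℝ) ^ (q - 1)) * (⌊z⌋₊ : ℝ) ^ 2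
          ≤ (P * (q : ℝ) ^ 2 * (n : ℝ) ^ (q - 1)) * (1 / P ^ 2 * y) :=
            mul_le_mul_of_nonneg_left hsq (by positivity)
        _ = (q : ℝ) ^ 2 / P * e := by
            rw [hy]; field_simp
        _ < 1 * e := by
            apply mul_lt_mul_of_pos_right _ he0
            rw [div_lt_one hP0]
            have : (q : ℝ) ^ 2 < c ^ 2 := by
              rw [hc']
              have : (0 : ℝ) ≤ q := Nat.cast_nonneg _
              nlinarith
            linarith
        _ = e := one_mul _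
    have h2 : (((q + 1) ^ (q + 1) * ((q + 1) ^ 4 * ((q * ⌊z⌋₊) ^ 2 * n ^ (q - 1))) : ℕ) : ℝ)
        < (e : ℝ) := by
      push_cast
      exact hreal
    exact_mod_cast h2
  · push Not at hz1
    refine ⟨1, commonK_one H hr (fun i => by rw [hc i]; exact he), ?_⟩
    have : 0 ≤ z := by positivity
    push_cast
    linarith

/-- constant for the forest bound -/
noncomputable def cB (q : ℕ) : ℝ := (1 / (2 * ((q : ℝ) + 1) ^ (q + 3))) ^ 2 / 4

lemma cB_pos (q : ℕ) : 0 < cB q := by unfold cB; positivity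

lemma common_B {q k n e : ℕ} (hq : 1 ≤ q) (hn : 1 ≤ n) (he : 0 < e)
    (H : Fin k → Finset (Finset (Fin n))) (hr : ∀ i, IsRGraph (q + 1) (H i))
    (hc : ∀ i, (H i).card = e) :
    ∃ m, CommonK H m ∧
      cB q * (min ((e : ℝ) / (n : ℝ) ^ q) ((e : ℝ) ^ (1 / (2 * ((q : ℝ) + 1))))) ^ 2 ≤ m := by
  set M : ℝ := min ((e : ℝ) / (n : ℝ) ^ q) ((e : ℝ) ^ (1 / (2 * ((q : ℝ) + 1)))) with hM
  have hn0 : (0 : ℝ) < n := by exact_mod_cast hn
  have he0 : (0 : ℝ) < e := by exact_mod_cast he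
  have hM0 : 0 < M := by
    rw [hM]; apply lt_min <;> positivity
  set c : ℝ := (q : ℝ) + 1 with hc'
  have hc2 : 2 ≤ c := by
    have : (1 : ℝ) ≤ q := by exact_mod_cast hq
    rw [hc']; linarith
  have hc0 : 0 < c := by linarith
  set P : ℝ := c ^ (q + 1) with hP
  have hP1 : 1 ≤ P := by
    rw [hP]; exact one_le_pow₀ (by linarith)
  have hP0 : 0 < P := by linarith
  set β : ℝ := 1 / (2 * c ^ (q + 3)) with hβ
  have hβ' : β = 1 / (2 * (P * c ^ 2)) := by
    rw [hβ, hP]; ring
  have hβ0 : 0 < β := by positivity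
  have hβ1 : β ≤ 1 := by
    rw [hβ', div_le_one (by positivity)]
    nlinarith
  set z : ℝ := β * M with hz
  have hz0 : 0 < z := by positivity
  have hcB : cB q * M ^ 2 = z ^ 2 / 4 := by
    unfold cB
    rw [hz]
    ring
  rw [hcB]
  by_cases hz1 : 1 ≤ z
  · have hs1 : 1 ≤ ⌊z⌋₊ := (Nat.one_le_floor_iff z).mpr hz1
    have hsz : (⌊z⌋₊ : ℝ) ≤ z := Nat.floor_le (by linarith)
    have hsh := floor_ge_half hz1
    set R : ℕ := ⌊z⌋₊ with hR
    refine ⟨R * R, ?_, ?_⟩
    · rw [← forestG_card q R R]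
      apply commonK_of_copy
      intro i
      apply copy_forest (by omega) (H i) (hr i)
      rw [hc i]
      have hMe : M ^ (2 * (q + 1)) ≤ e := by
        have h1 : M ≤ (e : ℝ) ^ (1 / (2 * c)) := min_le_right _ _
        calc M ^ (2 * (q + 1)) ≤ ((e : ℝ) ^ (1 / (2 * c))) ^ (2 * (q + 1)) :=
              pow_le_pow_left₀ hM0.le h1 _
          _ = e := by
              rw [← Real.rpow_natCast, ← Real.rpow_mul he0.le]
              push_cast
              rw [hc', one_div_mul_cancel (by positivity), Real.rpow_one]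
      have hMn : M * (n : ℝ) ^ q ≤ e := by
        have h1 : M ≤ (e : ℝ) / (n : ℝ) ^ q := min_le_left _ _
        rwa [le_div_iff₀ (by positivity)] at h1
      have hR1 : ((R : ℝ) * R) ^ (q + 1) ≤ β ^ 2 * e := by
        calc ((R : ℝ) * R) ^ (q + 1) = (R : ℝ) ^ (2 * (q + 1)) := by rw [← sq, ← pow_mul]
          _ ≤ z ^ (2 * (q + 1)) := pow_le_pow_left₀ (by positivity) hsz _
          _ = β ^ (2 * (q + 1)) * M ^ (2 * (q + 1)) := by rw [hz, mul_pow]
          _ ≤ β ^ 2 * e := by
              apply mul_le_mul _ hMe (by positivity) (by positivity)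
              exact pow_le_pow_of_le_one hβ0.le hβ1 (by omega)
      have hR2 : ((R : ℝ) * q + R) * (n : ℝ) ^ q ≤ c * β * e := by
        calc ((R : ℝ) * q + R) * (n : ℝ) ^ q = c * (R * (n : ℝ) ^ q) := by rw [hc']; ring
          _ ≤ c * (z * (n : ℝ) ^ q) := by
              apply mul_le_mul_of_nonneg_left _ hc0.le
              apply mul_le_mul_of_nonneg_right hsz (by positivity)
          _ = c * β * (M * (n : ℝ) ^ q) := by rw [hz]; ring
          _ ≤ c * β * e := mul_le_mul_of_nonneg_left hMn (by positivity)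
      have hPb : P * c ^ 2 * β = 1 / 2 := by
        rw [hβ']; field_simp
      have hPb2 : P * β ^ 2 ≤ 1 / 8 := by
        have h1 : P * β ^ 2 = (P * c ^ 2 * β) * β / c ^ 2 := by field_simp
        rw [h1, hPb, div_le_iff₀ (by positivity)]
        nlinarith
      have hreal : ((q : ℝ) + 1) ^ (q + 1) * (((R : ℝ) * R) ^ (q + 1) + ((q : ℝ) + 1) *
          (((R : ℝ) * q + R) * (n : ℝ) ^ q)) < e := by
        calc ((q : ℝ) + 1) ^ (q + 1) * (((R : ℝ) * R) ^ (q + 1) + ((q : ℝ) + 1) *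
          (((R : ℝ) * q + R) * (n : ℝ) ^ q)) ≤ P * (β ^ 2 * e + c * (c * β * e)) := by
              apply mul_le_mul_of_nonneg_left _ hP0.le
              apply add_le_add hR1
              exact mul_le_mul_of_nonneg_left hR2 hc0.le
          _ = (P * β ^ 2 + P * c ^ 2 * β) * e := by ring
          _ ≤ (1 / 8 + 1 / 2) * e := by
              apply mul_le_mul_of_nonneg_right _ he0.le
              rw [hPb]; linarith
          _ < e := by linarith
      have h2 : (((q + 1) ^ (q + 1) * ((R * R) ^ (q + 1) + (q + 1) * ((R * q + R) * n ^ q)) :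
          ℕ) : ℝ) < (e : ℝ) := by
        push_cast
        exact hreal
      exact_mod_cast h2
    · push_cast
      nlinarith
  · push Not at hz1
    refine ⟨1, commonK_one H hr (fun i => by rw [hc i]; exact he), ?_⟩
    push_cast
    nlinarith

/-- constant for the random alignment bound -/
noncomputable def cC (q k : ℕ) : ℝ := 1 / (((q : ℝ) + 1) ^ (q + 1)) ^ k

lemma cC_pos (q k : ℕ) : 0 < cC q k := by unfold cC; positivity

lemma common_C {q k n e : ℕ} (hn : 1 ≤ n)
    (H : Fin k → Finset (Finset (Fin n))) (hr : ∀ i, IsRGraph (q + 1) (H i))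
    (hc : ∀ i, (H i).card = e) :
    ∃ m, CommonK H m ∧
      cC q k * ((e : ℝ) ^ k * (n : ℝ) ^ (q + 1) / (n : ℝ) ^ ((q + 1) * k)) ≤ m := by
  obtain ⟨m, hm, hle⟩ := random_align (r := q + 1) hn (Nat.succ_pos q) H hr
  refine ⟨m, hm, ?_⟩
  have hn0 : (0 : ℝ) < n := by exact_mod_cast hn
  have h1 : ∏ i, (H i).card = e ^ k := by
    rw [prod_congr rfl (fun i _ => hc i), prod_const, card_univ, Fintype.card_fin]
  rw [h1] at hle
  have h2 : ((e ^ k * n ^ (q + 1) : ℕ) : ℝ) ≤
      ((((q + 1) ^ (q + 1)) ^ k * n ^ ((q + 1) * k) * m : ℕ) : ℝ) := by exact_mod_cast hle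
  push_cast at h2
  unfold cC
  rw [one_div_mul_eq_div, div_div, div_le_iff₀ (by positivity)]
  linarith

theorem upper_general (q k : ℕ) (hq : 2 ≤ q) (hk : 2 ≤ k) (hqk : 3 * q ^ 2 + 1 ≤ (q + 1) * k) :
    ∃ C : ℝ, 0 < C ∧ ∀ n : ℕ, 1 ≤ n → (U k n (q + 1) : ℝ) ≤
      C * (n : ℝ) ^ (((q : ℝ) + 1) * q * (k - 1) / (((q : ℝ) + 1) * k - 1)) := by
  set K : ℝ := 1 / cA q + 1 / cB q + 1 / cC q k with hK
  have hKA : 1 / cA q ≤ K := by
    have := cB_pos q; have := cC_pos q k
    have h1 : 0 < 1 / cB q := by positivity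
    have h2 : 0 < 1 / cC q k := by positivity
    rw [hK]; linarith
  have hKB : 1 / cB q ≤ K := by
    have := cA_pos q; have := cC_pos q k
    have h1 : 0 < 1 / cA q := by positivity
    have h2 : 0 < 1 / cC q k := by positivity
    rw [hK]; linarith
  have hKC : 1 / cC q k ≤ K := by
    have := cA_pos q; have := cB_pos q
    have h1 : 0 < 1 / cA q := by positivity
    have h2 : 0 < 1 / cB q := by positivity
    rw [hK]; linarith
  have hK0 : 0 < K := lt_of_lt_of_le (by have := cA_pos q; positivity) hKA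
  refine ⟨11 * K, by positivity, ?_⟩
  intro n hn
  have hn0 : (0 : ℝ) < n := by exact_mod_cast hn
  set A : ℕ → ℝ := fun e => cA q * Real.sqrt ((e : ℝ) / (n : ℝ) ^ (q - 1)) with hA
  set B : ℕ → ℝ := fun e => cB q *
    (min ((e : ℝ) / (n : ℝ) ^ q) ((e : ℝ) ^ (1 / (2 * ((q : ℝ) + 1))))) ^ 2 with hB
  set Cc : ℕ → ℝ := fun e => cC q k *
    ((e : ℝ) ^ k * (n : ℝ) ^ (q + 1) / (n : ℝ) ^ ((q + 1) * k)) with hCc
  have hA0 : ∀ e : ℕ, 0 < e → 0 < A e := by
    intro e he
    have he0 : (0 : ℝ) < e := by exact_mod_cast he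
    have := cA_pos q
    simp only [hA]; positivity
  have hB0 : ∀ e : ℕ, 0 < e → 0 < B e := by
    intro e he
    have he0 : (0 : ℝ) < e := by exact_mod_cast he
    have := cB_pos q
    have h1 : 0 < min ((e : ℝ) / (n : ℝ) ^ q) ((e : ℝ) ^ (1 / (2 * ((q : ℝ) + 1)))) := by
      apply lt_min <;> positivity
    simp only [hB]; positivity
  have hC0 : ∀ e : ℕ, 0 < e → 0 < Cc e := by
    intro e he
    have he0 : (0 : ℝ) < e := by exact_mod_cast he
    have := cC_pos q k
    simp only [hCc]; positivity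
  have hU := U_le_sum (n := n) (k := k) (r := q + 1) (by omega)
    (fun e => max (A e) (max (B e) (Cc e)))
    (fun e he => lt_of_lt_of_le (hA0 e he) (le_max_left _ _))
    (by
      intro a b ha hab
      have ha0 : (0 : ℝ) < a := by exact_mod_cast ha
      have habR : (a : ℝ) ≤ b := by exact_mod_cast hab
      apply max_le_max
      · simp only [hA]
        apply mul_le_mul_of_nonneg_left _ (cA_pos q).le
        apply Real.sqrt_le_sqrt
        exact div_le_div_of_nonneg_right habR (by positivity)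
      · apply max_le_max
        · simp only [hB]
          apply mul_le_mul_of_nonneg_left _ (cB_pos q).le
          apply pow_le_pow_left₀
          · apply le_min <;> positivity
          · apply min_le_min
            · exact div_le_div_of_nonneg_right habR (by positivity)
            · exact Real.rpow_le_rpow ha0.le habR (by positivity)
        · simp only [hCc]
          apply mul_le_mul_of_nonneg_left _ (cC_pos q k).le
          apply div_le_div_of_nonneg_right _ (by positivity)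
          apply mul_le_mul_of_nonneg_right _ (by positivity)
          exact pow_le_pow_left₀ ha0.le habR k)
    (by
      intro e he H hr hc
      rcases le_total (A e) (max (B e) (Cc e)) with h1 | h1
      · rcases le_total (B e) (Cc e) with h2 | h2
        · obtain ⟨m, hm, hle⟩ := common_C hn H hr hc
          refine ⟨m, hm, ?_⟩
          rw [max_eq_right h1, max_eq_right h2]
          exact hle
        · obtain ⟨m, hm, hle⟩ := common_B (by omega) hn he H hr hc
          refine ⟨m, hm, ?_⟩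
          rw [max_eq_right h1, max_eq_left h2]
          exact hle
      · obtain ⟨m, hm, hle⟩ := common_A hq hn he H hr hc
        refine ⟨m, hm, ?_⟩
        rw [max_eq_left h1]
        exact hle)
  refine hU.trans ?_
  have hqR : (2 : ℝ) ≤ q := by exact_mod_cast hq
  have hkR : (2 : ℝ) ≤ k := by exact_mod_cast hk
  have hqkR : 3 * (q : ℝ) ^ 2 + 1 ≤ ((q : ℝ) + 1) * k := by exact_mod_cast hqk
  have hden : 0 < ((q : ℝ) + 1) * k - 1 := by nlinarith
  apply sum_bound hn K hK0.le _ (((q : ℝ) - 1) / 2) ((q : ℝ) + 1 / 3) (2 * q) 2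
    (1 / ((q : ℝ) + 1)) (((q : ℝ) + 1) * (k - 1)) k
    (((q : ℝ) + 1) ^ 2 * (k - 1) / (((q : ℝ) + 1) * k - 1))
  · positivity
  · have : (0 : ℝ) ≤ (k : ℝ) - 1 := by linarith
    positivity
  · norm_num
  · positivity
  · rw [div_le_iff₀ (by linarith)]
    linarith
  · exact hkR
  · -- the sunflower term
    intro e he
    have he0 : (0 : ℝ) < e := by exact_mod_cast he
    have h1 : 1 / max (A e) (max (B e) (Cc e)) ≤ 1 / A e :=
      one_div_le_one_div_of_le (hA0 e he) (le_max_left _ _)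
    refine h1.trans ?_
    have h2 : 1 / A e = 1 / cA q * ((n : ℝ) ^ (((q : ℝ) - 1) / 2) * (e : ℝ) ^ (-(1 / 2) : ℝ)) := by
      simp only [hA]
      rw [Real.sqrt_eq_rpow, Real.div_rpow he0.le (by positivity), Real.rpow_neg he0.le,
        ← Real.rpow_natCast, ← Real.rpow_mul hn0.le]
      have h3 : ((q - 1 : ℕ) : ℝ) * (1 / 2) = ((q : ℝ) - 1) / 2 := by
        rw [Nat.cast_sub (by omega)]; push_cast; ring
      rw [h3]
      have h4 : 0 < (n : ℝ) ^ (((q : ℝ) - 1) / 2) := by positivity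
      have h5 : 0 < (e : ℝ) ^ (1 / 2 : ℝ) := by positivity
      have h6 := cA_pos q
      field_simp
    rw [h2]
    exact mul_le_mul_of_nonneg_right hKA (by positivity)
  · -- the forest term
    intro e he
    have he0 : (0 : ℝ) < e := by exact_mod_cast he
    have h1 : 1 / max (A e) (max (B e) (Cc e)) ≤ 1 / B e :=
      one_div_le_one_div_of_le (hB0 e he) ((le_max_left _ _).trans (le_max_right _ _))
    refine h1.trans ?_
    have h2 : 1 / B e ≤ 1 / cB q * ((n : ℝ) ^ (2 * q : ℝ) * (e : ℝ) ^ (-2 : ℝ) +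
        (e : ℝ) ^ (-(1 / ((q : ℝ) + 1)))) := by
      simp only [hB]
      rw [← one_div_mul_one_div]
      apply mul_le_mul_of_nonneg_left _ (by have := cB_pos q; positivity)
      have h7 : (n : ℝ) ^ (2 * q : ℝ) * (e : ℝ) ^ (-2 : ℝ) = 1 / ((e : ℝ) / (n : ℝ) ^ q) ^ 2 := by
        rw [Real.rpow_neg he0.le]
        have : (n : ℝ) ^ (2 * q : ℝ) = ((n : ℝ) ^ q) ^ 2 := by
          rw [← pow_mul, ← Real.rpow_natCast]
          push_cast
          ring_nf
        rw [this]
        have h8 : (e : ℝ) ^ (2 : ℝ) = (e : ℝ) ^ 2 := by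
          rw [← Real.rpow_natCast]; norm_num
        rw [h8]
        field_simp
      have h9 : (e : ℝ) ^ (-(1 / ((q : ℝ) + 1))) =
          1 / ((e : ℝ) ^ (1 / (2 * ((q : ℝ) + 1)))) ^ 2 := by
        rw [Real.rpow_neg he0.le, ← Real.rpow_natCast, ← Real.rpow_mul he0.le, one_div]
        push_cast
        field_simp
      have hu : 0 < (e : ℝ) / (n : ℝ) ^ q := by positivity
      have hv : 0 < (e : ℝ) ^ (1 / (2 * ((q : ℝ) + 1))) := by positivity
      rw [h7, h9]
      have h10 : 0 < 1 / ((e : ℝ) / (n : ℝ) ^ q) ^ 2 := by positivity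
      have h11 : 0 < 1 / ((e : ℝ) ^ (1 / (2 * ((q : ℝ) + 1)))) ^ 2 := by positivity
      rcases le_total ((e : ℝ) / (n : ℝ) ^ q) ((e : ℝ) ^ (1 / (2 * ((q : ℝ) + 1)))) with h12 | h12
      · rw [min_eq_left h12]; linarith
      · rw [min_eq_right h12]; linarith
    refine h2.trans ?_
    exact mul_le_mul_of_nonneg_right hKB (by positivity)
  · -- the random term
    intro e he
    have he0 : (0 : ℝ) < e := by exact_mod_cast he
    have h1 : 1 / max (A e) (max (B e) (Cc e)) ≤ 1 / Cc e :=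
      one_div_le_one_div_of_le (hC0 e he) ((le_max_right _ _).trans (le_max_right _ _))
    refine h1.trans ?_
    have h2 : 1 / Cc e = 1 / cC q k * ((n : ℝ) ^ (((q : ℝ) + 1) * (k - 1)) *
        (e : ℝ) ^ (-(k : ℝ))) := by
      simp only [hCc]
      rw [Real.rpow_neg he0.le, Real.rpow_natCast]
      have h3 : (n : ℝ) ^ (((q : ℝ) + 1) * (k - 1)) = (n : ℝ) ^ ((q + 1) * k) / (n : ℝ) ^ (q + 1) := by
        rw [← Real.rpow_natCast, ← Real.rpow_natCast, ← Real.rpow_sub hn0]
        congr 1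
        push_cast
        ring
      rw [h3]
      have h6 := cC_pos q k
      field_simp
    rw [h2]
    exact mul_le_mul_of_nonneg_right hKC (by positivity)
  · -- exponents
    rw [le_div_iff₀ hden]
    nlinarith
  · rw [le_div_iff₀ hden]
    nlinarith
  · apply le_of_eq
    field_simp
    ring
  · apply le_of_eq
    field_simp
    ring

end GUpper

end Pool.Agent.Lib.MP_9dddc4_co
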