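import Mathlib
import Pool.Agent.Lib.MP_9dddc4_co.GMixR2
import Pool.Agent.Lib.MP_9dddc4_co.GUpper

/-!
General `r` and `r k ≥ 2 (r - 1) ^ 2 + 1`: the upper bound.
-/

namespace Pool.Agent.Lib.MP_9dddc4_co

open Finset

section GUpperR

/-- the small parameter -/
noncomputable def epsR (q : ℕ) : ℝ := 1 / (8 * (((q + 1) ^ (q + 1) * cZ q : ℕ) : ℝ))

lemma cZ_pos (q : ℕ) (hq : 2 ≤ q) : 1 ≤ (q + 1) ^ (q + 1) * cZ q := by
  unfold cZ
  have : 0 < q := by omega
  exact Nat.one_le_iff_ne_zero.mpr (by positivity)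

lemma epsR_pos (q : ℕ) (hq : 2 ≤ q) : 0 < epsR q := by
  unfold epsR
  have h1 : (1 : ℝ) ≤ (((q + 1) ^ (q + 1) * cZ q : ℕ) : ℝ) := by exact_mod_cast cZ_pos q hq
  have h2 : (0 : ℝ) < (((q + 1) ^ (q + 1) * cZ q : ℕ) : ℝ) := by linarith
  positivity

lemma epsR_le (q : ℕ) (hq : 2 ≤ q) : epsR q ≤ 1 / 8 := by
  unfold epsR
  have h1 : (1 : ℝ) ≤ (((q + 1) ^ (q + 1) * cZ q : ℕ) : ℝ) := by exact_mod_cast cZ_pos q hq
  apply one_div_le_one_div_of_le (by norm_num)
  linarith

lemma epsR_mul (q : ℕ) (hq : 2 ≤ q) :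
    (((q + 1) ^ (q + 1) * cZ q : ℕ) : ℝ) * epsR q = 1 / 8 := by
  unfold epsR
  have h1 : (1 : ℝ) ≤ (((q + 1) ^ (q + 1) * cZ q : ℕ) : ℝ) := by exact_mod_cast cZ_pos q hq
  have h2 : (((q + 1) ^ (q + 1) * cZ q : ℕ) : ℝ) ≠ 0 := by linarith
  field_simp

/-- constant for the mixed forest bound -/
noncomputable def cBR (q : ℕ) : ℝ := cA q * (epsR q ^ 2 / 4)

lemma cBR_pos (q : ℕ) (hq : 2 ≤ q) : 0 < cBR q := by
  unfold cBR; have := cA_pos q; have := epsR_pos q hq; positivity

lemma cA_le (q : ℕ) : cA q ≤ 1 := by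
  unfold cA
  rw [div_le_one (by positivity)]
  have : (1 : ℝ) ≤ ((q : ℝ) + 1) ^ (q + 5) := by
    apply one_le_pow₀
    have : (0 : ℝ) ≤ q := Nat.cast_nonneg _
    linarith
  linarith

/-- the mixed forest bound -/
noncomputable def mixFR (q n e : ℕ) : ℝ :=
  min ((e : ℝ) / (n : ℝ) ^ q * Real.sqrt ((e : ℝ) / (n : ℝ) ^ (q - 1)))
    (((e : ℝ) ^ (1 / (2 * ((q : ℝ) + 1)))) ^ 2)

lemma common_BR {q k n e : ℕ} (hq : 2 ≤ q) (hk : 0 < k) (hn : 1 ≤ n) (he : 0 < e)
    (H : Fin k → Finset (Finset (Fin n))) (hr : ∀ i, IsRGraph (q + 1) (H i))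
    (hc : ∀ i, (H i).card = e) :
    ∃ m, CommonK H m ∧ cBR q * mixFR q n e ≤ m := by
  have hn0 : (0 : ℝ) < n := by exact_mod_cast hn
  have hn1 : (1 : ℝ) ≤ n := by exact_mod_cast hn
  have he0 : (0 : ℝ) < e := by exact_mod_cast he
  have hen3 : (e : ℝ) ≤ (n : ℝ) ^ (q + 1) := by
    have := card_le_pow_of_isRGraph (H ⟨0, hk⟩) (hr _)
    rw [hc] at this
    exact_mod_cast this
  set u : ℝ := (e : ℝ) / (n : ℝ) ^ q with hu
  set s : ℝ := Real.sqrt ((e : ℝ) / (n : ℝ) ^ (q - 1)) with hs
  set w : ℝ := (e : ℝ) ^ (1 / (2 * ((q : ℝ) + 1))) with hw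
  have hu0 : 0 < u := by positivity
  have hs0 : 0 < s := Real.sqrt_pos.mpr (by positivity)
  have hw0 : 0 < w := by positivity
  have hs2 : s ^ 2 = (e : ℝ) / (n : ℝ) ^ (q - 1) := Real.sq_sqrt (by positivity)
  have hw6 : w ^ (2 * (q + 1)) = e := by
    rw [hw, ← Real.rpow_natCast, ← Real.rpow_mul he0.le]
    push_cast
    rw [one_div_mul_cancel (by positivity), Real.rpow_one]
  have hmix : mixFR q n e = min (u * s) (w ^ 2) := rfl
  rw [hmix]
  have hcA := cA_pos q
  have hcA1 := cA_le q
  set ε : ℝ := epsR q with hε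
  have hε0 : 0 < ε := epsR_pos q hq
  have hε8 : ε ≤ 1 / 8 := epsR_le q hq
  have hcB : cBR q = cA q * (ε ^ 2 / 4) := rfl
  set Mm : ℝ := min u w with hMm
  have hM0 : 0 < Mm := lt_min hu0 hw0
  set z : ℝ := ε * Mm with hz
  have hz0 : 0 < z := by positivity
  by_cases hz1 : 1 ≤ z
  · have hzu : z ≤ ε * u := mul_le_mul_of_nonneg_left (min_le_left _ _) (by positivity)
    have hzw : z ≤ ε * w := mul_le_mul_of_nonneg_left (min_le_right _ _) (by positivity)
    -- u ≤ s
    have hus : u ≤ s := by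
      apply Real.le_sqrt_of_sq_le
      rw [hu, div_pow, div_le_div_iff₀ (by positivity) (by positivity)]
      calc (e : ℝ) ^ 2 * (n : ℝ) ^ (q - 1) = e * (n : ℝ) ^ (q - 1) * e := by ring
        _ ≤ e * (n : ℝ) ^ (q - 1) * (n : ℝ) ^ (q + 1) :=
            mul_le_mul_of_nonneg_left hen3 (by positivity)
        _ = e * ((n : ℝ) ^ q) ^ 2 := by
            rw [mul_assoc, ← pow_add, ← pow_mul]
            congr 2
            omega
    have hu1 : 1 ≤ u := by
      have h1 : 1 ≤ ε * u := hz1.trans hzu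
      nlinarith
    have hws : w ≤ s := by
      apply le_of_pow_le_pow_left₀ (by omega : 2 * (q + 1) ≠ 0) hs0.le
      rw [hw6, pow_mul, hs2, div_pow, le_div_iff₀ (by positivity)]
      have h2 : (n : ℝ) ^ q ≤ e := by
        rw [hu, one_le_div (by positivity)] at hu1
        exact hu1
      have h3 : ((n : ℝ) ^ (q - 1)) ^ (q + 1) ≤ (e : ℝ) ^ q := by
        calc ((n : ℝ) ^ (q - 1)) ^ (q + 1) = (n : ℝ) ^ ((q - 1) * (q + 1)) := by rw [← pow_mul]
          _ ≤ (n : ℝ) ^ (q * q) := by
              apply pow_le_pow_right₀ hn1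
              obtain ⟨p, rfl⟩ : ∃ p, q = p + 1 := ⟨q - 1, by omega⟩
              simp only [Nat.add_sub_cancel]
              nlinarith
          _ = ((n : ℝ) ^ q) ^ q := by rw [← pow_mul]
          _ ≤ (e : ℝ) ^ q := pow_le_pow_left₀ (by positivity) h2 q
      calc (e : ℝ) * ((n : ℝ) ^ (q - 1)) ^ (q + 1) ≤ e * (e : ℝ) ^ q :=
            mul_le_mul_of_nonneg_left h3 he0.le
        _ = (e : ℝ) ^ (q + 1) := by ring
    set a : ℕ := ⌊z⌋₊ with ha
    have ha1 : 1 ≤ a := (Nat.one_le_floor_iff z).mpr hz1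
    have haz : (a : ℝ) ≤ z := Nat.floor_le hz0.le
    have hah : z / 2 ≤ a := floor_ge_half hz1
    set D : ℝ := ε * min (s / z) (w ^ 2 / z ^ 2) with hD
    have hD0 : 0 < D := by
      rw [hD]
      have : 0 < min (s / z) (w ^ 2 / z ^ 2) := lt_min (by positivity) (by positivity)
      positivity
    have hDz : z * D ≤ ε * s := by
      have : min (s / z) (w ^ 2 / z ^ 2) ≤ s / z := min_le_left _ _
      calc z * D ≤ z * (ε * (s / z)) := by
            rw [hD]
            exact mul_le_mul_of_nonneg_left (mul_le_mul_of_nonneg_left this (by positivity)) hz0.le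
        _ = ε * s := by field_simp
    have hDz2 : z ^ 2 * D ≤ ε * w ^ 2 := by
      have : min (s / z) (w ^ 2 / z ^ 2) ≤ w ^ 2 / z ^ 2 := min_le_right _ _
      calc z ^ 2 * D ≤ z ^ 2 * (ε * (w ^ 2 / z ^ 2)) := by
            rw [hD]
            exact mul_le_mul_of_nonneg_left (mul_le_mul_of_nonneg_left this (by positivity))
              (by positivity)
        _ = ε * w ^ 2 := by field_simp
    set d : ℕ := ⌈D⌉₊ with hd
    have hdD : D ≤ d := Nat.le_ceil D
    have hdD1 : (d : ℝ) ≤ D + 1 := (Nat.ceil_lt_add_one hD0.le).le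
    have had : (a : ℝ) * d ≤ 2 * ε * s := by
      calc (a : ℝ) * d ≤ z * (D + 1) := mul_le_mul haz hdD1 (by positivity) hz0.le
        _ = z * D + z := by ring
        _ ≤ ε * s + ε * s := by
            apply add_le_add hDz
            exact hzu.trans (mul_le_mul_of_nonneg_left hus (by positivity))
        _ = 2 * ε * s := by ring
    have haad : (a : ℝ) ^ 2 * d ≤ 2 * ε * w ^ 2 := by
      have h1 : z ^ 2 ≤ ε * w ^ 2 := by
        calc z ^ 2 ≤ (ε * w) ^ 2 := pow_le_pow_left₀ hz0.le hzw 2
          _ = ε * (ε * w ^ 2) := by ring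
          _ ≤ 1 * (ε * w ^ 2) := by
              apply mul_le_mul_of_nonneg_right _ (by positivity)
              linarith
          _ = ε * w ^ 2 := one_mul _
      calc (a : ℝ) ^ 2 * d ≤ z ^ 2 * (D + 1) :=
            mul_le_mul (pow_le_pow_left₀ (by positivity) haz 2) hdD1 (by positivity)
              (by positivity)
        _ = z ^ 2 * D + z ^ 2 := by ring
        _ ≤ ε * w ^ 2 + ε * w ^ 2 := add_le_add hDz2 h1
        _ = 2 * ε * w ^ 2 := by ring
    refine ⟨a * d * a, ?_, ?_⟩
    · rw [← mixGR_card (q - 1) a d a]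
      apply commonK_of_copy
      intro i
      apply copy_mixR hq ha1 (H i) (hr i)
      rw [hc i]
      have hreal : (((q + 1) ^ (q + 1) * cZ q : ℕ) : ℝ) * ((a : ℝ) * (n : ℝ) ^ q +
          ((a : ℝ) * d) ^ 2 * (n : ℝ) ^ (q - 1) + ((a : ℝ) ^ 2 * d) ^ (q + 1)) < e := by
        have t1 : (a : ℝ) * (n : ℝ) ^ q ≤ ε * e := by
          calc (a : ℝ) * (n : ℝ) ^ q ≤ (ε * u) * (n : ℝ) ^ q :=
                mul_le_mul_of_nonneg_right (haz.trans hzu) (by positivity)
            _ = ε * e := by rw [hu]; field_simp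
        have t2 : ((a : ℝ) * d) ^ 2 * (n : ℝ) ^ (q - 1) ≤ 4 * ε ^ 2 * e := by
          calc ((a : ℝ) * d) ^ 2 * (n : ℝ) ^ (q - 1) ≤ (2 * ε * s) ^ 2 * (n : ℝ) ^ (q - 1) := by
                apply mul_le_mul_of_nonneg_right _ (by positivity)
                exact pow_le_pow_left₀ (by positivity) had 2
            _ = 4 * ε ^ 2 * (s ^ 2 * (n : ℝ) ^ (q - 1)) := by ring
            _ = 4 * ε ^ 2 * e := by rw [hs2]; field_simp
        have t3 : ((a : ℝ) ^ 2 * d) ^ (q + 1) ≤ 4 * ε ^ 2 * e := by
          calc ((a : ℝ) ^ 2 * d) ^ (q + 1) ≤ (2 * ε * w ^ 2) ^ (q + 1) :=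
                pow_le_pow_left₀ (by positivity) haad _
            _ = (2 * ε) ^ (q + 1) * w ^ (2 * (q + 1)) := by rw [mul_pow, ← pow_mul]
            _ = (2 * ε) ^ (q + 1) * e := by rw [hw6]
            _ ≤ (2 * ε) ^ 2 * e := by
                apply mul_le_mul_of_nonneg_right _ he0.le
                exact pow_le_pow_of_le_one (by positivity) (by linarith) (by omega)
            _ = 4 * ε ^ 2 * e := by ring
        have hZ1 : (1 : ℝ) ≤ (((q + 1) ^ (q + 1) * cZ q : ℕ) : ℝ) := by
          exact_mod_cast cZ_pos q hq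
        have hZε := epsR_mul q hq
        rw [← hε] at hZε
        calc (((q + 1) ^ (q + 1) * cZ q : ℕ) : ℝ) * ((a : ℝ) * (n : ℝ) ^ q +
              ((a : ℝ) * d) ^ 2 * (n : ℝ) ^ (q - 1) + ((a : ℝ) ^ 2 * d) ^ (q + 1))
            ≤ (((q + 1) ^ (q + 1) * cZ q : ℕ) : ℝ) *
              (ε * e + 4 * ε ^ 2 * e + 4 * ε ^ 2 * e) := by
              apply mul_le_mul_of_nonneg_left _ (by linarith)
              linarith
          _ = ((((q + 1) ^ (q + 1) * cZ q : ℕ) : ℝ) * ε) * ((1 + 8 * ε) * e) := by ring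
          _ = 1 / 8 * ((1 + 8 * ε) * e) := by rw [hZε]
          _ ≤ 1 / 8 * (2 * e) := by
              apply mul_le_mul_of_nonneg_left _ (by norm_num)
              apply mul_le_mul_of_nonneg_right _ he0.le
              linarith
          _ < e := by linarith
      have h2 : (((q + 1) ^ (q + 1) * (cZ q * (a * n ^ q + (a * d) ^ 2 * n ^ (q - 1) +
          (a ^ 2 * d) ^ (q + 1))) : ℕ) : ℝ) < (e : ℝ) := by
        rw [← mul_assoc]
        push_cast
        push_cast at hreal
        exact hreal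
      exact_mod_cast h2
    · -- size
      have h1 : z ^ 2 * D = ε * min (z * s) (w ^ 2) := by
        rw [hD, mul_left_comm, mul_min_of_nonneg _ _ (by positivity)]
        congr 2
        · field_simp
        · field_simp
      have h2 : z * s = ε * min (u * s) (w * s) := by
        rw [hz, hMm, mul_assoc, min_mul_of_nonneg _ _ hs0.le]
      have h3 : ε * min (u * s) (w ^ 2) ≤ min (z * s) (w ^ 2) := by
        apply le_min
        · rw [h2]
          apply mul_le_mul_of_nonneg_left _ (by positivity)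
          apply min_le_min le_rfl
          rw [sq]
          exact mul_le_mul_of_nonneg_left hws hw0.le
        · have h4 : 0 ≤ min (u * s) (w ^ 2) := le_min (by positivity) (by positivity)
          calc ε * min (u * s) (w ^ 2) ≤ 1 * min (u * s) (w ^ 2) := by
                apply mul_le_mul_of_nonneg_right _ h4
                linarith
            _ ≤ w ^ 2 := by rw [one_mul]; exact min_le_right _ _
      have h5 : 0 ≤ min (u * s) (w ^ 2) := le_min (by positivity) (by positivity)
      push_cast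
      calc cBR q * min (u * s) (w ^ 2) = cA q * (ε / 4 * (ε * min (u * s) (w ^ 2))) := by
            rw [hcB]; ring
        _ ≤ 1 * (ε / 4 * (ε * min (u * s) (w ^ 2))) :=
            mul_le_mul_of_nonneg_right hcA1 (by positivity)
        _ ≤ ε / 4 * min (z * s) (w ^ 2) := by
            rw [one_mul]; exact mul_le_mul_of_nonneg_left h3 (by positivity)
        _ = (z / 2) * D * (z / 2) := by
            have : ε / 4 * min (z * s) (w ^ 2) = (ε * min (z * s) (w ^ 2)) / 4 := by ring
            rw [this, ← h1]; ring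
        _ ≤ (a : ℝ) * d * a := by
            apply mul_le_mul _ hah (by positivity) (by positivity)
            exact mul_le_mul hah hdD hD0.le (by positivity)
  · push Not at hz1
    rcases le_total w u with hwu | huw
    · -- small number of edges
      refine ⟨1, commonK_one H hr (fun i => by rw [hc i]; exact he), ?_⟩
      have hMw : Mm = w := min_eq_right hwu
      rw [hz, hMw] at hz1
      have h1 : ε ^ 2 * min (u * s) (w ^ 2) ≤ 1 := by
        calc ε ^ 2 * min (u * s) (w ^ 2) ≤ ε ^ 2 * w ^ 2 :=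
              mul_le_mul_of_nonneg_left (min_le_right _ _) (by positivity)
          _ = (ε * w) ^ 2 := by ring
          _ ≤ 1 := pow_le_one₀ (by positivity) hz1.le
      have h5 : 0 ≤ min (u * s) (w ^ 2) := le_min (by positivity) (by positivity)
      push_cast
      calc cBR q * min (u * s) (w ^ 2) = cA q / 4 * (ε ^ 2 * min (u * s) (w ^ 2)) := by
            rw [hcB]; ring
        _ ≤ 1 * 1 := by
            apply mul_le_mul _ h1 (by positivity) (by norm_num)
            linarith
        _ = 1 := by norm_num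
    · obtain ⟨m, hm, hle⟩ := common_A (q := q) hq hn he H hr hc
      refine ⟨m, hm, ?_⟩
      refine le_trans ?_ hle
      have hMu : Mm = u := min_eq_left huw
      rw [hz, hMu] at hz1
      calc cBR q * min (u * s) (w ^ 2) ≤ cBR q * (u * s) :=
            mul_le_mul_of_nonneg_left (min_le_left _ _) (cBR_pos q hq).le
        _ = cA q * (ε / 4 * (ε * u)) * s := by rw [hcB]; ring
        _ ≤ cA q * 1 * s := by
            apply mul_le_mul_of_nonneg_right _ hs0.le
            apply mul_le_mul_of_nonneg_left _ hcA.le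
            nlinarith
        _ = cA q * s := by ring

theorem upper_generalR (q k : ℕ) (hq : 2 ≤ q) (hk : 2 ≤ k) (hqk : 2 * q ^ 2 + 1 ≤ (q + 1) * k) :
    ∃ C : ℝ, 0 < C ∧ ∀ n : ℕ, 1 ≤ n → (U k n (q + 1) : ℝ) ≤
      C * (n : ℝ) ^ (((q : ℝ) + 1) * q * (k - 1) / (((q : ℝ) + 1) * k - 1)) := by
  set K : ℝ := 1 / cA q + 1 / cBR q + 1 / cC q k with hK
  have kA := cA_pos q
  have kB := cBR_pos q hq
  have kC := cC_pos q k
  have iA : 0 < 1 / cA q := by positivity
  have iB : 0 < 1 / cBR q := by positivity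
  have iC : 0 < 1 / cC q k := by positivity
  have hKA : 1 / cA q ≤ K := by rw [hK]; linarith
  have hKB : 1 / cBR q ≤ K := by rw [hK]; linarith
  have hKC : 1 / cC q k ≤ K := by rw [hK]; linarith
  have hK0 : 0 < K := lt_of_lt_of_le iA hKA
  refine ⟨11 * K, by positivity, ?_⟩
  intro n hn
  have hn0 : (0 : ℝ) < n := by exact_mod_cast hn
  set A : ℕ → ℝ := fun e => cA q * Real.sqrt ((e : ℝ) / (n : ℝ) ^ (q - 1)) with hA
  set B : ℕ → ℝ := fun e => cBR q * mixFR q n e with hB
  set Cc : ℕ → ℝ := fun e => cC q k *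
    ((e : ℝ) ^ k * (n : ℝ) ^ (q + 1) / (n : ℝ) ^ ((q + 1) * k)) with hCc
  have hA0 : ∀ e : ℕ, 0 < e → 0 < A e := by
    intro e he
    have he0 : (0 : ℝ) < e := by exact_mod_cast he
    simp only [hA]; positivity
  have hB0 : ∀ e : ℕ, 0 < e → 0 < B e := by
    intro e he
    have he0 : (0 : ℝ) < e := by exact_mod_cast he
    have h1 : 0 < mixFR q n e := by
      unfold mixFR
      apply lt_min <;> positivity
    simp only [hB]; positivity
  have hC0 : ∀ e : ℕ, 0 < e → 0 < Cc e := by
    intro e he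
    have he0 : (0 : ℝ) < e := by exact_mod_cast he
    simp only [hCc]; positivity
  have hU := U_le_sum (n := n) (k := k) (r := q + 1) (by omega)
    (fun e => max (A e) (max (B e) (Cc e)))
    (fun e he => lt_of_lt_of_le (hA0 e he) (le_max_left _ _))
    (by
      intro a b ha hab
      have ha0 : (0 : ℝ) < a := by exact_mod_cast ha
      have habR : (a : ℝ) ≤ b := by exact_mod_cast hab
      apply max_le_max
      · simp only [hA]
        apply mul_le_mul_of_nonneg_left _ kA.le
        apply Real.sqrt_le_sqrt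
        exact div_le_div_of_nonneg_right habR (by positivity)
      · apply max_le_max
        · simp only [hB]
          apply mul_le_mul_of_nonneg_left _ kB.le
          unfold mixFR
          apply min_le_min
          · apply mul_le_mul _ _ (by positivity) (by positivity)
            · exact div_le_div_of_nonneg_right habR (by positivity)
            · exact Real.sqrt_le_sqrt (div_le_div_of_nonneg_right habR (by positivity))
          · apply pow_le_pow_left₀ (by positivity)
            exact Real.rpow_le_rpow ha0.le habR (by positivity)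
        · simp only [hCc]
          apply mul_le_mul_of_nonneg_left _ kC.le
          apply div_le_div_of_nonneg_right _ (by positivity)
          apply mul_le_mul_of_nonneg_right _ (by positivity)
          exact pow_le_pow_left₀ ha0.le habR k)
    (by
      intro e he H hr hc
      rcases le_total (A e) (max (B e) (Cc e)) with h1 | h1
      · rcases le_total (B e) (Cc e) with h2 | h2
        · obtain ⟨m, hm, hle⟩ := common_C hn H hr hc
          refine ⟨m, hm, ?_⟩
          rw [max_eq_right h1, max_eq_right h2]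
          exact hle
        · obtain ⟨m, hm, hle⟩ := common_BR hq (by omega) hn he H hr hc
          refine ⟨m, hm, ?_⟩
          rw [max_eq_right h1, max_eq_left h2]
          exact hle
      · obtain ⟨m, hm, hle⟩ := common_A hq hn he H hr hc
        refine ⟨m, hm, ?_⟩
        rw [max_eq_left h1]
        exact hle)
  refine hU.trans ?_
  have hqR : (2 : ℝ) ≤ q := by exact_mod_cast hq
  have hkR : (2 : ℝ) ≤ k := by exact_mod_cast hk
  have hqkR : 2 * (q : ℝ) ^ 2 + 1 ≤ ((q : ℝ) + 1) * k := by exact_mod_cast hqk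
  have hden : 0 < ((q : ℝ) + 1) * k - 1 := by nlinarith
  apply sum_bound hn K hK0.le _ (((q : ℝ) - 1) / 2) (q : ℝ) ((3 * (q : ℝ) - 1) / 2) (3 / 2)
    (1 / ((q : ℝ) + 1)) (((q : ℝ) + 1) * (k - 1)) k
    (((q : ℝ) + 1) ^ 2 * (k - 1) / (((q : ℝ) + 1) * k - 1))
  · positivity
  · have : (0 : ℝ) ≤ (k : ℝ) - 1 := by linarith
    positivity
  · norm_num
  · positivity
  · rw [div_le_iff₀ (by linarith)]
    linarith
  · exact hkR
  · -- the sunflower term
    intro e he
    have he0 : (0 : ℝ) < e := by exact_mod_cast he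
    have h1 : 1 / max (A e) (max (B e) (Cc e)) ≤ 1 / A e :=
      one_div_le_one_div_of_le (hA0 e he) (le_max_left _ _)
    refine h1.trans ?_
    have h2 : 1 / A e = 1 / cA q * ((n : ℝ) ^ (((q : ℝ) - 1) / 2) * (e : ℝ) ^ (-(1 / 2) : ℝ)) := by
      simp only [hA]
      rw [Real.sqrt_eq_rpow, Real.div_rpow he0.le (by positivity), Real.rpow_neg he0.le,
        ← Real.rpow_natCast, ← Real.rpow_mul hn0.le]
      have h3 : ((q - 1 : ℕ) : ℝ) * (1 / 2) = ((q : ℝ) - 1) / 2 := by
        rw [Nat.cast_sub (by omega)]; push_cast; ring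
      rw [h3]
      have h4 : 0 < (n : ℝ) ^ (((q : ℝ) - 1) / 2) := by positivity
      have h5 : 0 < (e : ℝ) ^ (1 / 2 : ℝ) := by positivity
      field_simp
    rw [h2]
    exact mul_le_mul_of_nonneg_right hKA (by positivity)
  · -- the forest term
    intro e he
    have he0 : (0 : ℝ) < e := by exact_mod_cast he
    have h1 : 1 / max (A e) (max (B e) (Cc e)) ≤ 1 / B e :=
      one_div_le_one_div_of_le (hB0 e he) ((le_max_left _ _).trans (le_max_right _ _))
    refine h1.trans ?_
    have h2 : 1 / B e ≤ 1 / cBR q * ((n : ℝ) ^ ((3 * (q : ℝ) - 1) / 2) * (e : ℝ) ^ (-(3 / 2) : ℝ) +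
        (e : ℝ) ^ (-(1 / ((q : ℝ) + 1)))) := by
      simp only [hB]
      rw [← one_div_mul_one_div]
      apply mul_le_mul_of_nonneg_left _ (by positivity)
      unfold mixFR
      set X : ℝ := (e : ℝ) / (n : ℝ) ^ q * Real.sqrt ((e : ℝ) / (n : ℝ) ^ (q - 1)) with hX
      set Y : ℝ := ((e : ℝ) ^ (1 / (2 * ((q : ℝ) + 1)))) ^ 2 with hY
      have hX0 : 0 < X := by positivity
      have hY0 : 0 < Y := by positivity
      have h7 : (n : ℝ) ^ ((3 * (q : ℝ) - 1) / 2) * (e : ℝ) ^ (-(3 / 2) : ℝ) = 1 / X := by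
        rw [hX, Real.sqrt_eq_rpow, Real.div_rpow he0.le (by positivity), Real.rpow_neg he0.le]
        have h8 : (n : ℝ) ^ ((3 * (q : ℝ) - 1) / 2) =
            (n : ℝ) ^ q * ((n : ℝ) ^ (q - 1)) ^ (1 / 2 : ℝ) := by
          rw [← Real.rpow_natCast, ← Real.rpow_natCast, ← Real.rpow_mul hn0.le,
            ← Real.rpow_add hn0]
          congr 1
          rw [Nat.cast_sub (by omega)]
          push_cast
          ring
        have h9 : (e : ℝ) ^ (3 / 2 : ℝ) = (e : ℝ) * (e : ℝ) ^ (1 / 2 : ℝ) := by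
          rw [← Real.rpow_one_add' he0.le (by norm_num)]; norm_num
        rw [h8, h9]
        field_simp
      have h9 : (e : ℝ) ^ (-(1 / ((q : ℝ) + 1))) = 1 / Y := by
        rw [hY, Real.rpow_neg he0.le, ← Real.rpow_natCast, ← Real.rpow_mul he0.le, one_div]
        push_cast
        field_simp
      rw [h7, h9]
      have h10 : 0 < 1 / X := by positivity
      have h11 : 0 < 1 / Y := by positivity
      rcases le_total X Y with h12 | h12
      · rw [min_eq_left h12]; linarith
      · rw [min_eq_right h12]; linarith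
    refine h2.trans ?_
    exact mul_le_mul_of_nonneg_right hKB (by positivity)
  · -- the random term
    intro e he
    have he0 : (0 : ℝ) < e := by exact_mod_cast he
    have h1 : 1 / max (A e) (max (B e) (Cc e)) ≤ 1 / Cc e :=
      one_div_le_one_div_of_le (hC0 e he) ((le_max_right _ _).trans (le_max_right _ _))
    refine h1.trans ?_
    have h2 : 1 / Cc e = 1 / cC q k * ((n : ℝ) ^ (((q : ℝ) + 1) * (k - 1)) *
        (e : ℝ) ^ (-(k : ℝ))) := by
      simp only [hCc]
      rw [Real.rpow_neg he0.le, Real.rpow_natCast]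
      have h3 : (n : ℝ) ^ (((q : ℝ) + 1) * (k - 1)) = (n : ℝ) ^ ((q + 1) * k) / (n : ℝ) ^ (q + 1) := by
        rw [← Real.rpow_natCast, ← Real.rpow_natCast, ← Real.rpow_sub hn0]
        congr 1
        push_cast
        ring
      rw [h3]
      field_simp
    rw [h2]
    exact mul_le_mul_of_nonneg_right hKC (by positivity)
  · -- exponents
    rw [le_div_iff₀ hden]
    nlinarith
  · rw [le_div_iff₀ hden]
    nlinarith
  · apply le_of_eq
    field_simp
    ring
  · apply le_of_eq
    field_simp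
    ring

end GUpperR

end Pool.Agent.Lib.MP_9dddc4_co
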