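import Mathlib
import Pool.Agent.Lib.MP_9dddc4_co.Cases

namespace Pool.Agent.Lib.MP_9dddc4_co

open Finset

/-- facts about a large `n` -/
structure Big (n : ℕ) (l x z : ℝ) : Prop where
  hz : 10 ^ 6 ≤ z
  hlz : l ≤ z ^ 3
  hl : 10 ^ 12 ≤ l
  hzn : z ^ 6000 = (n : ℝ)
  hexp : Real.exp (l / 6000) = z
  hx : x ^ 3 = (n : ℝ) * l
  hx0 : 0 < x

namespace Big

variable {n : ℕ} {l x z : ℝ}

lemma zpos (h : Big n l x z) : 0 < z := lt_of_lt_of_le (by norm_num) h.hz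

lemma z1 (h : Big n l x z) : 1 ≤ z := le_trans (by norm_num) h.hz

lemma lpos (h : Big n l x z) : 0 < l := lt_of_lt_of_le (by norm_num) h.hl

lemma npos (h : Big n l x z) : (0 : ℝ) < n := by
  rw [← h.hzn]; exact pow_pos h.zpos _

lemma xz (h : Big n l x z) : z ^ 2000 ≤ x := by
  have h1 : (z ^ 2000) ^ 3 ≤ x ^ 3 := by
    rw [h.hx, ← pow_mul]
    have : (z : ℝ) ^ (2000 * 3) = n := h.hzn
    rw [this]
    have h2 : (1 : ℝ) ≤ l := le_trans (by norm_num) h.hl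
    nlinarith [h.npos]
  exact le_of_pow_le_pow_left₀ (by norm_num) h.hx0.le h1

lemma xl (h : Big n l x z) : z ^ 1997 ≤ x / l := by
  rw [le_div_iff₀ h.lpos]
  calc z ^ 1997 * l ≤ z ^ 1997 * z ^ 3 :=
        mul_le_mul_of_nonneg_left h.hlz (pow_nonneg h.zpos.le _)
    _ = z ^ 2000 := by rw [← pow_add]
    _ ≤ x := h.xz

lemma xl_big (h : Big n l x z) : z ^ 1200 + 1 ≤ x / l := by
  refine le_trans ?_ h.xl
  have h1 : (1 : ℝ) ≤ z ^ 1200 := one_le_pow₀ h.z1
  have h2 : z ^ 1200 * 2 ≤ z ^ 1200 * z ^ 797 := by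
    apply mul_le_mul_of_nonneg_left _ (pow_nonneg h.zpos.le _)
    calc (2 : ℝ) ≤ z := le_trans (by norm_num) h.hz
      _ ≤ z ^ 797 := le_self_pow₀ h.z1 (by norm_num)
  rw [← pow_add] at h2
  calc z ^ 1200 + 1 ≤ z ^ 1200 * 2 := by linarith
    _ ≤ _ := h2

lemma xl_37 (h : Big n l x z) : 37 ≤ x / l := by
  refine le_trans ?_ h.xl
  calc (37 : ℝ) ≤ z := le_trans (by norm_num) h.hz
    _ ≤ z ^ 1997 := le_self_pow₀ h.z1 (by norm_num)

lemma xn (h : Big n l x z) : x ≤ n := by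
  have h1 : x ^ 3 ≤ (n : ℝ) ^ 3 := by
    rw [h.hx]
    have h2 : l ≤ n := by
      calc l ≤ z ^ 3 := h.hlz
        _ ≤ z ^ 6000 := pow_le_pow_right₀ h.z1 (by norm_num)
        _ = n := h.hzn
    have h3 : (1 : ℝ) ≤ n := by
      rw [← h.hzn]; exact one_le_pow₀ h.z1
    have h4 : (n : ℝ) ^ 3 = n * (n * n) := by ring
    rw [h4]
    apply mul_le_mul_of_nonneg_left _ h.npos.le
    nlinarith [h.npos]
  exact le_of_pow_le_pow_left₀ (by norm_num) h.npos.le h1

end Big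

section Gain3

variable {n : ℕ} {l x z : ℝ}

lemma par_of_big (h : Big n l x z) (k : ℕ) (hk1 : x / l - 1 ≤ (k : ℝ)) (hk2 : (k : ℝ) ≤ x) :
    ∃ q J : ℕ, Par n k q J ∧ √((k : ℝ) / x) * l ≤ 2 * 10 ^ 5 * (J : ℝ) := by
  have hzpos := h.zpos
  have hlpos := h.lpos
  have hnpos := h.npos
  have hxpos := h.hx0
  set q := ⌊z ^ 6⌋₊ with hq
  have hz6 : (0 : ℝ) ≤ z ^ 6 := pow_nonneg hzpos.le _
  have hq1 : (q : ℝ) ≤ z ^ 6 := Nat.floor_le hz6
  have hq2 : z ^ 6 - 1 < (q : ℝ) := by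
    have := Nat.lt_floor_add_one (z ^ 6)
    linarith
  have hz3 : (1 : ℝ) ≤ z ^ 3 := one_le_pow₀ h.z1
  have hz4 : 4 * z ^ 4 ≤ (q : ℝ) := by
    have h1 : z ^ 4 * 5 ≤ z ^ 4 * z ^ 2 := by
      apply mul_le_mul_of_nonneg_left _ (by positivity)
      calc (5 : ℝ) ≤ z := le_trans (by norm_num) h.hz
        _ ≤ z ^ 2 := le_self_pow₀ h.z1 (by norm_num)
    have h2 : z ^ 4 * z ^ 2 = z ^ 6 := by ring
    have h3 : (1 : ℝ) ≤ z ^ 4 := one_le_pow₀ h.z1
    linarith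
  have hlq : l ≤ q := by
    have h1 : z ^ 3 ≤ z ^ 4 := pow_le_pow_right₀ h.z1 (by norm_num)
    have h3 : (1 : ℝ) ≤ z ^ 4 := one_le_pow₀ h.z1
    linarith [h.hlz]
  have hk0 : (0 : ℝ) < k := by
    have h1 := h.xl_37
    linarith
  set s := √((k : ℝ) / x) with hs
  have hkx : (0 : ℝ) < k / x := div_pos hk0 hxpos
  have hs0 : 0 < s := Real.sqrt_pos.mpr hkx
  have hs2 : s ^ 2 = k / x := Real.sq_sqrt hkx.le
  have hs1 : s ≤ 1 := by
    rw [hs]
    apply Real.sqrt_le_one.mpr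
    rw [div_le_one hxpos]
    exact hk2
  -- s * l is large
  have hsl : 7 * 10 ^ 5 ≤ s * l := by
    have h1 : x / (2 * l) ≤ k := by
      have h2 := h.xl_37
      have h3 : x / (2 * l) = (x / l) / 2 := by field_simp
      rw [h3]
      linarith
    have h2 : 1 / (2 * l) ≤ s ^ 2 := by
      rw [hs2, le_div_iff₀ hxpos]
      calc 1 / (2 * l) * x = x / (2 * l) := by ring
        _ ≤ k := h1
    have h3 : (7 * 10 ^ 5) ^ 2 ≤ (s * l) ^ 2 := by
      have e1 : (s * l) ^ 2 = s ^ 2 * l ^ 2 := mul_pow _ _ _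
      rw [e1]
      calc ((7 : ℝ) * 10 ^ 5) ^ 2 ≤ 10 ^ 12 / 2 := by norm_num
        _ ≤ l / 2 := by linarith [h.hl]
        _ = 1 / (2 * l) * l ^ 2 := by field_simp
        _ ≤ s ^ 2 * l ^ 2 := mul_le_mul_of_nonneg_right h2 (by positivity)
    exact le_of_pow_le_pow_left₀ (by norm_num) (by positivity) h3
  set J := ⌊s * l / 10 ^ 5⌋₊ with hJ
  have hJ0 : 0 ≤ s * l / 10 ^ 5 := by positivity
  have hJ1 : (J : ℝ) ≤ s * l / 10 ^ 5 := Nat.floor_le hJ0
  have hJ2 : s * l / 10 ^ 5 < (J : ℝ) + 1 := Nat.lt_floor_add_one _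
  have hJpos : 1 ≤ J := by
    rw [hJ]
    apply Nat.le_floor
    push_cast
    rw [le_div_iff₀ (by norm_num)]
    linarith
  have hJ1R : (1 : ℝ) ≤ J := by exact_mod_cast hJpos
  refine ⟨q, J, ⟨?_, ?_, ?_, hJpos, ?_, ?_⟩, ?_⟩
  · -- q ≥ 10^5
    have h1 : ((10 ^ 5 : ℕ) : ℝ) ≤ q := by
      push_cast
      linarith [h.hl]
    exact_mod_cast h1
  · have h1 : ((q ^ 200 : ℕ) : ℝ) ≤ k := by
      push_cast
      calc (q : ℝ) ^ 200 ≤ (z ^ 6) ^ 200 := pow_le_pow_left₀ (Nat.cast_nonneg _) hq1 _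
        _ = z ^ 1200 := by rw [← pow_mul]
        _ ≤ x / l - 1 := by linarith [h.xl_big]
        _ ≤ k := hk1
    exact_mod_cast h1
  · have h1 : ((k ^ 3 : ℕ) : ℝ) ≤ ((n * q : ℕ) : ℝ) := by
      push_cast
      calc (k : ℝ) ^ 3 ≤ x ^ 3 := pow_le_pow_left₀ hk0.le hk2 _
        _ = n * l := h.hx
        _ ≤ n * q := mul_le_mul_of_nonneg_left hlq hnpos.le
    exact_mod_cast h1
  · have h1 : (J : ℝ) ≤ q := by
      have h2 : s * l ≤ l := by nlinarith
      have h3 : s * l / 10 ^ 5 ≤ l := by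
        rw [div_le_iff₀ (by norm_num)]
        nlinarith
      linarith
    exact_mod_cast h1
  · intro j hj
    have hjJ : (j : ℝ) ≤ J := by exact_mod_cast hj
    have hk3 : (0 : ℝ) < (k : ℝ) ^ 3 := by positivity
    set X := 6912 * (n : ℝ) * J / (k : ℝ) ^ 3 with hX
    have hX0 : 0 ≤ X := by positivity
    have hkeq : (k : ℝ) = s ^ 2 * x := by
      rw [hs2]; field_simp
    have hs5 : 0 < s ^ 5 := by positivity
    have hX1 : X ≤ 1 / s ^ 5 := by
      rw [hX, hkeq, div_le_div_iff₀ (by positivity) hs5]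
      have h1 : (s ^ 2 * x) ^ 3 = s ^ 6 * (n * l) := by rw [mul_pow, h.hx]; ring
      rw [h1]
      calc 6912 * (n : ℝ) * J * s ^ 5 ≤ 6912 * (n : ℝ) * (s * l / 10 ^ 5) * s ^ 5 := by
            apply mul_le_mul_of_nonneg_right _ hs5.le
            apply mul_le_mul_of_nonneg_left hJ1 (by positivity)
        _ = (6912 / 10 ^ 5) * (s ^ 6 * (n * l)) := by ring
        _ ≤ 1 * (s ^ 6 * (n * l)) := by
            apply mul_le_mul_of_nonneg_right (by norm_num) (by positivity)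
    have hX2 : 1 + X ≤ 2 / s ^ 5 := by
      have h1 : 1 ≤ 1 / s ^ 5 := by
        rw [le_div_iff₀ hs5, one_mul]
        exact pow_le_one₀ hs0.le hs1
      have h2 : 2 / s ^ 5 = 1 / s ^ 5 + 1 / s ^ 5 := by ring
      rw [h2]
      linarith
    have hlog : Real.log (1 + X) ≤ 6 / s := by
      have h1 : Real.log (1 + X) ≤ Real.log (2 / s ^ 5) :=
        Real.log_le_log (by linarith) hX2
      have h2 : Real.log (2 / s ^ 5) = Real.log 2 + 5 * Real.log (1 / s) := by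
        rw [Real.log_div (by norm_num) hs5.ne', Real.log_pow, Real.log_div one_ne_zero hs0.ne',
          Real.log_one]
        push_cast
        ring
      have h3 : Real.log 2 ≤ 1 := by
        have := Real.log_le_sub_one_of_pos (show (0 : ℝ) < 2 by norm_num)
        linarith
      have h4 : Real.log (1 / s) ≤ 1 / s - 1 := Real.log_le_sub_one_of_pos (by positivity)
      have h5 : 6 / s = 6 * (1 / s) := by ring
      have h6 : 1 ≤ 1 / s := by
        rw [le_div_iff₀ hs0]; linarith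
      rw [h5]
      linarith
    have hmain : (1 + X) ^ j ≤ z ^ 4 := by
      have h1 : (1 + X) ^ j = Real.exp (j * Real.log (1 + X)) := by
        rw [mul_comm, Real.exp_mul, Real.exp_log (by linarith), Real.rpow_natCast]
      have h2 : z ^ 4 = Real.exp (4 * (l / 6000)) := by
        rw [mul_comm, Real.exp_mul, h.hexp]
        norm_cast
      rw [h1, h2]
      apply Real.exp_le_exp.mpr
      have h3 : 0 ≤ Real.log (1 + X) := Real.log_nonneg (by linarith)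
      calc (j : ℝ) * Real.log (1 + X) ≤ (s * l / 10 ^ 5) * (6 / s) := by
            apply mul_le_mul (hjJ.trans hJ1) hlog h3 hJ0
        _ = 6 * l / 10 ^ 5 := by field_simp
        _ ≤ 4 * (l / 6000) := by linarith
    have hfin : ((4 * (k ^ 3 + 6912 * n * J) ^ j : ℕ) : ℝ) ≤ ((q * (k ^ 3) ^ j : ℕ) : ℝ) := by
      push_cast
      have h1 : (k : ℝ) ^ 3 + 6912 * n * J = (k : ℝ) ^ 3 * (1 + X) := by
        rw [hX]; field_simp
      rw [h1, mul_pow]
      calc 4 * (((k : ℝ) ^ 3) ^ j * (1 + X) ^ j) = ((k : ℝ) ^ 3) ^ j * (4 * (1 + X) ^ j) := by ring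
        _ ≤ ((k : ℝ) ^ 3) ^ j * q := by
            apply mul_le_mul_of_nonneg_left _ (by positivity)
            linarith
        _ = q * ((k : ℝ) ^ 3) ^ j := by ring
    exact_mod_cast hfin
  · have h1 : s * l / 10 ^ 5 ≤ 2 * J := by linarith
    rw [div_le_iff₀ (by norm_num)] at h1
    linarith

/-- the gain in the middle range -/
theorem gain3 (h : Big n l x z) {H₁ H₂ : Finset (Finset (Fin n))}
    (h3 : ∀ d ∈ H₁, d.card = 3) (h3' : ∀ d ∈ H₂, d.card = 3) (e : ℕ)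
    (hc1 : H₁.card = e) (hc2 : H₂.card = e)
    (he1 : (n : ℝ) * (x / l) ^ 2 ≤ e) (he2 : (e : ℝ) ≤ n * x ^ 2) :
    ∃ m, Common H₁ H₂ m ∧
      l * (√(√((e : ℝ) / n))) ^ 3 ≤ 10 ^ 11 * √x * m := by
  have hzpos := h.zpos
  have hlpos := h.lpos
  have hnpos := h.npos
  have hxpos := h.hx0
  set w := √((e : ℝ) / n) with hw
  have hen : 0 ≤ (e : ℝ) / n := by positivity
  have hw2 : w ^ 2 = e / n := Real.sq_sqrt hen
  have hw0 : 0 ≤ w := Real.sqrt_nonneg _
  have hxl0 : 0 < x / l := div_pos hxpos hlpos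
  have hw1 : x / l ≤ w := by
    have h1 : (x / l) ^ 2 ≤ w ^ 2 := by
      rw [hw2, le_div_iff₀ hnpos]; linarith
    exact le_of_pow_le_pow_left₀ (by norm_num) hw0 h1
  have hwx : w ≤ x := by
    have h1 : w ^ 2 ≤ x ^ 2 := by
      rw [hw2, div_le_iff₀ hnpos]; linarith
    exact le_of_pow_le_pow_left₀ (by norm_num) hxpos.le h1
  set k := ⌊w⌋₊ with hk
  have hk1 : (k : ℝ) ≤ w := Nat.floor_le hw0
  have hk2 : w < k + 1 := Nat.lt_floor_add_one w
  obtain ⟨q, J, P, hJ⟩ := par_of_big h k (by linarith) (hk1.trans hwx)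
  have hnk : n * k ^ 2 ≤ e := by
    have h1 : ((n * k ^ 2 : ℕ) : ℝ) ≤ (e : ℝ) := by
      push_cast
      calc (n : ℝ) * (k : ℝ) ^ 2 ≤ (n : ℝ) * w ^ 2 := by
            apply mul_le_mul_of_nonneg_left _ hnpos.le
            exact pow_le_pow_left₀ (Nat.cast_nonneg _) hk1 2
        _ = (e : ℝ) := by rw [hw2]; field_simp
    exact_mod_cast h1
  obtain ⟨m, hm1, hm2⟩ := common_K P (Fintype.card_fin n) h3 h3'
    (hnk.trans (by rw [← hc1]; exact card_le_Tri h3))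
    (hnk.trans (by rw [← hc2]; exact card_le_Tri h3'))
  refine ⟨m, hm1, ?_⟩
  have hkpos : (0 : ℝ) < k := by
    have := P.kpos
    exact_mod_cast this
  have hk1' : (1 : ℝ) ≤ k := by
    have := P.kpos
    exact_mod_cast this
  have hm2R : (k : ℝ) * J ≤ 153600 * m := by exact_mod_cast hm2
  have hsx : √((k : ℝ) / x) * √x = √k := by
    rw [← Real.sqrt_mul (by positivity)]
    congr 1
    field_simp
  have hsw : √w ≤ √2 * √k := by
    rw [← Real.sqrt_mul (by norm_num)]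
    apply Real.sqrt_le_sqrt
    linarith
  have hsw2 : (√w) ^ 2 = w := Real.sq_sqrt hw0
  have h2 : √2 ≤ 3 / 2 := by
    rw [Real.sqrt_le_left (by norm_num)]; norm_num
  have h3w : (√w) ^ 3 ≤ 3 * (k * √k) := by
    calc (√w) ^ 3 = (√w) ^ 2 * √w := by ring
      _ = w * √w := by rw [hsw2]
      _ ≤ (2 * k) * (3 / 2 * √k) := by
          apply mul_le_mul
          · linarith
          · exact hsw.trans (mul_le_mul_of_nonneg_right h2 (Real.sqrt_nonneg _))
          · exact Real.sqrt_nonneg _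
          · positivity
      _ = 3 * (k * √k) := by ring
  have hsx0 : 0 ≤ √x := Real.sqrt_nonneg _
  calc l * (√w) ^ 3 ≤ l * (3 * (k * √k)) := mul_le_mul_of_nonneg_left h3w hlpos.le
    _ = 3 * k * √x * (√((k : ℝ) / x) * l) := by rw [← hsx]; ring
    _ ≤ 3 * k * √x * (2 * 10 ^ 5 * J) := mul_le_mul_of_nonneg_left hJ (by positivity)
    _ = (6 * 10 ^ 5 * √x) * (k * J) := by ring
    _ ≤ (6 * 10 ^ 5 * √x) * (153600 * m) := mul_le_mul_of_nonneg_left hm2R (by positivity)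
    _ = (6 * 10 ^ 5 * 153600) * (√x * m) := by ring
    _ ≤ 10 ^ 11 * (√x * m) := mul_le_mul_of_nonneg_right (by norm_num) (by positivity)
    _ = _ := by ring

end Gain3

end Pool.Agent.Lib.MP_9dddc4_co
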