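import Mathlib
import Pool.Agent.Lib.MP_9dddc4_co.Lower
import Pool.Agent.Lib.MP_9dddc4_co.Piece

namespace Pool.Agent.Lib.MP_9dddc4_co

open Finset

section Greedy

variable {n : ℕ}

lemma EdgeIso.refl (F : Finset (Finset (Fin n))) : EdgeIso F F := by
  refine ⟨id, Set.bijOn_id _, ?_⟩
  simp

lemma mem_covered {F : Finset (Finset (Fin n))} {v : Fin n} :
    v ∈ covered F ↔ ∃ e ∈ F, v ∈ e := by
  simp [covered]

/-- an injection on the covered vertices gives an edge isomorphism onto the image -/
lemma edgeIso_image (F : Finset (Finset (Fin n))) (f : Fin n → Fin n)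
    (hf : Set.InjOn f (covered F)) : EdgeIso F (F.image (fun e => e.image f)) := by
  refine ⟨f, ⟨?_, hf, ?_⟩, rfl⟩
  · intro v hv
    have hv := mem_coe.mp hv
    obtain ⟨e, he, hve⟩ := mem_covered.mp hv
    apply mem_coe.mpr
    rw [mem_covered]
    exact ⟨e.image f, mem_image_of_mem _ he, mem_image_of_mem f hve⟩
  · intro w hw
    have hw := mem_coe.mp hw
    obtain ⟨e', he', hwe⟩ := mem_covered.mp hw
    obtain ⟨e, he, rfl⟩ := mem_image.mp he'
    obtain ⟨v, hv, rfl⟩ := mem_image.mp hwe
    exact ⟨v, mem_coe.mpr (mem_covered.mpr ⟨e, he, hv⟩), rfl⟩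

lemma EdgeIso.symm {F F' : Finset (Finset (Fin n))} (h : EdgeIso F F') : EdgeIso F' F := by
  classical
  obtain ⟨g, hg, hF⟩ := h
  rcases isEmpty_or_nonempty (Fin n) with hem | hne
  · refine ⟨id, ?_, ?_⟩
    · have h1 : covered F' = covered F := by
        ext v; exact (hem.false v).elim
      rw [h1]
      exact Set.bijOn_id _
    · rw [← hF]
      have : g = id := by
        funext v; exact (hem.false v).elim
      rw [this]
      simp
  have hinv := hg.invOn_invFunOn
  have hsymm : Set.BijOn (Function.invFunOn g (covered F : Set (Fin n)))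
      (covered F' : Set (Fin n)) (covered F : Set (Fin n)) :=
    Set.BijOn.symm hinv.symm hg
  refine ⟨Function.invFunOn g (covered F : Set (Fin n)), hsymm, ?_⟩
  rw [← hF, image_image]
  have : ∀ e ∈ F, ((fun e => image (Function.invFunOn g (covered F : Set (Fin n))) e) ∘
      fun e => image g e) e = e := by
    intro e he
    simp only [Function.comp_apply]
    rw [image_image]
    have h1 : ∀ v ∈ e, (Function.invFunOn g (covered F : Set (Fin n)) ∘ g) v = v := by
      intro v hv
      exact hinv.1 (mem_coe.mpr (mem_covered.mpr ⟨e, he, hv⟩))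
    ext v
    rw [mem_image]
    constructor
    · rintro ⟨u, hu, rfl⟩
      rw [h1 u hu]; exact hu
    · intro hv
      exact ⟨v, hv, h1 v hv⟩
  ext e
  rw [mem_image]
  constructor
  · rintro ⟨e', he', rfl⟩
    rw [this e' he']; exact he'
  · intro he
    exact ⟨e, he, this e he⟩

lemma piece_card {V : Type*} [DecidableEq V] {H H' : Finset (Finset V)} {S : Finset V}
    {F : Finset (Finset V)} {f : V → V} (hP : Piece H H' S F f) :
    (F.image (fun e => e.image f)).card = F.card := by
  apply card_image_of_injOn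
  intro e he e' he' heq
  simp only at heq
  have h1 := (hP.2 e he).1
  have h2 := (hP.2 e' he').1
  ext v
  constructor
  · intro hv
    have h3 : f v ∈ e'.image f := by rw [← heq]; exact mem_image_of_mem f hv
    obtain ⟨u, hu, huv⟩ := mem_image.mp h3
    have : u = v := hP.1 (mem_coe.mpr (h2 hu)) (mem_coe.mpr (h1 hv)) huv
    rw [← this]; exact hu
  · intro hv
    have h3 : f v ∈ e.image f := by rw [heq]; exact mem_image_of_mem f hv
    obtain ⟨u, hu, huv⟩ := mem_image.mp h3
    have : u = v := hP.1 (mem_coe.mpr (h1 hu)) (mem_coe.mpr (h2 hv)) huv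
    rw [← this]; exact hu

/-- greedy decomposition with a potential function -/
theorem greedy (Ψ : ℕ → ℝ) (hmono : Monotone Ψ) (h0 : 0 ≤ Ψ 0)
    (step : ∀ e : ℕ, 0 < e → ∀ H₁ H₂ : Finset (Finset (Fin n)), (∀ d ∈ H₁, d.card = 3) →
      (∀ d ∈ H₂, d.card = 3) → H₁.card = e → H₂.card = e →
      ∃ m, Common H₁ H₂ m ∧ Ψ (e - m) + 1 ≤ Ψ e) :
    ∀ e : ℕ, ∀ H : Fin 2 → Finset (Finset (Fin n)), (∀ i, IsRGraph 3 (H i)) →
      (∀ i, (H i).card = e) → ∃ s : ℕ, (s : ℝ) ≤ Ψ e ∧ HasUDecomp H s := by
  classical
  intro e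
  induction e using Nat.strong_induction_on with
  | _ e ih =>
    intro H h3 hc
    rcases Nat.eq_zero_or_pos e with he | he
    · subst he
      refine ⟨0, by simpa using h0, fun _ j => j.elim0, ?_, ?_, ?_⟩
      · intro i
        rw [card_eq_zero.mp (hc i)]
        rfl
      · intro i j; exact j.elim0
      · intro j; exact j.elim0
    · obtain ⟨m, ⟨S, F, f, hP, hmF⟩, hΨ⟩ := step e he (H 0) (H 1) (h3 0) (h3 1) (hc 0) (hc 1)
      have hFsub : F ⊆ H 0 := fun d hd => (hP.2 d hd).2.1
      set F' := F.image (fun d => d.image f) with hF'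
      have hF'sub : F' ⊆ H 1 := by
        intro d hd
        obtain ⟨d0, hd0, rfl⟩ := mem_image.mp hd
        exact (hP.2 d0 hd0).2.2
      have hF'c : F'.card = F.card := piece_card hP
      have hmpos : 0 < m := by
        by_contra hm
        have : m = 0 := by omega
        rw [this, Nat.sub_zero] at hΨ
        linarith
      have hFe : F.card ≤ e := by rw [← hc 0]; exact card_le_card hFsub
      have hcov : Set.InjOn f (covered F) := by
        apply hP.1.mono
        intro v hv
        obtain ⟨d, hd, hvd⟩ := mem_covered.mp (mem_coe.mp hv)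
        exact mem_coe.mpr ((hP.2 d hd).1 hvd)
      have hiso : EdgeIso F F' := edgeIso_image F f hcov
      let H' : Fin 2 → Finset (Finset (Fin n)) := ![H 0 \ F, H 1 \ F']
      have hH'0 : H' 0 = H 0 \ F := rfl
      have hH'1 : H' 1 = H 1 \ F' := rfl
      obtain ⟨s, hs, E, hE1, hE2, hE3⟩ := ih (e - F.card) (by omega) H'
        (by
          intro i
          fin_cases i
          · intro d hd
            exact h3 0 d (mem_sdiff.mp hd).1
          · intro d hd
            exact h3 1 d (mem_sdiff.mp hd).1)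
        (by
          intro i
          fin_cases i
          · change (H 0 \ F).card = _
            rw [card_sdiff_of_subset hFsub, hc 0]
          · change (H 1 \ F').card = _
            rw [card_sdiff_of_subset hF'sub, hc 1, hF'c])
      let Pt : Fin 2 → Finset (Finset (Fin n)) := ![F, F']
      have hPt : ∀ i, Pt i ⊆ H i ∧ H' i = H i \ Pt i := by
        intro i
        fin_cases i
        · exact ⟨hFsub, rfl⟩
        · exact ⟨hF'sub, rfl⟩
      have hPtIso : ∀ i i', EdgeIso (Pt i) (Pt i') := by
        intro i i'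
        fin_cases i <;> fin_cases i'
        · exact EdgeIso.refl _
        · exact hiso
        · exact hiso.symm
        · exact EdgeIso.refl _
      have hEsub : ∀ i j, E i j ⊆ H i \ Pt i := by
        intro i j
        rw [← (hPt i).2, ← hE1 i]
        exact subset_biUnion_of_mem (E i) (mem_univ j)
      refine ⟨s + 1, ?_, fun i => Fin.cons (Pt i) (E i), ?_, ?_, ?_⟩
      · have h1 : Ψ (e - F.card) ≤ Ψ (e - m) := hmono (by omega)
        push_cast
        linarith
      · intro i
        ext d
        simp only [mem_biUnion, mem_univ, true_and]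
        constructor
        · rintro ⟨j, hj⟩
          revert hj
          refine Fin.cases ?_ (fun j => ?_) j
          · intro hj
            exact (hPt i).1 hj
          · intro hj
            exact (mem_sdiff.mp (hEsub i j hj)).1
        · intro hd
          by_cases hdP : d ∈ Pt i
          · exact ⟨0, hdP⟩
          · have h1 : d ∈ univ.biUnion (E i) := by
              rw [hE1 i, (hPt i).2]
              exact mem_sdiff.mpr ⟨hd, hdP⟩
            obtain ⟨j, _, hj⟩ := mem_biUnion.mp h1
            exact ⟨j.succ, hj⟩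
      · intro i j j'
        refine Fin.cases ?_ (fun j => ?_) j
        · refine Fin.cases ?_ (fun j' => ?_) j'
          · intro h; exact absurd rfl h
          · intro _
            exact disjoint_of_subset_right (hEsub i j') disjoint_sdiff
        · refine Fin.cases ?_ (fun j' => ?_) j'
          · intro _
            exact disjoint_of_subset_left (hEsub i j) sdiff_disjoint
          · intro h
            exact hE2 i j j' (fun h' => h (by rw [h']))
      · intro j i i'
        refine Fin.cases ?_ (fun j => ?_) j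
        · exact hPtIso i i'
        · exact hE3 j i i'

lemma common_one {H₁ H₂ : Finset (Finset (Fin n))} (h3 : ∀ d ∈ H₁, d.card = 3)
    (h3' : ∀ d ∈ H₂, d.card = 3) (h1 : 0 < H₁.card) (h2 : 0 < H₂.card) :
    Common H₁ H₂ 1 := by
  classical
  obtain ⟨d, hd⟩ := card_pos.mp h1
  obtain ⟨d', hd'⟩ := card_pos.mp h2
  have hcard : d.card = d'.card := by rw [h3 d hd, h3' d' hd']
  let φ := Finset.equivOfCardEq hcard
  let g : Fin n → Fin n := fun v => if hv : v ∈ d then (φ ⟨v, hv⟩ : Fin n) else v
  have hg : ∀ v (hv : v ∈ d), g v = φ ⟨v, hv⟩ := by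
    intro v hv; simp only [g]; rw [dif_pos hv]
  refine ⟨d, {d}, g, ⟨?_, ?_⟩, by simp⟩
  · intro a ha b hb hab
    have ha := mem_coe.mp ha
    have hb := mem_coe.mp hb
    rw [hg a ha, hg b hb] at hab
    have := φ.injective (Subtype.ext hab)
    exact congrArg Subtype.val this
  · intro e he
    rw [mem_singleton] at he
    subst he
    refine ⟨Subset.refl _, hd, ?_⟩
    have : e.image g = d' := by
      ext w
      rw [mem_image]
      constructor
      · rintro ⟨v, hv, rfl⟩
        rw [hg v hv]
        exact (φ ⟨v, hv⟩).2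
      · intro hw
        refine ⟨φ.symm ⟨w, hw⟩, (φ.symm ⟨w, hw⟩).2, ?_⟩
        rw [hg _ (φ.symm ⟨w, hw⟩).2]
        simp
    rw [this]
    exact hd'

/-- a potential bound gives a bound on `U` -/
theorem U_le_of_potential (Ψ : ℕ → ℝ) (hmono : Monotone Ψ) (h0 : 0 ≤ Ψ 0)
    (step : ∀ e : ℕ, 0 < e → ∀ H₁ H₂ : Finset (Finset (Fin n)), (∀ d ∈ H₁, d.card = 3) →
      (∀ d ∈ H₂, d.card = 3) → H₁.card = e → H₂.card = e →
      ∃ m, Common H₁ H₂ m ∧ Ψ (e - m) + 1 ≤ Ψ e) (T : ℝ) (hT : ∀ e, Ψ e ≤ T) :
    (U 2 n 3 : ℝ) ≤ T := by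
  have hT0 : 0 ≤ T := h0.trans (hT 0)
  have h1 : U 2 n 3 ≤ ⌊T⌋₊ := by
    apply U_le
    intro H hr hc
    obtain ⟨s, hs, hd⟩ := greedy Ψ hmono h0 step (H 0).card H hr (fun i => hc i 0)
    exact ⟨s, Nat.le_floor (hs.trans (hT _)), hd⟩
  calc (U 2 n 3 : ℝ) ≤ (⌊T⌋₊ : ℝ) := by exact_mod_cast h1
    _ ≤ T := Nat.floor_le hT0

end Greedy

end Pool.Agent.Lib.MP_9dddc4_co
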