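import Mathlib
import Pool.Agent.Lib.MP_9dddc4_co.Gain3
import Pool.Agent.Lib.MP_9dddc4_co.Greedy

namespace Pool.Agent.Lib.MP_9dddc4_co

open Finset Filter

section Upper

variable {n : ℕ} {l x z : ℝ}

/-- sunflower gain -/
lemma gain2 {H₁ H₂ : Finset (Finset (Fin n))} (hn : 0 < n)
    (h3 : ∀ d ∈ H₁, d.card = 3) (h3' : ∀ d ∈ H₂, d.card = 3) (e : ℕ)
    (hc1 : H₁.card = e) (hc2 : H₂.card = e) (he : 37 * n ≤ e) :
    ∃ m, Common H₁ H₂ m ∧ e ≤ 148 * n * m ^ 2 := by
  set s := Nat.sqrt (e / (37 * n)) with hs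
  have h37 : 0 < 37 * n := by omega
  have h1 : 1 ≤ e / (37 * n) := by
    rw [Nat.one_le_div_iff h37]; exact he
  have hs1 : 0 < s := by
    rw [hs, Nat.sqrt_pos]; omega
  have hs2 : s ^ 2 ≤ e / (37 * n) := Nat.sqrt_le' _
  have hs3 : 37 * s ^ 2 * n ≤ e := by
    calc 37 * s ^ 2 * n = (37 * n) * s ^ 2 := by ring
      _ ≤ (37 * n) * (e / (37 * n)) := Nat.mul_le_mul_left _ hs2
      _ ≤ e := Nat.mul_div_le _ _
  refine ⟨s, common_sun h3 h3' hs1 (by rw [Fintype.card_fin]; exact hn)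
    (by rw [Fintype.card_fin]; exact hs3.trans (by rw [← hc1]; exact card_le_Tri h3))
    (by rw [Fintype.card_fin]; exact hs3.trans (by rw [← hc2]; exact card_le_Tri h3')), ?_⟩
  have h2 := Nat.lt_mul_div_succ e h37
  have h4 : e / (37 * n) + 1 ≤ (2 * s) ^ 2 := by
    have h5 : e / (37 * n) < (s + 1) ^ 2 := Nat.lt_succ_sqrt' _
    have h6 : (s + 1) ^ 2 ≤ (2 * s) ^ 2 := Nat.pow_le_pow_left (by omega) 2
    omega
  calc e ≤ 37 * n * (e / (37 * n) + 1) := h2.le
    _ ≤ 37 * n * (2 * s) ^ 2 := Nat.mul_le_mul_left _ h4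
    _ = 148 * n * s ^ 2 := by ring

/-- random gain -/
lemma gain4 {H₁ H₂ : Finset (Finset (Fin n))} (hn : 0 < n)
    (h3 : ∀ d ∈ H₁, d.card = 3) (h3' : ∀ d ∈ H₂, d.card = 3) (e : ℕ)
    (hc1 : H₁.card = e) (hc2 : H₂.card = e) :
    ∃ m, Common H₁ H₂ m ∧ e * e ≤ 729 * n ^ 3 * m := by
  obtain ⟨m, hm1, hm2⟩ := common_random H₁ H₂ h3 h3' (by rw [Fintype.card_fin]; exact hn)
  refine ⟨m, hm1, ?_⟩
  rw [Fintype.card_fin] at hm2
  refine le_trans ?_ hm2
  apply Nat.mul_le_mul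
  · rw [← hc1]; exact card_le_Tri h3
  · rw [← hc2]; exact card_le_Tri h3'

/-- the four pieces of the potential -/
noncomputable def P1 (T : ℝ) (e : ℕ) : ℝ := min (e : ℝ) T

noncomputable def P2 (n : ℕ) (x l : ℝ) (e : ℕ) : ℝ :=
  26 * n * √(min (e : ℝ) (n * (x / l) ^ 2) / n)

noncomputable def P3 (n : ℕ) (x l : ℝ) (e : ℕ) : ℝ :=
  4 * 10 ^ 11 * (n * √x / l) * √(√(min (e : ℝ) (n * x ^ 2) / n))

noncomputable def P4 (n : ℕ) (x : ℝ) (e : ℕ) : ℝ :=
  729 * n ^ 3 * (1 / (n * x ^ 2 / 2) - 1 / max (e : ℝ) (n * x ^ 2 / 2))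

lemma P1_mono (T : ℝ) : Monotone (P1 T) := by
  intro a b hab
  unfold P1
  exact min_le_min_right _ (by exact_mod_cast hab)

lemma P2_mono (h : Big n l x z) : Monotone (P2 n x l) := by
  intro a b hab
  unfold P2
  have hn := h.npos
  apply mul_le_mul_of_nonneg_left _ (by positivity)
  apply Real.sqrt_le_sqrt
  apply div_le_div_of_nonneg_right _ hn.le
  exact min_le_min_right _ (by exact_mod_cast hab)

lemma P3_mono (h : Big n l x z) : Monotone (P3 n x l) := by
  intro a b hab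
  unfold P3
  have hn := h.npos
  have hl := h.lpos
  apply mul_le_mul_of_nonneg_left _ (by positivity)
  apply Real.sqrt_le_sqrt
  apply Real.sqrt_le_sqrt
  apply div_le_div_of_nonneg_right _ hn.le
  exact min_le_min_right _ (by exact_mod_cast hab)

lemma P4_mono (h : Big n l x z) : Monotone (P4 n x) := by
  intro a b hab
  unfold P4
  have hn := h.npos
  have hx := h.hx0
  apply mul_le_mul_of_nonneg_left _ (by positivity)
  apply sub_le_sub_left
  apply one_div_le_one_div_of_le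
  · exact lt_max_of_lt_right (by positivity)
  · exact max_le_max_right _ (by exact_mod_cast hab)

/-- the potential -/
noncomputable def Psi (n : ℕ) (x l : ℝ) (e : ℕ) : ℝ :=
  P1 (n * x / l) e + P2 n x l e + P3 n x l e + P4 n x e

lemma Psi_mono (h : Big n l x z) : Monotone (Psi n x l) := by
  intro a b hab
  unfold Psi
  have h1 := P1_mono (n * x / l) hab
  have h2 := P2_mono h hab
  have h3 := P3_mono h hab
  have h4 := P4_mono h hab
  linarith

lemma Psi_zero (h : Big n l x z) : 0 ≤ Psi n x l 0 := by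
  have hn := h.npos
  have hl := h.lpos
  have hx := h.hx0
  unfold Psi P1 P2 P3 P4
  have h1 : min ((0 : ℕ) : ℝ) (n * x / l) = 0 := by
    rw [Nat.cast_zero]
    exact min_eq_left (by positivity)
  have h4 : max ((0 : ℕ) : ℝ) (n * x ^ 2 / 2) = n * x ^ 2 / 2 := by
    rw [Nat.cast_zero]
    exact max_eq_right (by positivity)
  rw [h1, h4, sub_self, mul_zero, zero_add, add_zero]
  positivity

lemma Psi_le (h : Big n l x z) (e : ℕ) : Psi n x l e ≤ 10 ^ 12 * (n * x / l) := by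
  have hn := h.npos
  have hl := h.lpos
  have hx := h.hx0
  have hT : 0 < n * x / l := by positivity
  have h1 : P1 (n * x / l) e ≤ n * x / l := min_le_right _ _
  have h2 : P2 n x l e ≤ 26 * (n * x / l) := by
    unfold P2
    have e1 : √(min (e : ℝ) (n * (x / l) ^ 2) / n) ≤ x / l := by
      rw [Real.sqrt_le_left (by positivity), div_le_iff₀ hn]
      calc min (e : ℝ) (n * (x / l) ^ 2) ≤ n * (x / l) ^ 2 := min_le_right _ _
        _ = (x / l) ^ 2 * n := by ring
    calc 26 * n * √(min (e : ℝ) (n * (x / l) ^ 2) / n) ≤ 26 * n * (x / l) :=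
          mul_le_mul_of_nonneg_left e1 (by positivity)
      _ = 26 * (n * x / l) := by ring
  have h3 : P3 n x l e ≤ 4 * 10 ^ 11 * (n * x / l) := by
    unfold P3
    have e1 : √(√(min (e : ℝ) (n * x ^ 2) / n)) ≤ √x := by
      apply Real.sqrt_le_sqrt
      rw [Real.sqrt_le_left hx.le, div_le_iff₀ hn]
      calc min (e : ℝ) (n * x ^ 2) ≤ n * x ^ 2 := min_le_right _ _
        _ = x ^ 2 * n := by ring
    calc 4 * 10 ^ 11 * (n * √x / l) * √(√(min (e : ℝ) (n * x ^ 2) / n))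
        ≤ 4 * 10 ^ 11 * (n * √x / l) * √x := mul_le_mul_of_nonneg_left e1 (by positivity)
      _ = 4 * 10 ^ 11 * (n * (√x * √x) / l) := by ring
      _ = 4 * 10 ^ 11 * (n * x / l) := by rw [Real.mul_self_sqrt hx.le]
  have h4 : P4 n x e ≤ 1458 * (n * x / l) := by
    unfold P4
    have e0 : 0 ≤ 1 / max (e : ℝ) (n * x ^ 2 / 2) := by positivity
    have e1 : (n : ℝ) ^ 3 * (1 / (n * x ^ 2 / 2)) = 2 * (n * x / l) := by
      have hx3 : (n : ℝ) = x ^ 3 / l := by
        rw [h.hx]; field_simp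
      rw [hx3]
      field_simp
    calc 729 * (n : ℝ) ^ 3 * (1 / (n * x ^ 2 / 2) - 1 / max (e : ℝ) (n * x ^ 2 / 2))
        ≤ 729 * (n : ℝ) ^ 3 * (1 / (n * x ^ 2 / 2)) := by
          apply mul_le_mul_of_nonneg_left _ (by positivity)
          linarith
      _ = 729 * ((n : ℝ) ^ 3 * (1 / (n * x ^ 2 / 2))) := by ring
      _ = 1458 * (n * x / l) := by rw [e1]; ring
  unfold Psi
  nlinarith

lemma step_all (h : Big n l x z) (e : ℕ) (he : 0 < e) (H₁ H₂ : Finset (Finset (Fin n)))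
    (h3 : ∀ d ∈ H₁, d.card = 3) (h3' : ∀ d ∈ H₂, d.card = 3) (hc1 : H₁.card = e)
    (hc2 : H₂.card = e) :
    ∃ m, Common H₁ H₂ m ∧ Psi n x l (e - m) + 1 ≤ Psi n x l e := by
  have hn := h.npos
  have hnN : 0 < n := by exact_mod_cast hn
  have hl := h.lpos
  have hx := h.hx0
  have hxl := h.xl_37
  have he0 : (0 : ℝ) < e := by exact_mod_cast he
  -- generic facts about common sizes
  have hme : ∀ m, Common H₁ H₂ m → m ≤ e := by
    intro m hm
    obtain ⟨S, F, f, hP, hmF⟩ := hm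
    rw [← hc1]
    exact hmF.trans (card_le_card (fun d hd => (hP.2 d hd).2.1))
  have mono := fun (m : ℕ) => (⟨P1_mono (n * x / l) (Nat.sub_le e m),
    P2_mono h (Nat.sub_le e m), P3_mono h (Nat.sub_le e m), P4_mono h (Nat.sub_le e m)⟩ :
    P1 (n * x / l) (e - m) ≤ P1 (n * x / l) e ∧ P2 n x l (e - m) ≤ P2 n x l e ∧
    P3 n x l (e - m) ≤ P3 n x l e ∧ P4 n x (e - m) ≤ P4 n x e)
  by_cases r1 : (e : ℝ) ≤ n * x / l
  · -- range 1
    refine ⟨1, common_one h3 h3' (by omega) (by omega), ?_⟩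
    obtain ⟨_, m2, m3, m4⟩ := mono 1
    have h1 : P1 (n * x / l) (e - 1) + 1 ≤ P1 (n * x / l) e := by
      unfold P1
      have e1 : ((e - 1 : ℕ) : ℝ) = e - 1 := by
        rw [Nat.cast_sub he]; simp
      rw [min_eq_left r1, e1, min_eq_left (by linarith)]
      linarith
    unfold Psi
    linarith
  push Not at r1
  by_cases r2 : (e : ℝ) ≤ n * (x / l) ^ 2
  · -- range 2
    have h37 : 37 * n ≤ e := by
      have : ((37 * n : ℕ) : ℝ) ≤ (e : ℝ) := by
        push_cast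
        have e1 : (n : ℝ) * x / l = n * (x / l) := by ring
        rw [e1] at r1
        nlinarith
      exact_mod_cast this
    obtain ⟨m, hm1, hm2⟩ := gain2 hnN h3 h3' e hc1 hc2 h37
    refine ⟨m, hm1, ?_⟩
    obtain ⟨m1, _, m3, m4⟩ := mono m
    have hmle := hme m hm1
    have h1 : P2 n x l (e - m) + 1 ≤ P2 n x l e := by
      unfold P2
      have e1 : ((e - m : ℕ) : ℝ) = e - m := Nat.cast_sub hmle
      have hmR : (m : ℝ) ≤ e := by exact_mod_cast hmle
      have hmR0 : (0 : ℝ) ≤ m := Nat.cast_nonneg _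
      rw [min_eq_left r2, e1, min_eq_left (by linarith)]
      set w := √((e : ℝ) / n) with hw
      set w' := √(((e : ℝ) - m) / n) with hw'
      have hw2 : w ^ 2 = e / n := Real.sq_sqrt (by positivity)
      have hw'2 : w' ^ 2 = (e - m) / n := Real.sq_sqrt (div_nonneg (by linarith) hn.le)
      have hw0 : 0 < w := Real.sqrt_pos.mpr (by positivity)
      have hw'0 : 0 ≤ w' := Real.sqrt_nonneg _
      have hww : w' ≤ w := by
        apply Real.sqrt_le_sqrt
        apply div_le_div_of_nonneg_right _ hn.le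
        linarith
      have hdiff : (m : ℝ) = n * (w ^ 2 - w' ^ 2) := by
        rw [hw2, hw'2]; field_simp; ring
      have hm3 : (e : ℝ) ≤ 148 * n * m ^ 2 := by exact_mod_cast hm2
      have hwm : w ≤ 13 * m := by
        have : w ^ 2 ≤ (13 * m) ^ 2 := by
          rw [hw2, div_le_iff₀ hn]
          nlinarith [mul_nonneg hn.le (sq_nonneg (m : ℝ))]
        exact le_of_pow_le_pow_left₀ (by norm_num) (by positivity) this
      -- m = n (w-w')(w+w') ≤ 2 n w (w - w')
      have h5 : (m : ℝ) ≤ 2 * n * w * (w - w') := by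
        rw [hdiff]
        have : n * (w ^ 2 - w' ^ 2) = n * ((w - w') * (w + w')) := by ring
        rw [this]
        have h6 : (w - w') * (w + w') ≤ (w - w') * (2 * w) :=
          mul_le_mul_of_nonneg_left (by linarith) (by linarith)
        nlinarith
      have h7 : w * 1 ≤ w * (26 * n * (w - w')) := by
        calc w * 1 ≤ 13 * m := by linarith
          _ ≤ 13 * (2 * n * w * (w - w')) := by linarith
          _ = w * (26 * n * (w - w')) := by ring
      have h8 := le_of_mul_le_mul_left h7 hw0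
      have h9 : 26 * n * (w - w') = 26 * n * w - 26 * n * w' := by ring
      linarith
    unfold Psi
    linarith
  push Not at r2
  by_cases r3 : (e : ℝ) ≤ n * x ^ 2
  · -- range 3
    obtain ⟨m, hm1, hm2⟩ := gain3 h h3 h3' e hc1 hc2 r2.le r3
    refine ⟨m, hm1, ?_⟩
    obtain ⟨m1, m2, _, m4⟩ := mono m
    have hmle := hme m hm1
    have h1 : P3 n x l (e - m) + 1 ≤ P3 n x l e := by
      unfold P3
      have e1 : ((e - m : ℕ) : ℝ) = e - m := Nat.cast_sub hmle
      have hmR : (m : ℝ) ≤ e := by exact_mod_cast hmle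
      have hmR0 : (0 : ℝ) ≤ m := Nat.cast_nonneg _
      rw [min_eq_left r3, e1, min_eq_left (by linarith)]
      set a := √(√((e : ℝ) / n)) with ha
      set b := √(√(((e : ℝ) - m) / n)) with hb
      have ha4 : a ^ 4 = e / n := by
        have : a ^ 4 = (a ^ 2) ^ 2 := by ring
        rw [this, Real.sq_sqrt (Real.sqrt_nonneg _), Real.sq_sqrt (by positivity)]
      have hb4 : b ^ 4 = (e - m) / n := by
        have : b ^ 4 = (b ^ 2) ^ 2 := by ring
        rw [this, Real.sq_sqrt (Real.sqrt_nonneg _),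
          Real.sq_sqrt (div_nonneg (by linarith) hn.le)]
      have ha0 : 0 < a := Real.sqrt_pos.mpr (Real.sqrt_pos.mpr (by positivity))
      have hb0 : 0 ≤ b := Real.sqrt_nonneg _
      have hba : b ≤ a := by
        apply Real.sqrt_le_sqrt
        apply Real.sqrt_le_sqrt
        apply div_le_div_of_nonneg_right _ hn.le
        linarith
      have hdiff : (m : ℝ) = n * (a ^ 4 - b ^ 4) := by
        rw [ha4, hb4]; field_simp; ring
      have h4 : a ^ 4 - b ^ 4 ≤ 4 * a ^ 3 * (a - b) := by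
        have e2 : a ^ 4 - b ^ 4 = (a - b) * (a ^ 3 + a ^ 2 * b + a * b ^ 2 + b ^ 3) := by ring
        have e3 : a ^ 3 + a ^ 2 * b + a * b ^ 2 + b ^ 3 ≤ 4 * a ^ 3 := by
          have f1 : a ^ 2 * b ≤ a ^ 2 * a := mul_le_mul_of_nonneg_left hba (by positivity)
          have f2 : a * b ^ 2 ≤ a * a ^ 2 :=
            mul_le_mul_of_nonneg_left (pow_le_pow_left₀ hb0 hba 2) ha0.le
          have f3 : b ^ 3 ≤ a ^ 3 := pow_le_pow_left₀ hb0 hba 3
          nlinarith
        rw [e2]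
        calc (a - b) * (a ^ 3 + a ^ 2 * b + a * b ^ 2 + b ^ 3) ≤ (a - b) * (4 * a ^ 3) :=
              mul_le_mul_of_nonneg_left e3 (by linarith)
          _ = 4 * a ^ 3 * (a - b) := by ring
      have h5 : (m : ℝ) ≤ n * (4 * a ^ 3 * (a - b)) := by
        rw [hdiff]
        exact mul_le_mul_of_nonneg_left h4 hn.le
      -- l a^3 ≤ 10^11 √x m ≤ 10^11 √x n 4 a^3 (a-b)
      have hsx : 0 ≤ √x := Real.sqrt_nonneg _
      have h6 : a ^ 3 * l ≤ a ^ 3 * (4 * 10 ^ 11 * (n * √x) * (a - b)) := by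
        calc a ^ 3 * l = l * a ^ 3 := by ring
          _ ≤ 10 ^ 11 * √x * m := hm2
          _ ≤ 10 ^ 11 * √x * (n * (4 * a ^ 3 * (a - b))) :=
              mul_le_mul_of_nonneg_left h5 (by positivity)
          _ = a ^ 3 * (4 * 10 ^ 11 * (n * √x) * (a - b)) := by ring
      have h7 := le_of_mul_le_mul_left h6 (by positivity)
      have h8 : 1 ≤ 4 * 10 ^ 11 * (n * √x / l) * (a - b) := by
        have e4 : 4 * 10 ^ 11 * (n * √x / l) * (a - b)
            = (4 * 10 ^ 11 * (n * √x) * (a - b)) / l := by ring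
        rw [e4, le_div_iff₀ hl]
        linarith
      have h9 : 4 * 10 ^ 11 * (n * √x / l) * (a - b)
          = 4 * 10 ^ 11 * (n * √x / l) * a - 4 * 10 ^ 11 * (n * √x / l) * b := by ring
      linarith
    unfold Psi
    linarith
  push Not at r3
  · -- range 4
    obtain ⟨m, hm1, hm2⟩ := gain4 hnN h3 h3' e hc1 hc2
    refine ⟨m, hm1, ?_⟩
    obtain ⟨m1, m2, m3, _⟩ := mono m
    have hmle := hme m hm1
    have h1 : P4 n x (e - m) + 1 ≤ P4 n x e := by
      unfold P4
      have e1 : ((e - m : ℕ) : ℝ) = e - m := Nat.cast_sub hmle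
      have hmR : (m : ℝ) ≤ e := by exact_mod_cast hmle
      have hmR0 : (0 : ℝ) ≤ m := Nat.cast_nonneg _
      have hE0 : 0 < n * x ^ 2 / 2 := by positivity
      have hmax : max (e : ℝ) (n * x ^ 2 / 2) = e := max_eq_left (by linarith)
      rw [e1, hmax]
      have hm3 : (e : ℝ) * e ≤ 729 * n ^ 3 * m := by exact_mod_cast hm2
      rcases le_total (n * x ^ 2 / 2) ((e : ℝ) - m) with hle | hle
      · rw [max_eq_left hle]
        have hem : 0 < (e : ℝ) - m := lt_of_lt_of_le hE0 hle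
        have h5 : 1 ≤ 729 * (n : ℝ) ^ 3 * (1 / (e - m) - 1 / e) := by
          have e2 : 1 / ((e : ℝ) - m) - 1 / e = m / ((e - m) * e) := by
            field_simp; ring
          rw [e2, ← mul_div_assoc, le_div_iff₀ (by positivity)]
          have e3 : ((e : ℝ) - m) * e ≤ e * e := by nlinarith
          linarith
        linarith
      · rw [max_eq_right hle]
        have h5 : 1 ≤ 729 * (n : ℝ) ^ 3 * (1 / (n * x ^ 2 / 2) - 1 / e) := by
          have e2 : 1 / (e : ℝ) ≤ 1 / (n * x ^ 2) :=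
            one_div_le_one_div_of_le (by positivity) r3.le
          have e3 : 1 / (n * x ^ 2 / 2) = 2 * (1 / (n * x ^ 2)) := by field_simp
          have e4 : 1 / (n * x ^ 2) ≤ 1 / (n * x ^ 2 / 2) - 1 / e := by
            rw [e3]; linarith
          have e5 : (n : ℝ) * x ^ 2 ≤ n ^ 3 := by
            have := h.xn
            have e6 : x ^ 2 ≤ (n : ℝ) ^ 2 := pow_le_pow_left₀ hx.le this 2
            calc (n : ℝ) * x ^ 2 ≤ n * n ^ 2 := mul_le_mul_of_nonneg_left e6 hn.le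
              _ = n ^ 3 := by ring
          have e7 : 1 ≤ (n : ℝ) ^ 3 * (1 / (n * x ^ 2)) := by
            rw [mul_one_div, le_div_iff₀ (by positivity), one_mul]
            exact e5
          calc (1 : ℝ) ≤ (n : ℝ) ^ 3 * (1 / (n * x ^ 2)) := e7
            _ ≤ 729 * ((n : ℝ) ^ 3 * (1 / (n * x ^ 2))) := by linarith
            _ = 729 * (n : ℝ) ^ 3 * (1 / (n * x ^ 2)) := by ring
            _ ≤ _ := mul_le_mul_of_nonneg_left e4 (by positivity)
        have h6 : 729 * (n : ℝ) ^ 3 * (1 / (n * x ^ 2 / 2) - 1 / (n * x ^ 2 / 2)) = 0 := by ring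
        linarith
    unfold Psi
    linarith

theorem upper_of_big (h : Big n l x z) : (U 2 n 3 : ℝ) ≤ 10 ^ 12 * (n * x / l) :=
  U_le_of_potential (Psi n x l) (Psi_mono h) (Psi_zero h) (step_all h) _ (Psi_le h)

lemma eventually_big : ∀ᶠ n : ℕ in atTop,
    Big n (Real.log n) (((n : ℝ) * Real.log n) ^ (1 / 3 : ℝ)) ((n : ℝ) ^ (1 / 6000 : ℝ)) := by
  have h1 : ∀ᶠ n : ℕ in atTop, (10 : ℝ) ^ 6 ≤ (n : ℝ) ^ (1 / 6000 : ℝ) :=
    ((tendsto_rpow_atTop (by norm_num : (0 : ℝ) < 1 / 6000)).comp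
      tendsto_natCast_atTop_atTop).eventually_ge_atTop _
  have h2 : ∀ᶠ n : ℕ in atTop, (10 : ℝ) ^ 12 ≤ Real.log n :=
    (Real.tendsto_log_atTop.comp tendsto_natCast_atTop_atTop).eventually_ge_atTop _
  have h3 : ∀ᶠ n : ℕ in atTop, Real.log n ≤ (n : ℝ) ^ (1 / 2000 : ℝ) := by
    have := (isLittleO_log_rpow_atTop (by norm_num : (0 : ℝ) < 1 / 2000)).bound
      (show (0 : ℝ) < 1 by norm_num)
    have h4 := tendsto_natCast_atTop_atTop (R := ℝ) |>.eventually this
    filter_upwards [h4, h2] with n hn hn2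
    rw [Real.norm_of_nonneg (by linarith), Real.norm_of_nonneg (by positivity), one_mul] at hn
    exact hn
  filter_upwards [h1, h2, h3, eventually_gt_atTop 0] with n hn1 hn2 hn3 hn0
  have hnR : (0 : ℝ) < n := by exact_mod_cast hn0
  refine ⟨hn1, ?_, hn2, ?_, ?_, ?_, ?_⟩
  · calc Real.log n ≤ (n : ℝ) ^ (1 / 2000 : ℝ) := hn3
      _ = ((n : ℝ) ^ (1 / 6000 : ℝ)) ^ 3 := by
          rw [← Real.rpow_natCast, ← Real.rpow_mul hnR.le]
          norm_num
  · rw [← Real.rpow_natCast, ← Real.rpow_mul hnR.le]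
    norm_num
  · rw [Real.rpow_def_of_pos hnR]
    congr 1
    ring
  · have h0 : 0 ≤ (n : ℝ) * Real.log n := by
      apply mul_nonneg hnR.le; linarith
    rw [← Real.rpow_natCast, ← Real.rpow_mul h0]
    norm_num
  · apply Real.rpow_pos_of_pos
    apply mul_pos hnR; linarith

theorem upper_bound_eventually : ∀ᶠ n : ℕ in atTop,
    (U 2 n 3 : ℝ) ≤ 10 ^ 12 * ((n : ℝ) ^ (4 / 3 : ℝ) / (Real.log n) ^ (2 / 3 : ℝ)) := by
  filter_upwards [eventually_big] with n h
  have h1 := upper_of_big h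
  have hn := h.npos
  have hl := h.lpos
  have h2 : (n : ℝ) * ((n : ℝ) * Real.log n) ^ (1 / 3 : ℝ) / Real.log n
      = (n : ℝ) ^ (4 / 3 : ℝ) / (Real.log n) ^ (2 / 3 : ℝ) := by
    rw [Real.mul_rpow hn.le hl.le]
    have e1 : (n : ℝ) ^ (4 / 3 : ℝ) = n * (n : ℝ) ^ (1 / 3 : ℝ) := by
      rw [show (4 / 3 : ℝ) = 1 + 1 / 3 by norm_num, Real.rpow_add hn, Real.rpow_one]
    have e2 : Real.log n = (Real.log n) ^ (2 / 3 : ℝ) * (Real.log n) ^ (1 / 3 : ℝ) := by
      rw [← Real.rpow_add hl]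
      norm_num
    have hl1 : 0 < (Real.log n) ^ (1 / 3 : ℝ) := Real.rpow_pos_of_pos hl _
    have hl2 : 0 < (Real.log n) ^ (2 / 3 : ℝ) := Real.rpow_pos_of_pos hl _
    rw [e1, div_eq_div_iff hl.ne' hl2.ne']
    nth_rewrite 3 [e2]
    ring
  rw [h2] at h1
  exact h1

end Upper

end Pool.Agent.Lib.MP_9dddc4_co
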